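import Pool.Agent.KLE.Defs

/-!
# KLE row GE2: directions
-/

set_option autoImplicit false

open scoped BigOperators RealInnerProductSpace

namespace KLE

noncomputable section

open Classical

open Pool.Agent.KST (E IsCell Cells Verts Simple Pol pt PP Gen Star VF Low LowF hh Fn FF Ker
  Par Le sgn supp EE X D)
open WLP (SepB HypB Data)

private theorem GE2_aux {I : Type} [Fintype I] {n : ℕ} (b : I → E (n + 1)) (lam : I → ℝ)
    (hl : ∃ i, lam i ≠ 0) (hcard : Fintype.card I = n + 2) (hrel : ∑ i, lam i • b i = 0)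
    (huniq : ∀ μ : I → ℝ, ∑ i, μ i • b i = 0 → ∃ c : ℝ, ∀ i, μ i = c * lam i) :
    (∀ y : E (n + 1), (∀ i, ⟪b i, y⟫ = 0) → y = 0) ∧
      ∀ t : I → ℝ, ∑ i, lam i * t i = 0 → ∃ y : E (n + 1), ∀ i, ⟪b i, y⟫ = t i := by
  obtain ⟨i0, hi0⟩ := hl
  have hlam0 : lam ≠ 0 := fun h => hi0 (by rw [h]; rfl)
  let T : (I → ℝ) →ₗ[ℝ] E (n + 1) := Fintype.linearCombination ℝ b
  have hT : ∀ μ, T μ = ∑ i, μ i • b i := fun μ => Fintype.linearCombination_apply ℝ b μ
  have hker : LinearMap.ker T = Submodule.span ℝ {lam} := by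
    ext μ
    rw [LinearMap.mem_ker, hT, Submodule.mem_span_singleton]
    constructor
    · intro h
      obtain ⟨c, hc⟩ := huniq μ h
      exact ⟨c, by ext i; simp [hc i]⟩
    · rintro ⟨c, rfl⟩
      have : ∑ i, (c • lam) i • b i = c • ∑ i, lam i • b i := by
        rw [Finset.smul_sum]
        exact Finset.sum_congr rfl (fun i _ => by simp [smul_smul])
      rw [this, hrel, smul_zero]
  have hk1 : Module.finrank ℝ (LinearMap.ker T) = 1 := by
    rw [hker]; exact finrank_span_singleton hlam0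
  have hrn := LinearMap.finrank_range_add_finrank_ker T
  rw [hk1, Module.finrank_fintype_fun_eq_card, hcard] at hrn
  have hrange : LinearMap.range T = ⊤ := by
    apply Submodule.eq_top_of_finrank_eq
    rw [finrank_euclideanSpace_fin]
    omega
  have hinj : ∀ y : E (n + 1), (∀ i, ⟪b i, y⟫ = 0) → y = 0 := by
    intro y hy
    have hy' : y ∈ LinearMap.range T := by rw [hrange]; trivial
    obtain ⟨μ, hμ⟩ := hy'
    have : ⟪y, y⟫ = 0 := by
      have h1 : y = ∑ i, μ i • b i := by rw [← hT, hμ]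
      have h2 : ⟪∑ i, μ i • b i, y⟫ = 0 := by
        rw [sum_inner]
        apply Finset.sum_eq_zero
        intro i _
        rw [real_inner_smul_left, hy i, mul_zero]
      rw [← h1] at h2
      exact h2
    exact inner_self_eq_zero.1 this
  refine ⟨hinj, ?_⟩
  -- the map `y ↦ (⟪b i, y⟫)`
  let U : E (n + 1) →ₗ[ℝ] (I → ℝ) :=
    { toFun := fun y i => ⟪b i, y⟫
      map_add' := fun y z => by ext i; simp [inner_add_right]
      map_smul' := fun c y => by ext i; simp [real_inner_smul_right] }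
  have hU : ∀ y i, U y i = ⟪b i, y⟫ := fun y i => rfl
  have hUinj : LinearMap.ker U = ⊥ := by
    rw [LinearMap.ker_eq_bot']
    intro y hy
    exact hinj y (fun i => by rw [← hU, hy]; rfl)
  have hUr : Module.finrank ℝ (LinearMap.range U) = n + 1 := by
    have h := LinearMap.finrank_range_add_finrank_ker U
    rw [hUinj, finrank_bot, add_zero, finrank_euclideanSpace_fin] at h
    exact h
  let φ : (I → ℝ) →ₗ[ℝ] ℝ :=
    { toFun := fun t => ∑ i, lam i * t i
      map_add' := fun s t => by simp [mul_add, Finset.sum_add_distrib]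
      map_smul' := fun c t => by
        simp only [Pi.smul_apply, smul_eq_mul, RingHom.id_apply, Finset.mul_sum]
        exact Finset.sum_congr rfl (fun i _ => by ring) }
  have hφ : ∀ t, φ t = ∑ i, lam i * t i := fun t => rfl
  have hφr : LinearMap.range φ = ⊤ := by
    apply LinearMap.range_eq_top.2
    intro c
    refine ⟨fun i => if i = i0 then c / lam i0 else 0, ?_⟩
    rw [hφ]
    simp only [mul_ite, mul_zero, Finset.sum_ite_eq', Finset.mem_univ, if_true]
    field_simp
  have hφk : Module.finrank ℝ (LinearMap.ker φ) = n + 1 := by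
    have h := LinearMap.finrank_range_add_finrank_ker φ
    rw [hφr, finrank_top, Module.finrank_self, Module.finrank_fintype_fun_eq_card, hcard] at h
    omega
  have hle : LinearMap.range U ≤ LinearMap.ker φ := by
    rintro t ⟨y, rfl⟩
    rw [LinearMap.mem_ker, hφ]
    have : ∑ i, lam i * U y i = ⟪∑ i, lam i • b i, y⟫ := by
      rw [sum_inner]
      exact Finset.sum_congr rfl (fun i _ => by rw [real_inner_smul_left, hU])
    rw [this, hrel, inner_zero_left]
  have heq := Submodule.eq_of_le_of_finrank_eq hle (hUr.trans hφk.symm)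
  intro t ht
  have : t ∈ LinearMap.range U := by rw [heq]; exact ht
  obtain ⟨y, hy⟩ := this
  exact ⟨y, fun i => by rw [← hU, hy]⟩

/-- GE2: directions -/
theorem exists_dir {α : Type} [Fintype α] {d : ℕ} (a : α → E (d + 1)) {v : E (d + 1)}
    (lam : α → ℝ) (hlam : ∀ i, lam i ≠ 0 ↔ |⟪a i, v⟫| = 1)
    (huniq : ∀ μ : α → ℝ, (∀ i, |⟪a i, v⟫| ≠ 1 → μ i = 0) → ∑ i, μ i • a i = 0 →
        ∃ c : ℝ, ∀ i, μ i = c * (lam i * ⟪a i, v⟫)) (hsum : ∑ i, (lam i * ⟪a i, v⟫) • a i = 0)
    (hcard : (Finset.univ.filter (fun i => |⟪a i, v⟫| = 1)).card = d + 2)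
    (S : Finset α) (hS : ∀ i ∈ S, |⟪a i, v⟫| = 1) :
    (∃ y : E (d + 1), y ≠ 0 ∧ (∀ i ∈ S, ⟪a i, v⟫ * ⟪a i, y⟫ = 0) ∧
      ∀ i, i ∉ S → |⟪a i, v⟫| = 1 → ⟪a i, v⟫ * ⟪a i, y⟫ < 0) ↔
    (∃ i, i ∉ S ∧ 0 < lam i) ∧ (∃ i, i ∉ S ∧ lam i < 0) := by
  have hsq : ∀ i, |⟪a i, v⟫| = 1 → ⟪a i, v⟫ * ⟪a i, v⟫ = 1 := by
    intro i h
    rcases (abs_eq zero_le_one).1 h with h | h <;> rw [h] <;> norm_num
  have hlz : ∀ i, |⟪a i, v⟫| ≠ 1 → lam i = 0 := by
    intro i h
    by_contra h'
    exact h ((hlam i).1 h')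
  have hsumI : ∀ {M : Type} [AddCommMonoid M] (f : α → M), (∀ i, |⟪a i, v⟫| ≠ 1 → f i = 0) →
      ∑ i : {i : α // |⟪a i, v⟫| = 1}, f i.1 = ∑ i, f i := by
    intro M _ f hf
    rw [← Finset.sum_filter_add_sum_filter_not Finset.univ (fun i => |⟪a i, v⟫| = 1) f]
    rw [Finset.sum_eq_zero (s := Finset.univ.filter (fun i => ¬ |⟪a i, v⟫| = 1))
      (fun i hi => hf i (Finset.mem_filter.1 hi).2), add_zero]
    exact (Finset.sum_subtype _ (fun i => by simp) f).symm
  have hI : Fintype.card {i : α // |⟪a i, v⟫| = 1} = d + 2 := by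
    rw [Fintype.card_subtype]; exact hcard
  have haux := GE2_aux (I := {i : α // |⟪a i, v⟫| = 1})
    (fun i => ⟪a i.1, v⟫ • a i.1) (fun i => lam i.1) (by
      have : 0 < Fintype.card {i : α // |⟪a i, v⟫| = 1} := by omega
      obtain ⟨i⟩ := Fintype.card_pos_iff.1 this
      exact ⟨i, (hlam i.1).2 i.2⟩) hI (by
      have h := hsumI (fun i => (lam i * ⟪a i, v⟫) • a i)
        (fun i hi => by simp [hlz i hi])
      rw [hsum] at h
      rw [← h]
      exact Finset.sum_congr rfl (fun i _ => by simp [smul_smul])) (by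
      intro μ hμ
      let ν : α → ℝ := fun i => if h : |⟪a i, v⟫| = 1 then μ ⟨i, h⟩ * ⟪a i, v⟫ else 0
      have hν : ∀ i : {i : α // |⟪a i, v⟫| = 1}, ν i.1 = μ i * ⟪a i.1, v⟫ := by
        intro i
        simp only [ν, dif_pos i.2]
      have hν0 : ∀ i, |⟪a i, v⟫| ≠ 1 → ν i = 0 := by
        intro i hi
        simp only [ν, dif_neg hi]
      have h1 : ∑ i, ν i • a i = 0 := by
        rw [← hsumI (fun i => ν i • a i) (fun i hi => by simp [hν0 i hi]), ← hμ]
        exact Finset.sum_congr rfl (fun i _ => by rw [hν i, smul_smul])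
      obtain ⟨c, hc⟩ := huniq ν hν0 h1
      refine ⟨c, fun i => ?_⟩
      have h2 := hc i.1
      rw [hν i] at h2
      have h3 := hsq i.1 i.2
      calc μ i = μ i * (⟪a i.1, v⟫ * ⟪a i.1, v⟫) := by rw [h3, mul_one]
        _ = (μ i * ⟪a i.1, v⟫) * ⟪a i.1, v⟫ := by ring
        _ = c * lam i.1 * (⟪a i.1, v⟫ * ⟪a i.1, v⟫) := by rw [h2]; ring
        _ = c * lam i.1 := by rw [h3, mul_one])
  obtain ⟨hinj, hsurj⟩ := haux
  have hin : ∀ (i : {i : α // |⟪a i, v⟫| = 1}) (y : E (d + 1)),
      ⟪⟪a i.1, v⟫ • a i.1, y⟫ = ⟪a i.1, v⟫ * ⟪a i.1, y⟫ := by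
    intro i y
    exact real_inner_smul_left _ _ _
  constructor
  · rintro ⟨y, hy0, hyS, hyn⟩
    have hrel : ∑ i, lam i * (⟪a i, v⟫ * ⟪a i, y⟫) = 0 := by
      have h := congrArg (fun z => ⟪z, y⟫) hsum
      simp only [sum_inner, inner_zero_left, real_inner_smul_left] at h
      rw [← h]
      exact Finset.sum_congr rfl (fun i _ => by ring)
    have hex : ∃ i, i ∉ S ∧ |⟪a i, v⟫| = 1 := by
      by_contra hno
      push Not at hno
      apply hy0
      apply hinj
      intro i
      rw [hin]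
      have : i.1 ∈ S := by
        by_contra h'
        exact hno i.1 h' i.2
      exact hyS i.1 this
    obtain ⟨i1, hi1S, hi1⟩ := hex
    have hterm : ∀ i, i ∈ S → lam i * (⟪a i, v⟫ * ⟪a i, y⟫) = 0 := by
      intro i hi
      rw [hyS i hi, mul_zero]
    constructor
    · by_contra hno
      push Not at hno
      -- all lam ≤ 0 off S
      have hnn : ∀ i ∈ Finset.univ, 0 ≤ lam i * (⟪a i, v⟫ * ⟪a i, y⟫) := by
        intro i _
        by_cases hi : i ∈ S
        · exact (hterm i hi).ge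
        · by_cases ht : |⟪a i, v⟫| = 1
          · exact mul_nonneg_of_nonpos_of_nonpos (hno i hi) (hyn i hi ht).le
          · rw [hlz i ht, zero_mul]
      have h0 := (Finset.sum_eq_zero_iff_of_nonneg hnn).1 hrel i1 (Finset.mem_univ _)
      rcases mul_eq_zero.1 h0 with h | h
      · exact (hlam i1).2 hi1 h
      · exact (hyn i1 hi1S hi1).ne h
    · by_contra hno
      push Not at hno
      have hnn : ∀ i ∈ Finset.univ, lam i * (⟪a i, v⟫ * ⟪a i, y⟫) ≤ 0 := by
        intro i _
        by_cases hi : i ∈ S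
        · exact (hterm i hi).le
        · by_cases ht : |⟪a i, v⟫| = 1
          · exact mul_nonpos_of_nonneg_of_nonpos (hno i hi) (hyn i hi ht).le
          · rw [hlz i ht, zero_mul]
      have h0 := (Finset.sum_eq_zero_iff_of_nonpos hnn).1 hrel i1 (Finset.mem_univ _)
      rcases mul_eq_zero.1 h0 with h | h
      · exact (hlam i1).2 hi1 h
      · exact (hyn i1 hi1S hi1).ne h
  · rintro ⟨⟨ip, hipS, hip⟩, ⟨im, himS, him⟩⟩
    let P : ℝ := ∑ i ∈ Finset.univ.filter (fun i => i ∉ S ∧ 0 < lam i), lam i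
    let Q : ℝ := ∑ i ∈ Finset.univ.filter (fun i => i ∉ S ∧ lam i < 0), - lam i
    have hP : 0 < P := Finset.sum_pos (fun i hi => (Finset.mem_filter.1 hi).2.2)
      ⟨ip, Finset.mem_filter.2 ⟨Finset.mem_univ _, hipS, hip⟩⟩
    have hQ : 0 < Q := Finset.sum_pos
      (fun i hi => neg_pos.2 (Finset.mem_filter.1 hi).2.2)
      ⟨im, Finset.mem_filter.2 ⟨Finset.mem_univ _, himS, him⟩⟩
    let t : α → ℝ := fun i => if i ∈ S then 0 else if 0 < lam i then -Q else -P
    have ht : ∑ i, lam i * t i = 0 := by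
      have h1 : ∀ i, lam i * t i =
          (if i ∉ S ∧ 0 < lam i then lam i * (-Q) else 0) +
          (if i ∉ S ∧ lam i < 0 then (-lam i) * P else 0) := by
        intro i
        by_cases hi : i ∈ S
        · simp [t, hi]
        · rcases lt_trichotomy (lam i) 0 with h | h | h
          · have h' : ¬ 0 < lam i := not_lt.2 h.le
            simp only [t, hi, if_false, h', h, not_false_eq_true, true_and, if_true]
            ring
          · simp [t, h]
          · have h' : ¬ lam i < 0 := not_lt.2 h.le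
            simp only [t, hi, if_false, h', h, not_false_eq_true, true_and, if_true]
            ring
      simp only [h1]
      rw [Finset.sum_add_distrib, ← Finset.sum_filter, ← Finset.sum_filter, ← Finset.sum_mul,
        ← Finset.sum_mul]
      change P * (-Q) + Q * P = 0
      ring
    obtain ⟨y, hy⟩ := hsurj (fun i => t i.1) (by
      have h := hsumI (fun i => lam i * t i) (fun i hi => by simp [hlz i hi])
      rw [ht] at h
      exact h)
    have hy' : ∀ i, |⟪a i, v⟫| = 1 → ⟪a i, v⟫ * ⟪a i, y⟫ = t i := by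
      intro i hi
      rw [← hin ⟨i, hi⟩ y]
      exact hy ⟨i, hi⟩
    refine ⟨y, ?_, ?_, ?_⟩
    · rintro rfl
      have h := hy' ip ((hlam ip).1 hip.ne')
      rw [inner_zero_right, mul_zero] at h
      simp only [t, hipS, if_false, hip, if_true] at h
      linarith
    · intro i hi
      rw [hy' i (hS i hi)]
      simp [t, hi]
    · intro i hi ht1
      rw [hy' i ht1]
      simp only [t, hi, if_false]
      split_ifs <;> linarith

end

end KLE
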