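import Pool.Agent.KLE.Defs
import Pool.Agent.KST.N1

/-!
# KLE row GE3: private circuits
-/

set_option autoImplicit false

open scoped BigOperators RealInnerProductSpace

namespace KLE

noncomputable section

open Classical

open Pool.Agent.KST (E IsCell Cells Verts Simple Pol pt PP Gen Star VF Low LowF hh Fn FF Ker
  Par Le sgn supp EE X D n1NS)
open WLP (SepB HypB Data)

theorem ge3_extreme {α : Type} [Fintype α] {d : ℕ} (a : α → E (d + 1)) {v w : E (d + 1)}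
    (hv : v ∈ Pol a) (hve : v ∈ Set.extremePoints ℝ (Pol a)) (hw : w ∈ Pol a)
    (h : ∀ i, |⟪a i, v⟫| = 1 → ⟪a i, w⟫ = ⟪a i, v⟫) : w = v := by
  have hev : ∀ᶠ ε : ℝ in nhdsWithin 0 (Set.Ioi 0), ∀ i, |⟪a i, v⟫| ≠ 1 →
      2 * ε ≤ 1 - |⟪a i, v⟫| := by
    refine Filter.eventually_all.2 (fun i => ?_)
    by_cases hi : |⟪a i, v⟫| = 1
    · exact Filter.Eventually.of_forall (fun ε hn => absurd hi hn)
    · have hlt : |⟪a i, v⟫| < 1 := lt_of_le_of_ne (hv i) hi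
      have h1 : Set.Ioo (0 : ℝ) ((1 - |⟪a i, v⟫|) / 2) ∈ nhdsWithin (0 : ℝ) (Set.Ioi 0) :=
        Ioo_mem_nhdsGT (by linarith)
      filter_upwards [h1] with ε hε _
      have := hε.2
      linarith
  obtain ⟨ε, hε, hε0⟩ := (hev.and self_mem_nhdsWithin).exists
  have hε0' : (0 : ℝ) < ε := hε0
  have hz : v - ε • (w - v) ∈ Pol a := by
    intro i
    have e1 : ⟪a i, v - ε • (w - v)⟫ = ⟪a i, v⟫ - ε * (⟪a i, w⟫ - ⟪a i, v⟫) := by
      rw [inner_sub_right, inner_smul_right, inner_sub_right]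
    rw [e1]
    by_cases hi : |⟪a i, v⟫| = 1
    · rw [h i hi, sub_self, mul_zero, sub_zero, hi]
    · have h2 := hε i hi
      have h3 := abs_le.1 (hw i)
      have h4 := abs_le.1 (hv i)
      have h5 : |⟪a i, v⟫| + 2 * ε ≤ 1 := by linarith
      rw [abs_le]
      have h6 := le_abs_self ⟪a i, v⟫
      have h7 := neg_abs_le ⟪a i, v⟫
      constructor <;> nlinarith
  have hseg : v ∈ openSegment ℝ (v - ε • (w - v)) w := by
    refine ⟨1 / (1 + ε), ε / (1 + ε), by positivity, by positivity, ?_, ?_⟩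
    · field_simp
    · have h1 : (1 + ε) ≠ 0 := by positivity
      have h2 : (1 / (1 + ε)) • (v - ε • (w - v)) + (ε / (1 + ε)) • w
          = ((1 / (1 + ε)) * (1 + ε)) • v + ((ε / (1 + ε)) - (1 / (1 + ε)) * ε) • w := by
        module
      rw [h2]
      have h3 : (1 / (1 + ε)) * (1 + ε) = 1 := by field_simp
      have h4 : (ε / (1 + ε)) - (1 / (1 + ε)) * ε = 0 := by
        field_simp
        ring
      rw [h3, h4, one_smul, zero_smul, add_zero]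
  exact ((mem_extremePoints.1 hve).2 _ hz _ hw hseg).2

/-- GE3: private circuits -/
theorem private_circ {α : Type} [Fintype α] {d : ℕ} (a : α → E (d + 1)) {v w : E (d + 1)}
    (hv : v ∈ n1NS a) (hve : v ∈ Set.extremePoints ℝ (Pol a)) (hw : w ∈ Pol a)
    (lam : α → ℝ) (hlam : ∀ i, lam i ≠ 0 ↔ |⟪a i, v⟫| = 1)
    (hsum : ∑ i, (lam i * ⟪a i, v⟫) • a i = 0) (h0 : ∑ i, lam i = 0)
    (h : ∀ i, 0 < lam i → ⟪a i, w⟫ = ⟪a i, v⟫) : w = v := by
  apply ge3_extreme a hv.1 hve hw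
  have h1 : ∑ i, lam i * ⟪a i, v⟫ * ⟪a i, w⟫ = 0 := by
    have h2 : ⟪∑ i, (lam i * ⟪a i, v⟫) • a i, w⟫ = 0 := by rw [hsum, inner_zero_left]
    rw [sum_inner] at h2
    simpa [real_inner_smul_left] using h2
  have h2 : ∑ i, lam i * (⟪a i, v⟫ * ⟪a i, w⟫ - 1) = 0 := by
    have : ∑ i, lam i * (⟪a i, v⟫ * ⟪a i, w⟫ - 1) =
        ∑ i, lam i * ⟪a i, v⟫ * ⟪a i, w⟫ - ∑ i, lam i := by
      rw [← Finset.sum_sub_distrib]
      apply Finset.sum_congr rfl
      intro i _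
      ring
    rw [this, h1, h0, sub_zero]
  have hsq : ∀ i, |⟪a i, v⟫| = 1 → ⟪a i, v⟫ * ⟪a i, v⟫ = 1 := by
    intro i hi
    rw [← abs_mul_abs_self, hi, one_mul]
  have hle : ∀ i, ⟪a i, v⟫ * ⟪a i, w⟫ ≤ 1 := by
    intro i
    have h3 := hv.1 i
    have h4 := hw i
    calc ⟪a i, v⟫ * ⟪a i, w⟫ ≤ |⟪a i, v⟫ * ⟪a i, w⟫| := le_abs_self _
      _ = |⟪a i, v⟫| * |⟪a i, w⟫| := abs_mul _ _
      _ ≤ 1 * 1 := mul_le_mul h3 h4 (abs_nonneg _) zero_le_one
      _ = 1 := one_mul 1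
  have hnn : ∀ i ∈ (Finset.univ : Finset α), 0 ≤ lam i * (⟪a i, v⟫ * ⟪a i, w⟫ - 1) := by
    intro i _
    rcases lt_trichotomy (lam i) 0 with h3 | h3 | h3
    · have := hle i
      nlinarith
    · rw [h3, zero_mul]
    · have h4 : |⟪a i, v⟫| = 1 := (hlam i).1 (ne_of_gt h3)
      rw [h i h3, hsq i h4, sub_self, mul_zero]
  have hz := (Finset.sum_eq_zero_iff_of_nonneg hnn).1 h2
  intro i hi
  have h3 := hz i (Finset.mem_univ i)
  have h4 : lam i ≠ 0 := (hlam i).2 hi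
  have h5 : ⟪a i, v⟫ * ⟪a i, w⟫ = 1 := by
    rcases mul_eq_zero.1 h3 with h6 | h6
    · exact absurd h6 h4
    · linarith
  have h6 := hsq i hi
  have h7 : ⟪a i, v⟫ * (⟪a i, w⟫ - ⟪a i, v⟫) = 0 := by linarith
  rcases mul_eq_zero.1 h7 with h8 | h8
  · rw [h8, zero_mul] at h6
    exact absurd h6 zero_ne_one
  · linarith

end

end KLE
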