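import Pool.Agent.KLE.Defs

/-! Row X12 of board te_modules: the shift operators on power functions. -/

set_option autoImplicit false

open scoped BigOperators RealInnerProductSpace

namespace KLE

noncomputable section

open Classical

open Pool.Agent.KST (Fn X Par)

private theorem X12_upd {ι : Type} [Fintype ι] (σ : ι → SignType) (lam : ι → ℝ) (q : ℕ) (l : ι)
    (e : ι → ℤ) (c : ℤ) (s : SignType) (hs : s ≠ 0) (hc : c.natAbs = (e l).natAbs + 1)
    (hsc : SignType.sign c = s) (he : e l ≠ 0 → SignType.sign (e l) = s) :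
    pw σ lam (q + 1) (Function.update e l c) =
      if σ l = s then lam l * pw σ lam q e else 0 := by
  have h1 : ∑ k, ((Function.update e l c) k).natAbs = ∑ k, (e k).natAbs + 1 := by
    rw [← Finset.add_sum_erase _ _ (Finset.mem_univ l),
      ← Finset.add_sum_erase _ (fun k => (e k).natAbs) (Finset.mem_univ l)]
    have : ∑ x ∈ Finset.univ.erase l, ((Function.update e l c) x).natAbs =
        ∑ x ∈ Finset.univ.erase l, (e x).natAbs :=
      Finset.sum_congr rfl fun x hx => by
        rw [Function.update_of_ne (Finset.ne_of_mem_erase hx)]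
    rw [this, Function.update_self, hc]
    ring
  have h2 : ∏ k, lam k ^ ((Function.update e l c) k).natAbs =
      lam l * ∏ k, lam k ^ (e k).natAbs := by
    rw [← Finset.mul_prod_erase _ _ (Finset.mem_univ l),
      ← Finset.mul_prod_erase _ (fun k => lam k ^ (e k).natAbs) (Finset.mem_univ l)]
    have : ∏ x ∈ Finset.univ.erase l, lam x ^ ((Function.update e l c) x).natAbs =
        ∏ x ∈ Finset.univ.erase l, lam x ^ (e x).natAbs :=
      Finset.prod_congr rfl fun x hx => by
        rw [Function.update_of_ne (Finset.ne_of_mem_erase hx)]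
    rw [this, Function.update_self, hc, pow_succ]
    ring
  have hc0 : c ≠ 0 := by
    intro h
    rw [h] at hsc
    exact hs (by rw [← hsc]; simp)
  by_cases hσ : σ l = s
  · rw [if_pos hσ]
    unfold pw
    rw [h1, h2]
    have h3 : (∀ k, (Function.update e l c) k ≠ 0 →
        SignType.sign ((Function.update e l c) k) = σ k) ↔
        ∀ k, e k ≠ 0 → SignType.sign (e k) = σ k := by
      constructor
      · intro h k hk
        by_cases hkl : k = l
        · subst hkl
          rw [he hk, hσ]
        · have := h k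
          rw [Function.update_of_ne hkl] at this
          exact this hk
      · intro h k hk
        by_cases hkl : k = l
        · subst hkl
          rw [Function.update_self, hsc, hσ]
        · rw [Function.update_of_ne hkl] at hk ⊢
          exact h k hk
    by_cases hP : ∑ k, (e k).natAbs = q ∧ ∀ k, e k ≠ 0 → SignType.sign (e k) = σ k
    · rw [if_pos hP, if_pos ⟨by rw [hP.1], h3.2 hP.2⟩]
    · rw [if_neg hP, if_neg (fun h => hP ⟨Nat.add_right_cancel h.1, h3.1 h.2⟩), mul_zero]
  · rw [if_neg hσ]
    unfold pw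
    rw [if_neg]
    rintro ⟨_, h⟩
    have := h l
    rw [Function.update_self] at this
    exact hσ (by rw [← this hc0, hsc])

private theorem X12_zero {ι : Type} [Fintype ι] (σ : ι → SignType) (lam : ι → ℝ) (q : ℕ) (l : ι)
    (e : ι → ℤ) (he : e l ≠ 0) (h : SignType.sign (e l) ≠ σ l) : pw σ lam q e = 0 := by
  unfold pw
  rw [if_neg]
  rintro ⟨_, h'⟩
  exact h (h' l he)

/-- X1 -/
theorem X_pw {ι : Type} [Fintype ι] (σ : ι → SignType) (lam : ι → ℝ) (q : ℕ) (l : ι) :
    X l (pw σ lam (q + 1)) = (((σ l : SignType) : ℝ) * lam l) • pw σ lam q := by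
  funext e
  show (if 0 ≤ e l then pw σ lam (q + 1) (Function.update e l (e l + 1)) else 0) -
    (if e l ≤ 0 then pw σ lam (q + 1) (Function.update e l (e l - 1)) else 0) =
    (((σ l : SignType) : ℝ) * lam l) * pw σ lam q e
  rcases lt_trichotomy (e l) 0 with h | h | h
  · rw [if_neg (by omega), if_pos h.le,
      X12_upd σ lam q l e (e l - 1) (-1) (by decide) (by omega)
        (sign_neg (by omega)) (fun _ => sign_neg h)]
    split_ifs with hσ
    · rw [hσ]; simp
    · rw [X12_zero σ lam q l e h.ne (by rw [sign_neg h]; exact fun h => hσ h.symm)]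
      simp
  · rw [if_pos h.ge, if_pos h.le,
      X12_upd σ lam q l e (e l - 1) (-1) (by decide) (by omega)
        (sign_neg (by omega)) (fun h' => absurd h h'),
      X12_upd σ lam q l e (e l + 1) 1 (by decide) (by omega)
        (sign_pos (by omega)) (fun h' => absurd h h')]
    rcases hσ : σ l with _ | _ | _
    · simp
    · simp
    · simp
  · rw [if_pos h.le, if_neg (by omega),
      X12_upd σ lam q l e (e l + 1) 1 (by decide) (by omega)
        (sign_pos (by omega)) (fun _ => sign_pos h)]
    split_ifs with hσ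
    · rw [hσ]; simp
    · rw [X12_zero σ lam q l e h.ne' (by rw [sign_pos h]; exact fun h => hσ h.symm)]
      simp

/-- X2 -/
theorem pw_neg {ι : Type} [Fintype ι] (σ : ι → SignType) (lam : ι → ℝ) (q : ℕ) (e : ι → ℤ) :
    pw (-σ) lam q e = pw σ lam q (-e) := by
  unfold pw
  have h : (∀ l, e l ≠ 0 → SignType.sign (e l) = (-σ) l) ↔
      ∀ l, (-e) l ≠ 0 → SignType.sign ((-e) l) = σ l := by
    refine forall_congr' fun l => ?_
    rw [Pi.neg_apply, Pi.neg_apply, Left.sign_neg, neg_ne_zero, neg_eq_iff_eq_neg]
  have h1 : ∑ l, ((-e) l).natAbs = ∑ l, (e l).natAbs := by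
    simp only [Pi.neg_apply, Int.natAbs_neg]
  have h2 : ∏ l, lam l ^ ((-e) l).natAbs = ∏ l, lam l ^ (e l).natAbs := by
    simp only [Pi.neg_apply, Int.natAbs_neg]
  by_cases hP : ∑ l, (e l).natAbs = q ∧ ∀ l, e l ≠ 0 → SignType.sign (e l) = (-σ) l
  · rw [if_pos hP, if_pos ⟨h1.trans hP.1, h.1 hP.2⟩, h2]
  · rw [if_neg hP, if_neg (fun h' => hP ⟨h1.symm.trans h'.1, h.2 h'.2⟩)]

end

end KLE
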