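import Pool.Agent.KLE.K1
import Pool.Agent.KLE.X12
import Pool.Agent.KST.A2b

/-! KLE rows EO2, EO3. -/

set_option autoImplicit false

open scoped BigOperators RealInnerProductSpace

namespace KLE

noncomputable section

open Classical

open Pool.Agent.KST (E IsCell Cells Verts Simple Pol pt PP Gen Star VF Low LowF hh Fn FF Ker
  Par Le sgn supp EE X D)

/-- EO2 (uses K1) -/
theorem odd_le_sp {ι : Type} [Fintype ι] {d : ℕ} {b : ι → E (d + 1)} (hS : Simple b)
    {J : Finset ι} {K : ι → CapD ι} (hF : Fam b J K) {c q : ℕ} (hq : q ≤ c) :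
    Module.finrank ℝ ↥(VV K (TT J K c) q ⊓ Par ι (-1)) ≤ sp b J q := by
  have h0 : FiniteDimensional ℝ (FF (C0 b J) q) := Pool.Agent.KST.FF_fin _ _
  have h1 : FiniteDimensional ℝ ↥(FF (C0 b J) q ⊓ Ker b) :=
    Submodule.finiteDimensional_inf_left _ _
  have h2 : FiniteDimensional ℝ ↥(FF (C0 b J) q ⊓ Ker b ⊓ Par ι (-1)) :=
    Submodule.finiteDimensional_inf_left _ _
  refine Submodule.finrank_mono (inf_le_inf_right _ (Submodule.span_le.2 ?_))
  rintro f ⟨j, hj, hf⟩
  unfold TT at hj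
  rw [Finset.mem_filter] at hj
  have h3 := pw_mem hS hF hj.1 (hq.trans hj.2)
  rcases hf with rfl | rfl
  · exact h3.1
  · exact h3.2

/-- EO3 (uses X2, K1) -/
theorem sp_one_pos {ι : Type} [Fintype ι] {d : ℕ} {b : ι → E (d + 1)} (hS : Simple b)
    {J : Finset ι} {K : ι → CapD ι} (hF : Fam b J K) {j : ι} (hj : j ∈ J) (ha : 1 ≤ (K j).a) :
    1 ≤ sp b J 1 := by
  have h0 : FiniteDimensional ℝ (FF (C0 b J) 1) := Pool.Agent.KST.FF_fin _ _
  have h1 : FiniteDimensional ℝ ↥(FF (C0 b J) 1 ⊓ Ker b) :=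
    Submodule.finiteDimensional_inf_left _ _
  have h2 : FiniteDimensional ℝ ↥(FF (C0 b J) 1 ⊓ Ker b ⊓ Par ι (-1)) :=
    Submodule.finiteDimensional_inf_left _ _
  have hc := hF.cap j hj
  obtain ⟨h3, h4⟩ := pw_mem hS hF hj ha
  set f : Fn ι := pw (K j).σ (K j).lam 1 - pw (-(K j).σ) (K j).lam 1 with hf
  have h5 : f ∈ FF (C0 b J) 1 ⊓ Ker b := sub_mem h3 h4
  have h6 : f ∈ Par ι (-1) := by
    intro e
    simp only [hf, Pi.sub_apply, pw_neg]
    rw [neg_neg]
    ring
  -- a nonzero value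
  obtain ⟨l, hl⟩ : ∃ l, (K j).σ l ≠ 0 := by
    by_contra hno
    push Not at hno
    have h7 : supp (K j).σ = ∅ := by
      unfold Pool.Agent.KST.supp
      rw [Finset.filter_eq_empty_iff]
      intro x _ hx
      exact hx (hno x)
    have := hc.hcard
    rw [h7] at this
    simp at this
  have hlam : (K j).lam l ≠ 0 := (hc.hlam l).2 hl
  set e : ι → ℤ := Pi.single l (((K j).σ l : SignType) : ℤ) with he
  have hel : e l = (((K j).σ l : SignType) : ℤ) := by rw [he, Pi.single_eq_same]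
  have hel' : ∀ l', l' ≠ l → e l' = 0 := fun l' h => by rw [he, Pi.single_eq_of_ne h]
  have habs : (e l).natAbs = 1 := by
    rw [hel]
    revert hl
    cases (K j).σ l <;> simp
  have hsgn : SignType.sign (e l) = (K j).σ l := by
    rw [hel]
    cases (K j).σ l <;> rfl
  have hsum : ∑ l', (e l').natAbs = 1 := by
    rw [Finset.sum_eq_single l (fun l' _ h => by rw [hel' l' h]; rfl)
      (fun h => absurd (Finset.mem_univ _) h), habs]
  have hval1 : pw (K j).σ (K j).lam 1 e = (K j).lam l := by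
    unfold pw
    rw [if_pos]
    · rw [Finset.prod_eq_single l (fun l' _ h => by rw [hel' l' h]; simp)
        (fun h => absurd (Finset.mem_univ _) h), habs, pow_one]
    · refine ⟨hsum, fun l' h' => ?_⟩
      by_cases hll : l' = l
      · subst hll
        exact hsgn
      · exact absurd (hel' l' hll) h'
  have hval2 : pw (-(K j).σ) (K j).lam 1 e = 0 := by
    unfold pw
    rw [if_neg]
    rintro ⟨-, h7⟩
    have h8 := h7 l (by intro h0; rw [h0] at habs; simp at habs)
    rw [hsgn, Pi.neg_apply] at h8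
    revert hl h8
    cases (K j).σ l <;> simp
  have hne : f ≠ 0 := by
    intro h0
    have h7 : f e = 0 := by rw [h0]; rfl
    rw [hf, Pi.sub_apply, hval1, hval2, sub_zero] at h7
    exact hlam h7
  have h8 : (⟨f, ⟨h5, h6⟩⟩ : ↥(FF (C0 b J) 1 ⊓ Ker b ⊓ Par ι (-1))) ≠ 0 := by
    intro h0
    exact hne (congrArg Subtype.val h0)
  have h9 : 0 < Module.finrank ℝ ↥(FF (C0 b J) 1 ⊓ Ker b ⊓ Par ι (-1)) :=
    Module.finrank_pos_iff_exists_ne_zero.2 ⟨_, h8⟩
  exact h9

end

end KLE
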