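import Pool.Agent.KLE.X12
import Pool.Agent.KST.A2b

/-!
# Row K1: the power functions of a cap lie in the kernel space outside the caps
(note: /team-store/KAL_helper29.md)
-/

set_option autoImplicit false

open scoped BigOperators RealInnerProductSpace

namespace KLE

noncomputable section

open Classical

open Pool.Agent.KST (E IsCell Cells Verts Simple Pol pt PP Gen Star VF Low LowF hh Fn FF Ker
  Par Le sgn supp EE X D)

/-- the cells outside the caps are symmetric -/
theorem k1_C0_neg {ι : Type} [Fintype ι] {d : ℕ} {b : ι → E (d + 1)} {J : Finset ι} :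
    ∀ s ∈ C0 b J, -s ∈ C0 b J := by
  intro s hs
  have h1 := (Finset.mem_filter.mp hs).1
  have h2 := (Finset.mem_filter.mp hs).2
  refine Finset.mem_filter.mpr ⟨Pool.Agent.KST.neg_mem_cells h1, fun j hj => ?_⟩
  rw [Pi.neg_apply, h2 j hj, neg_zero]

/-- a vector with small support below the signs of a cap is a cell -/
theorem k1_cell {ι : Type} [Fintype ι] {d : ℕ} {b : ι → E (d + 1)} (hS : Simple b)
    {j : ι} {K : CapD ι} (hc : IsCap b j K) (s : ι → SignType)
    (hs : ∀ l, s l ≠ 0 → s l = K.σ l) (hcard : (supp s).card ≤ K.a) : s ∈ Cells b := by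
  have hsj : s j = 0 := by
    by_contra h
    exact h ((hs j h).trans hc.hj)
  set t := Function.update s j 1 with ht
  have htj : t j = 1 := Function.update_self _ _ _
  have htl : ∀ l, l ≠ j → t l = s l := fun l hl => Function.update_of_ne hl _ _
  have hjs : j ∉ supp K.σ := by simp [supp, hc.hj]
  have hsupp : ∀ l, l ≠ j → l ∈ supp t → l ∈ supp s := by
    intro l hl h
    simp only [supp, Finset.mem_filter, Finset.mem_univ, true_and] at h ⊢
    rwa [htl l hl] at h
  have htC : t ∈ Cells b := by
    refine (hc.hcells t htj).mpr ⟨?_, ?_, ?_⟩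
    · intro l hl h
      rw [htl l hl] at h ⊢
      exact hs l h
    · intro h
      have h1 : K.I ⊆ supp s := fun l hl => hsupp l (fun h => hjs (hc.hI (h ▸ hl))) (h hl)
      have h2 := Finset.card_le_card h1
      rw [hc.hIa] at h2
      omega
    · intro h
      have h1 : supp K.σ \ K.I ⊆ supp s := fun l hl =>
        hsupp l (fun h => hjs (h ▸ (Finset.mem_sdiff.mp hl).1)) (h hl)
      have h2 := Finset.card_le_card h1
      rw [Finset.card_sdiff_of_subset hc.hI, hc.hcard, hc.hIa] at h2
      have := hc.haD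
      omega
  refine Pool.Agent.KST.cells_down hS htC (fun l hl => ?_)
  exact htl l (fun h => hl (h ▸ hsj))

/-- K1 -/
theorem pw_mem {ι : Type} [Fintype ι] {d : ℕ} {b : ι → E (d + 1)} (hS : Simple b)
    {J : Finset ι} {K : ι → CapD ι} (hF : Fam b J K) {j : ι} (hj : j ∈ J) {q : ℕ}
    (hq : q ≤ (K j).a) : pw (K j).σ (K j).lam q ∈ FF (C0 b J) q ⊓ Ker b ∧
      pw (-(K j).σ) (K j).lam q ∈ FF (C0 b J) q ⊓ Ker b := by
  have hc := hF.cap j hj
  have hFF : pw (K j).σ (K j).lam q ∈ FF (C0 b J) q := by
    intro e he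
    by_contra hne
    refine he ?_
    have hcond : (∑ l, (e l).natAbs = q) ∧ ∀ l, e l ≠ 0 → SignType.sign (e l) = (K j).σ l := by
      by_contra hcon
      exact hne (by rw [pw, if_neg hcon])
    obtain ⟨h1, h2⟩ := hcond
    have hle : ∀ l, (e l).natAbs ≤ q := by
      intro l
      rw [← h1]
      exact Finset.single_le_sum (f := fun l => (e l).natAbs) (fun _ _ => Nat.zero_le _)
        (Finset.mem_univ l)
    refine Finset.mem_filter.mpr ⟨?_, h1, ?_⟩
    · rw [Fintype.mem_piFinset]
      intro l
      have := hle l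
      rw [Finset.mem_Icc]
      omega
    · have hs : ∀ l, sgn e l ≠ 0 → sgn e l = (K j).σ l := by
        intro l hl
        refine h2 l (fun h => hl ?_)
        simp [sgn, h]
      have hcard : (supp (sgn e)).card ≤ q := by
        rw [← h1]
        have h3 : (supp (sgn e)).card = ∑ l ∈ supp (sgn e), 1 := by simp
        rw [h3]
        refine le_trans (Finset.sum_le_sum (f := fun _ => 1) (g := fun l => (e l).natAbs) ?_)
          (Finset.sum_le_sum_of_subset (Finset.subset_univ _))
        intro l hl
        have hl' : sgn e l ≠ 0 := by simpa [supp] using hl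
        have : e l ≠ 0 := fun h => hl' (by simp [sgn, h])
        exact Int.natAbs_pos.mpr this
      refine Finset.mem_filter.mpr ⟨k1_cell hS hc _ hs (le_trans hcard hq), fun j' hj' => ?_⟩
      by_contra h
      exact h ((hs j' h).trans (hF.out j hj j' hj'))
  have hKer : pw (K j).σ (K j).lam q ∈ Ker b := by
    rw [Pool.Agent.KST.mem_Ker]
    intro y
    rcases q with _ | q
    · exact Pool.Agent.KST.D_FF_zero (C0 b J) b y _ hFF
    · funext e
      rw [Pool.Agent.KST.D_apply]
      have h1 : ∀ l, ⟪b l, y⟫ * X l (pw (K j).σ (K j).lam (q + 1)) e =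
          ⟪((K j).lam l * (((K j).σ l : SignType) : ℝ)) • b l, y⟫ *
            pw (K j).σ (K j).lam q e := by
        intro l
        rw [X_pw, real_inner_smul_left, Pi.smul_apply, smul_eq_mul]
        ring
      simp only [h1]
      rw [← Finset.sum_mul, ← sum_inner, hc.hrel, inner_zero_left, zero_mul]
      rfl
  refine ⟨⟨hFF, hKer⟩, ?_⟩
  have hneg : pw (-(K j).σ) (K j).lam q = fun e => pw (K j).σ (K j).lam q (-e) := by
    funext e
    exact pw_neg _ _ _ _
  rw [hneg]
  exact ⟨Pool.Agent.KST.a2b_neg_FF k1_C0_neg q _ hFF, Pool.Agent.KST.a2b_neg_Ker b _ hKer⟩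

end

end KLE
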