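import Pool.Agent.KLE.Defs
import Pool.Agent.KLE.X12
import Pool.Agent.KLE.K1
import Pool.Agent.KLE.EO2
import Pool.Agent.KST.A2b

/-!
# Row A1: the span of the power functions in degree one
-/

set_option autoImplicit false

open scoped BigOperators RealInnerProductSpace

namespace KLE

noncomputable section

open Classical

open Pool.Agent.KST (E IsCell Cells Verts Simple Pol pt PP Gen Star VF Low LowF hh Fn FF Ker
  Par Le sgn supp EE X D)
open WLP (SepB HypB Data)

section A1

private def a1dl {ι : Type} (l : ι) : ι → ℤ := fun k => if k = l then 1 else 0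

private theorem a1_unit {ι : Type} [Fintype ι] {e : ι → ℤ} (h : ∑ l, (e l).natAbs = 1) {l : ι}
    (hl : e l ≠ 0) : e = a1dl l ∨ e = -a1dl l := by
  have h1 : (e l).natAbs + ∑ k ∈ Finset.univ.erase l, (e k).natAbs = 1 := by
    rw [Finset.add_sum_erase _ (fun k => (e k).natAbs) (Finset.mem_univ l)]
    exact h
  have h2 : 1 ≤ (e l).natAbs := by omega
  have h3 : ∀ k, k ≠ l → e k = 0 := by
    intro k hk
    have h4 : (e k).natAbs ≤ ∑ k ∈ Finset.univ.erase l, (e k).natAbs :=
      Finset.single_le_sum (f := fun k => (e k).natAbs) (fun _ _ => Nat.zero_le _)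
        (Finset.mem_erase.2 ⟨hk, Finset.mem_univ _⟩)
    omega
  have h5 : (e l).natAbs = 1 := by omega
  rcases Int.natAbs_eq (e l) with h6 | h6
  · left
    funext k
    by_cases hk : k = l
    · subst hk
      simp only [a1dl, if_true]
      omega
    · simp only [a1dl, hk, if_false]
      exact h3 k hk
  · right
    funext k
    by_cases hk : k = l
    · subst hk
      simp only [a1dl, Pi.neg_apply, if_true]
      omega
    · simp only [a1dl, Pi.neg_apply, hk, if_false, neg_zero]
      exact h3 k hk

private def a1N (ι : Type) : Fn ι →ₗ[ℝ] Fn ι where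
  toFun f e := f (-e)
  map_add' f g := rfl
  map_smul' c f := rfl

private theorem a1_neg {ι : Type} [Fintype ι] (K : ι → CapD ι) (T : Finset ι) (q : ℕ) (f : Fn ι)
    (hf : f ∈ VV K T q) : (fun e => f (-e)) ∈ VV K T q := by
  have h : (VV K T q).map (a1N ι) ≤ VV K T q := by
    unfold VV
    rw [Submodule.map_span_le]
    rintro g ⟨j, hj, rfl | rfl⟩
    · apply Submodule.subset_span
      refine ⟨j, hj, Or.inr ?_⟩
      funext e
      exact (pw_neg _ _ _ _).symm
    · apply Submodule.subset_span
      refine ⟨j, hj, Or.inl ?_⟩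
      funext e
      show pw (-(K j).σ) (K j).lam q (-e) = pw (K j).σ (K j).lam q e
      rw [pw_neg, neg_neg]
  exact h (Submodule.mem_map_of_mem (f := a1N ι) hf)

/-- A1 (uses X2, K1, EO2) -/
theorem hf_one_le {ι : Type} [Fintype ι] {d : ℕ} {b : ι → E (d + 1)} (hS : Simple b)
    {J : Finset ι} {K : ι → CapD ι} (hF : Fam b J K) :
    hf K (TT J K 1) 1 ≤ (Finset.univ.filter (fun l => l ∉ J ∧ ∃ t ∈ Cells b, t l = 1)).card +
      sp b J 1 := by
  have hWF : VV K (TT J K 1) 1 ≤ FF (C0 b J) 1 := by
    unfold VV
    rw [Submodule.span_le]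
    rintro f ⟨j, hj, hf⟩
    rw [TT, Finset.mem_filter] at hj
    have h := pw_mem hS hF hj.1 hj.2
    rcases hf with rfl | rfl
    · exact h.1.1
    · exact h.2.1
  have hfin0 : FiniteDimensional ℝ (FF (C0 b J) 1) := Pool.Agent.KST.FF_fin _ _
  have hfin : FiniteDimensional ℝ (VV K (TT J K 1) 1) := Submodule.finiteDimensional_of_le hWF
  have hsplit := Pool.Agent.KST.a2b_split (VV K (TT J K 1) 1) hfin (a1_neg K (TT J K 1) 1)
  have hodd := odd_le_sp hS hF (c := 1) (q := 1) le_rfl
  set L : Finset ι := Finset.univ.filter (fun l => l ∉ J ∧ ∃ t ∈ Cells b, t l = 1) with hL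
  have heven : Module.finrank ℝ ↥(VV K (TT J K 1) 1 ⊓ Par ι 1) ≤ L.card := by
    let φ : ↥(VV K (TT J K 1) 1 ⊓ Par ι 1) →ₗ[ℝ] (↥L → ℝ) :=
      { toFun := fun f l => f.1 (a1dl l.1)
        map_add' := by intro f g; rfl
        map_smul' := by intro c f; rfl }
    have hinj : Function.Injective φ := by
      rw [← LinearMap.ker_eq_bot, LinearMap.ker_eq_bot']
      intro f hf
      apply Subtype.ext
      funext e
      show f.1 e = 0
      have hval : ∀ l ∈ L, f.1 (a1dl l) = 0 := fun l hl => congrFun hf ⟨l, hl⟩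
      by_cases he : e ∈ Pool.Agent.KST.EE (C0 b J) 1
      · simp only [Pool.Agent.KST.EE, Finset.mem_filter] at he
        obtain ⟨-, hsum, hC⟩ := he
        rw [C0, Finset.mem_filter] at hC
        obtain ⟨l, hl⟩ : ∃ l, e l ≠ 0 := by
          by_contra hcon
          push Not at hcon
          simp [hcon] at hsum
        have hlJ : l ∉ J := by
          intro h
          have h1 := hC.2 l h
          unfold sgn at h1
          rw [sign_eq_zero_iff] at h1
          exact hl h1
        rcases a1_unit hsum hl with h1 | h1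
        · rw [h1]
          apply hval
          rw [hL, Finset.mem_filter]
          refine ⟨Finset.mem_univ _, hlJ, sgn e, hC.1, ?_⟩
          rw [h1]
          simp [sgn, a1dl]
        · have h2 : f.1 e = 1 * f.1 (a1dl l) := by
            rw [h1]
            exact f.2.2 (a1dl l)
          rw [h2, one_mul]
          apply hval
          rw [hL, Finset.mem_filter]
          refine ⟨Finset.mem_univ _, hlJ, -sgn e, Pool.Agent.KST.neg_mem_cells hC.1, ?_⟩
          rw [h1]
          simp [sgn, a1dl]
      · exact hWF f.2.1 e he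
    calc Module.finrank ℝ ↥(VV K (TT J K 1) 1 ⊓ Par ι 1) ≤ Module.finrank ℝ (↥L → ℝ) :=
        LinearMap.finrank_le_finrank_of_injective hinj
      _ = L.card := by rw [Module.finrank_fintype_fun_eq_card, Fintype.card_coe]
  unfold hf
  omega

end A1

end

end KLE
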