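import Pool.Agent.KLE.BG2

/-!
# Row BG, part 3: the tables for the dimensions `20` to `34`, and the result for all `m ≥ 20`
-/

set_option autoImplicit false

open scoped BigOperators

namespace KLE

/-- binomial coefficients, in a form that the kernel evaluates quickly -/
def bgCh (n k : ℕ) : ℕ := n.descFactorial k / k.factorial

theorem bgCh_eq (n k : ℕ) : bgCh n k = n.choose k :=
  (Nat.choose_eq_descFactorial_div_factorial n k).symm

/-- `∑ j < c, 2 ^ (m - j) * C(z + j, j)` -/
def bgSum (m z : ℕ) : ℕ → ℕ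
  | 0 => 0
  | c + 1 => bgSum m z c + 2 ^ (m - c) * bgCh (z + c) c

theorem bgSum_eq (m z c : ℕ) :
    bgSum m z c = ∑ j ∈ Finset.range c, 2 ^ (m - j) * (z + j).choose j := by
  induction c with
  | zero => rfl
  | succ c ih => rw [bgSum, ih, Finset.sum_range_succ, bgCh_eq]

/-- check of one share (simple weights) -/
def bgChk (m c z p : ℕ) : Bool :=
  decide (c + 1 ≤ z) &&
  (decide (3 * ((m - 1) / 2 + 1) * 2 ^ m ≤
      (3 * ((m - 1) / 2) - 1) * (c + 1) * bgCh (z + c + 1) (c + 1)) &&
  decide (4096 * (3 * 2 ^ c * bgCh (z + c + 1) (c + 1)) ≤ p * bgSum m z c))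

theorem bgChk_P {m c z p : ℕ} (h : bgChk m c z p = true) : BgP m c ((p : ℝ) / 4096) := by
  unfold bgChk at h
  rw [Bool.and_eq_true, Bool.and_eq_true, decide_eq_true_iff, decide_eq_true_iff,
    decide_eq_true_iff, bgCh_eq, bgSum_eq] at h
  obtain ⟨h1, h2, h3⟩ := h
  refine ⟨z, h1, h2, ?_⟩
  have h4 : (4096 : ℝ) * (3 * 2 ^ c * ((z + c + 1).choose (c + 1) : ℝ)) ≤
      p * ∑ j ∈ Finset.range c, 2 ^ (m - j) * ((z + j).choose j : ℝ) := by
    exact_mod_cast h3
  rw [div_mul_eq_mul_div, le_div_iff₀ (by norm_num)]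
  linarith

/-- check of a table -/
def bgTab (m : ℕ) : ℕ → List (ℕ × ℕ) → Bool
  | _, [] => true
  | c, zp :: l => bgChk m c zp.1 zp.2 && bgTab m (c + 1) l

theorem bgTab_get {m : ℕ} : ∀ (l : List (ℕ × ℕ)) (c : ℕ), bgTab m c l = true →
    ∀ i (hi : i < l.length), bgChk m (c + i) (l[i]).1 (l[i]).2 = true
  | [], _, _, i, hi => absurd hi (by simp)
  | zp :: l, c, h, i, hi => by
    rw [bgTab, Bool.and_eq_true] at h
    rcases i with _ | i
    · exact h.1
    · have h1 := bgTab_get l (c + 1) h.2 i (by simpa using hi)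
      have h2 : c + (i + 1) = c + 1 + i := by omega
      rw [h2]
      exact h1

/-- the sum of the second entries -/
def bgTot : List (ℕ × ℕ) → ℕ
  | [] => 0
  | zp :: l => zp.2 + bgTot l

theorem bgTot_eq : ∀ (l : List (ℕ × ℕ)),
    ∑ i ∈ Finset.range l.length, (((l.getD i (0, 0)).2 : ℝ) / 4096) = (bgTot l : ℝ) / 4096
  | [] => by simp [bgTot]
  | zp :: l => by
    rw [List.length_cons, Finset.sum_range_succ']
    have h := bgTot_eq l
    simp only [List.getD_cons_succ, List.getD_cons_zero]
    rw [h, bgTot]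
    push_cast
    ring

theorem bg_base {e n : ℕ} (he : 33 ≤ e) (hn : (e - 1) / 2 = n + 1) (l : List (ℕ × ℕ))
    (hl : l.length = n) (ht : bgTab e 2 l = true) (hs : 10 * bgTot l ≤ 9 * 4096) {t : ℕ}
    {s r A B M : ℕ → ℕ} (h : Nums (e + 2 * t) s r A B M) : Good (e + 2 * t) s r := by
  refine bg_final he hn (9 / 10) (fun i => ((l.getD i (0, 0)).2 : ℝ) / 4096)
    (fun i => by positivity) ?_ ?_ le_rfl h
  · intro i hi
    have hi' : i < l.length := by omega
    have h1 := bgTab_get l 2 ht i hi'
    have h2 : l.getD i (0, 0) = l[i] := by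
      rw [List.getD_eq_getElem?_getD, List.getElem?_eq_getElem hi', Option.getD_some]
    show BgP e (i + 2) (((l.getD i (0, 0)).2 : ℝ) / 4096)
    rw [h2, Nat.add_comm i 2]
    exact bgChk_P h1
  · rw [← hl, bgTot_eq]
    have h1 : (10 : ℝ) * (bgTot l : ℝ) ≤ 9 * 4096 := by exact_mod_cast hs
    linarith

/-! ### The sharper weights -/

/-- `bgY m c i` is the weight of the index `c - 1 - i` -/
def bgY (m c : ℕ) : ℕ → ℕ
  | 0 => 2 ^ c + 2 ^ (m - c)
  | i + 1 => 2 ^ (c - 1 - i) + 2 ^ (m - (c - 1 - i)) - bgY m c i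

/-- `∑ j < n, y_j * C(z + j, j)` -/
def bgSumY (m c z : ℕ) : ℕ → ℕ
  | 0 => 0
  | n + 1 => bgSumY m c z n + bgY m c (c - 1 - n) * bgCh (z + n) n

theorem bgSumY_eq (m c z n : ℕ) : bgSumY m c z n =
    ∑ j ∈ Finset.range n, bgY m c (c - 1 - j) * (z + j).choose j := by
  induction n with
  | zero => rfl
  | succ n ih => rw [bgSumY, ih, Finset.sum_range_succ, bgCh_eq]

/-- the weights decrease -/
def bgDec (m c : ℕ) : ℕ → Bool
  | 0 => true
  | n + 1 => bgDec m c n &&
      decide (bgY m c n ≤ 2 ^ (c - 1 - n) + 2 ^ (m - (c - 1 - n)))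

theorem bgDec_get {m c : ℕ} : ∀ n, bgDec m c n = true → ∀ i < n,
    bgY m c i ≤ 2 ^ (c - 1 - i) + 2 ^ (m - (c - 1 - i))
  | 0, _, i, hi => absurd hi (by omega)
  | n + 1, h, i, hi => by
    rw [bgDec, Bool.and_eq_true, decide_eq_true_iff] at h
    rcases Nat.lt_succ_iff_lt_or_eq.mp hi with h1 | h1
    · exact bgDec_get n h.1 i h1
    · rw [h1]
      exact h.2

/-- check of one share (sharper weights) -/
def bgChkY (m c z p : ℕ) : Bool :=
  bgDec m c (c - 1) &&
  (decide (3 * ((m - 1) / 2 + 1) * 2 ^ m ≤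
      (3 * ((m - 1) / 2) - 1) * (c + 1) * bgCh (z + c + 1) (c + 1)) &&
  decide (4096 * (2 ^ c * bgCh (z + c + 1) (c + 1)) ≤ p * bgSumY m c z c))

/-- check of a table -/
def bgTabY (m : ℕ) : ℕ → List (ℕ × ℕ) → Bool
  | _, [] => true
  | c, zp :: l => bgChkY m c zp.1 zp.2 && bgTabY m (c + 1) l

theorem bgTabY_get {m : ℕ} : ∀ (l : List (ℕ × ℕ)) (c : ℕ), bgTabY m c l = true →
    ∀ i (hi : i < l.length), bgChkY m (c + i) (l[i]).1 (l[i]).2 = true
  | [], _, _, i, hi => absurd hi (by simp)
  | zp :: l, c, h, i, hi => by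
    rw [bgTabY, Bool.and_eq_true] at h
    rcases i with _ | i
    · exact h.1
    · have h1 := bgTabY_get l (c + 1) h.2 i (by simpa using hi)
      have h2 : c + (i + 1) = c + 1 + i := by omega
      rw [h2]
      exact h1

theorem bg_direct {m n : ℕ} (hm : 20 ≤ m) (hn : (m - 1) / 2 = n + 1) (l : List (ℕ × ℕ))
    (hl : l.length = n) (ht : bgTabY m 2 l = true) (hs : bgTot l ≤ 3993)
    {s r A B M : ℕ → ℕ} (h : Nums m s r A B M) : Good m s r := by
  refine bg_good h hm (fun c => ((l.getD (c - 2) (0, 0)).2 : ℝ) / 4096)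
    (fun c => by positivity) ?_ ?_
  · intro c hc hcD
    have hi' : c - 2 < l.length := by omega
    have h1 := bgTabY_get l 2 ht (c - 2) hi'
    have h2 : l.getD (c - 2) (0, 0) = l[c - 2] := by
      rw [List.getD_eq_getElem?_getD, List.getElem?_eq_getElem hi', Option.getD_some]
    have h3 : 2 + (c - 2) = c := by omega
    rw [h3] at h1
    obtain ⟨z, hz⟩ : ∃ z, z = (l[c - 2]).1 := ⟨_, rfl⟩
    obtain ⟨p, hp⟩ : ∃ p, p = (l[c - 2]).2 := ⟨_, rfl⟩
    rw [← hz, ← hp] at h1
    unfold bgChkY at h1
    rw [Bool.and_eq_true, Bool.and_eq_true, decide_eq_true_iff, decide_eq_true_iff,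
      bgCh_eq, bgSumY_eq] at h1
    obtain ⟨h4, h5, h6⟩ := h1
    have h7 := bgDec_get (c - 1) h4
    refine ⟨fun j => if j < c then (bgY m c (c - 1 - j) : ℝ) else 0, z, ?_, ?_, ?_, h5, ?_⟩
    · intro j hj
      simp only [hj, if_true]
      positivity
    · simp
    · intro j hj
      simp only [hj, if_true]
      split_ifs with h9
      · obtain ⟨i, hi⟩ : ∃ i, c - 1 - (j + 1) = i := ⟨_, rfl⟩
        have h10 : c - 1 - j = i + 1 := by omega
        have h11 : c - 1 - i = j + 1 := by omega
        rw [hi, h10, bgY, h11]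
        have h12 := h7 i (by omega)
        rw [h11] at h12
        have h13 : 2 ^ (j + 1) + 2 ^ (m - (j + 1)) - bgY m c i + bgY m c i ≤
            2 ^ (j + 1) + 2 ^ (m - (j + 1)) := by omega
        exact_mod_cast h13
      · have h10 : c - 1 - j = 0 := by omega
        have h11 : c = j + 1 := by omega
        rw [h10, bgY, h11]
        push_cast
        linarith
    · have h8 : ∑ j ∈ Finset.range c, (if j < c then (bgY m c (c - 1 - j) : ℝ) else 0) *
          ((z + j).choose j : ℝ) =
          ((∑ j ∈ Finset.range c, bgY m c (c - 1 - j) * (z + j).choose j : ℕ) : ℝ) := by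
        rw [Nat.cast_sum]
        refine Finset.sum_congr rfl (fun j hj => ?_)
        rw [Finset.mem_range] at hj
        simp only [hj, if_true]
        push_cast
        ring
      have h9 : (4096 : ℝ) * (2 ^ c * ((z + c + 1).choose (c + 1) : ℝ)) ≤
          p * ((∑ j ∈ Finset.range c, bgY m c (c - 1 - j) * (z + j).choose j : ℕ) : ℝ) := by
        exact_mod_cast h6
      show (2 : ℝ) ^ c * ((z + c + 1).choose (c + 1) : ℝ) ≤
        ((l.getD (c - 2) (0, 0)).2 : ℝ) / 4096 * _
      rw [h2, ← hp, h8, div_mul_eq_mul_div, le_div_iff₀ (by norm_num)]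
      linarith
  · rw [hn]
    have h1 := bg_icc2 n (fun i => ((l.getD i (0, 0)).2 : ℝ) / 4096)
    rw [h1, ← hl, bgTot_eq]
    have h2 : (bgTot l : ℝ) ≤ 3993 := by exact_mod_cast hs
    linarith

/-! ### The tables -/

theorem big (m : ℕ) (hm : 20 ≤ m) (s r A B M : ℕ → ℕ) (h : Nums m s r A B M) : Good m s r := by
  rcases Nat.lt_or_ge m 33 with h1 | h1
  · interval_cases m
    · exact bg_direct (n := 8) (by norm_num) (by norm_num)
        [(133, 190), (50, 58), (29, 51), (20, 70), (16, 135), (13, 275), (11, 597), (10, 1424)]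
        (by decide) (by decide +kernel) (by decide) h
    · exact bg_direct (n := 9) (by norm_num) (by norm_num)
        [(167, 149), (60, 41), (33, 33), (23, 45), (17, 76), (14, 158), (12, 357), (11, 895),
        (10, 2067)]
        (by decide) (by decide +kernel) (by decide) h
    · exact bg_direct (n := 9) (by norm_num) (by norm_num)
        [(211, 119), (71, 29), (38, 21), (26, 29), (20, 51), (16, 101), (14, 241), (12, 544),
        (11, 1340)]
        (by decide) (by decide +kernel) (by decide) h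
    · exact bg_direct (n := 10) (by norm_num) (by norm_num)
        [(265, 93), (85, 20), (44, 14), (29, 18), (22, 30), (18, 63), (15, 138), (13, 323),
        (12, 832), (11, 1981)]
        (by decide) (by decide +kernel) (by decide) h
    · exact bg_direct (n := 10) (by norm_num) (by norm_num)
        [(334, 74), (101, 14), (51, 10), (33, 11), (25, 19), (20, 38), (17, 88), (14, 188),
        (13, 501), (12, 1268)]
        (by decide) (by decide +kernel) (by decide) h
    · exact bg_direct (n := 11) (by norm_num) (by norm_num)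
        [(420, 58), (120, 10), (59, 6), (38, 8), (27, 11), (22, 23), (18, 49), (16, 123),
        (14, 295), (13, 779), (12, 1905)]
        (by decide) (by decide +kernel) (by decide) h
    · exact bg_direct (n := 11) (by norm_num) (by norm_num)
        [(529, 46), (144, 7), (68, 4), (43, 5), (31, 8), (24, 14), (20, 30), (17, 69),
        (15, 171), (14, 466), (13, 1206)]
        (by decide) (by decide +kernel) (by decide) h
    · exact bg_direct (n := 12) (by norm_num) (by norm_num)
        [(665, 37), (171, 5), (79, 3), (48, 3), (34, 5), (27, 9), (22, 18), (19, 43),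
        (17, 110), (15, 273), (14, 735), (13, 1837)]
        (by decide) (by decide +kernel) (by decide) h
    · exact bg_direct (n := 12) (by norm_num) (by norm_num)
        [(839, 29), (203, 4), (91, 2), (54, 2), (38, 3), (29, 5), (24, 11), (20, 24),
        (18, 62), (16, 157), (15, 436), (14, 1151)]
        (by decide) (by decide +kernel) (by decide) h
    · exact bg_direct (n := 13) (by norm_num) (by norm_num)
        [(1055, 23), (242, 3), (105, 2), (61, 2), (42, 2), (32, 3), (26, 7), (22, 15),
        (19, 35), (17, 90), (16, 254), (15, 696), (14, 1776)]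
        (by decide) (by decide +kernel) (by decide) h
    · exact bg_direct (n := 13) (by norm_num) (by norm_num)
        [(1329, 19), (288, 2), (121, 1), (69, 1), (47, 1), (36, 2), (29, 4), (24, 9),
        (21, 21), (19, 56), (17, 146), (16, 411), (15, 1103)]
        (by decide) (by decide +kernel) (by decide) h
    · exact bg_direct (n := 14) (by norm_num) (by norm_num)
        [(1672, 15), (342, 2), (139, 1), (78, 1), (52, 1), (39, 2), (31, 3), (26, 5),
        (23, 13), (20, 32), (18, 83), (17, 238), (16, 663), (15, 1720)]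
        (by decide) (by decide +kernel) (by decide) h
    · exact bg_direct (n := 14) (by norm_num) (by norm_num)
        [(2107, 12), (407, 1), (160, 1), (88, 1), (58, 1), (43, 1), (34, 2), (28, 3),
        (25, 8), (22, 19), (20, 52), (18, 136), (17, 389), (15, 904)]
        (by decide) (by decide +kernel) (by decide) h
  · rcases Nat.even_or_odd' m with ⟨k, hk | hk⟩
    · obtain ⟨t, ht⟩ : ∃ t, m = 34 + 2 * t := ⟨k - 17, by omega⟩
      rw [ht] at h ⊢
      exact bg_base (n := 15) (by norm_num) (by norm_num)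
        [(3339, 11), (576, 1), (211, 1), (111, 1), (72, 1), (52, 1), (41, 1), (33, 2),
        (29, 3), (25, 8), (22, 18), (20, 48), (19, 141), (17, 350), (17, 1146)]
        (by decide) (by decide +kernel) (by decide) h
    · obtain ⟨t, ht⟩ : ∃ t, m = 33 + 2 * t := ⟨k - 16, by omega⟩
      rw [ht] at h ⊢
      exact bg_base (n := 15) (by norm_num) (by norm_num)
        [(2650, 14), (484, 1), (184, 1), (99, 1), (65, 1), (47, 1), (37, 1), (31, 3),
        (26, 5), (23, 12), (21, 33), (19, 85), (18, 246), (16, 598), (17, 2292)]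
        (by decide) (by decide +kernel) (by decide) h

end KLE
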