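import Pool.Agent.KLE.SM19
import Pool.Agent.KLE.BG3

/-!
# Row AR: the inequality between the numbers in all dimensions
-/

set_option autoImplicit false

namespace KLE

theorem good (m : ℕ) (s r A B M : ℕ → ℕ) (h : Nums m s r A B M) : Good m s r := by
  rcases Nat.lt_or_ge m 20 with h1 | h1
  · exact good_le19 m (by omega) s r A B M h
  · exact big m h1 s r A B M h

end KLE
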