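import Pool.Agent.KLE.Defs

/-!
# KLE row AR1: the reduction to `Good`
-/

set_option autoImplicit false

open scoped BigOperators RealInnerProductSpace

namespace KLE

noncomputable section

open Classical

theorem ar1_refl (f : ℕ → ℕ) (n : ℕ) :
    ∑ x ∈ Finset.range n, f (n - 1 - x) = ∑ x ∈ Finset.range n, f x :=
  Finset.sum_range_reflect f n

theorem ar1_icc (f : ℕ → ℕ) (D : ℕ) :
    ∑ q ∈ Finset.Icc 1 D, f q = ∑ n ∈ Finset.range D, f (n + 1) := by
  induction D with
  | zero => simp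
  | succ D ih =>
    rw [Finset.sum_Icc_succ_top (by omega), ih, Finset.sum_range_succ]

/-- odd case `m = 2 D + 1` -/
theorem ar1_A (D : ℕ) (w K : ℕ → ℕ) (h0 : K 0 = 0)
    (hs : ∀ n ≤ 2 * D + 1, K (2 * D + 1 - n) = K n) :
    ∑ n ∈ Finset.range (2 * D + 2), w n * K n =
      ∑ n ∈ Finset.range D, (w (n + 1) + w (2 * D + 1 - (n + 1))) * K (n + 1) := by
  have e1 : 2 * D + 2 = (D + 1) + (D + 1) := by ring
  rw [e1, Finset.sum_range_add]
  have e2 : ∑ x ∈ Finset.range (D + 1), w (D + 1 + x) * K (D + 1 + x) =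
      ∑ x ∈ Finset.range (D + 1), w (2 * D + 1 - x) * K x := by
    rw [← ar1_refl (fun x => w (D + 1 + x) * K (D + 1 + x)) (D + 1)]
    apply Finset.sum_congr rfl
    intro x hx
    rw [Finset.mem_range] at hx
    have e3 : D + 1 + (D + 1 - 1 - x) = 2 * D + 1 - x := by omega
    simp only [e3]
    rw [hs x (by omega)]
  rw [e2, ← Finset.sum_add_distrib, Finset.sum_range_succ']
  simp only [h0, mul_zero, add_zero]
  apply Finset.sum_congr rfl
  intro x _
  ring

/-- even case `m = 2 D + 2` -/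
theorem ar1_B (D : ℕ) (w K : ℕ → ℕ) (h0 : K 0 = 0)
    (hs : ∀ n ≤ 2 * D + 2, K (2 * D + 2 - n) = K n) :
    ∑ n ∈ Finset.range (2 * D + 3), w n * K n =
      ∑ n ∈ Finset.range D, (w (n + 1) + w (2 * D + 2 - (n + 1))) * K (n + 1) +
        w (D + 1) * K (D + 1) := by
  have e1 : 2 * D + 3 = (D + 1) + (D + 2) := by ring
  rw [e1, Finset.sum_range_add]
  have e2 : ∑ x ∈ Finset.range (D + 2), w (D + 1 + x) * K (D + 1 + x) =
      ∑ x ∈ Finset.range (D + 2), w (2 * D + 2 - x) * K x := by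
    rw [← ar1_refl (fun x => w (D + 1 + x) * K (D + 1 + x)) (D + 2)]
    apply Finset.sum_congr rfl
    intro x hx
    rw [Finset.mem_range] at hx
    have e3 : D + 1 + (D + 2 - 1 - x) = 2 * D + 2 - x := by omega
    simp only [e3]
    rw [hs x (by omega)]
  rw [e2, Finset.sum_range_succ (fun x => w (2 * D + 2 - x) * K x) (D + 1), ← add_assoc,
    ← Finset.sum_add_distrib, Finset.sum_range_succ']
  simp only [h0, mul_zero, add_zero]
  have e4 : 2 * D + 2 - (D + 1) = D + 1 := by omega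
  rw [e4]
  congr 1
  apply Finset.sum_congr rfl
  intro x _
  ring

theorem ar1_gauss (a : ℕ) : 2 * ∑ n ∈ Finset.range a, (n + 1) = (a + 1) * a := by
  induction a with
  | zero => simp
  | succ a ih => rw [Finset.sum_range_succ, mul_add, ih]; ring

theorem ar1_E (a t : ℕ) :
    2 * ∑ n ∈ Finset.range (a + t), (min n a + 1) = (a + 1) * (a + 2 * t) := by
  induction t with
  | zero =>
    have : ∑ n ∈ Finset.range (a + 0), (min n a + 1) = ∑ n ∈ Finset.range a, (n + 1) := by
      apply Finset.sum_congr rfl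
      intro x hx
      rw [Finset.mem_range] at hx
      rw [min_eq_left (by omega)]
    rw [this, ar1_gauss]
    ring
  | succ t ih =>
    rw [← add_assoc, Finset.sum_range_succ, mul_add, ih, min_eq_right (by omega)]
    ring

theorem ar1_F0 (a : ℕ) :
    ∑ n ∈ Finset.range a, 2 ^ n * (n + 1) + 2 ^ (a + 1) = 2 ^ a * (a + 1) + 1 := by
  induction a with
  | zero => simp
  | succ a ih =>
    rw [Finset.sum_range_succ]
    have : 2 ^ (a + 1 + 1) = 2 ^ (a + 1) + 2 * 2 ^ a := by ring
    rw [this]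
    have h2 : 2 ^ (a + 1) * (a + 1 + 1) + 1 = (2 ^ a * (a + 1) + 1) + (2 ^ a * (a + 1) + 2 * 2 ^ a)
      := by ring
    rw [h2, ← ih]
    ring

theorem ar1_F (a t : ℕ) :
    ∑ n ∈ Finset.range (a + t), 2 ^ n * (min n a + 1) + 2 ^ (a + 1) =
      2 ^ (a + t) * (a + 1) + 1 := by
  induction t with
  | zero =>
    have : ∑ n ∈ Finset.range (a + 0), 2 ^ n * (min n a + 1) =
        ∑ n ∈ Finset.range a, 2 ^ n * (n + 1) := by
      apply Finset.sum_congr rfl
      intro x hx
      rw [Finset.mem_range] at hx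
      rw [min_eq_left (by omega)]
    rw [this, ar1_F0]
    rfl
  | succ t ih =>
    rw [← add_assoc, Finset.sum_range_succ, min_eq_right (by omega)]
    have : 2 ^ (a + t + 1) * (a + 1) + 1 = (2 ^ (a + t) * (a + 1) + 1) + 2 ^ (a + t) * (a + 1) := by
      ring
    rw [this, ← ih]
    ring

theorem ar1_fib {ι : Type} (J : Finset ι) (a : ι → ℕ) (F : ℕ → ℕ) (D : ℕ)
    (ha : ∀ j ∈ J, a j ≤ D) :
    ∑ c ∈ Finset.Icc 1 D, F c * (J.filter (fun j => a j = c)).card =
      ∑ j ∈ J.filter (fun j => 1 ≤ a j), F (a j) := by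
  rw [← Finset.sum_fiberwise_of_maps_to (s := J.filter (fun j => 1 ≤ a j))
    (t := Finset.Icc 1 D) (g := a) (fun j hj => by
      rw [Finset.mem_filter] at hj
      exact Finset.mem_Icc.2 ⟨hj.2, ha j hj.1⟩)]
  apply Finset.sum_congr rfl
  intro c hc
  rw [Finset.mem_Icc] at hc
  have h1 : (J.filter (fun j => 1 ≤ a j)).filter (fun j => a j = c) =
      J.filter (fun j => a j = c) := by
    ext j
    simp only [Finset.mem_filter]
    constructor
    · rintro ⟨⟨h1, _⟩, h2⟩
      exact ⟨h1, h2⟩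
    · rintro ⟨h1, h2⟩
      exact ⟨⟨h1, by omega⟩, h2⟩
  rw [h1, Finset.sum_congr rfl (g := fun _ => F c) (fun j hj => by
    rw [(Finset.mem_filter.1 hj).2]), Finset.sum_const, smul_eq_mul, mul_comm]

/-- per facet, the weighted sum, `d = 2 D` -/
theorem ar1_I1a (D a : ℕ) (ha : a ≤ D) :
    ∑ n ∈ Finset.range (2 * D + 1), 2 ^ n * (min (min n a) (2 * D - n) + 1) =
      ∑ n ∈ Finset.range D, (2 ^ (n + 1) + 2 ^ (2 * D + 1 - (n + 1))) *
        (min (min n a) (2 * D - n) + 1) + (2 ^ (a + 1) - 2) + 1 := by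
  have e1 : 2 * D + 1 = D + (D + 1) := by ring
  rw [e1, Finset.sum_range_add]
  have e2 : ∑ x ∈ Finset.range (D + 1),
      2 ^ (D + x) * (min (min (D + x) a) (2 * D - (D + x)) + 1) =
      ∑ x ∈ Finset.range (D + 1), 2 ^ (2 * D - x) * (min (min x a) (2 * D - x) + 1) := by
    rw [← ar1_refl (fun x => 2 ^ (D + x) * (min (min (D + x) a) (2 * D - (D + x)) + 1)) (D + 1)]
    apply Finset.sum_congr rfl
    intro x hx
    rw [Finset.mem_range] at hx
    have e3 : D + (D + 1 - 1 - x) = 2 * D - x := by omega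
    simp only [e3]
    have e4 : min (min (2 * D - x) a) (2 * D - (2 * D - x)) = min (min x a) (2 * D - x) := by
      omega
    rw [e4]
  rw [e2, Finset.sum_range_succ]
  have e5 : min (min D a) (2 * D - D) + 1 = a + 1 := by omega
  rw [e5]
  have e6 : ∑ n ∈ Finset.range D, (2 ^ (n + 1) + 2 ^ (D + (D + 1) - (n + 1))) *
        (min (min n a) (2 * D - n) + 1) =
      2 * ∑ n ∈ Finset.range D, 2 ^ n * (min n a + 1) +
      ∑ n ∈ Finset.range D, 2 ^ (2 * D - n) * (min (min n a) (2 * D - n) + 1) := by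
    rw [Finset.mul_sum, ← Finset.sum_add_distrib]
    apply Finset.sum_congr rfl
    intro x hx
    rw [Finset.mem_range] at hx
    have e7 : D + (D + 1) - (x + 1) = 2 * D - x := by omega
    have e8 : min (min x a) (2 * D - x) = min x a := by omega
    rw [e7, e8]
    ring
  have e9 : ∑ n ∈ Finset.range D, 2 ^ n * (min (min n a) (2 * D - n) + 1) =
      ∑ n ∈ Finset.range D, 2 ^ n * (min n a + 1) := by
    apply Finset.sum_congr rfl
    intro x hx
    rw [Finset.mem_range] at hx
    have e8 : min (min x a) (2 * D - x) = min x a := by omega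
    rw [e8]
  rw [e6, e9]
  have hF := ar1_F a (D - a)
  have e10 : a + (D - a) = D := by omega
  rw [e10] at hF
  have e11 : 2 * D - D = D := by omega
  rw [e11]
  have e12 : 2 ≤ 2 ^ (a + 1) := by
    have : 1 ≤ 2 ^ a := Nat.one_le_two_pow
    rw [pow_succ]
    omega
  omega

/-- per facet, the weighted sum, `d = 2 D + 1` -/
theorem ar1_I1b (D a : ℕ) (ha : a ≤ D) :
    ∑ n ∈ Finset.range (2 * D + 2), 2 ^ n * (min (min n a) (2 * D + 1 - n) + 1) =
      ∑ n ∈ Finset.range D, (2 ^ (n + 1) + 2 ^ (2 * D + 2 - (n + 1))) *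
        (min (min n a) (2 * D + 1 - n) + 1) +
      2 ^ (D + 1) * (min (min D a) (2 * D + 1 - D) + 1) + (2 ^ (a + 1) - 2) + 1 := by
  have e1 : 2 * D + 2 = (D + 1) + (D + 1) := by ring
  rw [e1, Finset.sum_range_add]
  have e2 : ∑ x ∈ Finset.range (D + 1),
      2 ^ (D + 1 + x) * (min (min (D + 1 + x) a) (2 * D + 1 - (D + 1 + x)) + 1) =
      ∑ x ∈ Finset.range (D + 1), 2 ^ (2 * D + 1 - x) * (min (min x a) (2 * D + 1 - x) + 1) := by
    rw [← ar1_refl (fun x => 2 ^ (D + 1 + x) *
      (min (min (D + 1 + x) a) (2 * D + 1 - (D + 1 + x)) + 1)) (D + 1)]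
    apply Finset.sum_congr rfl
    intro x hx
    rw [Finset.mem_range] at hx
    have e3 : D + 1 + (D + 1 - 1 - x) = 2 * D + 1 - x := by omega
    simp only [e3]
    have e4 : min (min (2 * D + 1 - x) a) (2 * D + 1 - (2 * D + 1 - x)) =
        min (min x a) (2 * D + 1 - x) := by
      omega
    rw [e4]
  rw [e2, Finset.sum_range_succ, Finset.sum_range_succ]
  have e5 : min (min D a) (2 * D + 1 - D) + 1 = a + 1 := by omega
  rw [e5]
  have e6 : ∑ n ∈ Finset.range D, (2 ^ (n + 1) + 2 ^ (D + 1 + (D + 1) - (n + 1))) *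
        (min (min n a) (2 * D + 1 - n) + 1) =
      2 * ∑ n ∈ Finset.range D, 2 ^ n * (min n a + 1) +
      ∑ n ∈ Finset.range D, 2 ^ (2 * D + 1 - n) * (min (min n a) (2 * D + 1 - n) + 1) := by
    rw [Finset.mul_sum, ← Finset.sum_add_distrib]
    apply Finset.sum_congr rfl
    intro x hx
    rw [Finset.mem_range] at hx
    have e7 : D + 1 + (D + 1) - (x + 1) = 2 * D + 1 - x := by omega
    have e8 : min (min x a) (2 * D + 1 - x) = min x a := by omega
    rw [e7, e8]
    ring
  have e9 : ∑ n ∈ Finset.range D, 2 ^ n * (min (min n a) (2 * D + 1 - n) + 1) =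
      ∑ n ∈ Finset.range D, 2 ^ n * (min n a + 1) := by
    apply Finset.sum_congr rfl
    intro x hx
    rw [Finset.mem_range] at hx
    have e8 : min (min x a) (2 * D + 1 - x) = min x a := by omega
    rw [e8]
  rw [e6, e9]
  have hF := ar1_F a (D - a)
  have e10 : a + (D - a) = D := by omega
  rw [e10] at hF
  have e11 : 2 * D + 1 - D = D + 1 := by omega
  rw [e11]
  have e12 : 2 ≤ 2 ^ (a + 1) := by
    have : 1 ≤ 2 ^ a := Nat.one_le_two_pow
    rw [pow_succ]
    omega
  omega

theorem ar1_I2a (D a : ℕ) (ha : a ≤ D) :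
    (a + 1) * (2 * D + 1 - a) =
      2 * ∑ n ∈ Finset.range D, (min (min n a) (2 * D - n) + 1) + (a + 1) := by
  have e9 : ∑ n ∈ Finset.range D, (min (min n a) (2 * D - n) + 1) =
      ∑ n ∈ Finset.range D, (min n a + 1) := by
    apply Finset.sum_congr rfl
    intro x hx
    rw [Finset.mem_range] at hx
    have e8 : min (min x a) (2 * D - x) = min x a := by omega
    rw [e8]
  have hE := ar1_E a (D - a)
  have e10 : a + (D - a) = D := by omega
  rw [e10] at hE
  have e11 : 2 * D + 1 - a = (a + 2 * (D - a)) + 1 := by omega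
  rw [e9, hE, e11]
  ring

theorem ar1_I2b (D a : ℕ) (ha : a ≤ D) :
    (a + 1) * (2 * D + 2 - a) =
      2 * ∑ n ∈ Finset.range D, (min (min n a) (2 * D + 1 - n) + 1) +
        (min (min D a) (2 * D + 1 - D) + 1) + (a + 1) := by
  have e9 : ∑ n ∈ Finset.range D, (min (min n a) (2 * D + 1 - n) + 1) =
      ∑ n ∈ Finset.range D, (min n a + 1) := by
    apply Finset.sum_congr rfl
    intro x hx
    rw [Finset.mem_range] at hx
    have e8 : min (min x a) (2 * D + 1 - x) = min x a := by omega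
    rw [e8]
  have hE := ar1_E a (D - a)
  have e10 : a + (D - a) = D := by omega
  rw [e10] at hE
  have e11 : 2 * D + 2 - a = (a + 2 * (D - a)) + 2 := by omega
  have e5 : min (min D a) (2 * D + 1 - D) + 1 = a + 1 := by omega
  rw [e9, hE, e11, e5]
  ring

/-- AR1: the reduction to `Good`; `h j n` are the numbers of the facets -/
theorem reduce (d : ℕ) {ι : Type} (J : Finset ι) (a : ι → ℕ) (k s : ℕ → ℕ)
    (ha : ∀ j ∈ J, 2 * a j ≤ d) (k0 : k 0 = 0) (ksym : ∀ n ≤ d + 1, k (d + 1 - n) = k n)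
    (hs : ∀ q, 1 ≤ q → 2 * q ≤ d + 1 →
      k q = s q + ∑ j ∈ J, (min (min (q - 1) (a j)) (d - (q - 1)) + 1))
    (hverts : 2 * ∑ j ∈ J, (a j + 1) * (d + 1 - a j) ≤
      2 ^ (d + 1) + 2 * ∑ n ∈ Finset.range (d + 2), k n) :
    ((∑ c ∈ Finset.Icc 1 ((d + 1 - 1) / 2),
        (c + 1) * (J.filter (fun j => a j = c)).card ≤ 2 ^ (d + 1 - 1) +
      (∑ q ∈ Finset.Icc 1 ((d + 1 - 1) / 2), 2 * s q +
        if (d + 1) % 2 = 0 then s ((d + 1) / 2) else 0))) ∧
    (Good (d + 1) s (fun c => (J.filter (fun j => a j = c)).card) →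
      ∑ j ∈ J, ∑ n ∈ Finset.range (d + 1), 2 ^ n * (min (min n (a j)) (d - n) + 1) ≤
        ∑ n ∈ Finset.range (d + 2), 2 ^ n * k n + J.card) := by
  have hp1 : ∀ n, 2 ^ (n + 1) = 2 * 2 ^ n := fun n => by rw [pow_succ]; ring
  obtain ⟨D, hD | hD⟩ : ∃ D, d = 2 * D ∨ d = 2 * D + 1 := ⟨d / 2, by omega⟩
  · subst hD
    have e1 : (2 * D + 1 - 1) / 2 = D := by omega
    have e2 : (2 * D + 1) % 2 ≠ 0 := by omega
    have haD : ∀ j ∈ J, a j ≤ D := fun j hj => by have := ha j hj; omega
    have hk : ∀ n ∈ Finset.range D, k (n + 1) =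
        s (n + 1) + ∑ j ∈ J, (min (min n (a j)) (2 * D - n) + 1) := by
      intro n hn
      rw [Finset.mem_range] at hn
      have := hs (n + 1) (by omega) (by omega)
      simpa using this
    unfold Good
    simp only [e1, if_neg e2, add_zero]
    constructor
    · rw [ar1_fib J a (fun c => c + 1) D haD, ar1_icc]
      have hA := ar1_A D (fun _ => 1) k k0 ksym
      simp only [one_mul] at hA
      have h1 : ∑ n ∈ Finset.range D, (1 + 1) * k (n + 1) =
          ∑ n ∈ Finset.range D, 2 * s (n + 1) +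
          ∑ j ∈ J, 2 * ∑ n ∈ Finset.range D, (min (min n (a j)) (2 * D - n) + 1) := by
        rw [← Finset.mul_sum (s := J), Finset.sum_comm, Finset.mul_sum (s := Finset.range D),
          ← Finset.sum_add_distrib]
        apply Finset.sum_congr rfl
        intro n hn
        rw [hk n hn]
        ring
      have h2 : ∑ j ∈ J, (a j + 1) * (2 * D + 1 - a j) =
          ∑ j ∈ J, 2 * ∑ n ∈ Finset.range D, (min (min n (a j)) (2 * D - n) + 1) +
          ∑ j ∈ J, (a j + 1) := by
        rw [← Finset.sum_add_distrib]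
        exact Finset.sum_congr rfl (fun j hj => ar1_I2a D (a j) (haD j hj))
      have h3 : ∑ j ∈ J.filter (fun j => 1 ≤ a j), (a j + 1) ≤ ∑ j ∈ J, (a j + 1) :=
        Finset.sum_le_sum_of_subset (Finset.filter_subset _ _)
      rw [hA, h1, h2] at hverts
      have h4 := hp1 (2 * D)
      have h5 : 2 * D + 1 - 1 = 2 * D := by omega
      rw [h5]
      omega
    · intro hG
      rw [ar1_fib J a (fun c => 2 ^ (c + 1) - 2) D haD, ar1_icc] at hG
      have hA := ar1_A D (fun n => 2 ^ n) k k0 ksym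
      have h1 : ∑ n ∈ Finset.range D, (2 ^ (n + 1) + 2 ^ (2 * D + 1 - (n + 1))) * k (n + 1) =
          ∑ n ∈ Finset.range D, (2 ^ (n + 1) + 2 ^ (2 * D + 1 - (n + 1))) * s (n + 1) +
          ∑ j ∈ J, ∑ n ∈ Finset.range D, (2 ^ (n + 1) + 2 ^ (2 * D + 1 - (n + 1))) *
            (min (min n (a j)) (2 * D - n) + 1) := by
        rw [Finset.sum_comm, ← Finset.sum_add_distrib]
        apply Finset.sum_congr rfl
        intro n hn
        rw [hk n hn, mul_add, ← Finset.mul_sum]
      have h2 : ∑ j ∈ J, ∑ n ∈ Finset.range (2 * D + 1),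
            2 ^ n * (min (min n (a j)) (2 * D - n) + 1) =
          ∑ j ∈ J, ∑ n ∈ Finset.range D, (2 ^ (n + 1) + 2 ^ (2 * D + 1 - (n + 1))) *
            (min (min n (a j)) (2 * D - n) + 1) +
          ∑ j ∈ J, (2 ^ (a j + 1) - 2) + J.card := by
        rw [Finset.card_eq_sum_ones, ← Finset.sum_add_distrib, ← Finset.sum_add_distrib]
        exact Finset.sum_congr rfl (fun j hj => ar1_I1a D (a j) (haD j hj))
      have h3 : ∑ j ∈ J, (2 ^ (a j + 1) - 2) =
          ∑ j ∈ J.filter (fun j => 1 ≤ a j), (2 ^ (a j + 1) - 2) := by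
        symm
        apply Finset.sum_subset (Finset.filter_subset _ _)
        intro j hj hj2
        have : a j = 0 := by
          by_contra h
          exact hj2 (Finset.mem_filter.2 ⟨hj, by omega⟩)
        rw [this]
        norm_num
      rw [h2, h3, hA, h1]
      omega
  · subst hD
    have e1 : (2 * D + 1 + 1 - 1) / 2 = D := by omega
    have e2 : (2 * D + 1 + 1) % 2 = 0 := by omega
    have e3 : (2 * D + 1 + 1) / 2 = D + 1 := by omega
    have haD : ∀ j ∈ J, a j ≤ D := fun j hj => by have := ha j hj; omega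
    have hk : ∀ n ∈ Finset.range D, k (n + 1) =
        s (n + 1) + ∑ j ∈ J, (min (min n (a j)) (2 * D + 1 - n) + 1) := by
      intro n hn
      rw [Finset.mem_range] at hn
      have := hs (n + 1) (by omega) (by omega)
      simpa using this
    have hkD : k (D + 1) =
        s (D + 1) + ∑ j ∈ J, (min (min D (a j)) (2 * D + 1 - D) + 1) := by
      have := hs (D + 1) (by omega) (by omega)
      simpa using this
    unfold Good
    simp only [e1, if_pos e2, e3]
    constructor
    · rw [ar1_fib J a (fun c => c + 1) D haD, ar1_icc]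
      have hA := ar1_B D (fun _ => 1) k k0 ksym
      simp only [one_mul] at hA
      have h1 : ∑ n ∈ Finset.range D, (1 + 1) * k (n + 1) =
          ∑ n ∈ Finset.range D, 2 * s (n + 1) +
          ∑ j ∈ J, 2 * ∑ n ∈ Finset.range D, (min (min n (a j)) (2 * D + 1 - n) + 1) := by
        rw [← Finset.mul_sum (s := J), Finset.sum_comm, Finset.mul_sum (s := Finset.range D),
          ← Finset.sum_add_distrib]
        apply Finset.sum_congr rfl
        intro n hn
        rw [hk n hn]
        ring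
      have h2 : ∑ j ∈ J, (a j + 1) * (2 * D + 1 + 1 - a j) =
          ∑ j ∈ J, 2 * ∑ n ∈ Finset.range D, (min (min n (a j)) (2 * D + 1 - n) + 1) +
          ∑ j ∈ J, (min (min D (a j)) (2 * D + 1 - D) + 1) +
          ∑ j ∈ J, (a j + 1) := by
        rw [← Finset.sum_add_distrib, ← Finset.sum_add_distrib]
        exact Finset.sum_congr rfl (fun j hj => ar1_I2b D (a j) (haD j hj))
      have h3 : ∑ j ∈ J.filter (fun j => 1 ≤ a j), (a j + 1) ≤ ∑ j ∈ J, (a j + 1) :=
        Finset.sum_le_sum_of_subset (Finset.filter_subset _ _)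
      have e4 : 2 * D + 1 + 2 = 2 * D + 3 := by ring
      rw [e4, hA, h1, h2, hkD] at hverts
      have h4 := hp1 (2 * D + 1)
      have h5 : 2 * D + 1 + 1 - 1 = 2 * D + 1 := by omega
      rw [h5]
      omega
    · intro hG
      rw [ar1_fib J a (fun c => 2 ^ (c + 1) - 2) D haD, ar1_icc] at hG
      have hA := ar1_B D (fun n => 2 ^ n) k k0 ksym
      have h1 : ∑ n ∈ Finset.range D, (2 ^ (n + 1) + 2 ^ (2 * D + 2 - (n + 1))) * k (n + 1) =
          ∑ n ∈ Finset.range D, (2 ^ (n + 1) + 2 ^ (2 * D + 2 - (n + 1))) * s (n + 1) +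
          ∑ j ∈ J, ∑ n ∈ Finset.range D, (2 ^ (n + 1) + 2 ^ (2 * D + 2 - (n + 1))) *
            (min (min n (a j)) (2 * D + 1 - n) + 1) := by
        rw [Finset.sum_comm, ← Finset.sum_add_distrib]
        apply Finset.sum_congr rfl
        intro n hn
        rw [hk n hn, mul_add, ← Finset.mul_sum]
      have h2 : ∑ j ∈ J, ∑ n ∈ Finset.range (2 * D + 2),
            2 ^ n * (min (min n (a j)) (2 * D + 1 - n) + 1) =
          ∑ j ∈ J, ∑ n ∈ Finset.range D, (2 ^ (n + 1) + 2 ^ (2 * D + 2 - (n + 1))) *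
            (min (min n (a j)) (2 * D + 1 - n) + 1) +
          ∑ j ∈ J, 2 ^ (D + 1) * (min (min D (a j)) (2 * D + 1 - D) + 1) +
          ∑ j ∈ J, (2 ^ (a j + 1) - 2) + J.card := by
        rw [Finset.card_eq_sum_ones, ← Finset.sum_add_distrib, ← Finset.sum_add_distrib,
          ← Finset.sum_add_distrib]
        exact Finset.sum_congr rfl (fun j hj => ar1_I1b D (a j) (haD j hj))
      have h3 : ∑ j ∈ J, (2 ^ (a j + 1) - 2) =
          ∑ j ∈ J.filter (fun j => 1 ≤ a j), (2 ^ (a j + 1) - 2) := by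
        symm
        apply Finset.sum_subset (Finset.filter_subset _ _)
        intro j hj hj2
        have : a j = 0 := by
          by_contra h
          exact hj2 (Finset.mem_filter.2 ⟨hj, by omega⟩)
        rw [this]
        norm_num
      have h6 : 2 ^ (D + 1) * k (D + 1) = 2 ^ (D + 1) * s (D + 1) +
          ∑ j ∈ J, 2 ^ (D + 1) * (min (min D (a j)) (2 * D + 1 - D) + 1) := by
        rw [hkD, mul_add, Finset.mul_sum]
      have e4 : 2 * D + 1 + 2 = 2 * D + 3 := by ring
      have e5 : 2 * D + 1 + 1 = 2 * D + 2 := by ring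
      rw [e4, hA, h1, h6]
      rw [e5, h2, h3]
      rw [e5] at hG
      omega

end

end KLE
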