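import Pool.Agent.KLE.X12

/-! Row EO1 of board te_modules. -/

set_option autoImplicit false

open scoped BigOperators RealInnerProductSpace

namespace KLE

noncomputable section

open Classical

open Pool.Agent.KST (Fn X Par)

private theorem EO1_X_apply {ι : Type} (l : ι) (f : Fn ι) (e : ι → ℤ) :
    X l f e = (if 0 ≤ e l then f (Function.update e l (e l + 1)) else 0) -
      (if e l ≤ 0 then f (Function.update e l (e l - 1)) else 0) := rfl

private theorem EO1_upd {ι : Type} (e : ι → ℤ) (l : ι) (c : ℤ) :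
    Function.update (-e) l (-c) = -(Function.update e l c) := by
  funext k
  by_cases h : k = l
  · subst h
    simp
  · simp [Function.update_of_ne h]

private theorem EO1_X_par {ι : Type} (l : ι) (c : ℝ) {f : Fn ι} (hf : f ∈ Par ι c) :
    X l f ∈ Par ι (-c) := by
  intro e
  have hf' : ∀ e, f (-e) = c * f e := hf
  rw [EO1_X_apply, EO1_X_apply]
  have e1 : Function.update (-e) l ((-e) l + 1) = -(Function.update e l (e l - 1)) := by
    rw [← EO1_upd]
    congr 1
    simp only [Pi.neg_apply]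
    ring
  have e2 : Function.update (-e) l ((-e) l - 1) = -(Function.update e l (e l + 1)) := by
    rw [← EO1_upd]
    congr 1
    simp only [Pi.neg_apply]
    ring
  rw [e1, e2, hf', hf']
  simp only [Pi.neg_apply, Left.nonneg_neg_iff, Left.neg_nonpos_iff]
  split_ifs <;> ring

/-- reflection -/
private def EO1_R (ι : Type) : Fn ι →ₗ[ℝ] Fn ι where
  toFun f e := f (-e)
  map_add' f g := by funext e; rfl
  map_smul' c f := by funext e; rfl

private theorem EO1_fin {ι : Type} [Fintype ι] (K : ι → CapD ι) (T : Finset ι) (q : ℕ) :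
    FiniteDimensional ℝ ↥(VV K T q) := by
  refine FiniteDimensional.span_of_finite ℝ ?_
  refine Set.Finite.subset
    (((T.image (fun j => pw (K j).σ (K j).lam q)) ∪
      (T.image (fun j => pw (-(K j).σ) (K j).lam q))).finite_toSet) ?_
  rintro f ⟨j, hj, h | h⟩
  · simp only [Finset.coe_union, Finset.coe_image, Set.mem_union, Set.mem_image]
    exact Or.inl ⟨j, hj, h.symm⟩
  · simp only [Finset.coe_union, Finset.coe_image, Set.mem_union, Set.mem_image]
    exact Or.inr ⟨j, hj, h.symm⟩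

private theorem EO1_R_mem {ι : Type} [Fintype ι] (K : ι → CapD ι) (T : Finset ι) (q : ℕ)
    {f : Fn ι} (hf : f ∈ VV K T q) : EO1_R ι f ∈ VV K T q := by
  have h : VV K T q ≤ (VV K T q).comap (EO1_R ι) := by
    unfold VV
    rw [Submodule.span_le]
    rintro f ⟨j, hj, h | h⟩
    · refine Submodule.subset_span ⟨j, hj, Or.inr ?_⟩
      funext e
      rw [pw_neg, h]
      rfl
    · refine Submodule.subset_span ⟨j, hj, Or.inl ?_⟩
      funext e
      show f (-e) = _
      rw [h, pw_neg, neg_neg]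
  exact h hf

/-- even and odd part -/
private theorem EO1_split {ι : Type} [Fintype ι] (K : ι → CapD ι) (T : Finset ι) (q : ℕ)
    {f : Fn ι} (hf : f ∈ VV K T q) : ∃ g h : Fn ι, g ∈ VV K T q ⊓ Par ι 1 ∧
      h ∈ VV K T q ⊓ Par ι (-1) ∧ f = g + h := by
  refine ⟨(2 : ℝ)⁻¹ • (f + EO1_R ι f), (2 : ℝ)⁻¹ • (f - EO1_R ι f),
    ⟨?_, ?_⟩, ⟨?_, ?_⟩, ?_⟩
  · exact Submodule.smul_mem _ _ (Submodule.add_mem _ hf (EO1_R_mem K T q hf))
  · intro e
    show (2 : ℝ)⁻¹ * (f (-e) + f (-(-e))) = 1 * ((2 : ℝ)⁻¹ * (f e + f (-e)))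
    rw [neg_neg]; ring
  · exact Submodule.smul_mem _ _ (Submodule.sub_mem _ hf (EO1_R_mem K T q hf))
  · intro e
    show (2 : ℝ)⁻¹ * (f (-e) - f (-(-e))) = (-1) * ((2 : ℝ)⁻¹ * (f e - f (-e)))
    rw [neg_neg]; ring
  · funext e
    show f e = (2 : ℝ)⁻¹ * (f e + f (-e)) + (2 : ℝ)⁻¹ * (f e - f (-e))
    ring

private theorem EO1_disj {ι : Type} {f : Fn ι} (h1 : f ∈ Par ι 1) (h2 : f ∈ Par ι (-1)) :
    f = 0 := by
  funext e
  have a : f (-e) = 1 * f e := h1 e
  have b : f (-e) = (-1) * f e := h2 e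
  show f e = 0
  linarith

/-- EO1 (uses X1, X2) -/
theorem hf_le_odd {ι : Type} [Fintype ι] (K : ι → CapD ι) (T : Finset ι) (q : ℕ)
    (hK : ∀ j ∈ T, ∃ l, (K j).σ l ≠ 0 ∧ (K j).lam l ≠ 0) :
    hf K T q ≤ Module.finrank ℝ ↥(VV K T q ⊓ Par ι (-1)) +
      Module.finrank ℝ ↥(VV K T (q + 1) ⊓ Par ι (-1)) := by
  have := EO1_fin K T q
  have := EO1_fin K T (q + 1)
  have : FiniteDimensional ℝ ↥(VV K T q ⊓ Par ι (-1)) :=
    Submodule.finiteDimensional_of_le inf_le_left
  have : FiniteDimensional ℝ ↥(VV K T q ⊓ Par ι 1) :=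
    Submodule.finiteDimensional_of_le inf_le_left
  have : FiniteDimensional ℝ ↥(VV K T (q + 1) ⊓ Par ι (-1)) :=
    Submodule.finiteDimensional_of_le inf_le_left
  -- generic coefficients
  obtain ⟨φ, hφ⟩ := Module.exists_dual_forall_apply_ne_zero (K := ℝ) (M := ι → ℝ)
    (fun j : {j // j ∈ T} => fun l => (((K j.1).σ l : SignType) : ℝ) * (K j.1).lam l)
    (by
      intro j h
      obtain ⟨l, h1, h2⟩ := hK j.1 j.2
      have h3 := congrFun h l
      simp only [Pi.zero_apply, mul_eq_zero] at h3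
      rcases h3 with h3 | h3
      · rcases hs : (K j.1).σ l with _ | _ | _
        · exact h1 hs
        · rw [hs] at h3; norm_num at h3
        · rw [hs] at h3; norm_num at h3
      · exact h2 h3)
  set al : ι → ℝ := fun l => φ (Pi.single l 1) with hal
  have hφ' : ∀ v : ι → ℝ, φ v = ∑ l, al l * v l := by
    intro v
    conv_lhs => rw [show v = ∑ l, v l • (Pi.single l (1 : ℝ) : ι → ℝ) from by
      funext k
      simp [Finset.sum_apply, Pi.single_apply]]
    rw [map_sum]
    exact Finset.sum_congr rfl fun l _ => by rw [map_smul, smul_eq_mul, mul_comm]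
  set Z : Fn ι →ₗ[ℝ] Fn ι := ∑ l, al l • X l with hZ
  have hZpw : ∀ (σ : ι → SignType) (lam : ι → ℝ), Z (pw σ lam (q + 1)) =
      (∑ l, al l * (((σ l : SignType) : ℝ) * lam l)) • pw σ lam q := by
    intro σ lam
    rw [hZ, LinearMap.sum_apply, Finset.sum_smul]
    refine Finset.sum_congr rfl fun l _ => ?_
    rw [LinearMap.smul_apply, X_pw, smul_smul]
  have hZpar : ∀ (c : ℝ) (f : Fn ι), f ∈ Par ι c → Z f ∈ Par ι (-c) := by
    intro c f hf
    rw [hZ, LinearMap.sum_apply]
    exact Submodule.sum_mem _ fun l _ => by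
      rw [LinearMap.smul_apply]
      exact Submodule.smul_mem _ _ (EO1_X_par l c hf)
  -- Z maps V (q+1) onto V q
  have hmap : VV K T q ≤ (VV K T (q + 1)).map Z := by
    conv_lhs => unfold VV
    rw [Submodule.span_le]
    rintro f ⟨j, hj, h | h⟩
    · have hne : (∑ l, al l * ((((K j).σ l : SignType) : ℝ) * (K j).lam l)) ≠ 0 := by
        have := hφ ⟨j, hj⟩
        rw [hφ'] at this
        exact this
      refine ⟨(∑ l, al l * ((((K j).σ l : SignType) : ℝ) * (K j).lam l))⁻¹ •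
        pw (K j).σ (K j).lam (q + 1), ?_, ?_⟩
      · exact Submodule.smul_mem _ _ (Submodule.subset_span ⟨j, hj, Or.inl rfl⟩)
      · rw [map_smul, hZpw, smul_smul, inv_mul_cancel₀ hne, one_smul, h]
    · have hne : (∑ l, al l * ((((-(K j).σ) l : SignType) : ℝ) * (K j).lam l)) ≠ 0 := by
        have := hφ ⟨j, hj⟩
        rw [hφ'] at this
        intro h0
        apply this
        rw [← neg_eq_zero, ← Finset.sum_neg_distrib, ← h0]
        refine Finset.sum_congr rfl fun l _ => ?_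
        simp only [Pi.neg_apply]
        rcases (K j).σ l with _ | _ | _ <;> simp
      refine ⟨(∑ l, al l * ((((-(K j).σ) l : SignType) : ℝ) * (K j).lam l))⁻¹ •
        pw (-(K j).σ) (K j).lam (q + 1), ?_, ?_⟩
      · exact Submodule.smul_mem _ _ (Submodule.subset_span ⟨j, hj, Or.inr rfl⟩)
      · rw [map_smul, hZpw, smul_smul, inv_mul_cancel₀ hne, one_smul, h]
  -- the even part of V q is in the image of the odd part of V (q+1)
  have heven : VV K T q ⊓ Par ι 1 ≤ (VV K T (q + 1) ⊓ Par ι (-1)).map Z := by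
    intro f hf
    obtain ⟨g, hg, hgf⟩ := hmap hf.1
    obtain ⟨u, v, hu, hv, huv⟩ := EO1_split K T (q + 1) hg
    refine ⟨v, hv, ?_⟩
    have h1 : Z u ∈ Par ι (-1) := hZpar 1 u hu.2
    have h2 : Z v ∈ Par ι 1 := by
      have := hZpar (-1) v hv.2
      rwa [neg_neg] at this
    have h3 : Z u = f - Z v := by
      rw [← hgf, huv, map_add]; abel
    have h4 : Z u ∈ Par ι 1 := by
      rw [h3]
      exact Submodule.sub_mem _ hf.2 h2
    have h5 : Z u = 0 := EO1_disj h4 h1
    rw [← hgf, huv, map_add, h5, zero_add]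
  have h1 : Module.finrank ℝ ↥(VV K T q ⊓ Par ι 1) ≤
      Module.finrank ℝ ↥(VV K T (q + 1) ⊓ Par ι (-1)) :=
    (Submodule.finrank_mono heven).trans (Submodule.finrank_map_le Z _)
  have h2 : VV K T q ≤ (VV K T q ⊓ Par ι (-1)) ⊔ (VV K T q ⊓ Par ι 1) := by
    intro f hf
    obtain ⟨u, v, hu, hv, huv⟩ := EO1_split K T q hf
    rw [huv, add_comm]
    exact Submodule.add_mem_sup hv hu
  calc hf K T q ≤ Module.finrank ℝ
        ↥((VV K T q ⊓ Par ι (-1)) ⊔ (VV K T q ⊓ Par ι 1)) := Submodule.finrank_mono h2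
    _ ≤ Module.finrank ℝ ↥(VV K T q ⊓ Par ι (-1)) + Module.finrank ℝ ↥(VV K T q ⊓ Par ι 1) :=
        Submodule.finrank_add_le_finrank_add_finrank _ _
    _ ≤ _ := by omega

end

end KLE
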