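import Pool.Agent.KLE.Defs

/-!
# The Hilbert function of the power functions is the Hilbert function of points
-/

set_option autoImplicit false

open scoped BigOperators RealInnerProductSpace

namespace KLE

noncomputable section

open Classical

open Pool.Agent.KST (E Fn)

/-- row rank equals column rank -/
theorem rank_swap {κ S : Type} [Fintype κ] (v : κ → S → ℝ) :
    Module.finrank ℝ (Submodule.span ℝ (Set.range v)) =
      Module.finrank ℝ (Submodule.span ℝ (Set.range (fun s : S => fun p : κ => v p s))) := by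
  let Φ : (κ → ℝ) →ₗ[ℝ] (S → ℝ) := Fintype.linearCombination ℝ v
  have hΦ : ∀ c s, Φ c s = ∑ p, c p * v p s := by
    intro c s
    simp [Φ, Fintype.linearCombination_apply, Finset.sum_apply]
  let w : (κ → ℝ) ≃ₗ[ℝ] EuclideanSpace ℝ κ := (WithLp.linearEquiv 2 ℝ (κ → ℝ)).symm
  let U : Submodule ℝ (κ → ℝ) := Submodule.span ℝ (Set.range (fun s : S => fun p : κ => v p s))
  have h1 : Module.finrank ℝ (LinearMap.range Φ) + Module.finrank ℝ (LinearMap.ker Φ) =
      Fintype.card κ := by
    rw [LinearMap.finrank_range_add_finrank_ker, Module.finrank_fintype_fun_eq_card]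
  have h2 : LinearMap.range Φ = Submodule.span ℝ (Set.range v) :=
    Fintype.range_linearCombination ℝ v
  have h3 : (LinearMap.ker Φ).map (w : (κ → ℝ) →ₗ[ℝ] EuclideanSpace ℝ κ) =
      (U.map (w : (κ → ℝ) →ₗ[ℝ] EuclideanSpace ℝ κ))ᗮ := by
    have hin : ∀ c u : κ → ℝ, inner ℝ (w u) (w c) = ∑ p, c p * u p := by
      intro c u
      rw [PiLp.inner_apply]
      exact Finset.sum_congr rfl fun p _ => rfl
    ext y
    rw [Submodule.mem_orthogonal]
    constructor
    · rintro ⟨c, hc, rfl⟩ u hu
      obtain ⟨u', hu', rfl⟩ := hu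
      show inner ℝ (w u') (w c) = 0
      rw [hin]
      refine Submodule.span_induction (p := fun u' _ => ∑ p, c p * u' p = 0) ?_ ?_ ?_ ?_ hu'
      · rintro _ ⟨s, rfl⟩
        rw [← hΦ]
        exact congrFun (LinearMap.mem_ker.1 hc) s
      · simp
      · intro a b _ _ ha hb
        simp only [Pi.add_apply, mul_add, Finset.sum_add_distrib, ha, hb, add_zero]
      · intro r a _ ha
        have : ∑ p, c p * (r • a) p = r * ∑ p, c p * a p := by
          rw [Finset.mul_sum]
          exact Finset.sum_congr rfl fun p _ => by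
            simp only [Pi.smul_apply, smul_eq_mul]; ring
        rw [this, ha, mul_zero]
    · intro h
      refine ⟨w.symm y, ?_, by simp⟩
      show Φ (w.symm y) = 0
      funext s
      rw [hΦ, ← hin]
      have := h (w (fun p => v p s)) ⟨fun p => v p s, Submodule.subset_span ⟨s, rfl⟩, rfl⟩
      rw [LinearEquiv.apply_symm_apply]
      exact this
  have h4 : Module.finrank ℝ (U.map (w : (κ → ℝ) →ₗ[ℝ] EuclideanSpace ℝ κ)) =
      Module.finrank ℝ U := LinearEquiv.finrank_map_eq w U
  have h5 : Module.finrank ℝ ((LinearMap.ker Φ).map (w : (κ → ℝ) →ₗ[ℝ] EuclideanSpace ℝ κ)) =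
      Module.finrank ℝ (LinearMap.ker Φ) := LinearEquiv.finrank_map_eq w _
  have h6 := Submodule.finrank_add_finrank_orthogonal
    (U.map (w : (κ → ℝ) →ₗ[ℝ] EuclideanSpace ℝ κ))
  rw [← h3, h4, h5, finrank_euclideanSpace] at h6
  rw [← h2]
  show Module.finrank ℝ (LinearMap.range Φ) = Module.finrank ℝ U
  omega

variable {ι : Type} [Fintype ι]

/-- a sign as a Boolean -/
private def H6s (s : Bool) : SignType := if s then 1 else -1

/-- the sign vector of the point `(j, s)` -/
private def H6t (K : ι → CapD ι) (j : ι) (s : Bool) : ι → SignType :=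
  if s then (K j).σ else -(K j).σ

/-- the exponents of an integer vector -/
private def H6m (e : ι → ℤ) (p : ι × Bool) : ℕ :=
  if p.2 then (e p.1).toNat else (-(e p.1)).toNat

/-- the coordinates of the point `(j, s)` -/
private def H6x (K : ι → CapD ι) (j : ι) (s : Bool) (p : ι × Bool) : ℝ :=
  if H6t K j s p.1 = H6s p.2 then (K j).lam p.1 else 0

private theorem H6_deg (e : ι → ℤ) : ∑ p : ι × Bool, H6m e p = ∑ l, (e l).natAbs := by
  rw [Fintype.sum_prod_type]
  refine Finset.sum_congr rfl fun l _ => ?_
  simp only [Fintype.sum_bool, H6m]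
  simp

private theorem H6_ev (K : ι → CapD ι) (j : ι) (s : Bool) (q : ℕ) (e : ι → ℤ)
    (he : ∑ l, (e l).natAbs = q) :
    ∏ p : ι × Bool, H6x K j s p ^ H6m e p = pw (H6t K j s) (K j).lam q e := by
  rw [Fintype.prod_prod_type]
  unfold pw
  by_cases h : ∀ l, e l ≠ 0 → SignType.sign (e l) = H6t K j s l
  · rw [if_pos ⟨he, h⟩]
    refine Finset.prod_congr rfl fun l _ => ?_
    simp only [Fintype.prod_bool, H6m, H6x, H6s, if_true]
    rcases lt_trichotomy (e l) 0 with h1 | h1 | h1
    · have h2 := h l (by omega)
      rw [sign_neg h1] at h2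
      have h3 : (e l).toNat = 0 := by omega
      have h4 : (-(e l)).toNat = (e l).natAbs := by omega
      simp [h3, h4, ← h2]
    · simp [h1]
    · have h2 := h l (by omega)
      rw [sign_pos h1] at h2
      have h3 : (-(e l)).toNat = 0 := by omega
      have h4 : (e l).toNat = (e l).natAbs := by omega
      simp [h3, h4, ← h2]
  · rw [if_neg (fun h' => h h'.2)]
    push Not at h
    obtain ⟨l, hl, hs⟩ := h
    refine Finset.prod_eq_zero (Finset.mem_univ l) ?_
    simp only [Fintype.prod_bool, H6m, H6x, H6s, if_true]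
    rcases lt_or_gt_of_ne hl with h1 | h1
    · rw [sign_neg h1] at hs
      have h4 : (-(e l)).toNat ≠ 0 := by omega
      have h5 : H6t K j s l ≠ -1 := fun h => hs h.symm
      simp [h5, h4]
    · rw [sign_pos h1] at hs
      have h4 : (e l).toNat ≠ 0 := by omega
      have h5 : H6t K j s l ≠ 1 := fun h => hs h.symm
      simp [h5, h4]

/-- H6 -/
theorem hf_points (K : ι → CapD ι) (T : Finset ι) :
    ∃ (κ : Type) (_ : Fintype κ) (N : ℕ) (x : κ → Fin N → ℝ), ∀ q, hf K T q = HF x q := by
  let eq : ι × Bool ≃ Fin (Fintype.card (ι × Bool)) := Fintype.equivFin _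
  refine ⟨↥T × Bool, inferInstance, Fintype.card (ι × Bool),
    fun p i => H6x K p.1 p.2 (eq.symm i), fun q => ?_⟩
  let v : ↥T × Bool → Fn ι := fun p => pw (H6t K p.1 p.2) (K p.1).lam q
  have h1 : VV K T q = Submodule.span ℝ (Set.range v) := by
    unfold VV
    congr 1
    ext f
    constructor
    · rintro ⟨j, hj, rfl | rfl⟩
      · exact ⟨(⟨j, hj⟩, true), by simp [v, H6t]⟩
      · exact ⟨(⟨j, hj⟩, false), by simp [v, H6t]⟩
    · rintro ⟨⟨⟨j, hj⟩, s⟩, rfl⟩
      refine ⟨j, hj, ?_⟩
      cases s
      · right; simp [v, H6t]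
      · left; simp [v, H6t]
  have hdeg : ∀ m : Fin (Fintype.card (ι × Bool)) → ℕ, deg m = ∑ p, m (eq p) := by
    intro m
    exact (Equiv.sum_comp eq m).symm
  have hev : ∀ m : Fin (Fintype.card (ι × Bool)) → ℕ, ∀ p : ↥T × Bool,
      ev (fun p i => H6x K p.1 p.2 (eq.symm i)) m p = ∏ a, H6x K p.1 p.2 a ^ m (eq a) := by
    intro m p
    unfold ev
    rw [← Equiv.prod_comp eq]
    exact Finset.prod_congr rfl fun a _ => by
      show H6x K p.1 p.2 (eq.symm (eq a)) ^ m (eq a) = _
      rw [Equiv.symm_apply_apply]
  have h2 : Submodule.span ℝ (Set.range (fun e : ι → ℤ => fun p : ↥T × Bool => v p e)) =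
      Submodule.span ℝ {u : ↥T × Bool → ℝ | ∃ m : Fin (Fintype.card (ι × Bool)) → ℕ,
        deg m = q ∧ u = ev (fun p i => H6x K p.1 p.2 (eq.symm i)) m} := by
    apply le_antisymm
    · rw [Submodule.span_le]
      rintro _ ⟨e, rfl⟩
      by_cases he : ∑ l, (e l).natAbs = q
      · refine Submodule.subset_span ⟨fun i => H6m e (eq.symm i), ?_, ?_⟩
        · rw [hdeg]
          simp only [Equiv.symm_apply_apply]
          rw [H6_deg, he]
        · funext p
          rw [hev]
          simp only [Equiv.symm_apply_apply]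
          rw [H6_ev K p.1 p.2 q e he]
      · have h3 : (fun p : ↥T × Bool => v p e) = 0 := by
          funext p
          simp only [v, pw]
          rw [if_neg (fun h => he h.1)]
          rfl
        show (fun p : ↥T × Bool => v p e) ∈ _
        rw [h3]
        exact Submodule.zero_mem _
    · rw [Submodule.span_le]
      rintro _ ⟨m, hm, rfl⟩
      by_cases hb : ∃ l, m (eq (l, true)) ≠ 0 ∧ m (eq (l, false)) ≠ 0
      · obtain ⟨l, hl1, hl2⟩ := hb
        have h3 : ev (fun (p : ↥T × Bool) i => H6x K p.1 p.2 (eq.symm i)) m = 0 := by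
          funext p
          rw [hev]
          show _ = (0 : ℝ)
          by_cases hs : H6t K p.1 p.2 l = 1
          · refine Finset.prod_eq_zero (Finset.mem_univ (l, false)) ?_
            simp only [H6x, H6s, hs]
            simp [hl2]
          · refine Finset.prod_eq_zero (Finset.mem_univ (l, true)) ?_
            simp only [H6x, H6s]
            simp [hs, hl1]
        rw [h3]
        exact Submodule.zero_mem _
      · push Not at hb
        let e : ι → ℤ := fun l => (m (eq (l, true)) : ℤ) - (m (eq (l, false)) : ℤ)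
        have hme : ∀ a, m (eq a) = H6m e a := by
          rintro ⟨l, s⟩
          have h3 := hb l
          by_cases h4 : m (eq (l, true)) = 0
          · cases s
            · simp only [H6m, e, h4]; simp
            · simp only [H6m, e, h4]; simp
          · have h5 := h3 h4
            cases s
            · simp only [H6m, e, h5]; simp
            · simp only [H6m, e, h5]; simp
        have he : ∑ l, (e l).natAbs = q := by
          rw [← H6_deg, ← hm, hdeg]
          exact Finset.sum_congr rfl fun a _ => (hme a).symm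
        refine Submodule.subset_span ⟨e, ?_⟩
        funext p
        rw [hev]
        simp only [hme, v]
        rw [H6_ev K p.1 p.2 q e he]
  unfold hf HF
  rw [h1, rank_swap v, h2]

end

end KLE
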