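import Pool.Agent.KLE.H23
import Pool.Agent.KLE.H6

/-! KLE rows G1, G2, G0. -/

set_option autoImplicit false

open scoped BigOperators RealInnerProductSpace

namespace KLE

noncomputable section

open Classical

/-- G1 (uses H2, H6) -/
theorem hf_growth {ι : Type} [Fintype ι] (K : ι → CapD ι) (T : Finset ι) (q z : ℕ) (hq : 1 ≤ q)
    (hle : hf K T q ≤ (z + q).choose q) : (q + 1) * hf K T (q + 1) ≤ (z + q + 1) * hf K T q := by
  obtain ⟨κ, _, N, x, hx⟩ := hf_points K T
  rw [hx] at hle ⊢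
  rw [hx]
  exact HF_growth x q z hq hle

/-- G2 (uses H3, H6) -/
theorem hf_two {ι : Type} [Fintype ι] (K : ι → CapD ι) (T : Finset ι) :
    2 * hf K T 2 ≤ hf K T 1 * (hf K T 1 + 1) := by
  obtain ⟨κ, _, N, x, hx⟩ := hf_points K T
  rw [hx, hx]
  exact HF_two x

/-- G0 -/
theorem hf_mono {ι : Type} [Fintype ι] (K : ι → CapD ι) {T T' : Finset ι} (h : T ⊆ T') (q : ℕ) :
    hf K T q ≤ hf K T' q := by
  have hfin : {f | ∃ j ∈ T', f = pw (K j).σ (K j).lam q ∨
      f = pw (-(K j).σ) (K j).lam q}.Finite := by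
    have h1 : {f | ∃ j ∈ T', f = pw (K j).σ (K j).lam q ∨ f = pw (-(K j).σ) (K j).lam q} ⊆
        (fun j => pw (K j).σ (K j).lam q) '' (T' : Set ι) ∪
        (fun j => pw (-(K j).σ) (K j).lam q) '' (T' : Set ι) := by
      rintro f ⟨j, hj, hf | hf⟩
      · exact Or.inl ⟨j, hj, hf.symm⟩
      · exact Or.inr ⟨j, hj, hf.symm⟩
    exact ((T'.finite_toSet.image _).union (T'.finite_toSet.image _)).subset h1
  have : FiniteDimensional ℝ (VV K T' q) := FiniteDimensional.span_of_finite ℝ hfin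
  refine Submodule.finrank_mono (Submodule.span_mono ?_)
  rintro f ⟨j, hj, hf⟩
  exact ⟨j, h hj, hf⟩

end

end KLE
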