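import Pool.Agent.KLE.Defs

/-!
# G3: separation of the power functions
-/

set_option autoImplicit false

open scoped BigOperators

namespace KLE

noncomputable section

open Classical

open Pool.Agent.KST (E IsCell Cells Verts Simple Pol pt PP Gen Star VF Low LowF hh Fn FF Ker
  Par Le sgn supp EE X D)

/-- the point at which the power functions of the cap `K` are not zero -/
def ePt {ι : Type} (K : CapD ι) (s : ℤ) : ι → ℤ := fun l =>
  if l ∈ K.I then s * ((K.σ l : SignType) : ℤ) else 0

instance VV_fin {ι : Type} [Fintype ι] (K : ι → CapD ι) (T : Finset ι) (q : ℕ) :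
    Module.Finite ℝ (VV K T q) := by
  unfold VV
  apply Module.Finite.span_of_finite
  apply Set.Finite.subset (s := (T.image (fun j => pw (K j).σ (K j).lam q) ∪
    T.image (fun j => pw (-(K j).σ) (K j).lam q) : Finset (Fn ι)))
  · exact Finset.finite_toSet _
  · rintro f ⟨j, hj, h | h⟩
    · rw [Finset.coe_union]
      exact Or.inl (by rw [Finset.mem_coe, h]; exact Finset.mem_image_of_mem _ hj)
    · rw [Finset.coe_union]
      exact Or.inr (by rw [Finset.mem_coe, h]; exact Finset.mem_image_of_mem _ hj)

theorem sign_sq {s : ℤ} (hs : s = 1 ∨ s = -1) (x : SignType) :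
    SignType.sign (s * (x : ℤ)) = SignType.sign s * x := by
  rcases hs with rfl | rfl <;> revert x <;> decide

/-- values of the power functions at the points `ePt` -/
theorem pw_ePt {ι : Type} [Fintype ι] (K K' : CapD ι) (s t : ℤ) (hs : s = 1 ∨ s = -1)
    (ht : t = 1 ∨ t = -1) (q : ℕ)
    (h : pw (fun l => SignType.sign t * K'.σ l) K'.lam q (ePt K s) ≠ 0) :
    ∀ l ∈ K.I, K.σ l ≠ 0 → K'.σ l = SignType.sign (s * t) * K.σ l := by
  intro l hl hl0
  unfold pw at h
  split_ifs at h with hc
  · have h1 := hc.2 l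
    have he : ePt K s l = s * ((K.σ l : SignType) : ℤ) := if_pos hl
    rw [he, sign_sq hs] at h1
    have hne : s * ((K.σ l : SignType) : ℤ) ≠ 0 := by
      intro h0
      rcases mul_eq_zero.mp h0 with h0 | h0
      · rcases hs with rfl | rfl <;> omega
      · apply hl0
        revert h0
        generalize K.σ l = x
        revert x
        decide
    have h2 : SignType.sign s * K.σ l = SignType.sign t * K'.σ l := h1 hne
    revert h2
    generalize K.σ l = x
    generalize K'.σ l = y
    rcases hs with rfl | rfl <;> rcases ht with rfl | rfl <;> revert x y <;> decide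
  · exact absurd rfl h

theorem pw_ePt_self {ι : Type} [Fintype ι] (K : CapD ι) (s : ℤ) (hs : s = 1 ∨ s = -1) (q : ℕ)
    (hq : K.I.card = q) (hI : ∀ l ∈ K.I, K.σ l ≠ 0) (hlam : ∀ l ∈ K.I, K.lam l ≠ 0) :
    pw (fun l => SignType.sign s * K.σ l) K.lam q (ePt K s) ≠ 0 := by
  have habs : ∀ l ∈ K.I, (ePt K s l).natAbs = 1 := by
    intro l hl
    have he : ePt K s l = s * ((K.σ l : SignType) : ℤ) := if_pos hl
    rw [he]
    have := hI l hl
    revert this
    generalize K.σ l = x
    rcases hs with rfl | rfl <;> revert x <;> decide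
  have hzero : ∀ l, l ∉ K.I → ePt K s l = 0 := fun l hl => if_neg hl
  unfold pw
  rw [if_pos]
  · rw [Finset.prod_ne_zero_iff]
    intro l _
    by_cases hl : l ∈ K.I
    · rw [habs l hl, pow_one]
      exact hlam l hl
    · rw [hzero l hl]
      simp
  · constructor
    · rw [← hq, Finset.card_eq_sum_ones, ← Finset.sum_subset (Finset.subset_univ K.I)]
      · exact Finset.sum_congr rfl habs
      · intro l _ hl
        rw [hzero l hl]
        rfl
    · intro l hl
      by_cases hlI : l ∈ K.I
      · have he : ePt K s l = s * ((K.σ l : SignType) : ℤ) := if_pos hlI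
        rw [he, sign_sq hs]
      · exact absurd (hzero l hlI) hl

/-- G3 -/
theorem hf_sep {ι : Type} [Fintype ι] {d : ℕ} {b : ι → E (d + 1)} {J : Finset ι}
    {K : ι → CapD ι} (hF : Fam b J K) (c : ℕ) {T T' : Finset ι} (hT : T ⊆ J) (hT' : T' ⊆ T)
    (ha : ∀ j ∈ T', (K j).a = c) : 2 * T'.card ≤ hf K T (c + 1) := by
  -- the signs
  let sg : Bool → ℤ := fun e => if e then 1 else -1
  have hsg : ∀ e, sg e = 1 ∨ sg e = -1 := by intro e; cases e <;> simp [sg]
  let g : (T' × Bool) → Fn ι := fun p =>
    pw (fun l => SignType.sign (sg p.2) * (K p.1.1).σ l) (K p.1.1).lam (c + 1)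
  have hgmem : ∀ p, g p ∈ VV K T (c + 1) := by
    rintro ⟨⟨j, hj⟩, e⟩
    apply Submodule.subset_span
    refine ⟨j, hT' hj, ?_⟩
    cases e
    · right
      show pw (fun l => SignType.sign (-1 : ℤ) * (K j).σ l) (K j).lam (c + 1) = _
      refine congrArg (fun σ => pw σ (K j).lam (c + 1)) ?_
      funext l
      show SignType.sign (-1 : ℤ) * (K j).σ l = - (K j).σ l
      generalize (K j).σ l = x
      revert x
      decide
    · left
      show pw (fun l => SignType.sign (1 : ℤ) * (K j).σ l) (K j).lam (c + 1) = _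
      refine congrArg (fun σ => pw σ (K j).lam (c + 1)) ?_
      funext l
      show SignType.sign (1 : ℤ) * (K j).σ l = (K j).σ l
      generalize (K j).σ l = x
      revert x
      decide
  have hI : ∀ j ∈ T', ∀ l ∈ (K j).I, (K j).σ l ≠ 0 := by
    intro j hj l hl
    have h := (hF.cap j (hT (hT' hj))).hI hl
    simpa [supp] using h
  have hdiag : ∀ p, g p (ePt (K p.1.1) (sg p.2)) ≠ 0 := by
    rintro ⟨⟨j, hj⟩, e⟩
    have hcap := hF.cap j (hT (hT' hj))
    refine pw_ePt_self (K j) (sg e) (hsg e) (c + 1) ?_ (hI j hj) ?_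
    · rw [hcap.hIa, ha j hj]
    · intro l hl
      exact (hcap.hlam l).mpr (hI j hj l hl)
  have hoff : ∀ p p', p ≠ p' → g p (ePt (K p'.1.1) (sg p'.2)) = 0 := by
    rintro ⟨⟨j, hj⟩, e⟩ ⟨⟨j', hj'⟩, e'⟩ hne
    by_contra hcon
    have h := pw_ePt (K j') (K j) (sg e') (sg e) (hsg e') (hsg e) (c + 1) hcon
    have hcap' := hF.cap j' (hT (hT' hj'))
    by_cases hjj : j = j'
    · subst hjj
      have hee : e ≠ e' := by
        intro h'
        exact hne (by rw [h'])
      have hIne : (K j).I.Nonempty := by
        rw [← Finset.card_pos, hcap'.hIa]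
        omega
      obtain ⟨l, hl⟩ := hIne
      have h1 := h l hl (hI j hj l hl)
      have h2 := hI j hj l hl
      revert h1 h2
      generalize (K j).σ l = x
      cases e <;> cases e' <;> simp only [sg, ne_eq, not_true_eq_false, reduceCtorEq,
        Bool.false_eq_true, if_true, if_false] at hee ⊢ <;> revert x <;> decide
    · obtain ⟨⟨l1, hl1, hn1⟩, ⟨l2, hl2, hn2⟩⟩ := hF.priv j' (hT (hT' hj')) j (hT (hT' hj))
        (fun h' => hjj h'.symm)
      have h1 := h l1 hl1 (hI j' hj' l1 hl1)
      have h2 := h l2 hl2 (hI j' hj' l2 hl2)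
      rcases hsg e with he | he <;> rcases hsg e' with he' | he' <;> rw [he, he'] at h1 h2
      · exact hn1 (by rw [h1]; generalize (K j').σ l1 = x; revert x; decide)
      · exact hn2 (by rw [h2]; generalize (K j').σ l2 = x; revert x; decide)
      · exact hn2 (by rw [h2]; generalize (K j').σ l2 = x; revert x; decide)
      · exact hn1 (by rw [h1]; generalize (K j').σ l1 = x; revert x; decide)
  have hli : LinearIndependent ℝ g := by
    rw [Fintype.linearIndependent_iff]
    intro w hw p
    have h := congrFun hw (ePt (K p.1.1) (sg p.2))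
    rw [Finset.sum_apply, Finset.sum_eq_single p] at h
    · rw [Pi.smul_apply, Pi.zero_apply, smul_eq_mul] at h
      exact (mul_eq_zero.mp h).resolve_right (hdiag p)
    · intro p' _ hp'
      rw [Pi.smul_apply, hoff p' p hp', smul_zero]
    · intro h'
      exact absurd (Finset.mem_univ p) h'
  have hfin := finrank_span_eq_card hli
  have hle : Submodule.span ℝ (Set.range g) ≤ VV K T (c + 1) := by
    rw [Submodule.span_le]
    rintro _ ⟨p, rfl⟩
    exact hgmem p
  have hmono := Submodule.finrank_mono hle
  rw [hfin, Fintype.card_prod, Fintype.card_coe, Fintype.card_bool] at hmono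
  unfold hf
  omega

end

end KLE
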