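import Pool.Agent.KLE.K2

/-!
# The growth of the numbers of a cap facet
-/

set_option autoImplicit false

open scoped BigOperators RealInnerProductSpace

namespace KLE

noncomputable section

open Classical

open Pool.Agent.KST (E IsCell Cells Verts Simple Pol pt PP Gen Star VF Low LowF hh Fn FF Ker
  Par Le sgn supp EE X D D_apply mem_Ker X_comm cells_down FF_fin)

private theorem K3_up {ι : Type} (e : ι → ℤ) (l : ι) :
    Function.update e l (e l + 1) = e + Pi.single l 1 := by
  funext k
  by_cases h : k = l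
  · subst h; simp
  · simp [h]

private theorem K3_down {ι : Type} (e : ι → ℤ) (l : ι) :
    Function.update e l (e l - 1) = e - Pi.single l 1 := by
  funext k
  by_cases h : k = l
  · subst h; simp
  · simp [h]

private theorem K3_X {ι : Type} (l : ι) (f : Fn ι) (e : ι → ℤ) :
    X l f e = (if 0 ≤ e l then f (e + Pi.single l 1) else 0) -
      (if e l ≤ 0 then f (e - Pi.single l 1) else 0) := by
  rw [← K3_up, ← K3_down]
  rfl

private theorem K3_mem_EE {ι : Type} [Fintype ι] (C : Finset (ι → SignType)) (n : ℕ)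
    (e : ι → ℤ) : e ∈ EE C n ↔ (∑ l, (e l).natAbs = n) ∧ sgn e ∈ C := by
  unfold EE
  rw [Finset.mem_filter, Fintype.mem_piFinset]
  constructor
  · rintro ⟨_, h⟩
    exact h
  · intro h
    refine ⟨fun l => ?_, h⟩
    have : (e l).natAbs ≤ n := by
      rw [← h.1]
      exact Finset.single_le_sum (f := fun l => (e l).natAbs) (fun _ _ => Nat.zero_le _)
        (Finset.mem_univ l)
    rw [Finset.mem_Icc]
    omega

variable {ι : Type} [Fintype ι] {d : ℕ}

private theorem K3_nm_add (e : ι → ℤ) (l : ι) (h : 0 ≤ e l) :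
    ∑ x, ((e + Pi.single l (1:ℤ) : ι → ℤ) x).natAbs = ∑ x, (e x).natAbs + 1 := by
  rw [← Finset.add_sum_erase _ _ (Finset.mem_univ l),
    ← Finset.add_sum_erase (a := l) _ _ (Finset.mem_univ l)]
  have h1 : ∑ x ∈ Finset.univ.erase l, ((e + Pi.single l (1:ℤ) : ι → ℤ) x).natAbs =
      ∑ x ∈ Finset.univ.erase l, (e x).natAbs := by
    refine Finset.sum_congr rfl fun x hx => ?_
    have : x ≠ l := Finset.ne_of_mem_erase hx
    simp [this]
  rw [h1]
  have : (e + Pi.single l (1:ℤ) : ι → ℤ) l = e l + 1 := by simp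
  rw [this]; omega

private theorem K3_nm_sub (e : ι → ℤ) (l : ι) (h : e l ≤ 0) :
    ∑ x, ((e - Pi.single l (1:ℤ) : ι → ℤ) x).natAbs = ∑ x, (e x).natAbs + 1 := by
  rw [← Finset.add_sum_erase _ _ (Finset.mem_univ l),
    ← Finset.add_sum_erase (a := l) _ _ (Finset.mem_univ l)]
  have h1 : ∑ x ∈ Finset.univ.erase l, ((e - Pi.single l (1:ℤ) : ι → ℤ) x).natAbs =
      ∑ x ∈ Finset.univ.erase l, (e x).natAbs := by
    refine Finset.sum_congr rfl fun x hx => ?_
    have : x ≠ l := Finset.ne_of_mem_erase hx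
    simp [this]
  rw [h1]
  have : (e - Pi.single l (1:ℤ) : ι → ℤ) l = e l - 1 := by simp
  rw [this]; omega

omit [Fintype ι] in
private theorem K3_res_add (e : ι → ℤ) (l : ι) (h : 0 ≤ e l) :
    Le (sgn e) (sgn (e + Pi.single l 1)) := by
  intro k hk
  by_cases hkl : k = l
  · subst hkl
    have h1 : 0 < e k := by
      rcases lt_or_eq_of_le h with h | h
      · exact h
      · exfalso; apply hk; simp [sgn, ← h]
    simp only [sgn, Pi.add_apply, Pi.single_eq_same]
    rw [sign_pos h1, sign_pos (by linarith)]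
  · simp [sgn, hkl]

omit [Fintype ι] in
private theorem K3_res_sub (e : ι → ℤ) (l : ι) (h : e l ≤ 0) :
    Le (sgn e) (sgn (e - Pi.single l 1)) := by
  intro k hk
  by_cases hkl : k = l
  · subst hkl
    have h1 : e k < 0 := by
      rcases lt_or_eq_of_le h with h | h
      · exact h
      · exfalso; apply hk; simp [sgn, h]
    simp only [sgn, Pi.sub_apply, Pi.single_eq_same]
    rw [sign_neg h1, sign_neg (by linarith)]
  · simp [sgn, hkl]

/-- the shift maps functions on a complex to functions on the complex -/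
theorem X_FF {C : Finset (ι → SignType)} (hdown : ∀ s t, t ∈ C → Le s t → s ∈ C)
    (l : ι) (n : ℕ) {f : Fn ι} (hf : f ∈ FF C (n + 1)) : X l f ∈ FF C n := by
  intro e he
  rw [K3_mem_EE] at he
  rw [K3_X]
  have h1 : 0 ≤ e l → f (e + Pi.single l 1) = 0 := by
    intro h
    apply hf
    intro h2
    rw [K3_mem_EE] at h2
    apply he
    refine ⟨?_, hdown _ _ h2.2 (K3_res_add e l h)⟩
    have := h2.1
    rw [K3_nm_add e l h] at this
    omega
  have h2 : e l ≤ 0 → f (e - Pi.single l 1) = 0 := by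
    intro h
    apply hf
    intro h2
    rw [K3_mem_EE] at h2
    apply he
    refine ⟨?_, hdown _ _ h2.2 (K3_res_sub e l h)⟩
    have := h2.1
    rw [K3_nm_sub e l h] at this
    omega
  split_ifs with h3 h4 h4
  · rw [h1 h3, h2 h4, sub_zero]
  · rw [h1 h3, sub_zero]
  · rw [h2 h4, sub_zero]
  · rw [sub_zero]

/-- the shift preserves the kernel -/
theorem X_Ker (b : ι → E d) (l : ι) {f : Fn ι} (hf : f ∈ Ker b) : X l f ∈ Ker b := by
  rw [mem_Ker] at hf ⊢
  intro y
  have h : D b y (X l f) = X l (D b y f) := by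
    simp only [D, LinearMap.sum_apply, LinearMap.smul_apply, map_sum, map_smul]
    exact Finset.sum_congr rfl fun k _ => by rw [X_comm]
  rw [h, hf y, map_zero]

/-- the closed star is closed under restriction -/
theorem star_down {b : ι → E d} (hS : Simple b) (j : ι) (s t : ι → SignType)
    (ht : t ∈ Star b j) (hle : Le s t) : s ∈ Star b j := by
  unfold Pool.Agent.KST.Star at ht ⊢
  rw [Finset.mem_filter] at ht ⊢
  obtain ⟨h1, u, hu, hlu, huj⟩ := ht
  refine ⟨cells_down hS h1 hle, u, hu, ?_, huj⟩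
  intro l hl
  have h2 := hle l hl
  rw [← h2]
  exact hlu l (by rw [h2]; exact hl)

/-- K3 -/
theorem st_step {b : ι → E (d + 1)} (hS : Simple b) {j : ι}
    {K : CapD ι} (hc : IsCap b j K) (q : ℕ) :
    st b j (q + 1) ≤ st b j q + if q + 1 ≤ K.a then 1 else 0 := by
  let V : Submodule ℝ (Fn ι) := FF (Star b j) (q + 1) ⊓ Ker b
  let W : Submodule ℝ (Fn ι) := FF (Star b j) q ⊓ Ker b
  have : FiniteDimensional ℝ (FF (Star b j) (q + 1)) := FF_fin _ _
  have : FiniteDimensional ℝ (FF (Star b j) q) := FF_fin _ _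
  have hV : FiniteDimensional ℝ V := Submodule.finiteDimensional_inf_left _ _
  have hW : FiniteDimensional ℝ W := Submodule.finiteDimensional_inf_left _ _
  have hmap : ∀ f ∈ V, X j f ∈ W := by
    intro f hf
    exact ⟨X_FF (star_down hS j) j q hf.1, X_Ker b j hf.2⟩
  let T : V →ₗ[ℝ] W := (X j).restrict hmap
  have h1 := LinearMap.finrank_range_add_finrank_ker T
  have h2 : Module.finrank ℝ (LinearMap.range T) ≤ Module.finrank ℝ W :=
    Submodule.finrank_le _
  have h3 : Module.finrank ℝ (LinearMap.ker T) ≤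
      Module.finrank ℝ ↥(FF (Star b j) (q + 1) ⊓ Ker b ⊓ LinearMap.ker (X j)) := by
    have : FiniteDimensional ℝ ↥(V ⊓ LinearMap.ker (X j)) :=
      Submodule.finiteDimensional_inf_left _ _
    let U : LinearMap.ker T →ₗ[ℝ] ↥(V ⊓ LinearMap.ker (X j)) :=
      LinearMap.codRestrict _ (V.subtype.comp (LinearMap.ker T).subtype) (by
        intro f
        refine ⟨f.1.2, ?_⟩
        exact LinearMap.mem_ker.2 (congrArg Subtype.val (LinearMap.mem_ker.1 f.2)))
    refine LinearMap.finrank_le_finrank_of_injective (f := U) ?_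
    intro f g hfg
    have h := congrArg Subtype.val hfg
    exact Subtype.ext (Subtype.ext h)
  have h4 := ker_X_le hc (q + 1)
  show Module.finrank ℝ V ≤ Module.finrank ℝ W + _
  omega

end

end KLE
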