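import Pool.Agent.KLE.Defs

/-!
# Row K5: the number of vertices of a cap facet, and the numbers of its kernel functions
(note: /team-store/KAL_helper29.md)
-/

set_option autoImplicit false

open scoped BigOperators RealInnerProductSpace

namespace KLE

noncomputable section

open Classical

open Pool.Agent.KST (E IsCell Cells Verts Simple Pol pt PP Gen Star VF Low LowF hh Fn FF Ker
  Par Le sgn supp EE X D)

/-- the vertex of the cap facet missing the constraints `p` and `q` -/
def vv {ι : Type} (σ : ι → SignType) (j : ι) (pq : ι × ι) : ι → SignType := fun l =>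
  if l = j then 1 else if l = pq.1 ∨ l = pq.2 then 0 else σ l

/-- K5 -/
theorem card_VF {ι : Type} [Fintype ι] {d : ℕ} {b : ι → E (d + 1)} {j : ι}
    {K : CapD ι} (hc : IsCap b j K) : (VF b j).card = (K.a + 1) * (d + 1 - K.a) := by
  have hjs : j ∉ supp K.σ := by simp [supp, hc.hj]
  have hjI : j ∉ K.I := fun h => hjs (hc.hI h)
  have key : VF b j = (K.I ×ˢ (supp K.σ \ K.I)).image (vv K.σ j) := by
    ext v
    constructor
    · intro hv
      have h1 : v ∈ Verts b := (Finset.mem_filter.mp hv).1
      have hvj : v j = 1 := (Finset.mem_filter.mp hv).2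
      have hvC : v ∈ Cells b := (Finset.mem_filter.mp h1).1
      have hcard : (supp v).card = d + 1 := (Finset.mem_filter.mp h1).2
      obtain ⟨g1, g2, g3⟩ := (hc.hcells v hvj).mp hvC
      obtain ⟨p, hpI, hpv⟩ := Finset.not_subset.mp g2
      obtain ⟨q, hqI, hqv⟩ := Finset.not_subset.mp g3
      have hqs : q ∈ supp K.σ := (Finset.mem_sdiff.mp hqI).1
      have hqnI : q ∉ K.I := (Finset.mem_sdiff.mp hqI).2
      have hps : p ∈ supp K.σ := hc.hI hpI
      have hpq : p ≠ q := fun h => hqnI (h ▸ hpI)
      have hpj : p ≠ j := fun h => hjI (h ▸ hpI)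
      have hqj : q ≠ j := fun h => hjs (h ▸ hqs)
      have hsub : supp v ⊆ insert j (supp K.σ \ {p, q}) := by
        intro l hl
        have hl' : v l ≠ 0 := by simpa [supp] using hl
        by_cases hlj : l = j
        · exact Finset.mem_insert.mpr (Or.inl hlj)
        · refine Finset.mem_insert.mpr (Or.inr (Finset.mem_sdiff.mpr ⟨?_, ?_⟩))
          · have := g1 l hlj hl'
            simp only [supp, Finset.mem_filter, Finset.mem_univ, true_and]
            rw [← this]
            exact hl'
          · intro h
            rcases Finset.mem_insert.mp h with h | h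
            · exact hpv (h ▸ hl)
            · exact hqv ((Finset.mem_singleton.mp h) ▸ hl)
      have hcard2 : (insert j (supp K.σ \ {p, q})).card = d + 1 := by
        rw [Finset.card_insert_of_notMem
          (fun h => hjs (Finset.mem_sdiff.mp h).1), Finset.card_sdiff_of_subset ?_,
          Finset.card_pair hpq, hc.hcard]
        · omega
        · intro l hl
          rcases Finset.mem_insert.mp hl with h | h
          · exact h ▸ hps
          · exact (Finset.mem_singleton.mp h) ▸ hqs
      have heq : supp v = insert j (supp K.σ \ {p, q}) :=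
        Finset.eq_of_subset_of_card_le hsub (by rw [hcard, hcard2])
      refine Finset.mem_image.mpr ⟨(p, q), Finset.mem_product.mpr ⟨hpI, hqI⟩, ?_⟩
      funext l
      show (if l = j then 1 else if l = p ∨ l = q then 0 else K.σ l) = v l
      split_ifs with c1 c2
      · rw [c1, hvj]
      · rcases c2 with c2 | c2
        · subst c2
          by_contra hne
          exact hpv (by simpa [supp] using fun h => hne h.symm)
        · subst c2
          by_contra hne
          exact hqv (by simpa [supp] using fun h => hne h.symm)
      · by_cases hσ : K.σ l = 0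
        · rw [hσ]
          by_contra hne
          exact hne ((g1 l c1 (fun h => hne h.symm)).trans hσ).symm
        · have hl : l ∈ supp v := by
            rw [heq]
            refine Finset.mem_insert.mpr (Or.inr (Finset.mem_sdiff.mpr ⟨?_, ?_⟩))
            · simpa [supp] using hσ
            · intro h
              rcases Finset.mem_insert.mp h with h | h
              · exact c2 (Or.inl h)
              · exact c2 (Or.inr (Finset.mem_singleton.mp h))
          have hl' : v l ≠ 0 := by simpa [supp] using hl
          exact (g1 l c1 hl').symm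
    · intro hv
      obtain ⟨⟨p, q⟩, hpq, rfl⟩ := Finset.mem_image.mp hv
      have hpI : p ∈ K.I := (Finset.mem_product.mp hpq).1
      have hqI : q ∈ supp K.σ \ K.I := (Finset.mem_product.mp hpq).2
      have hqs : q ∈ supp K.σ := (Finset.mem_sdiff.mp hqI).1
      have hqnI : q ∉ K.I := (Finset.mem_sdiff.mp hqI).2
      have hps : p ∈ supp K.σ := hc.hI hpI
      have hpq' : p ≠ q := fun h => hqnI (h ▸ hpI)
      have hpj : p ≠ j := fun h => hjI (h ▸ hpI)
      have hqj : q ≠ j := fun h => hjs (h ▸ hqs)
      have hvj : vv K.σ j (p, q) j = 1 := by simp [vv]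
      have hsupp : supp (vv K.σ j (p, q)) = insert j (supp K.σ \ {p, q}) := by
        ext l
        simp only [supp, vv, Finset.mem_filter, Finset.mem_univ, true_and, Finset.mem_insert,
          Finset.mem_sdiff, Finset.mem_singleton]
        by_cases c1 : l = j
        · simp [c1]
        · by_cases c2 : l = p ∨ l = q
          · simp [c1, c2]
          · simp [c1, c2]
      have hcard2 : (insert j (supp K.σ \ {p, q})).card = d + 1 := by
        rw [Finset.card_insert_of_notMem
          (fun h => hjs (Finset.mem_sdiff.mp h).1), Finset.card_sdiff_of_subset ?_,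
          Finset.card_pair hpq', hc.hcard]
        · omega
        · intro l hl
          rcases Finset.mem_insert.mp hl with h | h
          · exact h ▸ hps
          · exact (Finset.mem_singleton.mp h) ▸ hqs
      have hC : vv K.σ j (p, q) ∈ Cells b := by
        refine (hc.hcells _ hvj).mpr ⟨?_, ?_, ?_⟩
        · intro l hlj hl
          simp only [vv, if_neg hlj] at hl ⊢
          by_cases c2 : l = p ∨ l = q
          · rw [if_pos c2] at hl
            exact absurd rfl hl
          · rw [if_neg c2]
        · intro h
          have := h hpI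
          rw [hsupp] at this
          rcases Finset.mem_insert.mp this with h | h
          · exact hpj h
          · exact (Finset.mem_sdiff.mp h).2 (by simp)
        · intro h
          have := h hqI
          rw [hsupp] at this
          rcases Finset.mem_insert.mp this with h | h
          · exact hqj h
          · exact (Finset.mem_sdiff.mp h).2 (by simp)
      exact Finset.mem_filter.mpr ⟨Finset.mem_filter.mpr ⟨hC, by rw [hsupp, hcard2]⟩, hvj⟩
  have hinj : Set.InjOn (vv K.σ j) ((K.I ×ˢ (supp K.σ \ K.I) : Finset (ι × ι)) : Set (ι × ι)) := by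
    rintro ⟨p, q⟩ h1 ⟨p', q'⟩ h2 heq
    have h1' := Finset.mem_product.mp (Finset.mem_coe.mp h1)
    have h2' := Finset.mem_product.mp (Finset.mem_coe.mp h2)
    have hpI : p ∈ K.I := h1'.1
    have hqI : q ∈ supp K.σ \ K.I := h1'.2
    have hpI' : p' ∈ K.I := h2'.1
    have hqI' : q' ∈ supp K.σ \ K.I := h2'.2
    have hqnI : q ∉ K.I := (Finset.mem_sdiff.mp hqI).2
    have hqnI' : q' ∉ K.I := (Finset.mem_sdiff.mp hqI').2
    have hps' : K.σ p' ≠ 0 := by simpa [supp] using hc.hI hpI'
    have hqs' : K.σ q' ≠ 0 := by simpa [supp] using (Finset.mem_sdiff.mp hqI').1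
    have hpj' : p' ≠ j := fun h => hjI (h ▸ hpI')
    have hqj' : q' ≠ j := fun h => hjs (h ▸ (Finset.mem_sdiff.mp hqI').1)
    have e1 : vv K.σ j (p, q) p' = 0 := by
      rw [heq]; simp [vv, hpj']
    have e2 : vv K.σ j (p, q) q' = 0 := by
      rw [heq]; simp [vv, hqj']
    have f1 : p' = p ∨ p' = q := by
      by_contra hcon
      simp only [vv, if_neg hpj', if_neg hcon] at e1
      exact hps' e1
    have f2 : q' = p ∨ q' = q := by
      by_contra hcon
      simp only [vv, if_neg hqj', if_neg hcon] at e2
      exact hqs' e2
    have g1 : p' = p := by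
      rcases f1 with h | h
      · exact h
      · exact absurd (h ▸ hpI') hqnI
    have g2 : q' = q := by
      rcases f2 with h | h
      · exact absurd (h ▸ hpI) hqnI'
      · exact h
    rw [g1, g2]
  rw [key, Finset.card_image_of_injOn hinj, Finset.card_product, hc.hIa,
    Finset.card_sdiff_of_subset hc.hI, hc.hcard, hc.hIa]
  congr 1
  omega

/-- the sum of the numbers of a cap facet -/
theorem sum_cap (d : ℕ) : ∀ a : ℕ, 2 * a ≤ d →
    ∑ n ∈ Finset.range (d + 1), (min (min n a) (d - n) + 1) = (a + 1) * (d + 1 - a) := by
  intro a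
  induction a with
  | zero =>
    intro _
    simp
  | succ a ih =>
    intro ha
    have h1 : ∑ n ∈ Finset.range (d + 1), (min (min n (a + 1)) (d - n) + 1) =
        ∑ n ∈ Finset.range (d + 1), (min (min n a) (d - n) + 1) +
          ∑ n ∈ Finset.range (d + 1), (if a + 1 ≤ n ∧ a + 1 ≤ d - n then 1 else 0) := by
      rw [← Finset.sum_add_distrib]
      refine Finset.sum_congr rfl (fun n hn => ?_)
      split_ifs with c <;> omega
    have h2 : ∑ n ∈ Finset.range (d + 1), (if a + 1 ≤ n ∧ a + 1 ≤ d - n then 1 else 0) =
        d + 1 - 2 * (a + 1) := by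
      rw [← Finset.card_filter]
      have : (Finset.range (d + 1)).filter (fun n => a + 1 ≤ n ∧ a + 1 ≤ d - n) =
          Finset.Icc (a + 1) (d - (a + 1)) := by
        ext n
        simp only [Finset.mem_filter, Finset.mem_range, Finset.mem_Icc]
        omega
      rw [this, Nat.card_Icc]
      omega
    rw [h1, h2, ih (by omega)]
    obtain ⟨k, rfl⟩ : ∃ k, d = 2 * (a + 1) + k := ⟨d - 2 * (a + 1), by omega⟩
    have e1 : 2 * (a + 1) + k + 1 - a = a + k + 3 := by omega
    have e2 : 2 * (a + 1) + k + 1 - 2 * (a + 1) = k + 1 := by omega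
    have e3 : 2 * (a + 1) + k + 1 - (a + 1) = a + k + 2 := by omega
    rw [e1, e2, e3]
    ring

/-- K4n -/
theorem h_eq (a d : ℕ) (h : ℕ → ℕ) (had : 2 * a ≤ d) (h0 : h 0 = 1)
    (hstep : ∀ n < d, h (n + 1) ≤ h n + if n + 1 ≤ a then 1 else 0)
    (hsym : ∀ n ≤ d, h (d - n) = h n)
    (hsum : ∑ n ∈ Finset.range (d + 1), h n = (a + 1) * (d + 1 - a)) :
    ∀ n ≤ d, h n = min (min n a) (d - n) + 1 := by
  have hub : ∀ n ≤ d, h n ≤ min n a + 1 := by
    intro n
    induction n with
    | zero => intro _; simp [h0]
    | succ n ih =>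
      intro hn
      have h1 := ih (by omega)
      have h2 := hstep n (by omega)
      split_ifs at h2 <;> omega
  have hub2 : ∀ n ≤ d, h n ≤ min (min n a) (d - n) + 1 := by
    intro n hn
    have h1 := hub n hn
    have h2 := hub (d - n) (by omega)
    rw [hsym n hn] at h2
    omega
  have hle : ∀ n ∈ Finset.range (d + 1), h n ≤ min (min n a) (d - n) + 1 := fun n hn =>
    hub2 n (by have := Finset.mem_range.mp hn; omega)
  have heq : ∑ n ∈ Finset.range (d + 1), h n =
      ∑ n ∈ Finset.range (d + 1), (min (min n a) (d - n) + 1) := by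
    rw [hsum, sum_cap d a had]
  intro n hn
  exact (Finset.sum_eq_sum_iff_of_le hle).mp heq n (Finset.mem_range.mpr (by omega))

end

end KLE
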