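import Pool.Agent.KLE.K2
import Pool.Agent.WLP.DataB

/-!
KLE, row K7: kernel functions outside the caps and on the stars of the caps.
-/

set_option autoImplicit false

open scoped BigOperators RealInnerProductSpace

namespace KLE

noncomputable section

open Classical

open Pool.Agent.KST (E IsCell Cells Verts Simple Pol pt PP Gen Star VF Low LowF hh Fn FF Ker
  Par Le sgn supp EE X D)
open WLP (SepB HypB Data)

private theorem K_sgn_pos {ι : Type} {e : ι → ℤ} {l : ι} (h : 0 < e l) : sgn e l = 1 := by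
  show SignType.sign (e l) = 1
  exact sign_pos h

private theorem K_sgn_neg {ι : Type} {e : ι → ℤ} {l : ι} (h : e l < 0) : sgn e l = -1 := by
  show SignType.sign (e l) = -1
  exact sign_neg h

private theorem K_star_FF {ι : Type} [Fintype ι] {d : ℕ} (b : ι → E d) (j : ι) (n : ℕ) :
    FF (Star b j) n ≤ FF (Cells b) n := by
  intro f hf e he
  apply hf
  intro h
  apply he
  simp only [Pool.Agent.KST.EE, Finset.mem_filter] at h ⊢
  exact ⟨h.1, h.2.1, (Finset.mem_filter.1 h.2.2).1⟩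

private theorem K_C0_FF {ι : Type} [Fintype ι] {d : ℕ} (b : ι → E d) (J : Finset ι) (n : ℕ) :
    FF (C0 b J) n ≤ FF (Cells b) n := by
  intro f hf e he
  apply hf
  intro h
  apply he
  simp only [Pool.Agent.KST.EE, Finset.mem_filter] at h ⊢
  exact ⟨h.1, h.2.1, (Finset.mem_filter.1 h.2.2).1⟩

private theorem K_C0_supp {ι : Type} [Fintype ι] {d : ℕ} {b : ι → E d} {J : Finset ι} {n : ℕ}
    {f : Fn ι} (hf : f ∈ FF (C0 b J) n) {e : ι → ℤ} {j : ι} (hj : j ∈ J) (he : e j ≠ 0) :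
    f e = 0 := by
  apply hf
  intro h
  simp only [Pool.Agent.KST.EE, Finset.mem_filter] at h
  have h1 := (Finset.mem_filter.1 h.2.2).2 j hj
  have h2 : SignType.sign (e j) = 0 := h1
  exact he (sign_eq_zero_iff.1 h2)

private theorem K_star_supp {ι : Type} [Fintype ι] {d : ℕ} {b : ι → E d} {j : ι} {n : ℕ}
    {f : Fn ι} (hf : f ∈ FF (Star b j) n)
    {e : ι → ℤ} (he : f e ≠ 0) : ∃ t ∈ Cells b, Le (sgn e) t ∧ t j = 1 := by
  have h1 : e ∈ Pool.Agent.KST.EE (Star b j) n := by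
    by_contra h
    exact he (hf e h)
  simp only [Pool.Agent.KST.EE, Finset.mem_filter] at h1
  exact (Finset.mem_filter.1 h1.2.2).2

/-- the antisymmetrisation -/
private def anti (ι : Type) : Fn ι →ₗ[ℝ] Fn ι where
  toFun f e := f e - f (-e)
  map_add' f g := by
    funext e
    simp only [Pi.add_apply]
    ring
  map_smul' c f := by
    funext e
    simp only [Pi.smul_apply, smul_eq_mul, RingHom.id_apply]
    ring

private theorem K_anti_mem {ι : Type} [Fintype ι] {d : ℕ} {b c : ι → E d} {j : ι} {n : ℕ}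
    {f : Fn ι} (hf : f ∈ FF (Star b j) n ⊓ Ker c) :
    anti ι f ∈ FF (Cells b) n ⊓ Ker c ⊓ Par ι (-1) := by
  obtain ⟨h1, h2⟩ := hf
  have h1' := K_star_FF b j n h1
  have h3 := Pool.Agent.KST.a2b_neg_FF (C := Cells b)
    (fun s hs => Pool.Agent.KST.neg_mem_cells hs) n f h1'
  have h4 := Pool.Agent.KST.a2b_neg_Ker c f h2
  refine ⟨⟨(FF (Cells b) n).sub_mem h1' h3, (Ker c).sub_mem h2 h4⟩, ?_⟩
  intro e
  show f (-e) - f (- -e) = -1 * (f e - f (-e))
  rw [neg_neg]
  ring

private theorem K_pos {ι : Type} [Fintype ι] {d : ℕ} {b : ι → E d} {J : Finset ι}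
    (hJ : SepB b J) {n : ℕ} (f : Fn ι) (hf : f ∈ FF (C0 b J) n)
    (F : J → Fn ι) (hF : ∀ j : J, F j ∈ FF (Star b j) n)
    (hsum : f + ∑ j : J, anti ι (F j) = 0) (j : J) (e : ι → ℤ) (he : 0 < e j) : F j e = 0 := by
  have hs : f e + ∑ k : J, (F k e - F k (-e)) = 0 := by
    have := congrFun hsum e
    rw [Pi.add_apply, Finset.sum_apply] at this
    exact this
  rw [K_C0_supp hf j.2 (by omega), zero_add] at hs
  have hj1 : sgn e (j : ι) = 1 := K_sgn_pos he
  have hj2 : sgn (-e) (j : ι) = -1 := K_sgn_neg (by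
    show -(e j) < 0
    omega)
  have h1 : ∀ k : J, k ≠ j → F k e = 0 := by
    intro k hk
    by_contra hne
    obtain ⟨t, ht, hle, htk⟩ := K_star_supp (hF k) hne
    apply hk
    apply Subtype.ext
    have h2 := hle j (by rw [hj1]; decide)
    exact hJ.disj t ht k k.2 j j.2 (by rw [htk]; decide) (by rw [h2, hj1]; decide)
  have h3 : ∀ k : J, F k (-e) = 0 := by
    intro k
    by_contra hne
    obtain ⟨t, ht, hle, htk⟩ := K_star_supp (hF k) hne
    have h2 := hle j (by rw [hj2]; decide)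
    have h4 := hJ.disj t ht k k.2 j j.2 (by rw [htk]; decide) (by rw [h2, hj2]; decide)
    rw [← h4, htk, h4, hj2] at h2
    exact absurd h2 (by decide)
  rw [Finset.sum_eq_single j (fun k _ hk => by rw [h1 k hk, h3 k, sub_zero])
    (fun h => absurd (Finset.mem_univ j) h), h3 j, sub_zero] at hs
  exact hs

private theorem K_compl {V : Type} [AddCommGroup V] [Module ℝ V] (Z W : Submodule ℝ V)
    [FiniteDimensional ℝ W] (h : Z ≤ W) : ∃ G : Submodule ℝ V, G ≤ W ∧ G ⊓ Z = ⊥ ∧
      Module.finrank ℝ W ≤ Module.finrank ℝ G + Module.finrank ℝ Z := by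
  obtain ⟨G', hG'⟩ := Submodule.exists_isCompl (Z.comap W.subtype)
  refine ⟨G'.map W.subtype, Submodule.map_subtype_le _ _, ?_, ?_⟩
  · rw [eq_bot_iff]
    rintro x ⟨hx1, hx2⟩
    obtain ⟨y, hy, rfl⟩ := hx1
    have h1 : y ∈ Z.comap W.subtype ⊓ G' := ⟨hx2, hy⟩
    rw [hG'.inf_eq_bot, Submodule.mem_bot] at h1
    rw [h1]
    simp
  · have h1 := Submodule.finrank_add_eq_of_isCompl hG'
    have h2 : Module.finrank ℝ ↥(G'.map W.subtype) = Module.finrank ℝ G' :=
      (Submodule.equivMapOfInjective W.subtype W.injective_subtype G').symm.finrank_eq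
    have h3 : Module.finrank ℝ ↥(Z.comap W.subtype) = Module.finrank ℝ Z :=
      (Submodule.comapSubtypeEquivOfLe h).finrank_eq
    omega

/-- the functions of a star that are killed by `X j` -/
private theorem K_X {ι : Type} [Fintype ι] {d : ℕ} {b : ι → E d} {j : ι} {n : ℕ}
    {f : Fn ι} (hf : f ∈ FF (Star b j) n) (h : ∀ e : ι → ℤ, 0 < e j → f e = 0) :
    X j f = 0 := by
  funext e
  show (if 0 ≤ e j then f (Function.update e j (e j + 1)) else 0) -
    (if e j ≤ 0 then f (Function.update e j (e j - 1)) else 0) = 0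
  have h1 : (if 0 ≤ e j then f (Function.update e j (e j + 1)) else 0) = 0 := by
    split_ifs with h0
    · apply h
      rw [Function.update_self]
      omega
    · rfl
  have h2 : (if e j ≤ 0 then f (Function.update e j (e j - 1)) else 0) = 0 := by
    split_ifs with h0
    · by_contra hne
      obtain ⟨t, ht, hle, htj⟩ := K_star_supp hf hne
      have h3 : sgn (Function.update e j (e j - 1)) j = -1 := K_sgn_neg (by
        rw [Function.update_self]
        omega)
      have h4 := hle j (by rw [h3]; decide)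
      rw [htj, h3] at h4
      exact absurd h4 (by decide)
    · rfl
  rw [h1, h2, sub_zero]

/-- K7, from K2 as a hypothesis -/
theorem kap_ge_of {ι : Type} [Fintype ι] {d : ℕ} {b : ι → E (d + 1)}
    {J : Finset ι} (hJ : SepB b J) (q : ℕ) (z : ι → ℕ)
    (hz : ∀ j ∈ J, Module.finrank ℝ
      ↥(FF (Star b j) q ⊓ Ker b ⊓ LinearMap.ker (X j)) ≤ z j) :
    sp b J q + ∑ j ∈ J, st b j q ≤ kap b q + ∑ j ∈ J, z j := by
  have hfinW : ∀ j : J, FiniteDimensional ℝ ↥(FF (Star b j) q ⊓ Ker b) := by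
    intro j
    have := Pool.Agent.KST.FF_fin (Star b (j : ι)) q
    exact Submodule.finiteDimensional_inf_left _ _
  have hcomp := fun j : J => by
    have := hfinW j
    exact K_compl (FF (Star b j) q ⊓ Ker b ⊓ LinearMap.ker (X (j : ι)))
      (FF (Star b j) q ⊓ Ker b) inf_le_left
  choose G hGW hGZ hGd using hcomp
  have hfin : FiniteDimensional ℝ (FF (Cells b) q) := Pool.Agent.KST.FF_fin _ q
  have hfin1 : FiniteDimensional ℝ ↥(FF (Cells b) q ⊓ Ker b) :=
    Submodule.finiteDimensional_inf_left _ _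
  have hfin2 : FiniteDimensional ℝ ↥(FF (Cells b) q ⊓ Ker b ⊓ Par ι (-1)) :=
    Submodule.finiteDimensional_inf_left _ _
  have hfin3 : ∀ j : J, FiniteDimensional ℝ ↥(G j) := by
    intro j
    have := hfinW j
    exact Submodule.finiteDimensional_of_le (hGW j)
  have hfin4 : FiniteDimensional ℝ ↥(FF (C0 b J) q ⊓ Ker b ⊓ Par ι (-1)) := by
    have := Pool.Agent.KST.FF_fin (C0 b J) q
    have : FiniteDimensional ℝ ↥(FF (C0 b J) q ⊓ Ker b) :=
      Submodule.finiteDimensional_inf_left _ _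
    exact Submodule.finiteDimensional_inf_left _ _
  -- the map
  let Φ0 : (↥(FF (C0 b J) q ⊓ Ker b ⊓ Par ι (-1)) × (∀ j : J, ↥(G j))) →ₗ[ℝ] Fn ι :=
    (Submodule.subtype _) ∘ₗ (LinearMap.fst ℝ _ _) +
      (∑ j : J, (anti ι) ∘ₗ (G j).subtype ∘ₗ LinearMap.proj j) ∘ₗ (LinearMap.snd ℝ _ _)
  have hΦ0 : ∀ F : (↥(FF (C0 b J) q ⊓ Ker b ⊓ Par ι (-1)) × (∀ j : J, ↥(G j))),
      Φ0 F = (F.1 : Fn ι) + ∑ j : J, anti ι (F.2 j : Fn ι) := by
    intro F
    simp only [Φ0, LinearMap.add_apply, LinearMap.comp_apply, LinearMap.sum_apply]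
    rfl
  have hmem : ∀ F, Φ0 F ∈ FF (Cells b) q ⊓ Ker b ⊓ Par ι (-1) := by
    intro F
    rw [hΦ0]
    refine Submodule.add_mem _ ?_ (Submodule.sum_mem _ fun j _ => K_anti_mem (hGW j (F.2 j).2))
    have h := F.1.2
    exact ⟨⟨K_C0_FF b J q h.1.1, h.1.2⟩, h.2⟩
  let Φ := Φ0.codRestrict _ hmem
  have hinj : Function.Injective Φ := by
    rw [← LinearMap.ker_eq_bot, eq_bot_iff]
    intro F hF
    rw [LinearMap.mem_ker] at hF
    rw [Submodule.mem_bot]
    have h1 : Φ0 F = 0 := congrArg Subtype.val hF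
    rw [hΦ0] at h1
    have h2 : ∀ j : J, (F.2 j : Fn ι) = 0 := by
      intro j
      have h3 := K_pos hJ (F.1 : Fn ι) F.1.2.1.1 (fun j => (F.2 j : Fn ι))
        (fun j => (hGW j (F.2 j).2).1) h1 j
      have h4 := K_X (hGW j (F.2 j).2).1 h3
      have h5 : (F.2 j : Fn ι) ∈ G j ⊓
          (FF (Star b j) q ⊓ Ker b ⊓ LinearMap.ker (X (j : ι))) :=
        ⟨(F.2 j).2, hGW j (F.2 j).2, LinearMap.mem_ker.2 h4⟩
      rw [hGZ j, Submodule.mem_bot] at h5
      exact h5
    have h6 : (F.1 : Fn ι) = 0 := by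
      rw [Finset.sum_eq_zero (fun j _ => by rw [h2 j, map_zero]), add_zero] at h1
      exact h1
    apply Prod.ext
    · exact Subtype.ext h6
    · funext j
      exact Subtype.ext (h2 j)
  have h := LinearMap.finrank_le_finrank_of_injective hinj
  rw [Module.finrank_prod, Module.finrank_pi_fintype] at h
  have h7 : ∑ j ∈ J, st b j q ≤ ∑ j : J, Module.finrank ℝ ↥(G j) + ∑ j ∈ J, z j := by
    rw [← Finset.sum_coe_sort J (fun j => st b j q), ← Finset.sum_coe_sort J z,
      ← Finset.sum_add_distrib]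
    apply Finset.sum_le_sum
    intro j _
    exact le_trans (hGd j) (Nat.add_le_add_left (hz j j.2) _)
  have h8 : sp b J q + ∑ j : J, Module.finrank ℝ ↥(G j) ≤ kap b q := h
  omega

/-- K7 -/
theorem kap_ge {ι : Type} [Fintype ι] {d : ℕ} {b : ι → E (d + 1)} (hS : Simple b)
    {J : Finset ι} (hJ : SepB b J) {K : ι → CapD ι} (hF : Fam b J K) (q : ℕ) :
    sp b J q + ∑ j ∈ J, st b j q ≤ kap b q + ∑ j ∈ J, (if q ≤ (K j).a then 1 else 0) := by
  have _ := hS
  exact kap_ge_of hJ q (fun j => if q ≤ (K j).a then 1 else 0)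
    (fun j hj => ker_X_le (hF.cap j hj) q)

end

end KLE
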