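import Pool.Agent.KLE.DE
import Pool.Agent.KLE.K3
import Pool.Agent.KLE.K5
import Pool.Agent.KLE.K7
import Pool.Agent.KLE.G3
import Pool.Agent.KLE.G012
import Pool.Agent.KLE.EO1
import Pool.Agent.KLE.EO2
import Pool.Agent.KLE.A1
import Pool.Agent.KLE.AR1
import Pool.Agent.KLE.AR

/-!
# Row MAIN: the inequality for families of caps
-/

set_option autoImplicit false

open scoped BigOperators RealInnerProductSpace

namespace KLE

noncomputable section

open Classical

open Pool.Agent.KST (E IsCell Cells Verts Simple Pol pt PP Gen Star VF Low LowF hh Fn FF Ker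
  Par Le sgn supp EE X D)
open WLP (SepB HypB Data)

/-- the Hilbert function of no caps -/
theorem ma_hf_empty {ι : Type} [Fintype ι] (K : ι → CapD ι) (q : ℕ) :
    hf K (∅ : Finset ι) q = 0 := by
  have h : VV K (∅ : Finset ι) q = ⊥ := by
    unfold VV
    rw [Submodule.span_eq_bot]
    rintro f ⟨j, hj, -⟩
    exact absurd hj (Finset.notMem_empty j)
  unfold hf
  rw [h]
  exact finrank_bot ℝ (Fn ι)

/-- the numbers of the cap facets -/
theorem ma_st {ι : Type} [Fintype ι] {d : ℕ} {b : ι → E (d + 1)} (hS : Simple b)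
    {J : Finset ι} {K : ι → CapD ι} (hF : Fam b J K) (dat : DataE b J) {j : ι} (hj : j ∈ J) :
    ∀ n ≤ d, st b j n = min (min n (K j).a) (d - n) + 1 := by
  have hc := hF.cap j hj
  refine h_eq (K j).a d (st b j) hc.haD (dat.h0 j hj) (fun n _ => st_step hS hc n)
    (dat.hsym j hj) ?_
  rw [dat.hsum j hj, card_VF hc]

/-- lower bound for the odd kernel functions -/
theorem ma_kap {ι : Type} [Fintype ι] {d : ℕ} {b : ι → E (d + 1)} (hS : Simple b)
    {J : Finset ι} (hJ : SepB b J) {K : ι → CapD ι} (hF : Fam b J K) (dat : DataE b J)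
    {q : ℕ} (h1 : 1 ≤ q) (h2 : 2 * q ≤ d + 1) :
    sp b J q + ∑ j ∈ J, (min (min (q - 1) (K j).a) (d - (q - 1)) + 1) ≤ kap b q := by
  have h := kap_ge hS hJ hF q
  have h3 : ∑ j ∈ J, st b j q = ∑ j ∈ J, (min (min (q - 1) (K j).a) (d - (q - 1)) + 1) +
      ∑ j ∈ J, (if q ≤ (K j).a then 1 else 0) := by
    rw [← Finset.sum_add_distrib]
    refine Finset.sum_congr rfl (fun j hj => ?_)
    rw [ma_st hS hF dat hj q (by omega)]
    have h4 := (hF.cap j hj).haD
    split_ifs with h5 <;> omega
  omega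

theorem mainE {ι : Type} [Fintype ι] {d : ℕ} {b : ι → E (d + 1)} (hS : Simple b)
    (hb : Bornology.IsBounded (Pol b)) {J : Finset ι} (hJ : SepB b J) {K : ι → CapD ι}
    (hF : Fam b J K) :
    3 ^ (d + 1) + 2 * ∑ j ∈ J, ((Cells b).filter (fun s => s j = 1)).card ≤
      (Cells b).card + 2 * J.card := by
  have dat : DataE b J := dataE hS hb hJ hF.ne
  have haD : ∀ j ∈ J, 2 * (K j).a ≤ d := fun j hj => (hF.cap j hj).haD
  have hst : ∀ j ∈ J, ∀ n ≤ d, st b j n = min (min n (K j).a) (d - n) + 1 :=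
    fun j hj => ma_st hS hF dat hj
  -- the numbers s
  obtain ⟨s, hs, hsp⟩ : ∃ s : ℕ → ℕ, (∀ q, 1 ≤ q → 2 * q ≤ d + 1 →
      kap b q = s q + ∑ j ∈ J, (min (min (q - 1) (K j).a) (d - (q - 1)) + 1)) ∧
      ∀ q, 1 ≤ q → 2 * q ≤ d + 1 → sp b J q ≤ s q := by
    refine ⟨fun q => kap b q - ∑ j ∈ J, (min (min (q - 1) (K j).a) (d - (q - 1)) + 1),
      fun q h1 h2 => ?_, fun q h1 h2 => ?_⟩
    · have h := ma_kap hS hJ hF dat h1 h2
      show kap b q = kap b q - ∑ j ∈ J, (min (min (q - 1) (K j).a) (d - (q - 1)) + 1) +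
        ∑ j ∈ J, (min (min (q - 1) (K j).a) (d - (q - 1)) + 1)
      omega
    · have h := ma_kap hS hJ hF dat h1 h2
      show sp b J q ≤ kap b q - ∑ j ∈ J, (min (min (q - 1) (K j).a) (d - (q - 1)) + 1)
      omega
  have hverts : 2 * ∑ j ∈ J, ((K j).a + 1) * (d + 1 - (K j).a) ≤
      2 ^ (d + 1) + 2 * ∑ n ∈ Finset.range (d + 2), kap b n := by
    have h := dat.verts
    have h1 : ∑ j ∈ J, (VF b j).card = ∑ j ∈ J, ((K j).a + 1) * (d + 1 - (K j).a) :=
      Finset.sum_congr rfl (fun j hj => card_VF (hF.cap j hj))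
    rw [h1] at h
    exact h
  obtain ⟨hS1, hG⟩ := reduce d J (fun j => (K j).a) (kap b) s haD dat.k0 dat.ksym hs hverts
  -- the numbers of the proof
  have hN : Nums (d + 1) s (fun c => (J.filter (fun j => (K j).a = c)).card)
      (fun c => hf K (TT J K c) c) (fun c => hf K (TT J K (c + 1)) c)
      (fun c => hf K (TT J K c) (c + 1)) := by
    refine
      { hs1 := ?_
        hBs := ?_
        hBA := ?_
        hA1 := ?_
        hM1 := hf_two K _
        hA2 := fun _ => hf_two K _
        hgA := fun c z h1 _ h3 => hf_growth K _ c z h1 h3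
        hgM := fun c z h1 _ h3 => hf_growth K _ c z h1 h3
        hrM := ?_
        hS := hS1 }
    · intro c h1 h2 h3
      obtain ⟨j, hj⟩ := Finset.card_pos.mp h3
      rw [Finset.mem_filter] at hj
      exact le_trans (sp_one_pos hS hF hj.1 (by rw [hj.2]; exact h1))
        (hsp 1 le_rfl (by omega))
    · intro c h1 h2
      show hf K (TT J K (c + 1)) c ≤ s c + s (c + 1)
      have h3 : ∀ j ∈ TT J K (c + 1), ∃ l, (K j).σ l ≠ 0 ∧ (K j).lam l ≠ 0 := by
        intro j hj
        have hjJ : j ∈ J := (Finset.mem_filter.mp hj).1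
        have hc := hF.cap j hjJ
        have h4 : (supp (K j).σ).Nonempty := by
          rw [← Finset.card_pos, hc.hcard]
          omega
        obtain ⟨l, hl⟩ := h4
        have h5 : (K j).σ l ≠ 0 := by
          simpa [Pool.Agent.KST.supp] using hl
        exact ⟨l, h5, (hc.hlam l).mpr h5⟩
      have h4 := hf_le_odd K (TT J K (c + 1)) c h3
      have h5 := odd_le_sp hS hF (c := c + 1) (q := c) (by omega)
      have h6 := odd_le_sp hS hF (c := c + 1) (q := c + 1) le_rfl
      have h7 := hsp c h1 (by omega)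
      have h8 := hsp (c + 1) (by omega) (by omega)
      omega
    · intro c h1 h2
      refine hf_mono K ?_ c
      intro j hj
      rw [TT, Finset.mem_filter] at hj ⊢
      exact ⟨hj.1, by omega⟩
    · show hf K (TT J K 1) 1 ≤ (d + 1) + 2 * s 1
      rcases Nat.eq_zero_or_pos d with h0 | h0
      · have h1 : TT J K 1 = ∅ := by
          rw [Finset.eq_empty_iff_forall_notMem]
          intro j hj
          rw [TT, Finset.mem_filter] at hj
          have h2 := haD j hj.1
          omega
        rw [h1, ma_hf_empty]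
        exact Nat.zero_le _
      · have h1 := hf_one_le hS hF
        have h2 := dat.fac
        have h3 := hs 1 le_rfl (by omega)
        have h4 := hsp 1 le_rfl (by omega)
        have h5 : ∑ j ∈ J, (min (min (1 - 1) (K j).a) (d - (1 - 1)) + 1) = J.card := by
          simp
        rw [h5] at h3
        omega
    · intro c h1 h2
      refine hf_sep hF c (T := TT J K c) (T' := J.filter (fun j => (K j).a = c))
        (Finset.filter_subset _ _) ?_ ?_
      · intro j hj
        rw [Finset.mem_filter] at hj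
        rw [TT, Finset.mem_filter]
        exact ⟨hj.1, by omega⟩
      · intro j hj
        exact (Finset.mem_filter.mp hj).2
  have hgood := hG (good (d + 1) s _ _ _ _ hN)
  have hfac : ∑ j ∈ J, ((Cells b).filter (fun s => s j = 1)).card =
      ∑ j ∈ J, ∑ n ∈ Finset.range (d + 1), 2 ^ n * (min (min n (K j).a) (d - n) + 1) := by
    refine Finset.sum_congr rfl (fun j hj => ?_)
    rw [dat.facets j hj]
    refine Finset.sum_congr rfl (fun n hn => ?_)
    rw [hst j hj n (by have := Finset.mem_range.mp hn; omega)]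
  rw [hfac, dat.cells]
  omega

end

end KLE
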