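import Pool.Agent.KLE.GE4
import Pool.Agent.KLE.Main
import Pool.Agent.WLP.Kalb
import Pool.Agent.WLP.Faces

/-!
Theorem E: `3 ^ d` faces for centrally symmetric polytopes with simple vertex figures and at most
`d + 1` facets through every vertex.
-/

set_option autoImplicit false

open scoped BigOperators RealInnerProductSpace

namespace KLE

noncomputable section

open Classical

open Pool.Agent.KST (E IsCell Cells Verts Simple Pol pt PP Gen Star VF Low LowF hh Inside)
open WLP (SepB HypB Data)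

/-- FIN1 (uses GE4, MAIN) -/
theorem kalaiE {α : Type} [Fintype α] {d : ℕ} (a : α → E (d + 1))
    (hb : Bornology.IsBounded (Pol a))
    (hns : ∀ x ∈ Pol a, x ∉ Set.extremePoints ℝ (Pol a) →
      LinearIndependent ℝ (fun i : {i : α // |⟪a i, x⟫| = 1} => a i.1))
    (hfew : ∀ x ∈ Pol a, (Finset.univ.filter (fun i => |⟪a i, x⟫| = 1)).card ≤ d + 2) :
    3 ^ (d + 1) ≤ (Cells a).card := by
  obtain ⟨r, g, K, H, hF⟩ := nat_capE a hb hns hfew
  have hb' : Bornology.IsBounded (Pol (Sum.elim a g)) := by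
    refine hb.subset fun x hx i => ?_
    have h := hx (Sum.inl i)
    rwa [Sum.elim_inl] at h
  have hmain := mainE H.simple hb' (Eq.mp (congrArg (SepB (Sum.elim a g))
    (WLP.Kalb_filter _ _ _ fun _ _ => Iff.rfl)) (WLP.hypB_sep H)) hF
  have hJ : (Finset.univ.filter (fun l : α ⊕ Fin r => ∃ j, l = Sum.inr j)) =
      Finset.univ.map ⟨Sum.inr, Sum.inr_injective⟩ := by
    ext l
    rw [Finset.mem_filter, Finset.mem_map]
    constructor
    · rintro ⟨-, j, rfl⟩
      exact ⟨j, Finset.mem_univ _, rfl⟩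
    · rintro ⟨j, -, rfl⟩
      exact ⟨Finset.mem_univ _, j, rfl⟩
  have hne : ∀ j : Fin r, ∃ t ∈ Cells (Sum.elim a g), t (Sum.inr j) = 1 := fun j =>
    hF.ne (Sum.inr j) (Finset.mem_filter.2 ⟨Finset.mem_univ _, j, rfl⟩)
  have hsum : ∑ j ∈ Finset.univ.filter (fun l : α ⊕ Fin r => ∃ j, l = Sum.inr j),
      ((Cells (Sum.elim a g)).filter (fun s => s j = 1)).card =
      ∑ j : Fin r, ((Cells (Sum.elim a g)).filter (fun s => s (Sum.inr j) = 1)).card := by
    rw [hJ, Finset.sum_map]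
    rfl
  have hr : (Finset.univ.filter (fun l : α ⊕ Fin r => ∃ j, l = Sum.inr j)).card = r := by
    rw [hJ, Finset.card_map, Finset.card_univ, Fintype.card_fin]
  rw [hsum, hr] at hmain
  -- faces inside the caps
  have hin : 2 * r ≤ ∑ j : Fin r, ((Inside a g j 1).card + (Inside a g j (-1)).card) := by
    have h1 : ∀ j ∈ (Finset.univ : Finset (Fin r)),
        2 ≤ (Inside a g j 1).card + (Inside a g j (-1)).card := by
      intro j _
      obtain ⟨t, ht, htj⟩ := hne j
      have h2 := WLP.inside_posB H hb j 1 (by decide) ⟨t, ht, htj⟩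
      have h3 := WLP.inside_posB H hb j (-1) (by decide)
        ⟨-t, Pool.Agent.KST.neg_mem_cells ht, by rw [Pi.neg_apply, htj]⟩
      omega
    calc 2 * r = ∑ _j : Fin r, 2 := by
          rw [Finset.sum_const, smul_eq_mul, Finset.card_univ, Fintype.card_fin, mul_comm]
      _ ≤ ∑ j : Fin r, ((Inside a g j 1).card + (Inside a g j (-1)).card) :=
          Finset.sum_le_sum h1
  have hsplit := WLP.card_splitB H
  have hins := WLP.inside_cardB H
  omega

/-- FIN2 (uses FIN1) -/
theorem finalE (d n : ℕ) (a : Fin n → E d) (hd : 1 ≤ d) (P : Set (E d))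
    (hP : P = {x | ∀ i, |⟪a i, x⟫| ≤ 1}) (hb : Bornology.IsBounded P)
    (hns : ∀ x ∈ P, x ∉ Set.extremePoints ℝ P →
      LinearIndependent ℝ (fun i : {i : Fin n // |⟪a i, x⟫| = 1} => a i.1))
    (hfew : ∀ x ∈ P, (Finset.univ.filter (fun i => |⟪a i, x⟫| = 1)).card ≤ d + 1) :
    (3 : ℕ∞) ^ d ≤ {F : Set (E d) | F.Nonempty ∧ IsExposed ℝ P F}.encard := by
  obtain ⟨e, rfl⟩ : ∃ e, d = e + 1 := ⟨d - 1, by omega⟩
  have hP' : P = Pol a := hP
  subst hP'
  have h1 := kalaiE a hb hns hfew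
  refine le_trans ?_ (WLP.cells_le_faces a)
  exact_mod_cast h1

end

end KLE
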