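import Pool.Agent.WLP.DataB

/-!
# Kalai's 3^d for centrally symmetric polytopes with simple vertex figures and at most `d + 1`
facets through every vertex: definitions (note: /team-store/KAL_helper29.md)
-/

set_option autoImplicit false

open scoped BigOperators RealInnerProductSpace

namespace KLE

noncomputable section

open Classical

open Pool.Agent.KST (E IsCell Cells Verts Simple Pol pt PP Gen Star VF Low LowF hh Fn FF Ker
  Par Le sgn supp EE X D)
open WLP (SepB HypB Data)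

/-! ### Part M: monomials -/

/-- degree of the monomial with exponents `m` -/
def deg {N : ℕ} (m : Fin N → ℕ) : ℕ := ∑ i, m i

/-- all monomials obtained from monomials of `B` by dividing by one variable -/
def shadow {N : ℕ} (B : Finset (Fin N → ℕ)) : Finset (Fin N → ℕ) :=
  B.biUnion (fun m => (Finset.univ.filter (fun i => 0 < m i)).image
    (fun i => Function.update m i (m i - 1)))

/-- `B` is closed under replacing one variable by the variable `0` -/
def Stable {N : ℕ} (B : Finset (Fin (N + 1) → ℕ)) : Prop :=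
  ∀ m ∈ B, ∀ i : Fin N, 0 < m i.succ →
    Function.update (Function.update m i.succ (m i.succ - 1)) 0 (m 0 + 1) ∈ B

/-- the monomials of `B` without the variable `0` -/
def sl {N : ℕ} (B : Finset (Fin (N + 1) → ℕ)) : Finset (Fin N → ℕ) :=
  (B.filter (fun m => m 0 = 0)).image (fun m => fun i => m i.succ)

/-! ### Part H: points and monomials -/

/-- the values of the monomial `m` at the points `x p` -/
def ev {κ : Type} {N : ℕ} (x : κ → Fin N → ℝ) (m : Fin N → ℕ) : κ → ℝ :=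
  fun p => ∏ i, x p i ^ m i

/-- the Hilbert function of the points `x p` -/
def HF {κ : Type} [Fintype κ] {N : ℕ} (x : κ → Fin N → ℝ) (q : ℕ) : ℕ :=
  Module.finrank ℝ (Submodule.span ℝ {v : κ → ℝ | ∃ m : Fin N → ℕ, deg m = q ∧ v = ev x m})

/-! ### Part K: caps and power functions -/

/-- data of a cap: the signs of the constraints tight at the vertex, the coefficients of their
relation, the small part of the circuit, its size minus one -/
structure CapD (ι : Type) where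
  σ : ι → SignType
  lam : ι → ℝ
  I : Finset ι
  a : ℕ

/-- the facet `(j, +)` is the cap facet of a vertex with `d + 2` tight constraints (in dimension
`d + 1`), with data `K` -/
structure IsCap {ι : Type} [Fintype ι] {d : ℕ} (b : ι → E (d + 1)) (j : ι) (K : CapD ι) :
    Prop where
  hj : K.σ j = 0
  hcard : (supp K.σ).card = d + 2
  hI : K.I ⊆ supp K.σ
  hIa : K.I.card = K.a + 1
  haD : 2 * K.a ≤ d
  hlam : ∀ l, K.lam l ≠ 0 ↔ K.σ l ≠ 0
  hrel : ∑ l, (K.lam l * ((K.σ l : SignType) : ℝ)) • b l = 0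
  huniq : ∀ μ : ι → ℝ, (∀ l, K.σ l = 0 → μ l = 0) → ∑ l, μ l • b l = 0 →
    ∃ c : ℝ, ∀ l, μ l = c * (K.lam l * ((K.σ l : SignType) : ℝ))
  hcells : ∀ t : ι → SignType, t j = 1 → (t ∈ Cells b ↔
    (∀ l, l ≠ j → t l ≠ 0 → t l = K.σ l) ∧ ¬ K.I ⊆ supp t ∧ ¬ (supp K.σ \ K.I) ⊆ supp t)

/-- all facets `(j, +)`, `j ∈ J`, are nonempty cap facets, and the small part of each circuit lies
in no other one -/
structure Fam {ι : Type} [Fintype ι] {d : ℕ} (b : ι → E (d + 1)) (J : Finset ι)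
    (K : ι → CapD ι) : Prop where
  cap : ∀ j ∈ J, IsCap b j (K j)
  ne : ∀ j ∈ J, ∃ t ∈ Cells b, t j = 1
  out : ∀ j ∈ J, ∀ j' ∈ J, (K j).σ j' = 0
  priv : ∀ j ∈ J, ∀ j' ∈ J, j ≠ j' → (∃ l ∈ (K j).I, (K j').σ l ≠ (K j).σ l) ∧
    ∃ l ∈ (K j).I, (K j').σ l ≠ -(K j).σ l

/-- the power function of degree `q` of a sign vector and coefficients -/
def pw {ι : Type} [Fintype ι] (σ : ι → SignType) (lam : ι → ℝ) (q : ℕ) : Fn ι := fun e =>
  if (∑ l, (e l).natAbs = q) ∧ ∀ l, e l ≠ 0 → SignType.sign (e l) = σ l then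
    ∏ l, lam l ^ (e l).natAbs else 0

/-- span of the power functions of the caps of `T` (both signs) -/
def VV {ι : Type} [Fintype ι] (K : ι → CapD ι) (T : Finset ι) (q : ℕ) : Submodule ℝ (Fn ι) :=
  Submodule.span ℝ {f | ∃ j ∈ T, f = pw (K j).σ (K j).lam q ∨ f = pw (-(K j).σ) (K j).lam q}

/-- Hilbert function of the caps of `T` -/
def hf {ι : Type} [Fintype ι] (K : ι → CapD ι) (T : Finset ι) (q : ℕ) : ℕ :=
  Module.finrank ℝ (VV K T q)

/-- the cells outside the cap facets -/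
def C0 {ι : Type} [Fintype ι] {d : ℕ} (b : ι → E d) (J : Finset ι) : Finset (ι → SignType) :=
  (Cells b).filter (fun s => ∀ j ∈ J, s j = 0)

/-- odd kernel functions outside the cap facets -/
def sp {ι : Type} [Fintype ι] {d : ℕ} (b : ι → E d) (J : Finset ι) (q : ℕ) : ℕ :=
  Module.finrank ℝ ↥(FF (C0 b J) q ⊓ Ker b ⊓ Par ι (-1))

/-- odd kernel functions -/
def kap {ι : Type} [Fintype ι] {d : ℕ} (b : ι → E d) (q : ℕ) : ℕ :=
  Module.finrank ℝ ↥(FF (Cells b) q ⊓ Ker b ⊓ Par ι (-1))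

/-- the caps with circuits of size larger than `c` -/
def TT {ι : Type} (J : Finset ι) (K : ι → CapD ι) (c : ℕ) : Finset ι :=
  J.filter (fun j => c ≤ (K j).a)

/-- the number of kernel functions on the closed star of `(j, +)` -/
def st {ι : Type} [Fintype ι] {d : ℕ} (b : ι → E d) (j : ι) (q : ℕ) : ℕ :=
  Module.finrank ℝ ↥(FF (Star b j) q ⊓ Ker b)

/-- the numbers of a centrally symmetric simple polytope with separated facets `(j, +)`, `j ∈ J` -/
structure DataE {ι : Type} [Fintype ι] {d : ℕ} (b : ι → E (d + 1)) (J : Finset ι) : Prop where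
  k0 : kap b 0 = 0
  ksym : ∀ n ≤ d + 1, kap b (d + 1 - n) = kap b n
  h0 : ∀ j ∈ J, st b j 0 = 1
  hsym : ∀ j ∈ J, ∀ n ≤ d, st b j (d - n) = st b j n
  hsum : ∀ j ∈ J, ∑ n ∈ Finset.range (d + 1), st b j n = (VF b j).card
  cells : (Cells b).card = 3 ^ (d + 1) + 2 * ∑ n ∈ Finset.range (d + 2), 2 ^ n * kap b n
  facets : ∀ j ∈ J, ((Cells b).filter (fun s => s j = 1)).card =
    ∑ n ∈ Finset.range (d + 1), 2 ^ n * st b j n
  verts : 2 * ∑ j ∈ J, (VF b j).card ≤ 2 ^ (d + 1) + 2 * ∑ n ∈ Finset.range (d + 2), kap b n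
  fac : (Finset.univ.filter (fun l => l ∉ J ∧ ∃ t ∈ Cells b, t l = 1)).card + J.card ≤
    kap b 1 + (d + 1)

/-! ### Part A: numbers -/

/-- the numbers of the proof; `m` = dimension, `(m - 1) / 2` = largest index of the circuits -/
structure Nums (m : ℕ) (s r A B M : ℕ → ℕ) : Prop where
  hs1 : ∀ c, 1 ≤ c → c ≤ (m - 1) / 2 → 0 < r c → 1 ≤ s 1
  hBs : ∀ c, 1 ≤ c → c + 1 ≤ (m - 1) / 2 → B c ≤ s c + s (c + 1)
  hBA : ∀ c, 1 ≤ c → c + 1 ≤ (m - 1) / 2 → B c ≤ A c
  hA1 : A 1 ≤ m + 2 * s 1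
  hM1 : 2 * M 1 ≤ A 1 * (A 1 + 1)
  hA2 : 2 ≤ (m - 1) / 2 → 2 * A 2 ≤ B 1 * (B 1 + 1)
  hgA : ∀ c z, 1 ≤ c → c + 1 ≤ (m - 1) / 2 → B c ≤ (z + c).choose c →
    (c + 1) * A (c + 1) ≤ (z + c + 1) * B c
  hgM : ∀ c z, 1 ≤ c → c ≤ (m - 1) / 2 → A c ≤ (z + c).choose c →
    (c + 1) * M c ≤ (z + c + 1) * A c
  hrM : ∀ c, 1 ≤ c → c ≤ (m - 1) / 2 → 2 * r c ≤ M c
  hS : ∑ c ∈ Finset.Icc 1 ((m - 1) / 2), (c + 1) * r c ≤ 2 ^ (m - 1) +
    (∑ q ∈ Finset.Icc 1 ((m - 1) / 2), 2 * s q + if m % 2 = 0 then s (m / 2) else 0)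

/-- the inequality to be proved -/
def Good (m : ℕ) (s r : ℕ → ℕ) : Prop :=
  ∑ c ∈ Finset.Icc 1 ((m - 1) / 2), (2 ^ (c + 1) - 2) * r c ≤
    ∑ q ∈ Finset.Icc 1 ((m - 1) / 2), (2 ^ q + 2 ^ (m - q)) * s q +
      if m % 2 = 0 then 2 ^ (m / 2) * s (m / 2) else 0

end

end KLE
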