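import Mathlib
import Pool.Agent.KLE.Defs

/-!
# The inequality `Good` for `m` at least 19

`z = D = (m - 1) / 2` at every level, `b c = B c / C(D + c, c)`, `cs` the last level with
`b c > 1`; the budget is used for the levels up to `cs` only; multipliers
`lam c = (13 / 40) 2 ^ (m - c)`; the identity `sum C(n + k, k) / 2 ^ k = 2 ^ n`.
-/

open Finset

namespace KLE
namespace BG

/-- binomial coefficient `C(D + c, c)` -/
noncomputable def h (D c : ℕ) : ℝ := ((D + c).choose c : ℝ)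

/-- `C(D + c, c) / 2 ^ c` -/
noncomputable def T (D c : ℕ) : ℝ := h D c / 2 ^ c

/-- normalized coefficient of `b k` on the left -/
noncomputable def g (D k : ℕ) : ℝ := 2 ^ (k + 1) * h D (k + 2) / 4 ^ D

lemma h_pos (D c : ℕ) : 0 < h D c := by
  unfold h
  exact_mod_cast Nat.choose_pos (Nat.le_add_left c D)

lemma h_zero (D : ℕ) : h D 0 = 1 := by simp [h]

lemma T_zero (D : ℕ) : T D 0 = 1 := by simp [T, h]

lemma T_pos (D c : ℕ) : 0 < T D c := div_pos (h_pos D c) (by positivity)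

lemma h_succ (D c : ℕ) : ((c : ℝ) + 1) * h D (c + 1) = ((D : ℝ) + c + 1) * h D c := by
  have h0 := Nat.add_one_mul_choose_eq (D + c) c
  unfold h
  have e : D + (c + 1) = D + c + 1 := by ring
  rw [e]
  have h2 : ((D : ℝ) + c + 1) * ((D + c).choose c : ℝ) =
      ((D + c + 1).choose (c + 1) : ℝ) * ((c : ℝ) + 1) := by exact_mod_cast h0
  linarith

lemma h_pascal (n k : ℕ) : h (n + 1) (k + 1) = h (n + 1) k + h n (k + 1) := by
  unfold h
  have e1 : n + 1 + (k + 1) = (n + 1 + k) + 1 := by ring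
  have e2 : n + (k + 1) = n + 1 + k := by ring
  rw [e1, Nat.choose_succ_succ, e2]
  push_cast
  ring

lemma T_pascal (n k : ℕ) : T (n + 1) (k + 1) = 1 / 2 * T (n + 1) k + T n (k + 1) := by
  unfold T
  rw [h_pascal, pow_succ]
  field_simp

lemma h_diag (n : ℕ) : h (n + 1) (n + 1) = 2 * h n (n + 1) := by
  unfold h
  have e1 : n + 1 + (n + 1) = 2 * (n + 1) := by ring
  have e2 : n + (n + 1) = 2 * n + 1 := by ring
  rw [e1, e2]
  have h0 := Nat.centralBinom_eq_two_mul_choose (n + 1)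
  have h1 : (2 * (n + 1)).choose (n + 1) = 2 * (2 * n + 1).choose (n + 1) := by
    have e3 : 2 * (n + 1) = (2 * n + 1) + 1 := by ring
    rw [e3, Nat.choose_succ_succ, Nat.succ_eq_add_one]
    have e4 : (2 * n + 1).choose n = (2 * n + 1).choose (n + 1) := by
      apply Nat.choose_symm_of_eq_add
      ring
    omega
  exact_mod_cast h1

lemma sum_T (n : ℕ) : ∑ k ∈ range (n + 1), T n k = 2 ^ n := by
  induction n with
  | zero => simp [T, h]
  | succ n ih =>
    have key : ∑ k ∈ range (n + 1 + 1), T (n + 1) k =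
        1 / 2 * ∑ k ∈ range (n + 1 + 1), T (n + 1) k + ∑ k ∈ range (n + 1), T n k := by
      have h1 : ∑ k ∈ range (n + 1 + 1), T (n + 1) k =
          ∑ k ∈ range (n + 1), T (n + 1) (k + 1) + T (n + 1) 0 := Finset.sum_range_succ' _ _
      have h2 : ∑ k ∈ range (n + 1), T (n + 1) (k + 1) =
          1 / 2 * ∑ k ∈ range (n + 1), T (n + 1) k + ∑ k ∈ range (n + 1), T n (k + 1) := by
        rw [Finset.mul_sum, ← Finset.sum_add_distrib]
        exact Finset.sum_congr rfl (fun k _ => T_pascal n k)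
      have h3 : ∑ k ∈ range (n + 1 + 1), T n k =
          ∑ k ∈ range (n + 1), T n (k + 1) + T n 0 := Finset.sum_range_succ' _ _
      have h4 : ∑ k ∈ range (n + 1 + 1), T n k =
          ∑ k ∈ range (n + 1), T n k + T n (n + 1) := Finset.sum_range_succ _ _
      have h5 : ∑ k ∈ range (n + 1 + 1), T (n + 1) k =
          ∑ k ∈ range (n + 1), T (n + 1) k + T (n + 1) (n + 1) := Finset.sum_range_succ _ _
      have h6 : T (n + 1) (n + 1) = 2 * T n (n + 1) := by
        unfold T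
        rw [h_diag]
        ring
      rw [T_zero] at h1 h3
      linarith
    rw [ih] at key
    have : ∑ k ∈ range (n + 1 + 1), T (n + 1) k = 2 * 2 ^ n := by linarith
    rw [this, pow_succ]
    ring

/-- the value on the diagonal: `T D D = T D (D - 1)` -/
lemma T_top (E : ℕ) : T (E + 1) (E + 1) = T (E + 1) E := by
  unfold T
  have h0 := h_succ (E + 1) E
  push_cast at h0
  have hE : (0 : ℝ) < (E : ℝ) + 1 := by positivity
  have h1 : h (E + 1) (E + 1) = 2 * h (E + 1) E := by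
    have : ((E : ℝ) + 1) * h (E + 1) (E + 1) = ((E : ℝ) + 1) * (2 * h (E + 1) E) := by
      rw [h0]; ring
    exact mul_left_cancel₀ hE.ne' this
  rw [h1, pow_succ]
  field_simp

lemma sum_T' (E : ℕ) : ∑ k ∈ range (E + 1), T (E + 1) k = 2 ^ (E + 1) - T (E + 1) (E + 1) := by
  have h0 := sum_T (E + 1)
  rw [Finset.sum_range_succ] at h0
  linarith

lemma h_nonneg (D c : ℕ) : 0 ≤ h D c := (h_pos D c).le

lemma h_mono_left {D D' : ℕ} (hD : D ≤ D') (c : ℕ) : h D c ≤ h D' c := by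
  unfold h
  exact_mod_cast Nat.choose_le_choose c (by omega)

lemma T_mono_left {D D' : ℕ} (hD : D ≤ D') (c : ℕ) : T D c ≤ T D' c := by
  unfold T
  exact div_le_div_of_nonneg_right (h_mono_left hD c) (by positivity)

/-- two steps -/
lemma h_two (D c : ℕ) : ((c : ℝ) + 1) * ((c : ℝ) + 2) * h D (c + 2) =
    ((D : ℝ) + c + 1) * ((D : ℝ) + c + 2) * h D c := by
  have h1 := h_succ D c
  have h2 := h_succ D (c + 1)
  push_cast at h2
  have h3 : ((c : ℝ) + 1 + 1) * h D (c + 2) = ((D : ℝ) + (c + 1) + 1) * h D (c + 1) := h2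
  calc ((c : ℝ) + 1) * ((c : ℝ) + 2) * h D (c + 2)
      = ((c : ℝ) + 1) * (((c : ℝ) + 1 + 1) * h D (c + 2)) := by ring
    _ = ((c : ℝ) + 1) * (((D : ℝ) + (c + 1) + 1) * h D (c + 1)) := by rw [h3]
    _ = ((D : ℝ) + (c + 1) + 1) * (((c : ℝ) + 1) * h D (c + 1)) := by ring
    _ = ((D : ℝ) + (c + 1) + 1) * (((D : ℝ) + c + 1) * h D c) := by rw [h1]
    _ = _ := by ring

/-- `20 (j + 4) (j + 3) <= 39 * 4 ^ j` for `j >= 2` -/
lemma pow_aux (j : ℕ) (hj : 2 ≤ j) : 20 * (j + 4) * (j + 3) ≤ 39 * 4 ^ j := by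
  induction j, hj using Nat.le_induction with
  | base => norm_num
  | succ j hj ih =>
    rw [pow_succ]
    nlinarith

/-- (III): low levels are dominated one by one -/
lemma g_le (D k : ℕ) (hk : 1 ≤ k) (hkD : k + 2 ≤ D) : g D k ≤ 13 / 20 * T D k := by
  obtain ⟨j, rfl⟩ : ∃ j, D = k + j := ⟨D - k, by omega⟩
  have hj : 2 ≤ j := by omega
  have haux : (20 : ℝ) * (j + 4) * (j + 3) ≤ 39 * 4 ^ j := by exact_mod_cast pow_aux j hj
  have hk' : (1 : ℝ) ≤ k := by exact_mod_cast hk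
  have hj' : (2 : ℝ) ≤ j := by exact_mod_cast hj
  have h2 := h_two (k + j) k
  push_cast at h2
  set H := h (k + j) k with hH
  set H2 := h (k + j) (k + 2) with hH2
  have hHp : 0 < H := h_pos _ _
  -- the polynomial inequality
  have p1 : ((k : ℝ) + j + k + 2) * 3 ≤ (j + 4) * (k + 2) := by nlinarith
  have p2 : ((k : ℝ) + j + k + 1) * 2 ≤ (j + 3) * (k + 1) := by nlinarith
  have p3 : ((k : ℝ) + j + k + 2) * 3 * (((k : ℝ) + j + k + 1) * 2) ≤
      (j + 4) * (k + 2) * ((j + 3) * (k + 1)) :=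
    mul_le_mul p1 p2 (by positivity) (by positivity)
  have p4 : 40 * (((k : ℝ) + j + k + 1) * ((k : ℝ) + j + k + 2)) ≤
      13 * 4 ^ j * ((k + 1) * (k + 2)) := by
    have : (20 : ℝ) * (j + 4) * (j + 3) * ((k + 1) * (k + 2)) ≤
        39 * 4 ^ j * ((k + 1) * (k + 2)) :=
      mul_le_mul_of_nonneg_right haux (by positivity)
    nlinarith
  have p5 : 40 * H2 ≤ 13 * 4 ^ j * H := by
    have hpos : (0 : ℝ) < ((k : ℝ) + 1) * (k + 2) := by positivity
    have : ((k : ℝ) + 1) * (k + 2) * (40 * H2) ≤ ((k : ℝ) + 1) * (k + 2) * (13 * 4 ^ j * H) := by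
      calc ((k : ℝ) + 1) * (k + 2) * (40 * H2) = 40 * (((k : ℝ) + 1) * (k + 2) * H2) := by ring
        _ = 40 * (((k : ℝ) + j + k + 1) * ((k : ℝ) + j + k + 2) * H) := by rw [h2]
        _ = 40 * (((k : ℝ) + j + k + 1) * ((k : ℝ) + j + k + 2)) * H := by ring
        _ ≤ 13 * 4 ^ j * ((k + 1) * (k + 2)) * H := mul_le_mul_of_nonneg_right p4 hHp.le
        _ = _ := by ring
    exact le_of_mul_le_mul_left this hpos
  unfold g T
  rw [← hH, ← hH2, ← mul_div_assoc, div_le_div_iff₀ (by positivity) (by positivity)]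
  have e4 : (4 : ℝ) ^ (k + j) = 2 ^ k * 2 ^ k * 4 ^ j := by
    rw [pow_add, ← mul_pow]; norm_num
  rw [e4, pow_succ]
  have h2k : (0 : ℝ) < 2 ^ k * 2 ^ k := by positivity
  nlinarith [mul_le_mul_of_nonneg_left p5 h2k.le]

/-- growth of `g` -/
lemma g_step (D k : ℕ) (hkD : k + 3 ≤ D) : 4 * g D k ≤ g D (k + 1) := by
  have h0 := h_succ D (k + 2)
  push_cast at h0
  have hD : (k : ℝ) + 3 ≤ D := by exact_mod_cast hkD
  have hp := h_pos D (k + 2)
  have h1 : 2 * h D (k + 2) ≤ h D (k + 3) := by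
    have hk : (0 : ℝ) < (k : ℝ) + 2 + 1 := by positivity
    have : ((k : ℝ) + 2 + 1) * (2 * h D (k + 2)) ≤ ((k : ℝ) + 2 + 1) * h D (k + 3) := by
      have e : h D (k + 3) = h D (k + 2 + 1) := rfl
      rw [e, h0]
      nlinarith
    exact le_of_mul_le_mul_left this hk
  unfold g
  rw [← mul_div_assoc]
  apply div_le_div_of_nonneg_right _ (by positivity)
  have e1 : (2 : ℝ) ^ (k + 1 + 1) = 2 * 2 ^ (k + 1) := by rw [pow_succ]; ring
  have e2 : h D (k + 1 + 2) = h D (k + 3) := rfl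
  rw [e1, e2]
  have h2k : (0 : ℝ) < 2 ^ (k + 1) := by positivity
  nlinarith [mul_le_mul_of_nonneg_left h1 h2k.le]

lemma g_nonneg (D k : ℕ) : 0 ≤ g D k := by
  unfold g
  have := h_nonneg D (k + 2)
  positivity

/-- sum of the lower `g` -/
lemma g_sum (D n : ℕ) (hn : n + 2 ≤ D) : ∑ k ∈ range (n + 1), g D k ≤ 4 / 3 * g D n := by
  induction n with
  | zero =>
    have := g_nonneg D 0
    simp only [zero_add, Finset.sum_range_one]
    linarith
  | succ n ih =>
    rw [Finset.sum_range_succ]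
    have h1 := ih (by omega)
    have h2 := g_step D n (by omega)
    linarith

/-- the two top values -/
lemma g_top2 (E : ℕ) : g (E + 2) E = 1 / 2 * T (E + 2) (E + 2) := by
  unfold g T
  have e4 : (4 : ℝ) ^ (E + 2) = 2 ^ (E + 2) * 2 ^ (E + 2) := by rw [← mul_pow]; norm_num
  have e2 : (2 : ℝ) ^ (E + 2) = 2 * 2 ^ (E + 1) := by rw [pow_succ]; ring
  rw [e4]
  have h2k : (0 : ℝ) < 2 ^ (E + 2) := by positivity
  have h1k : (0 : ℝ) < 2 ^ (E + 1) := by positivity
  rw [e2]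
  field_simp

lemma g_top1 (E : ℕ) : g (E + 1) E ≤ 2 * T (E + 1) (E + 1) := by
  have h0 := h_succ (E + 1) (E + 1)
  push_cast at h0
  have hp := h_pos (E + 1) (E + 1)
  have h1 : h (E + 1) (E + 2) ≤ 2 * h (E + 1) (E + 1) := by
    have hk : (0 : ℝ) < (E : ℝ) + 1 + 1 := by positivity
    have : ((E : ℝ) + 1 + 1) * h (E + 1) (E + 2) ≤ ((E : ℝ) + 1 + 1) * (2 * h (E + 1) (E + 1)) := by
      have e : h (E + 1) (E + 2) = h (E + 1) (E + 1 + 1) := rfl
      rw [e, h0]
      nlinarith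
    exact le_of_mul_le_mul_left this hk
  unfold g T
  have e4 : (4 : ℝ) ^ (E + 1) = 2 ^ (E + 1) * 2 ^ (E + 1) := by rw [← mul_pow]; norm_num
  rw [e4]
  have h2k : (0 : ℝ) < 2 ^ (E + 1) := by positivity
  rw [← mul_div_assoc, div_le_div_iff₀ (by positivity) (by positivity)]
  have h3 : (0 : ℝ) < 2 ^ (E + 1) * 2 ^ (E + 1) := by positivity
  nlinarith [mul_le_mul_of_nonneg_left h1 h3.le]

/-- the central value grows by a factor at most two -/
lemma T_diag_step (n : ℕ) : T (n + 1) (n + 1) ≤ 2 * T n n := by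
  have h0 := h_succ n n
  have hp := h_pos n n
  have h1 : h n (n + 1) ≤ 2 * h n n := by
    have hk : (0 : ℝ) < (n : ℝ) + 1 := by positivity
    have : ((n : ℝ) + 1) * h n (n + 1) ≤ ((n : ℝ) + 1) * (2 * h n n) := by
      rw [h0]
      nlinarith
    exact le_of_mul_le_mul_left this hk
  unfold T
  rw [h_diag, pow_succ]
  have h2k : (0 : ℝ) < 2 ^ n := by positivity
  rw [← mul_div_assoc, div_le_div_iff₀ (by positivity) (by positivity)]
  have h3 : (0 : ℝ) < 2 ^ n := by positivity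
  nlinarith [mul_le_mul_of_nonneg_left h1 h3.le]

lemma T_diag_le (D : ℕ) (hD : 11 ≤ D) : T D D ≤ 705432 / 4194304 * 2 ^ D := by
  induction D, hD using Nat.le_induction with
  | base =>
    have : h 11 11 = 705432 := by
      unfold h
      have : Nat.choose (11 + 11) 11 = 705432 := by decide +kernel
      rw [this]; norm_num
    unfold T
    rw [this]
    norm_num
  | succ n hn ih =>
    have := T_diag_step n
    rw [pow_succ]
    linarith

/-- monotonicity of `2 ^ (c + 2) / (c + 2)` in integers -/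
lemma beta_nat (j c : ℕ) (hjc : j ≤ c) : 2 ^ (j + 2) * (c + 2) ≤ 2 ^ (c + 2) * (j + 2) := by
  obtain ⟨d, rfl⟩ := Nat.exists_eq_add_of_le hjc
  have h1 : d + 1 ≤ 2 ^ d := Nat.lt_two_pow_self
  have e : 2 ^ (j + d + 2) = 2 ^ (j + 2) * 2 ^ d := by rw [← pow_add]; congr 1; ring
  rw [e, mul_assoc]
  apply Nat.mul_le_mul_left
  nlinarith

lemma beta_le (j c : ℕ) (hjc : j ≤ c) : (2 : ℝ) ^ (j + 2) / ((j : ℝ) + 2) ≤
    2 ^ (c + 2) / ((c : ℝ) + 2) := by
  rw [div_le_div_iff₀ (by positivity) (by positivity)]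
  exact_mod_cast beta_nat j c hjc

/-- the finite check of (II) -/
lemma II_check : ∀ c < 9, ∀ D ∈ ({9, 10} : Finset ℕ), c + 2 ≤ D →
    20 * 2 ^ (c + 2) * 4 ^ D +
      20 * (c + 2) * ∑ k ∈ Finset.Ico (c + 1) D, 2 ^ (k + 1) * (D + (k + 2)).choose (k + 2) ≤
    13 * (c + 2) * ∑ i ∈ range D, 2 ^ (2 * D - i) * (D + i).choose i := by
  decide +kernel

lemma II_small (D c : ℕ) (h1 : 9 ≤ D) (h2 : D ≤ 10) (hc : c + 2 ≤ D) :
    (2 : ℝ) ^ (c + 2) / ((c : ℝ) + 2) + ∑ k ∈ Finset.Ico (c + 1) D, g D k ≤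
      13 / 20 * ∑ k ∈ range D, T D k := by
  have h0 := II_check c (by omega) D (by
    simp only [Finset.mem_insert, Finset.mem_singleton]; omega) hc
  have h3 : 20 * (2 : ℝ) ^ (c + 2) * 4 ^ D +
      20 * ((c : ℝ) + 2) * ∑ k ∈ Finset.Ico (c + 1) D, 2 ^ (k + 1) * h D (k + 2) ≤
    13 * ((c : ℝ) + 2) * ∑ i ∈ range D, 2 ^ (2 * D - i) * h D i := by
    unfold h
    exact_mod_cast h0
  have e1 : ∑ k ∈ Finset.Ico (c + 1) D, 2 ^ (k + 1) * h D (k + 2) =
      4 ^ D * ∑ k ∈ Finset.Ico (c + 1) D, g D k := by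
    rw [Finset.mul_sum]
    apply Finset.sum_congr rfl
    intro k _
    unfold g
    field_simp
  have e2 : ∑ i ∈ range D, 2 ^ (2 * D - i) * h D i = 4 ^ D * ∑ k ∈ range D, T D k := by
    rw [Finset.mul_sum]
    apply Finset.sum_congr rfl
    intro k hk
    have hk' : k < D := Finset.mem_range.mp hk
    unfold T
    have e3 : (4 : ℝ) ^ D = 2 ^ (2 * D - k) * 2 ^ k := by
      rw [← pow_add]
      have : 2 * D - k + k = 2 * D := by omega
      rw [this, pow_mul]; norm_num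
    rw [e3]
    field_simp
  rw [e1, e2] at h3
  have h4 : (0 : ℝ) < 4 ^ D := by positivity
  have h5 : (0 : ℝ) < (c : ℝ) + 2 := by positivity
  have h6 : (0 : ℝ) < 20 * (4 ^ D * ((c : ℝ) + 2)) := by positivity
  have h7 : 20 * (4 ^ D * ((c : ℝ) + 2)) *
      ((2 : ℝ) ^ (c + 2) / ((c : ℝ) + 2) + ∑ k ∈ Finset.Ico (c + 1) D, g D k) ≤
      20 * (4 ^ D * ((c : ℝ) + 2)) * (13 / 20 * ∑ k ∈ range D, T D k) := by
    have e5 : 20 * (4 ^ D * ((c : ℝ) + 2)) *
      ((2 : ℝ) ^ (c + 2) / ((c : ℝ) + 2) + ∑ k ∈ Finset.Ico (c + 1) D, g D k) =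
      20 * (2 : ℝ) ^ (c + 2) * 4 ^ D +
      20 * ((c : ℝ) + 2) * (4 ^ D * ∑ k ∈ Finset.Ico (c + 1) D, g D k) := by
      field_simp
    rw [e5]
    linarith
  exact le_of_mul_le_mul_left h7 h6

lemma II_large (D c : ℕ) (h1 : 11 ≤ D) (hc : c + 2 ≤ D) :
    (2 : ℝ) ^ (c + 2) / ((c : ℝ) + 2) + ∑ k ∈ Finset.Ico (c + 1) D, g D k ≤
      13 / 20 * ∑ k ∈ range D, T D k := by
  obtain ⟨E, rfl⟩ : ∃ E, D = E + 2 := ⟨D - 2, by omega⟩
  have a1 := beta_le c E (by omega)
  have a2 : ∑ k ∈ Finset.Ico (c + 1) (E + 2), g (E + 2) k ≤ ∑ k ∈ range (E + 2), g (E + 2) k := by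
    apply Finset.sum_le_sum_of_subset_of_nonneg
    · intro x hx
      simp only [Finset.mem_Ico] at hx
      simp only [Finset.mem_range]
      omega
    · intro i _ _
      exact g_nonneg _ _
  have a3 : ∑ k ∈ range (E + 2), g (E + 2) k =
      ∑ k ∈ range (E + 1), g (E + 2) k + g (E + 2) (E + 1) := Finset.sum_range_succ _ _
  have a4 := g_sum (E + 2) E (by omega)
  rw [g_top2] at a4
  have a5 : g (E + 2) (E + 1) ≤ 2 * T (E + 2) (E + 2) := g_top1 (E + 1)
  have a6 : ∑ k ∈ range (E + 2), T (E + 2) k = 2 ^ (E + 2) - T (E + 2) (E + 2) := sum_T' (E + 1)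
  have a7 := T_diag_le (E + 2) h1
  have a8 : (2 : ℝ) ^ (E + 2) / ((E : ℝ) + 2) ≤ 2 ^ (E + 2) / 11 := by
    apply div_le_div_of_nonneg_left (by positivity) (by norm_num)
    have : (11 : ℝ) ≤ ((E + 2 : ℕ) : ℝ) := by exact_mod_cast h1
    push_cast at this
    linarith
  have a9 : (0 : ℝ) < 2 ^ (E + 2) := by positivity
  rw [a6]
  set X : ℝ := 2 ^ (E + 2) with hX
  set Y := T (E + 2) (E + 2)
  have b1 : (2 : ℝ) ^ (c + 2) / ((c : ℝ) + 2) ≤ X / 11 := le_trans a1 a8
  nlinarith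

lemma II (D c : ℕ) (h1 : 9 ≤ D) (hc : c + 2 ≤ D) :
    (2 : ℝ) ^ (c + 2) / ((c : ℝ) + 2) + ∑ k ∈ Finset.Ico (c + 1) D, g D k ≤
      13 / 20 * ∑ k ∈ range D, T D k := by
  rcases Nat.lt_or_ge D 11 with h | h
  · exact II_small D c h1 (by omega) hc
  · exact II_large D c h hc

/-- (I): the budget of a saturated level -/
lemma I (D c : ℕ) (h1 : 9 ≤ D) (hc1 : 1 ≤ c) (hc : c + 1 ≤ D) :
    (2 : ℝ) ^ (c + 2) / ((c : ℝ) + 2) ≤ 13 / 20 * ∑ k ∈ range (c + 1), T D k := by
  rcases Nat.lt_or_ge c 5 with hc5 | hc5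
  · have a1 : ∑ k ∈ range (c + 1), T 9 k ≤ ∑ k ∈ range (c + 1), T D k :=
      Finset.sum_le_sum (fun k _ => T_mono_left h1 k)
    have a2 : (2 : ℝ) ^ (c + 2) / ((c : ℝ) + 2) ≤ 13 / 20 * ∑ k ∈ range (c + 1), T 9 k := by
      have b0 : h 9 0 = 1 := h_zero 9
      have b1 : h 9 1 = 10 := by
        unfold h
        have : Nat.choose (9 + 1) 1 = 10 := by decide +kernel
        rw [this]; norm_num
      have b2 : h 9 2 = 55 := by
        unfold h
        have : Nat.choose (9 + 2) 2 = 55 := by decide +kernel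
        rw [this]; norm_num
      have b3 : h 9 3 = 220 := by
        unfold h
        have : Nat.choose (9 + 3) 3 = 220 := by decide +kernel
        rw [this]; norm_num
      have b4 : h 9 4 = 715 := by
        unfold h
        have : Nat.choose (9 + 4) 4 = 715 := by decide +kernel
        rw [this]; norm_num
      interval_cases c <;>
        simp only [Finset.sum_range_succ, Finset.sum_range_zero, T, b0, b1, b2, b3, b4] <;>
        norm_num
    linarith
  · have a1 : ∑ k ∈ range (c + 1), T c k ≤ ∑ k ∈ range (c + 1), T D k :=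
      Finset.sum_le_sum (fun k _ => T_mono_left (by omega) k)
    rw [sum_T] at a1
    have h5 : (5 : ℝ) ≤ c := by exact_mod_cast hc5
    have a2 : (2 : ℝ) ^ (c + 2) / ((c : ℝ) + 2) ≤ 13 / 20 * 2 ^ c := by
      rw [div_le_iff₀ (by positivity)]
      have e : (2 : ℝ) ^ (c + 2) = 4 * 2 ^ c := by rw [pow_add]; ring
      rw [e]
      have : (0 : ℝ) < 2 ^ c := by positivity
      nlinarith
    linarith

lemma sum_Icc_one {R : Type*} [AddCommMonoid R] (n : ℕ) (F : ℕ → R) :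
    ∑ c ∈ Finset.Icc 1 n, F c = ∑ j ∈ range n, F (j + 1) := by
  induction n with
  | zero => simp
  | succ n ih => rw [Finset.sum_Icc_succ_top (by omega), ih, Finset.sum_range_succ]

/-- summation by pairs -/
lemma pairs (E : ℕ) (w l s : ℕ → ℝ) (mu : ℝ) (hs : ∀ j, 0 ≤ s j)
    (h1 : ∀ j < E, mu + l (j + 1) + l j ≤ w j) (h2 : mu + l E ≤ w E) :
    mu * ∑ j ∈ range (E + 1), s j + ∑ j ∈ range E, l (j + 1) * (s j + s (j + 1)) + l 0 * s 0 ≤
      ∑ j ∈ range (E + 1), w j * s j := by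
  have a1 : ∑ j ∈ range (E + 1), w j * s j = ∑ j ∈ range E, w j * s j + w E * s E :=
    Finset.sum_range_succ _ _
  have a2 : ∑ j ∈ range E, (mu + l (j + 1) + l j) * s j ≤ ∑ j ∈ range E, w j * s j :=
    Finset.sum_le_sum (fun j hj =>
      mul_le_mul_of_nonneg_right (h1 j (Finset.mem_range.mp hj)) (hs j))
  have a3 : (mu + l E) * s E ≤ w E * s E := mul_le_mul_of_nonneg_right h2 (hs E)
  have a4 : ∑ j ∈ range E, (mu + l (j + 1) + l j) * s j =
      mu * ∑ j ∈ range E, s j + ∑ j ∈ range E, l (j + 1) * s j + ∑ j ∈ range E, l j * s j := by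
    rw [Finset.mul_sum, ← Finset.sum_add_distrib, ← Finset.sum_add_distrib]
    exact Finset.sum_congr rfl (fun j _ => by ring)
  have a5 : ∑ j ∈ range (E + 1), l j * s j =
      ∑ j ∈ range E, l (j + 1) * s (j + 1) + l 0 * s 0 := Finset.sum_range_succ' _ _
  have a6 : ∑ j ∈ range (E + 1), l j * s j = ∑ j ∈ range E, l j * s j + l E * s E :=
    Finset.sum_range_succ _ _
  have a7 : ∑ j ∈ range E, l (j + 1) * (s j + s (j + 1)) =
      ∑ j ∈ range E, l (j + 1) * s j + ∑ j ∈ range E, l (j + 1) * s (j + 1) := by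
    rw [← Finset.sum_add_distrib]
    exact Finset.sum_congr rfl (fun j _ => by ring)
  have a8 : ∑ j ∈ range (E + 1), s j = ∑ j ∈ range E, s j + s E := Finset.sum_range_succ _ _
  rw [a1, a7, a8]
  nlinarith

/-- the weights exceed `(2 / 5) 2 ^ D` after paying the multipliers -/
lemma amgm (X Y Z : ℝ) (hX : 0 < X) (hY : 0 < Y) (hXY : 2 * Z ^ 2 ≤ X * Y) :
    2 / 5 * Z ≤ X + Y / 40 := by
  by_contra hcon
  push Not at hcon
  have h1 : (X + Y / 40) ^ 2 < (2 / 5 * Z) ^ 2 := by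
    apply pow_lt_pow_left₀ hcon (by positivity) (by norm_num)
  nlinarith [sq_nonneg (X - Y / 40), sq_nonneg Z]

/-- the level bound -/
lemma level {m : ℕ} {s r A B M : ℕ → ℕ} (H : Nums m s r A B M) (D : ℕ) (hD : D = (m - 1) / 2)
    (k : ℕ) (hk : 1 ≤ k) (hkD : k + 1 ≤ D) (hB : (B k : ℝ) ≤ h D k) :
    2 * (r (k + 1) : ℝ) ≤ h D (k + 2) * ((B k : ℝ) / h D k) := by
  subst hD
  set D := (m - 1) / 2 with hD
  have hBn : B k ≤ (D + k).choose k := by
    unfold h at hB
    exact_mod_cast hB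
  have a1 : (k + 1) * A (k + 1) ≤ (D + k + 1) * B k := H.hgA k D hk hkD hBn
  have a2 : A (k + 1) ≤ (D + (k + 1)).choose (k + 1) := by
    have e := Nat.add_one_mul_choose_eq (D + k) k
    have e' : D + (k + 1) = D + k + 1 := by ring
    rw [e']
    have : (k + 1) * A (k + 1) ≤ (k + 1) * (D + k + 1).choose (k + 1) := by
      calc (k + 1) * A (k + 1) ≤ (D + k + 1) * B k := a1
        _ ≤ (D + k + 1) * (D + k).choose k := Nat.mul_le_mul_left _ hBn
        _ = (k + 1) * (D + k + 1).choose (k + 1) := by rw [e]; ring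
    exact Nat.le_of_mul_le_mul_left this (by omega)
  have a3 : (k + 1 + 1) * M (k + 1) ≤ (D + (k + 1) + 1) * A (k + 1) :=
    H.hgM (k + 1) D (by omega) hkD a2
  have a4 : 2 * r (k + 1) ≤ M (k + 1) := H.hrM (k + 1) (by omega) hkD
  have b1 : ((k : ℝ) + 1) * A (k + 1) ≤ ((D : ℝ) + k + 1) * B k := by exact_mod_cast a1
  have b3 : ((k : ℝ) + 1 + 1) * M (k + 1) ≤ ((D : ℝ) + (k + 1) + 1) * A (k + 1) := by
    exact_mod_cast a3
  have b4 : 2 * (r (k + 1) : ℝ) ≤ M (k + 1) := by exact_mod_cast a4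
  have b5 := h_two D k
  have hp := h_pos D k
  rw [← mul_div_assoc, le_div_iff₀ hp]
  have hkk : (0 : ℝ) < ((k : ℝ) + 1) * (k + 2) := by positivity
  have c1 : ((k : ℝ) + 1) * (k + 2) * (2 * (r (k + 1) : ℝ)) ≤
      ((D : ℝ) + k + 1) * ((D : ℝ) + k + 2) * B k := by
    calc ((k : ℝ) + 1) * (k + 2) * (2 * (r (k + 1) : ℝ))
        ≤ ((k : ℝ) + 1) * (k + 2) * M (k + 1) := mul_le_mul_of_nonneg_left b4 hkk.le
      _ = ((k : ℝ) + 1) * (((k : ℝ) + 1 + 1) * M (k + 1)) := by ring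
      _ ≤ ((k : ℝ) + 1) * (((D : ℝ) + (k + 1) + 1) * A (k + 1)) :=
          mul_le_mul_of_nonneg_left b3 (by positivity)
      _ = ((D : ℝ) + k + 2) * (((k : ℝ) + 1) * A (k + 1)) := by ring
      _ ≤ ((D : ℝ) + k + 2) * (((D : ℝ) + k + 1) * B k) :=
          mul_le_mul_of_nonneg_left b1 (by positivity)
      _ = _ := by ring
  have c2 : ((k : ℝ) + 1) * (k + 2) * (2 * (r (k + 1) : ℝ) * h D k) ≤
      ((k : ℝ) + 1) * (k + 2) * (h D (k + 2) * (B k : ℝ)) := by
    calc ((k : ℝ) + 1) * (k + 2) * (2 * (r (k + 1) : ℝ) * h D k)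
        = ((k : ℝ) + 1) * (k + 2) * (2 * (r (k + 1) : ℝ)) * h D k := by ring
      _ ≤ ((D : ℝ) + k + 1) * ((D : ℝ) + k + 2) * B k * h D k :=
          mul_le_mul_of_nonneg_right c1 hp.le
      _ = ((D : ℝ) + k + 1) * ((D : ℝ) + k + 2) * h D k * B k := by ring
      _ = ((k : ℝ) + 1) * (k + 2) * h D (k + 2) * B k := by rw [b5]
      _ = _ := by ring
  exact le_of_mul_le_mul_left c2 hkk

/-- the chain -/
lemma chain {m : ℕ} {s r A B M : ℕ → ℕ} (H : Nums m s r A B M) (D : ℕ) (hD : D = (m - 1) / 2)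
    (k : ℕ) (hk : 1 ≤ k) (hkD : k + 2 ≤ D) (hB : (B k : ℝ) ≤ h D k) :
    (B (k + 1) : ℝ) / h D (k + 1) ≤ (B k : ℝ) / h D k := by
  subst hD
  set D := (m - 1) / 2 with hD
  have hBn : B k ≤ (D + k).choose k := by
    unfold h at hB
    exact_mod_cast hB
  have a1 : (k + 1) * A (k + 1) ≤ (D + k + 1) * B k := H.hgA k D hk (by omega) hBn
  have a2 : B (k + 1) ≤ A (k + 1) := H.hBA (k + 1) (by omega) (by omega)
  have b1 : ((k : ℝ) + 1) * B (k + 1) ≤ ((D : ℝ) + k + 1) * B k := by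
    have : (k + 1) * B (k + 1) ≤ (D + k + 1) * B k := le_trans (Nat.mul_le_mul_left _ a2) a1
    exact_mod_cast this
  have hp := h_pos D k
  have hp1 := h_pos D (k + 1)
  have hs := h_succ D k
  rw [div_le_div_iff₀ hp1 hp]
  have hk1 : (0 : ℝ) < (k : ℝ) + 1 := by positivity
  have : ((k : ℝ) + 1) * ((B (k + 1) : ℝ) * h D k) ≤ ((k : ℝ) + 1) * ((B k : ℝ) * h D (k + 1)) := by
    calc ((k : ℝ) + 1) * ((B (k + 1) : ℝ) * h D k)
        = ((k : ℝ) + 1) * B (k + 1) * h D k := by ring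
      _ ≤ ((D : ℝ) + k + 1) * B k * h D k := mul_le_mul_of_nonneg_right b1 hp.le
      _ = B k * (((D : ℝ) + k + 1) * h D k) := by ring
      _ = B k * (((k : ℝ) + 1) * h D (k + 1)) := by rw [hs]
      _ = _ := by ring
  exact le_of_mul_le_mul_left this hk1

/-- the chain over several steps -/
lemma chain_many {m : ℕ} {s r A B M : ℕ → ℕ} (H : Nums m s r A B M) (D : ℕ)
    (hD : D = (m - 1) / 2) (k : ℕ) (hk : 1 ≤ k) (i : ℕ) (hki : k ≤ i) (hiD : i + 1 ≤ D)
    (hB : (B k : ℝ) ≤ h D k) :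
    (B i : ℝ) / h D i ≤ (B k : ℝ) / h D k := by
  induction i, hki using Nat.le_induction with
  | base => exact le_refl _
  | succ i hki ih =>
    have h1 := ih (by omega)
    have h2 : (B i : ℝ) ≤ h D i := by
      have h3 : (B k : ℝ) / h D k ≤ 1 := by
        rw [div_le_one (h_pos D k)]; exact hB
      rw [← div_le_one (h_pos D i)]
      linarith
    exact le_trans (chain H D hD i (by omega) (by omega) h2) h1

/-- the final inequality in the numbers `b` -/
lemma final (D c : ℕ) (hD : 9 ≤ D) (hc : c + 2 ≤ D) (b : ℕ → ℝ)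
    (hb1 : ∀ k, c < k → k < D → b k ≤ 1) (hb0 : ∀ k, 0 ≤ b k)
    (hbm : ∀ k, c < k → k < D → b (D - 1) ≤ b k) (ka : ℝ)
    (hk1 : ka ≤ 2 ^ (c + 2) / ((c : ℝ) + 2)) (hk2 : ka ≤ 13 / 20 * ∑ k ∈ range (c + 1), T D k) :
    ka + ∑ k ∈ Finset.Ico (c + 1) D, g D k * b k ≤
      13 / 20 * (∑ k ∈ range (c + 1), T D k + ∑ k ∈ Finset.Ico (c + 1) D, T D k * b k) := by
  have a1 : ∑ k ∈ Finset.Ico (c + 1) D, (g D k - 13 / 20 * T D k) * b k ≤
      ∑ k ∈ Finset.Ico (c + 1) D, (g D k - 13 / 20 * T D k) * b (D - 1) := by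
    apply Finset.sum_le_sum
    intro k hk
    rw [Finset.mem_Ico] at hk
    rcases Nat.lt_or_ge (k + 1) D with h1 | h1
    · have h2 := g_le D k (by omega) (by omega)
      have h3 := hbm k (by omega) (by omega)
      nlinarith
    · have : k = D - 1 := by omega
      rw [this]
  have a2 : ∑ k ∈ Finset.Ico (c + 1) D, (g D k - 13 / 20 * T D k) * b k =
      ∑ k ∈ Finset.Ico (c + 1) D, g D k * b k -
        13 / 20 * ∑ k ∈ Finset.Ico (c + 1) D, T D k * b k := by
    rw [Finset.mul_sum, ← Finset.sum_sub_distrib]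
    exact Finset.sum_congr rfl (fun k _ => by ring)
  have a3 : ∑ k ∈ Finset.Ico (c + 1) D, (g D k - 13 / 20 * T D k) * b (D - 1) =
      (∑ k ∈ Finset.Ico (c + 1) D, g D k - 13 / 20 * ∑ k ∈ Finset.Ico (c + 1) D, T D k) *
        b (D - 1) := by
    rw [Finset.mul_sum, ← Finset.sum_sub_distrib, Finset.sum_mul]
  have a4 := II D c hD hc
  have a5 : ∑ k ∈ range D, T D k =
      ∑ k ∈ range (c + 1), T D k + ∑ k ∈ Finset.Ico (c + 1) D, T D k := by
    rw [Finset.range_eq_Ico, Finset.range_eq_Ico, Finset.sum_Ico_consecutive _ (by omega) (by omega)]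
  have a6 := hb1 (D - 1) (by omega) (by omega)
  have a7 := hb0 (D - 1)
  rw [a5] at a4
  set V := ∑ k ∈ range (c + 1), T D k
  set U := ∑ k ∈ Finset.Ico (c + 1) D, T D k
  set G := ∑ k ∈ Finset.Ico (c + 1) D, g D k
  set t := b (D - 1)
  have a8 : ka + (G - 13 / 20 * U) * t ≤ 13 / 20 * V := by
    rcases le_or_gt (G - 13 / 20 * U) 0 with h1 | h1
    · have : (G - 13 / 20 * U) * t ≤ 0 := mul_nonpos_of_nonpos_of_nonneg h1 a7
      linarith
    · have : (G - 13 / 20 * U) * t ≤ (G - 13 / 20 * U) * 1 :=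
        mul_le_mul_of_nonneg_left a6 h1.le
      linarith
  linarith

/-- lower bound of the right side by the numbers `B` -/
lemma rhs_low (E : ℕ) (P Z : ℝ) (hZP : Z ^ 2 ≤ P) (hZ : Z = 2 ^ (E + 1))
    (s B : ℕ → ℝ) (hs : ∀ j, 0 ≤ s j) (hB : ∀ j, j < E → B (j + 1) ≤ s j + s (j + 1))
    (hs0 : 1 ≤ s 0) :
    2 / 5 * Z * ∑ j ∈ range (E + 1), s j +
        13 / 20 * P * (1 + ∑ j ∈ range E, B (j + 1) / 2 ^ (j + 1)) ≤
      ∑ j ∈ range (E + 1), (2 ^ (j + 1) + P / 2 ^ j) * s j := by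
  have hZp : 0 < Z := by rw [hZ]; positivity
  have hPp : 0 < P := lt_of_lt_of_le (by positivity) hZP
  have key := pairs E (fun j => 2 ^ (j + 1) + P / 2 ^ j) (fun j => 13 / 20 * P / 2 ^ j) s
    (2 / 5 * Z) hs ?_ ?_
  · simp only [pow_zero, div_one] at key
    refine le_trans ?_ key
    have a1 : ∑ j ∈ range E, 13 / 20 * P / 2 ^ (j + 1) * B (j + 1) ≤
        ∑ j ∈ range E, 13 / 20 * P / 2 ^ (j + 1) * (s j + s (j + 1)) := by
      apply Finset.sum_le_sum
      intro j hj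
      exact mul_le_mul_of_nonneg_left (hB j (Finset.mem_range.mp hj)) (by positivity)
    have a2 : ∑ j ∈ range E, 13 / 20 * P / 2 ^ (j + 1) * B (j + 1) =
        13 / 20 * P * ∑ j ∈ range E, B (j + 1) / 2 ^ (j + 1) := by
      rw [Finset.mul_sum]
      exact Finset.sum_congr rfl (fun j _ => by ring)
    have a3 : 13 / 20 * P * 1 ≤ 13 / 20 * P * s 0 :=
      mul_le_mul_of_nonneg_left hs0 (by positivity)
    rw [a2] at a1
    nlinarith
  · intro j hj
    have hX : (0 : ℝ) < 2 ^ (j + 1) := by positivity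
    have hY : 0 < P / 2 ^ j := by positivity
    have hXY : 2 * Z ^ 2 ≤ 2 ^ (j + 1) * (P / 2 ^ j) := by
      have : (2 : ℝ) ^ (j + 1) * (P / 2 ^ j) = 2 * P := by
        rw [pow_succ]; field_simp
      rw [this]; linarith
    have a1 := amgm _ _ Z hX hY hXY
    have a2 : 13 / 20 * P / 2 ^ (j + 1) = 13 / 40 * (P / 2 ^ j) := by
      rw [pow_succ]; field_simp; norm_num
    have a3 : 13 / 20 * P / 2 ^ j = 13 / 20 * (P / 2 ^ j) := by ring
    rw [a2, a3]
    linarith
  · have a3 : 13 / 20 * P / 2 ^ E = 13 / 20 * (P / 2 ^ E) := by ring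
    have a4 : 0 < P / 2 ^ E := by positivity
    rw [a3, ← hZ]
    linarith

lemma rhs_low0 (E : ℕ) (P Z : ℝ) (hZP : Z ^ 2 ≤ P) (hZ : Z = 2 ^ (E + 1))
    (s : ℕ → ℝ) (hs : ∀ j, 0 ≤ s j) :
    2 / 5 * Z * ∑ j ∈ range (E + 1), s j + (P - 2 / 5 * Z) * s 0 ≤
      ∑ j ∈ range (E + 1), (2 ^ (j + 1) + P / 2 ^ j) * s j := by
  have hZp : 0 < Z := by rw [hZ]; positivity
  have hPp : 0 < P := lt_of_lt_of_le (by positivity) hZP
  have hw : ∀ j, 2 / 5 * Z ≤ 2 ^ (j + 1) + P / 2 ^ j := by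
    intro j
    have hX : (0 : ℝ) < 2 ^ (j + 1) := by positivity
    have hY : 0 < P / 2 ^ j := by positivity
    have hXY : 2 * Z ^ 2 ≤ 2 ^ (j + 1) * (P / 2 ^ j) := by
      have : (2 : ℝ) ^ (j + 1) * (P / 2 ^ j) = 2 * P := by
        rw [pow_succ]; field_simp
      rw [this]; linarith
    have a1 := amgm _ _ Z hX hY hXY
    linarith
  rw [Finset.sum_range_succ' _ E, Finset.sum_range_succ' _ E]
  have a1 : 2 / 5 * Z * ∑ j ∈ range E, s (j + 1) ≤
      ∑ j ∈ range E, (2 ^ (j + 1 + 1) + P / 2 ^ (j + 1)) * s (j + 1) := by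
    rw [Finset.mul_sum]
    exact Finset.sum_le_sum (fun j _ => mul_le_mul_of_nonneg_right (hw (j + 1)) (hs _))
  have a2 := hs 0
  simp only [pow_zero, zero_add, pow_one, div_one]
  nlinarith

/-- the budget up to level `c` -/
lemma budget (E c : ℕ) (hcE : c ≤ E) (r : ℕ → ℝ) (hr : ∀ j, 0 ≤ r j) :
    ∑ j ∈ range (c + 1), 2 ^ (j + 2) * r j ≤
      2 ^ (c + 2) / ((c : ℝ) + 2) * ∑ j ∈ range (E + 1), ((j : ℝ) + 2) * r j := by
  have a1 : ∑ j ∈ range (c + 1), 2 ^ (j + 2) * r j ≤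
      ∑ j ∈ range (c + 1), 2 ^ (c + 2) / ((c : ℝ) + 2) * (((j : ℝ) + 2) * r j) := by
    apply Finset.sum_le_sum
    intro j hj
    rw [Finset.mem_range] at hj
    have a2 := beta_le j c (by omega)
    rw [← mul_assoc]
    apply mul_le_mul_of_nonneg_right _ (hr j)
    rw [div_le_iff₀ (by positivity)] at a2
    exact a2
  refine le_trans a1 ?_
  rw [← Finset.mul_sum]
  apply mul_le_mul_of_nonneg_left _ (by positivity)
  apply Finset.sum_le_sum_of_subset_of_nonneg
  · intro x hx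
    simp only [Finset.mem_range] at hx ⊢
    omega
  · intro i _ _
    have := hr i
    positivity

lemma beta_small (c E : ℕ) (hc : c ≤ E) (hE : 8 ≤ E) :
    (2 : ℝ) ^ (c + 2) / ((c : ℝ) + 2) ≤ 1 / 5 * 2 ^ (E + 1) := by
  refine le_trans (beta_le c E hc) ?_
  rw [div_le_iff₀ (by positivity)]
  have h8 : (8 : ℝ) ≤ E := by exact_mod_cast hE
  have e : (2 : ℝ) ^ (E + 2) = 2 * 2 ^ (E + 1) := by rw [pow_succ]; ring
  rw [e]
  have : (0 : ℝ) < 2 ^ (E + 1) := by positivity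
  nlinarith

lemma exp_aux (D : ℕ) (hD : 9 ≤ D) : 20 * (2 * D + 3) ≤ 2 ^ D := by
  induction D, hD using Nat.le_induction with
  | base => norm_num
  | succ n hn ih => rw [pow_succ]; omega

/-- the real version -/
lemma real_good (D : ℕ) (hD9 : 9 ≤ D) (m : ℕ) (hD : D = (m - 1) / 2) {s r A B M : ℕ → ℕ}
    (H : Nums m s r A B M) (hm : 19 ≤ m) (hs1 : 1 ≤ s 1) :
    ∑ j ∈ range D, (2 : ℝ) ^ (j + 2) * r (j + 1) ≤
      ∑ j ∈ range D, (2 ^ (j + 1) + (2 : ℝ) ^ (m - 1) / 2 ^ j) * s (j + 1) +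
        (if m % 2 = 0 then (2 : ℝ) ^ (m / 2) * s (m / 2) else 0) := by
  obtain ⟨E, rfl⟩ : ∃ E, D = E + 1 := ⟨D - 1, by omega⟩
  set P : ℝ := 2 ^ (m - 1) with hP
  set Z : ℝ := 2 ^ (E + 1) with hZ
  set e : ℝ := if m % 2 = 0 then (s (m / 2) : ℝ) else 0 with he
  have hZp : 0 < Z := by rw [hZ]; positivity
  have hPp : 0 < P := by rw [hP]; positivity
  have hZP : Z ^ 2 ≤ P := by
    rw [hZ, hP, ← pow_mul]
    exact pow_le_pow_right₀ (by norm_num) (by omega)
  have he0 : 0 ≤ e := by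
    rw [he]; split_ifs <;> positivity
  set S : ℝ := ∑ j ∈ range (E + 1), (s (j + 1) : ℝ) with hS
  have hS0 : 0 ≤ S := by rw [hS]; positivity
  -- the budget
  have hbud : ∑ j ∈ range (E + 1), ((j : ℝ) + 2) * (r (j + 1) : ℝ) ≤ P + (2 * S + e) := by
    have h1 := H.hS
    rw [← hD, sum_Icc_one, sum_Icc_one] at h1
    have h2 : (∑ j ∈ range (E + 1), ((j : ℝ) + 1 + 1) * (r (j + 1) : ℝ)) ≤
        (2 : ℝ) ^ (m - 1) + (∑ j ∈ range (E + 1), 2 * (s (j + 1) : ℝ) +
          if m % 2 = 0 then (s (m / 2) : ℝ) else 0) := by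
      exact_mod_cast h1
    rw [← Finset.mul_sum] at h2
    have h3 : ∑ j ∈ range (E + 1), ((j : ℝ) + 2) * (r (j + 1) : ℝ) =
        ∑ j ∈ range (E + 1), ((j : ℝ) + 1 + 1) * (r (j + 1) : ℝ) :=
      Finset.sum_congr rfl (fun j _ => by ring)
    rw [h3]
    exact h2
  -- the middle term
  have hmid : 1 / 5 * Z * e ≤ (if m % 2 = 0 then (2 : ℝ) ^ (m / 2) * s (m / 2) else 0) := by
    rw [he]
    split_ifs with hpar
    · apply mul_le_mul_of_nonneg_right _ (by positivity)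
      have : Z ≤ (2 : ℝ) ^ (m / 2) := by
        rw [hZ]
        exact pow_le_pow_right₀ (by norm_num) (by omega)
      linarith
    · simp
  set Q : ℝ := (if m % 2 = 0 then (2 : ℝ) ^ (m / 2) * s (m / 2) else 0) with hQ
  have hsn : ∀ j, (0 : ℝ) ≤ (s (j + 1) : ℝ) := fun j => by positivity
  have hrn : ∀ j, (0 : ℝ) ≤ (r (j + 1) : ℝ) := fun j => by positivity
  have hbud0 : 0 ≤ P + (2 * S + e) := by positivity
  -- large `s 1`
  rcases le_or_gt (Z / 4) (s 1 : ℝ) with hbig | hsmall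
  · have a1 := budget E E le_rfl (fun j => (r (j + 1) : ℝ)) hrn
    have a2 := beta_small E E le_rfl (by omega)
    have a3 := rhs_low0 E P Z hZP hZ (fun j => (s (j + 1) : ℝ)) hsn
    rw [← hS] at a3
    have a4 : (2 : ℝ) ^ (E + 2) / ((E : ℝ) + 2) *
        ∑ j ∈ range (E + 1), ((j : ℝ) + 2) * (r (j + 1) : ℝ) ≤
        1 / 5 * Z * (P + (2 * S + e)) :=
      mul_le_mul a2 hbud (Finset.sum_nonneg (fun j _ => by positivity)) (by positivity)
    have hZ2 : 2 ≤ Z := by
      rw [hZ, pow_succ]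
      have : (1 : ℝ) ≤ 2 ^ E := one_le_pow₀ (by norm_num)
      linarith
    have a5 : 1 / 5 * Z * P ≤ (P - 2 / 5 * Z) * (s (0 + 1) : ℝ) := by
      have b1 : 2 * Z ≤ P := by nlinarith
      have b2 : (P - 2 / 5 * Z) * (Z / 4) ≤ (P - 2 / 5 * Z) * (s (0 + 1) : ℝ) := by
        apply mul_le_mul_of_nonneg_left hbig
        linarith
      nlinarith
    nlinarith
  · -- the numbers `b`
    set b : ℕ → ℝ := fun k => (B k : ℝ) / h (E + 1) k with hb
    have hb0 : ∀ k, 0 ≤ b k := fun k => div_nonneg (by positivity) (h_nonneg _ _)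
    have hBb : ∀ k, (B k : ℝ) = h (E + 1) k * b k := by
      intro k
      have := h_pos (E + 1) k
      rw [hb]
      field_simp
    have hle1 : ∀ k, b k ≤ 1 ↔ (B k : ℝ) ≤ h (E + 1) k := by
      intro k
      rw [hb]
      exact div_le_one (h_pos _ _)
    -- lower bound of the right side
    have low := rhs_low E P Z hZP hZ (fun j => (s (j + 1) : ℝ)) (fun k => (B k : ℝ)) hsn
      (fun j hj => by
        have := H.hBs (j + 1) (by omega) (by omega)
        exact_mod_cast this) (by exact_mod_cast hs1)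
    rw [← hS] at low
    have low2 : 1 + ∑ j ∈ range E, (B (j + 1) : ℝ) / 2 ^ (j + 1) =
        1 + ∑ j ∈ range E, T (E + 1) (j + 1) * b (j + 1) := by
      congr 1
      apply Finset.sum_congr rfl
      intro j _
      rw [hBb]
      unfold T
      ring
    rw [low2] at low
    -- the last saturated level
    set c := Nat.findGreatest (fun k => 1 ≤ k ∧ h (E + 1) k < (B k : ℝ)) E with hc
    have hcE : c ≤ E := Nat.findGreatest_le E
    have hafter : ∀ k, c < k → k < E + 1 → b k ≤ 1 := by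
      intro k h1 h2
      have h3 := Nat.findGreatest_is_greatest (P := fun k => 1 ≤ k ∧ h (E + 1) k < (B k : ℝ))
        (n := E) h1 (by omega)
      rw [hle1]
      by_contra h4
      push Not at h4
      exact h3 ⟨by omega, h4⟩
    have hbefore : ∀ k, 1 ≤ k → k ≤ c → 1 ≤ b k := by
      intro k h1 h2
      by_contra h3
      push Not at h3
      have h4 : (B k : ℝ) ≤ h (E + 1) k := (hle1 k).1 h3.le
      have h5 := chain_many H (E + 1) hD k h1 c h2 (by omega) h4
      have h6 := Nat.findGreatest_of_ne_zero (P := fun k => 1 ≤ k ∧ h (E + 1) k < (B k : ℝ))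
        (n := E) (m := c) hc.symm (by omega)
      have h7 : 1 < b c := by
        rw [hb]
        exact (one_lt_div (h_pos _ _)).2 h6.2
      have h8 : b c ≤ b k := h5
      linarith
    have hmono : ∀ k, c < k → k < E + 1 → b (E + 1 - 1) ≤ b k := by
      intro k h1 h2
      have h4 : (B k : ℝ) ≤ h (E + 1) k := (hle1 k).1 (hafter k h1 h2)
      exact chain_many H (E + 1) hD k (by omega) (E + 1 - 1) (by omega) (by omega) h4
    -- the lower part
    have hlowpart : ∑ k ∈ range (c + 1), T (E + 1) k ≤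
        1 + ∑ j ∈ range c, T (E + 1) (j + 1) * b (j + 1) := by
      rw [Finset.sum_range_succ', T_zero, add_comm]
      apply add_le_add le_rfl
      apply Finset.sum_le_sum
      intro j hj
      rw [Finset.mem_range] at hj
      have h1 := hbefore (j + 1) (by omega) (by omega)
      have h2 := T_pos (E + 1) (j + 1)
      nlinarith
    have hbetaZ := beta_small c E hcE (by omega)
    have hbudc := budget E c hcE (fun j => (r (j + 1) : ℝ)) hrn
    have hbc : (2 : ℝ) ^ (c + 2) / ((c : ℝ) + 2) *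
        ∑ j ∈ range (E + 1), ((j : ℝ) + 2) * (r (j + 1) : ℝ) ≤
        (2 : ℝ) ^ (c + 2) / ((c : ℝ) + 2) * P + 1 / 5 * Z * (2 * S + e) := by
      calc _ ≤ (2 : ℝ) ^ (c + 2) / ((c : ℝ) + 2) * (P + (2 * S + e)) :=
            mul_le_mul_of_nonneg_left hbud (by positivity)
        _ = (2 : ℝ) ^ (c + 2) / ((c : ℝ) + 2) * P +
            (2 : ℝ) ^ (c + 2) / ((c : ℝ) + 2) * (2 * S + e) := by ring
        _ ≤ _ := by
            apply add_le_add le_rfl
            exact mul_le_mul_of_nonneg_right hbetaZ (by positivity)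
    rcases Nat.lt_or_ge c E with hlt | hge
    · -- the part up to `c`
      obtain ⟨ka, hka0, hka1, hka2, hka3⟩ : ∃ ka : ℝ, 0 ≤ ka ∧
          ka ≤ 2 ^ (c + 2) / ((c : ℝ) + 2) ∧
          ka ≤ 13 / 20 * ∑ k ∈ range (c + 1), T (E + 1) k ∧
          ∑ j ∈ range (c + 1), (2 : ℝ) ^ (j + 2) * (r (j + 1) : ℝ) ≤
            ka * P + 1 / 5 * Z * (2 * S + e) := by
        rcases Nat.eq_zero_or_pos c with h0 | h0
        · refine ⟨13 / 20, by norm_num, ?_, ?_, ?_⟩
          · rw [h0]; norm_num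
          · rw [h0]; simp [T_zero]
          · rw [h0]
            simp only [zero_add, Finset.sum_range_one]
            have d1 : 2 * r 1 ≤ M 1 := H.hrM 1 le_rfl (by omega)
            have d2 := H.hM1
            have d3 := H.hA1
            have d4 : 4 * r 1 ≤ A 1 * (A 1 + 1) := by omega
            have d5 : (4 : ℝ) * r 1 ≤ A 1 * (A 1 + 1) := by exact_mod_cast d4
            have d6 : (A 1 : ℝ) ≤ m + 2 * s 1 := by exact_mod_cast d3
            have d7 : 20 * (2 * ((E : ℝ) + 1) + 3) ≤ Z := by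
              rw [hZ]; exact_mod_cast exp_aux (E + 1) hD9
            have d8 : (m : ℝ) ≤ 2 * ((E : ℝ) + 1) + 2 := by
              have : m ≤ 2 * (E + 1) + 2 := by omega
              exact_mod_cast this
            have d9 : (A 1 : ℝ) + 1 ≤ 11 / 20 * Z := by linarith
            have d10 : (0 : ℝ) ≤ A 1 := by positivity
            have d11 : (A 1 : ℝ) * (A 1 + 1) ≤ 11 / 20 * Z * (11 / 20 * Z) :=
              mul_le_mul (by linarith) d9 (by linarith) (by positivity)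
            have d12 : 0 ≤ 1 / 5 * Z * (2 * S + e) := by positivity
            nlinarith
        · refine ⟨2 ^ (c + 2) / ((c : ℝ) + 2), by positivity, le_rfl,
            I (E + 1) c hD9 h0 (by omega), ?_⟩
          exact le_trans hbudc hbc
      have hfin := final (E + 1) c hD9 (by omega) b hafter hb0 hmono ka hka1 hka2
      -- the part above `c`
      have hup : ∑ j ∈ Finset.Ico (c + 1) (E + 1), (2 : ℝ) ^ (j + 2) * (r (j + 1) : ℝ) ≤
          P * ∑ k ∈ Finset.Ico (c + 1) (E + 1), g (E + 1) k * b k := by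
        rw [Finset.mul_sum]
        apply Finset.sum_le_sum
        intro j hj
        rw [Finset.mem_Ico] at hj
        have f1 := level H (E + 1) hD j (by omega) (by omega)
          ((hle1 j).1 (hafter j (by omega) (by omega)))
        have f2 : (4 : ℝ) ^ (E + 1) ≤ P := by
          have : (4 : ℝ) ^ (E + 1) = Z ^ 2 := by
            rw [hZ, ← pow_mul, mul_comm, pow_mul]; norm_num
          rw [this]; exact hZP
        have f3 : (2 : ℝ) ^ (j + 2) * (r (j + 1) : ℝ) ≤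
            4 ^ (E + 1) * (g (E + 1) j * b j) := by
          have f4 : 4 ^ (E + 1) * (g (E + 1) j * b j) =
              2 ^ (j + 1) * (h (E + 1) (j + 2) * ((B j : ℝ) / h (E + 1) j)) := by
            unfold g
            rw [hb]
            field_simp
          rw [f4]
          calc (2 : ℝ) ^ (j + 2) * (r (j + 1) : ℝ) = 2 ^ (j + 1) * (2 * (r (j + 1) : ℝ)) := by
                rw [pow_succ]; ring
            _ ≤ _ := mul_le_mul_of_nonneg_left f1 (by positivity)
        refine le_trans f3 ?_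
        exact mul_le_mul_of_nonneg_right f2 (mul_nonneg (g_nonneg _ _) (hb0 _))
      have hsplit : ∑ j ∈ range (E + 1), (2 : ℝ) ^ (j + 2) * (r (j + 1) : ℝ) =
          ∑ j ∈ range (c + 1), (2 : ℝ) ^ (j + 2) * (r (j + 1) : ℝ) +
          ∑ j ∈ Finset.Ico (c + 1) (E + 1), (2 : ℝ) ^ (j + 2) * (r (j + 1) : ℝ) := by
        rw [Finset.range_eq_Ico, Finset.range_eq_Ico,
          Finset.sum_Ico_consecutive _ (by omega) (by omega)]
      have hsplit2 : ∑ j ∈ range E, T (E + 1) (j + 1) * b (j + 1) =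
          ∑ j ∈ range c, T (E + 1) (j + 1) * b (j + 1) +
          ∑ k ∈ Finset.Ico (c + 1) (E + 1), T (E + 1) k * b k := by
        have g1 : ∑ k ∈ Finset.Ico (c + 1) (E + 1), T (E + 1) k * b k =
            ∑ k ∈ Finset.Ico c E, T (E + 1) (k + 1) * b (k + 1) :=
          (Finset.sum_Ico_add' (fun k => T (E + 1) k * b k) c E 1).symm
        rw [g1, Finset.range_eq_Ico, Finset.range_eq_Ico,
          Finset.sum_Ico_consecutive _ (by omega) (by omega)]
      rw [hsplit]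
      rw [hsplit2] at low
      set X1 := ∑ k ∈ range (c + 1), T (E + 1) k
      set X2 := ∑ j ∈ range c, T (E + 1) (j + 1) * b (j + 1)
      set X3 := ∑ k ∈ Finset.Ico (c + 1) (E + 1), T (E + 1) k * b k
      set X4 := ∑ k ∈ Finset.Ico (c + 1) (E + 1), g (E + 1) k * b k
      have k1 : P * (ka + X4) ≤ P * (13 / 20 * (X1 + X3)) :=
        mul_le_mul_of_nonneg_left hfin hPp.le
      have k2 : P * (13 / 20 * (X1 + X3)) ≤ P * (13 / 20 * (1 + (X2 + X3))) := by
        apply mul_le_mul_of_nonneg_left _ hPp.le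
        linarith
      nlinarith
    · -- every level is saturated
      have hcE' : c = E := le_antisymm hcE hge
      have k0 := I (E + 1) c hD9 (by omega) (by omega)
      rw [hcE'] at hlowpart hbudc hbc k0
      set X1 := ∑ k ∈ range (E + 1), T (E + 1) k
      set X2 := ∑ j ∈ range E, T (E + 1) (j + 1) * b (j + 1)
      have k1 : P * ((2 : ℝ) ^ (E + 2) / ((E : ℝ) + 2)) ≤ P * (13 / 20 * X1) :=
        mul_le_mul_of_nonneg_left k0 hPp.le
      have k2 : P * (13 / 20 * X1) ≤ P * (13 / 20 * (1 + X2)) := by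
        apply mul_le_mul_of_nonneg_left _ hPp.le
        linarith
      nlinarith

end BG

/-- **The inequality for `m` at least 19.** -/
theorem good_big (m : ℕ) (hm : 19 ≤ m) (s r A B M : ℕ → ℕ) (H : Nums m s r A B M) :
    Good m s r := by
  unfold Good
  obtain ⟨D, hD⟩ : ∃ D, D = (m - 1) / 2 := ⟨_, rfl⟩
  have hD9 : 9 ≤ D := by omega
  rw [← hD]
  by_cases hr : ∀ c, 1 ≤ c → c ≤ D → r c = 0
  · have : ∑ c ∈ Finset.Icc 1 D, (2 ^ (c + 1) - 2) * r c = 0 := by
      apply Finset.sum_eq_zero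
      intro c hc
      rw [Finset.mem_Icc] at hc
      rw [hr c hc.1 hc.2, Nat.mul_zero]
    rw [this]
    exact Nat.zero_le _
  · push Not at hr
    obtain ⟨c, hc1, hc2, hc3⟩ := hr
    have hs1 : 1 ≤ s 1 := H.hs1 c hc1 (by rw [← hD]; exact hc2) (Nat.pos_of_ne_zero hc3)
    have key := BG.real_good D hD9 m hD H hm hs1
    have a1 : ∑ c ∈ Finset.Icc 1 D, (2 ^ (c + 1) - 2) * r c ≤
        ∑ j ∈ range D, 2 ^ (j + 2) * r (j + 1) := by
      rw [BG.sum_Icc_one]
      apply Finset.sum_le_sum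
      intro j _
      exact Nat.mul_le_mul_right _ (Nat.sub_le _ _)
    have a2 : ((∑ j ∈ range D, 2 ^ (j + 2) * r (j + 1) : ℕ) : ℝ) ≤
        ((∑ q ∈ Finset.Icc 1 D, (2 ^ q + 2 ^ (m - q)) * s q +
          (if m % 2 = 0 then 2 ^ (m / 2) * s (m / 2) else 0) : ℕ) : ℝ) := by
      rw [BG.sum_Icc_one]
      push_cast
      refine le_trans key (le_of_eq ?_)
      congr 1
      apply Finset.sum_congr rfl
      intro j hj
      rw [Finset.mem_range] at hj
      congr 2
      rw [div_eq_iff (by positivity), ← pow_add]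
      congr 1
      omega
    exact le_trans a1 (by exact_mod_cast a2)

end KLE
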