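import Pool.Agent.KLE.Defs

/-!
# Row BG, part 1: the share method

Each `r c` is charged separately: `(2 ^ (c + 1) - 2) * r c ≤ φ c * T`, where `T` is the right side of
`Good`; the numbers `φ c` have sum at most `1`.
-/

set_option autoImplicit false

open scoped BigOperators

namespace KLE

noncomputable section

/-- the right side of `Good` -/
def bgT (m : ℕ) (s : ℕ → ℕ) : ℕ :=
  ∑ q ∈ Finset.Icc 1 ((m - 1) / 2), (2 ^ q + 2 ^ (m - q)) * s q +
      if m % 2 = 0 then 2 ^ (m / 2) * s (m / 2) else 0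

/-- the numbers `s` in the budget -/
def bgS (m : ℕ) (s : ℕ → ℕ) : ℕ :=
  ∑ q ∈ Finset.Icc 1 ((m - 1) / 2), 2 * s q + if m % 2 = 0 then s (m / 2) else 0

theorem bg_w {m q : ℕ} (h : q ≤ (m - 1) / 2) (hq : 1 ≤ q) :
    3 * 2 ^ ((m - 1) / 2) ≤ 2 ^ q + 2 ^ (m - q) := by
  rcases Nat.lt_or_ge q ((m - 1) / 2) with h1 | h1
  · have h2 : 2 ^ ((m - 1) / 2 + 2) ≤ 2 ^ (m - q) := Nat.pow_le_pow_right (by norm_num) (by omega)
    rw [pow_add] at h2
    have h3 : 0 < 2 ^ ((m - 1) / 2) := by positivity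
    have h4 : 0 < 2 ^ q := by positivity
    omega
  · have h0 : q = (m - 1) / 2 := le_antisymm h h1
    have h2 : 2 ^ ((m - 1) / 2 + 1) ≤ 2 ^ (m - q) := Nat.pow_le_pow_right (by norm_num) (by omega)
    rw [pow_add] at h2
    rw [h0] at h2 ⊢
    omega

/-- the budget term is small against `T` -/
theorem bg_sigma {m : ℕ} (hm : 1 ≤ m) (s : ℕ → ℕ) :
    3 * 2 ^ ((m - 1) / 2) * bgS m s ≤ 2 * bgT m s := by
  unfold bgS bgT
  rw [mul_add, mul_add, Finset.mul_sum, Finset.mul_sum]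
  refine Nat.add_le_add (Finset.sum_le_sum (fun q hq => ?_)) ?_
  · rw [Finset.mem_Icc] at hq
    have h := bg_w hq.2 hq.1
    calc 3 * 2 ^ ((m - 1) / 2) * (2 * s q) = 2 * (3 * 2 ^ ((m - 1) / 2) * s q) := by ring
      _ ≤ 2 * ((2 ^ q + 2 ^ (m - q)) * s q) :=
        Nat.mul_le_mul_left _ (Nat.mul_le_mul_right _ h)
  · split_ifs with h
    · have h1 : m / 2 = (m - 1) / 2 + 1 := by omega
      rw [h1, pow_succ]
      have h2 : 0 < 2 ^ ((m - 1) / 2) := by positivity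
      nlinarith [Nat.zero_le (2 ^ ((m - 1) / 2) * s ((m - 1) / 2 + 1))]
    · exact le_rfl

theorem bg_icc (D : ℕ) (f : ℕ → ℕ) :
    ∑ q ∈ Finset.Icc 1 D, f q = ∑ i ∈ Finset.range D, f (i + 1) := by
  induction D with
  | zero => simp
  | succ D ih => rw [Finset.sum_Icc_succ_top (by omega), ih, Finset.sum_range_succ]

theorem bg_pow_div {c D : ℕ} (h : c ≤ D) :
    (D + 1) * 2 ^ c ≤ (c + 1) * 2 ^ D := by
  induction D, h using Nat.le_induction with
  | base => exact le_rfl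
  | succ D hD ih =>
    rw [pow_succ]
    have h1 : D + 1 + 1 ≤ (D + 1) * 2 := by omega
    calc (D + 1 + 1) * 2 ^ c ≤ (D + 1) * 2 * 2 ^ c := Nat.mul_le_mul_right _ h1
      _ = 2 * ((D + 1) * 2 ^ c) := by ring
      _ ≤ 2 * ((c + 1) * 2 ^ D) := Nat.mul_le_mul_left _ ih
      _ = (c + 1) * (2 ^ D * 2) := by ring

/-- many `s`: the budget alone suffices -/
theorem bg_large {m : ℕ} {s r A B M : ℕ → ℕ} (h : Nums m s r A B M) (hm : 3 ≤ m)
    (hT : 3 * 2 ^ ((m - 1) / 2 + m) ≤ (3 * ((m - 1) / 2) - 1) * bgT m s) : Good m s r := by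
  set D := (m - 1) / 2 with hD
  have hD1 : 1 ≤ D := by omega
  have hS : ∑ c ∈ Finset.Icc 1 D, (c + 1) * r c ≤ 2 ^ (m - 1) + bgS m s := h.hS
  have hσ : 3 * 2 ^ D * bgS m s ≤ 2 * bgT m s := bg_sigma (by omega) s
  have h1 : (D + 1) * ∑ c ∈ Finset.Icc 1 D, (2 ^ (c + 1) - 2) * r c ≤
      2 ^ (D + 1) * ∑ c ∈ Finset.Icc 1 D, (c + 1) * r c := by
    rw [Finset.mul_sum, Finset.mul_sum]
    refine Finset.sum_le_sum (fun c hc => ?_)
    rw [Finset.mem_Icc] at hc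
    have h2 := bg_pow_div hc.2
    calc (D + 1) * ((2 ^ (c + 1) - 2) * r c) ≤ (D + 1) * (2 ^ (c + 1) * r c) :=
          Nat.mul_le_mul_left _ (Nat.mul_le_mul_right _ (Nat.sub_le _ _))
      _ = 2 * ((D + 1) * 2 ^ c) * r c := by rw [pow_succ]; ring
      _ ≤ 2 * ((c + 1) * 2 ^ D) * r c :=
          Nat.mul_le_mul_right _ (Nat.mul_le_mul_left _ h2)
      _ = 2 ^ (D + 1) * ((c + 1) * r c) := by rw [pow_succ]; ring
  have h3 : 3 * ((D + 1) * ∑ c ∈ Finset.Icc 1 D, (2 ^ (c + 1) - 2) * r c) ≤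
      3 * 2 ^ (D + m) + 4 * bgT m s := by
    calc 3 * ((D + 1) * ∑ c ∈ Finset.Icc 1 D, (2 ^ (c + 1) - 2) * r c)
        ≤ 3 * (2 ^ (D + 1) * (2 ^ (m - 1) + bgS m s)) :=
          Nat.mul_le_mul_left _ (le_trans h1 (Nat.mul_le_mul_left _ hS))
      _ = 3 * (2 ^ (D + 1) * 2 ^ (m - 1)) + 2 * (3 * 2 ^ D * bgS m s) := by
          rw [pow_succ]; ring
      _ = 3 * 2 ^ (D + m) + 2 * (3 * 2 ^ D * bgS m s) := by
          rw [← pow_add]
          congr 3
          omega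
      _ ≤ 3 * 2 ^ (D + m) + 4 * bgT m s := by omega
  have h4 : 3 * (D + 1) * ∑ c ∈ Finset.Icc 1 D, (2 ^ (c + 1) - 2) * r c ≤
      3 * (D + 1) * bgT m s := by
    calc 3 * (D + 1) * ∑ c ∈ Finset.Icc 1 D, (2 ^ (c + 1) - 2) * r c
        = 3 * ((D + 1) * ∑ c ∈ Finset.Icc 1 D, (2 ^ (c + 1) - 2) * r c) := by ring
      _ ≤ 3 * 2 ^ (D + m) + 4 * bgT m s := h3
      _ ≤ (3 * D - 1) * bgT m s + 4 * bgT m s := Nat.add_le_add_right hT _
      _ = (3 * D - 1 + 4) * bgT m s := by ring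
      _ = 3 * (D + 1) * bgT m s := by
          congr 1
          omega
  exact Nat.le_of_mul_le_mul_left h4 (by omega)

/-- few `s`: the budget bounds every `r c` -/
theorem bg_small {m : ℕ} {s r A B M : ℕ → ℕ} (h : Nums m s r A B M) (hm : 3 ≤ m)
    (hT : ¬ 3 * 2 ^ ((m - 1) / 2 + m) ≤ (3 * ((m - 1) / 2) - 1) * bgT m s) {c : ℕ}
    (hc : 1 ≤ c) (hcD : c ≤ (m - 1) / 2) :
    (3 * ((m - 1) / 2) - 1) * (c + 1) * (2 * r c) ≤ 3 * ((m - 1) / 2 + 1) * 2 ^ m := by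
  set D := (m - 1) / 2 with hD
  have hD1 : 1 ≤ D := by omega
  push Not at hT
  have hS : ∑ c ∈ Finset.Icc 1 D, (c + 1) * r c ≤ 2 ^ (m - 1) + bgS m s := h.hS
  have hσ : 3 * 2 ^ D * bgS m s ≤ 2 * bgT m s := bg_sigma (by omega) s
  have h1 : (c + 1) * r c ≤ 2 ^ (m - 1) + bgS m s :=
    le_trans (Finset.single_le_sum (f := fun c => (c + 1) * r c) (fun _ _ => Nat.zero_le _)
      (Finset.mem_Icc.mpr ⟨hc, hcD⟩)) hS
  have h2 : 3 * 2 ^ D * ((3 * D - 1) * bgS m s) ≤ 3 * 2 ^ D * (2 * 2 ^ m) := by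
    calc 3 * 2 ^ D * ((3 * D - 1) * bgS m s) = (3 * D - 1) * (3 * 2 ^ D * bgS m s) := by ring
      _ ≤ (3 * D - 1) * (2 * bgT m s) := Nat.mul_le_mul_left _ hσ
      _ = 2 * ((3 * D - 1) * bgT m s) := by ring
      _ ≤ 2 * (3 * 2 ^ (D + m)) := Nat.mul_le_mul_left _ hT.le
      _ = 3 * 2 ^ D * (2 * 2 ^ m) := by rw [pow_add]; ring
  have h3 : (3 * D - 1) * bgS m s ≤ 2 * 2 ^ m :=
    Nat.le_of_mul_le_mul_left h2 (by positivity)
  have h4 : 2 * 2 ^ (m - 1) = 2 ^ m := by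
    rw [← pow_succ']
    congr 1
    omega
  calc (3 * D - 1) * (c + 1) * (2 * r c) = 2 * (3 * D - 1) * ((c + 1) * r c) := by ring
    _ ≤ 2 * (3 * D - 1) * (2 ^ (m - 1) + bgS m s) := Nat.mul_le_mul_left _ h1
    _ = (3 * D - 1) * (2 * 2 ^ (m - 1)) + 2 * ((3 * D - 1) * bgS m s) := by ring
    _ ≤ (3 * D - 1) * 2 ^ m + 2 * (2 * 2 ^ m) := by
        rw [h4]
        omega
    _ = (3 * D - 1 + 4) * 2 ^ m := by ring
    _ = 3 * (D + 1) * 2 ^ m := by
        congr 1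
        omega

/-! ### Growth -/

theorem bg_A {m : ℕ} {s r A B M : ℕ → ℕ} (h : Nums m s r A B M) {k z : ℕ} (hk : 1 ≤ k)
    (hkD : k + 1 ≤ (m - 1) / 2) (hB : B k ≤ (z + k).choose k) :
    A (k + 1) ≤ (z + (k + 1)).choose (k + 1) := by
  have h1 := h.hgA k z hk hkD hB
  have h2 : (z + k + 1) * (z + k).choose k = (z + k + 1).choose (k + 1) * (k + 1) :=
    Nat.add_one_mul_choose_eq (z + k) k
  have h3 : (k + 1) * A (k + 1) ≤ (k + 1) * (z + (k + 1)).choose (k + 1) := by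
    calc (k + 1) * A (k + 1) ≤ (z + k + 1) * B k := h1
      _ ≤ (z + k + 1) * (z + k).choose k := Nat.mul_le_mul_left _ hB
      _ = (k + 1) * (z + (k + 1)).choose (k + 1) := by
          rw [h2, ← Nat.add_assoc]; ring
  exact Nat.le_of_mul_le_mul_left h3 (by omega)

theorem bg_M {m : ℕ} {s r A B M : ℕ → ℕ} (h : Nums m s r A B M) {k z : ℕ} (hk : 1 ≤ k)
    (hkD : k + 1 ≤ (m - 1) / 2) (hB : B k ≤ (z + k).choose k) :
    M (k + 1) * (z + k).choose k ≤ B k * (z + k + 2).choose (k + 2) := by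
  have h1 := h.hgA k z hk hkD hB
  have h2 := h.hgM (k + 1) z (by omega) hkD (bg_A h hk hkD hB)
  have h3 : (z + k + 1) * (z + k).choose k = (z + k + 1).choose (k + 1) * (k + 1) :=
    Nat.add_one_mul_choose_eq (z + k) k
  have h4 : (z + k + 2) * (z + k + 1).choose (k + 1) = (z + k + 2).choose (k + 2) * (k + 2) :=
    Nat.add_one_mul_choose_eq (z + k + 1) (k + 1)
  have h5 : (k + 1) * (k + 2) * (M (k + 1) * (z + k).choose k) ≤
      (k + 1) * (k + 2) * (B k * (z + k + 2).choose (k + 2)) := by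
    calc (k + 1) * (k + 2) * (M (k + 1) * (z + k).choose k)
        = (k + 1) * (z + k).choose k * ((k + 1 + 1) * M (k + 1)) := by ring
      _ ≤ (k + 1) * (z + k).choose k * ((z + (k + 1) + 1) * A (k + 1)) :=
          Nat.mul_le_mul_left _ h2
      _ = (z + k).choose k * (z + (k + 1) + 1) * ((k + 1) * A (k + 1)) := by ring
      _ ≤ (z + k).choose k * (z + (k + 1) + 1) * ((z + k + 1) * B k) :=
          Nat.mul_le_mul_left _ h1
      _ = (z + k + 2) * ((z + k + 1) * (z + k).choose k) * B k := by ring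
      _ = (z + k + 2) * (z + k + 1).choose (k + 1) * (k + 1) * B k := by rw [h3]; ring
      _ = (k + 1) * (k + 2) * (B k * (z + k + 2).choose (k + 2)) := by rw [h4]; ring
  exact Nat.le_of_mul_le_mul_left h5 (by positivity)

/-- lower bounds for the smaller indices, small case -/
theorem bg_low1 {m : ℕ} {s r A B M : ℕ → ℕ} (h : Nums m s r A B M) {k z : ℕ}
    (hkD : k + 1 ≤ (m - 1) / 2) (hB : B k ≤ (z + k).choose k) :
    ∀ i j : ℕ, j + i = k → 1 ≤ j → B k * (z + j).choose j ≤ B j * (z + k).choose k := by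
  intro i
  induction i with
  | zero =>
    intro j hj _
    rw [Nat.add_zero] at hj
    rw [hj]
  | succ i ih =>
    intro j hj hj1
    rcases Nat.lt_or_ge ((z + j).choose j) (B j) with h1 | h1
    · exact (Nat.mul_le_mul hB h1.le).trans_eq (Nat.mul_comm _ _)
    · have h2 := ih (j + 1) (by omega) (by omega)
      have h3 := h.hgA j z hj1 (by omega) h1
      have h4 := h.hBA (j + 1) (by omega) (by omega)
      have h5 : (z + j + 1) * (z + j).choose j = (z + j + 1).choose (j + 1) * (j + 1) :=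
        Nat.add_one_mul_choose_eq (z + j) j
      have h6 : (z + j + 1) * (B k * (z + j).choose j) ≤
          (z + j + 1) * (B j * (z + k).choose k) := by
        calc (z + j + 1) * (B k * (z + j).choose j)
            = B k * ((z + j + 1) * (z + j).choose j) := by ring
          _ = (j + 1) * (B k * (z + (j + 1)).choose (j + 1)) := by
              rw [h5, ← Nat.add_assoc]; ring
          _ ≤ (j + 1) * (B (j + 1) * (z + k).choose k) := Nat.mul_le_mul_left _ h2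
          _ = (j + 1) * B (j + 1) * (z + k).choose k := by ring
          _ ≤ (j + 1) * A (j + 1) * (z + k).choose k :=
              Nat.mul_le_mul_right _ (Nat.mul_le_mul_left _ h4)
          _ ≤ (z + j + 1) * B j * (z + k).choose k := Nat.mul_le_mul_right _ h3
          _ = (z + j + 1) * (B j * (z + k).choose k) := by ring
      exact Nat.le_of_mul_le_mul_left h6 (by omega)

/-- lower bounds for the smaller indices, large case -/
theorem bg_low2 {m : ℕ} {s r A B M : ℕ → ℕ} (h : Nums m s r A B M) {k z : ℕ}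
    (hkD : k + 1 ≤ (m - 1) / 2) (hB : (z + k).choose k < B k) :
    ∀ i j : ℕ, j + i = k → 1 ≤ j → (z + j).choose j < B j := by
  intro i
  induction i with
  | zero =>
    intro j hj _
    rw [Nat.add_zero] at hj
    rw [hj]
    exact hB
  | succ i ih =>
    intro j hj hj1
    by_contra h1
    push Not at h1
    have h2 := ih (j + 1) (by omega) (by omega)
    have h3 := bg_A h hj1 (by omega) h1
    have h4 := h.hBA (j + 1) (by omega) (by omega)
    omega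

/-! ### Costs -/

theorem bg_sum {c : ℕ} (y b s : ℕ → ℝ) (hy : ∀ j < c, 0 ≤ y j) (hc : 1 ≤ c)
    (h0 : b 0 ≤ s 1) (hb : ∀ j, 1 ≤ j → j < c → b j ≤ s j + s (j + 1)) :
    ∑ j ∈ Finset.range c, y j * b j ≤
      ∑ i ∈ Finset.range c, (y i + y (i + 1)) * s (i + 1) - y c * s c := by
  induction c, hc using Nat.le_induction with
  | base =>
    simp only [Finset.sum_range_one, zero_add]
    have := mul_le_mul_of_nonneg_left h0 (hy 0 (by omega))
    nlinarith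
  | succ c hc ih =>
    have h1 := ih (fun j hj => hy j (by omega)) (fun j h1 h2 => hb j h1 (by omega))
    rw [Finset.sum_range_succ, Finset.sum_range_succ]
    have h2 := mul_le_mul_of_nonneg_left (hb c hc (by omega)) (hy c (by omega))
    nlinarith

theorem bg_cost {m : ℕ} {s r A B M : ℕ → ℕ} (h : Nums m s r A B M) {c : ℕ} (hc : 1 ≤ c)
    (hcD : c ≤ (m - 1) / 2) (y : ℕ → ℝ) (hy : ∀ j < c, 0 ≤ y j) (hyc : y c = 0)
    (hyw : ∀ j < c, y j + y (j + 1) ≤ 2 ^ (j + 1) + 2 ^ (m - (j + 1))) :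
    ∑ j ∈ Finset.range c, y j * (if j = 0 then (s 1 : ℝ) else (B j : ℝ)) ≤ (bgT m s : ℝ) := by
  have h1 := bg_sum (c := c) y (fun j => if j = 0 then (s 1 : ℝ) else (B j : ℝ))
    (fun j => (s j : ℝ)) hy hc (by simp) (by
      intro j hj1 hj2
      have h2 := h.hBs j hj1 (by omega)
      have h3 : j ≠ 0 := by omega
      simp only [h3, if_false]
      exact_mod_cast h2)
  rw [hyc, zero_mul, sub_zero] at h1
  refine le_trans h1 ?_
  have h2 : ∑ i ∈ Finset.range c, (y i + y (i + 1)) * (s (i + 1) : ℝ) ≤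
      ∑ i ∈ Finset.range c, (((2 ^ (i + 1) + 2 ^ (m - (i + 1))) * s (i + 1) : ℕ) : ℝ) := by
    refine Finset.sum_le_sum (fun i hi => ?_)
    rw [Finset.mem_range] at hi
    push_cast
    exact mul_le_mul_of_nonneg_right (hyw i hi) (Nat.cast_nonneg _)
  refine le_trans h2 ?_
  rw [← Nat.cast_sum]
  norm_cast
  unfold bgT
  rw [bg_icc]
  refine le_trans ?_ (Nat.le_add_right _ _)
  exact Finset.sum_le_sum_of_subset (Finset.range_mono hcD)

/-- the share of `r c`, `c ≥ 2` -/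
theorem bg_share {m : ℕ} {s r A B M : ℕ → ℕ} (h : Nums m s r A B M) (hs1 : 1 ≤ s 1) {c : ℕ}
    (hc : 2 ≤ c) (hcD : c ≤ (m - 1) / 2)
    (hbud : (3 * ((m - 1) / 2) - 1) * (c + 1) * (2 * r c) ≤ 3 * ((m - 1) / 2 + 1) * 2 ^ m)
    (y : ℕ → ℝ) (hy : ∀ j < c, 0 ≤ y j) (hyc : y c = 0)
    (hyw : ∀ j < c, y j + y (j + 1) ≤ 2 ^ (j + 1) + 2 ^ (m - (j + 1))) (z : ℕ)
    (hz : 3 * ((m - 1) / 2 + 1) * 2 ^ m ≤
      (3 * ((m - 1) / 2) - 1) * (c + 1) * (z + c + 1).choose (c + 1)) (φ : ℝ) (hφ : 0 ≤ φ)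
    (hφc : 2 ^ c * ((z + c + 1).choose (c + 1) : ℝ) ≤
      φ * ∑ j ∈ Finset.range c, y j * ((z + j).choose j : ℝ)) :
    (((2 ^ (c + 1) - 2) * r c : ℕ) : ℝ) ≤ φ * (bgT m s : ℝ) := by
  have hcost := bg_cost h (by omega) hcD y hy hyc hyw
  have hT0 : (0 : ℝ) ≤ (bgT m s : ℝ) := Nat.cast_nonneg _
  have hr1 : (((2 ^ (c + 1) - 2) * r c : ℕ) : ℝ) ≤ 2 ^ c * (2 * (r c : ℝ)) := by
    have h1 : (2 ^ (c + 1) - 2) * r c ≤ 2 ^ c * (2 * r c) := by
      calc (2 ^ (c + 1) - 2) * r c ≤ 2 ^ (c + 1) * r c :=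
            Nat.mul_le_mul_right _ (Nat.sub_le _ _)
        _ = 2 ^ c * (2 * r c) := by rw [pow_succ]; ring
    exact_mod_cast h1
  obtain ⟨k, hk⟩ : ∃ k, c = k + 1 := ⟨c - 1, by omega⟩
  have hk1 : 1 ≤ k := by omega
  -- the bound for `r c` by binomials, and the lower bounds of the costs
  obtain ⟨x, hx0, hx1, hrx, hBx⟩ : ∃ x : ℝ, 0 ≤ x ∧ x ≤ 1 ∧
      2 * (r c : ℝ) ≤ x * ((z + c + 1).choose (c + 1) : ℝ) ∧
      ∀ j, 1 ≤ j → j < c → x * ((z + j).choose j : ℝ) ≤ (B j : ℝ) := by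
    rcases Nat.lt_or_ge ((z + k).choose k) (B k) with h1 | h1
    · refine ⟨1, zero_le_one, le_rfl, ?_, ?_⟩
      · have h2 : 2 * r c ≤ (z + c + 1).choose (c + 1) := by
          have h3 := le_trans hbud hz
          have h4 : 0 < (3 * ((m - 1) / 2) - 1) * (c + 1) := by
            apply Nat.mul_pos <;> omega
          exact Nat.le_of_mul_le_mul_left h3 h4
        rw [one_mul]
        exact_mod_cast h2
      · intro j hj1 hj2
        rw [one_mul]
        have h2 := bg_low2 h (by omega) h1 (k - j) j (by omega) hj1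
        exact_mod_cast h2.le
    · have hC : 0 < (z + k).choose k := Nat.choose_pos (by omega)
      have hC' : (0 : ℝ) < ((z + k).choose k : ℝ) := by exact_mod_cast hC
      refine ⟨(B k : ℝ) / ((z + k).choose k : ℝ), by positivity, ?_, ?_, ?_⟩
      · rw [div_le_one hC']
        exact_mod_cast h1
      · have h2 := bg_M h hk1 (by omega) h1
        have h3 := h.hrM c (by omega) hcD
        rw [div_mul_eq_mul_div, le_div_iff₀ hC']
        have h4 : 2 * r c * (z + k).choose k ≤ B k * (z + c + 1).choose (c + 1) := by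
          calc 2 * r c * (z + k).choose k ≤ M c * (z + k).choose k :=
                Nat.mul_le_mul_right _ h3
            _ ≤ B k * (z + k + 2).choose (k + 2) := by rw [hk]; exact h2
            _ = B k * (z + c + 1).choose (c + 1) := by
                rw [hk, ← Nat.add_assoc z k 1]
        exact_mod_cast h4
      · intro j hj1 hj2
        have h2 := bg_low1 h (by omega) h1 (k - j) j (by omega) hj1
        rw [div_mul_eq_mul_div, div_le_iff₀ hC']
        exact_mod_cast h2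
  have h5 : x * ∑ j ∈ Finset.range c, y j * ((z + j).choose j : ℝ) ≤
      ∑ j ∈ Finset.range c, y j * (if j = 0 then (s 1 : ℝ) else (B j : ℝ)) := by
    rw [Finset.mul_sum]
    refine Finset.sum_le_sum (fun j hj => ?_)
    rw [Finset.mem_range] at hj
    rcases Nat.eq_zero_or_pos j with hj0 | hj0
    · subst hj0
      simp only [if_true, Nat.choose_zero_right, Nat.cast_one, mul_one]
      have h6 : (1 : ℝ) ≤ (s 1 : ℝ) := by exact_mod_cast hs1
      have h7 := hy 0 hj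
      nlinarith
    · have h6 : j ≠ 0 := by omega
      simp only [h6, if_false]
      have h7 := mul_le_mul_of_nonneg_left (hBx j hj0 hj) (hy j hj)
      nlinarith
  calc (((2 ^ (c + 1) - 2) * r c : ℕ) : ℝ) ≤ 2 ^ c * (2 * (r c : ℝ)) := hr1
    _ ≤ 2 ^ c * (x * ((z + c + 1).choose (c + 1) : ℝ)) :=
        mul_le_mul_of_nonneg_left hrx (by positivity)
    _ = x * (2 ^ c * ((z + c + 1).choose (c + 1) : ℝ)) := by ring
    _ ≤ x * (φ * ∑ j ∈ Finset.range c, y j * ((z + j).choose j : ℝ)) :=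
        mul_le_mul_of_nonneg_left hφc hx0
    _ = φ * (x * ∑ j ∈ Finset.range c, y j * ((z + j).choose j : ℝ)) := by ring
    _ ≤ φ * (bgT m s : ℝ) := mul_le_mul_of_nonneg_left (le_trans h5 hcost) hφ

/-- the share of `r 1` -/
theorem bg_share_one {m : ℕ} {s r A B M : ℕ → ℕ} (h : Nums m s r A B M) (hm : 20 ≤ m)
    (hbud : (3 * ((m - 1) / 2) - 1) * (1 + 1) * (2 * r 1) ≤ 3 * ((m - 1) / 2 + 1) * 2 ^ m)
    (hs1 : 1 ≤ s 1) : 40 * ((2 ^ (1 + 1) - 2) * r 1) ≤ bgT m s := by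
  have hw : 2 ^ (m - 1) * s 1 ≤ bgT m s := by
    unfold bgT
    refine le_trans ?_ (Nat.le_add_right _ _)
    refine le_trans ?_ (Finset.single_le_sum (f := fun q => (2 ^ q + 2 ^ (m - q)) * s q)
      (fun _ _ => Nat.zero_le _) (Finset.mem_Icc.mpr ⟨le_rfl, by omega⟩))
    exact Nat.mul_le_mul_right _ (Nat.le_add_left _ _)
  refine le_trans ?_ hw
  norm_num
  rcases Nat.lt_or_ge (s 1) 47 with h1 | h1
  · -- few
    have hA : A 1 ≤ m + 92 := by have := h.hA1; omega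
    have hM : 2 * M 1 ≤ (m + 92) * (m + 92 + 1) :=
      le_trans h.hM1 (Nat.mul_le_mul hA (by omega))
    have hr : 2 * r 1 ≤ M 1 := h.hrM 1 le_rfl (by omega)
    have h2 : ∀ n : ℕ, 20 ≤ n → 20 * ((n + 92) * (n + 92 + 1)) ≤ 2 ^ (n - 1) := by
      intro n hn
      induction n, hn using Nat.le_induction with
      | base => norm_num
      | succ n hn ih =>
        have h3 : 2 ^ (n + 1 - 1) = 2 * 2 ^ (n - 1) := by
          rw [← pow_succ']
          congr 1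
          omega
        rw [h3]
        nlinarith
    have h3 := h2 m hm
    calc 40 * (2 * r 1) ≤ 40 * M 1 := Nat.mul_le_mul_left _ hr
      _ = 20 * (2 * M 1) := by ring
      _ ≤ 20 * ((m + 92) * (m + 92 + 1)) := Nat.mul_le_mul_left _ hM
      _ ≤ 2 ^ (m - 1) := h3
      _ ≤ 2 ^ (m - 1) * s 1 := Nat.le_mul_of_pos_right _ hs1
  · obtain ⟨D, hD⟩ : ∃ D, D = (m - 1) / 2 := ⟨_, rfl⟩
    rw [← hD] at hbud
    have hD9 : 9 ≤ D := by omega
    have h4 : 2 ^ m = 2 * 2 ^ (m - 1) := by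
      rw [← pow_succ']
      congr 1
      omega
    rw [h4] at hbud
    have h5 : (3 * D - 1) * (40 * (2 * r 1)) ≤ (3 * D - 1) * (47 * 2 ^ (m - 1)) := by
      have h6 : (3 * D - 1) * (2 * r 1) ≤ 3 * (D + 1) * 2 ^ (m - 1) := by
        have h7 : (3 * D - 1) * (1 + 1) * (2 * r 1) = 2 * ((3 * D - 1) * (2 * r 1)) := by ring
        have h8 : 3 * (D + 1) * (2 * 2 ^ (m - 1)) = 2 * (3 * (D + 1) * 2 ^ (m - 1)) := by ring
        omega
      calc (3 * D - 1) * (40 * (2 * r 1)) = 40 * ((3 * D - 1) * (2 * r 1)) := by ring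
        _ ≤ 40 * (3 * (D + 1) * 2 ^ (m - 1)) := Nat.mul_le_mul_left _ h6
        _ = (40 * (3 * (D + 1))) * 2 ^ (m - 1) := by ring
        _ ≤ ((3 * D - 1) * 47) * 2 ^ (m - 1) := Nat.mul_le_mul_right _ (by omega)
        _ = (3 * D - 1) * (47 * 2 ^ (m - 1)) := by ring
    have h9 := Nat.le_of_mul_le_mul_left h5 (by omega)
    calc 40 * (2 * r 1) ≤ 47 * 2 ^ (m - 1) := h9
      _ ≤ 2 ^ (m - 1) * s 1 := by rw [Nat.mul_comm]; exact Nat.mul_le_mul_left _ h1

/-- the share method -/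
theorem bg_good {m : ℕ} {s r A B M : ℕ → ℕ} (h : Nums m s r A B M) (hm : 20 ≤ m)
    (φ : ℕ → ℝ) (hφ0 : ∀ c, 0 ≤ φ c)
    (hφ : ∀ c, 2 ≤ c → c ≤ (m - 1) / 2 → ∃ (y : ℕ → ℝ) (z : ℕ), (∀ j < c, 0 ≤ y j) ∧ y c = 0 ∧
      (∀ j < c, y j + y (j + 1) ≤ 2 ^ (j + 1) + 2 ^ (m - (j + 1))) ∧
      3 * ((m - 1) / 2 + 1) * 2 ^ m ≤
        (3 * ((m - 1) / 2) - 1) * (c + 1) * (z + c + 1).choose (c + 1) ∧
      2 ^ c * ((z + c + 1).choose (c + 1) : ℝ) ≤
        φ c * ∑ j ∈ Finset.range c, y j * ((z + j).choose j : ℝ))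
    (hsum : 1 / 40 + ∑ c ∈ Finset.Icc 2 ((m - 1) / 2), φ c ≤ 1) : Good m s r := by
  by_cases hr : ∀ c, 1 ≤ c → c ≤ (m - 1) / 2 → r c = 0
  · unfold Good
    rw [Finset.sum_eq_zero]
    · exact Nat.zero_le _
    · intro c hc
      rw [Finset.mem_Icc] at hc
      rw [hr c hc.1 hc.2, Nat.mul_zero]
  push Not at hr
  obtain ⟨c0, hc1, hc2, hc3⟩ := hr
  have hs1 : 1 ≤ s 1 := h.hs1 c0 hc1 hc2 (Nat.pos_of_ne_zero hc3)
  by_cases hT : 3 * 2 ^ ((m - 1) / 2 + m) ≤ (3 * ((m - 1) / 2) - 1) * bgT m s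
  · exact bg_large h (by omega) hT
  have hb := fun c hc hcD => bg_small h (by omega) hT (c := c) hc hcD
  have h1 := bg_share_one h hm (hb 1 le_rfl (by omega)) hs1
  have hT0 : (0 : ℝ) ≤ (bgT m s : ℝ) := Nat.cast_nonneg _
  have hgoal : (∑ c ∈ Finset.Icc 1 ((m - 1) / 2), (2 ^ (c + 1) - 2) * r c) ≤ bgT m s := by
    have h2 : Finset.Icc 1 ((m - 1) / 2) = insert 1 (Finset.Icc 2 ((m - 1) / 2)) := by
      ext c
      simp only [Finset.mem_Icc, Finset.mem_insert]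
      omega
    rw [h2, Finset.sum_insert (by simp)]
    have h3 : (((2 ^ (1 + 1) - 2) * r 1 : ℕ) : ℝ) ≤ 1 / 40 * (bgT m s : ℝ) := by
      obtain ⟨u, hu⟩ : ∃ u : ℕ, u = (2 ^ (1 + 1) - 2) * r 1 := ⟨_, rfl⟩
      rw [← hu] at h1 ⊢
      have h4 : (40 : ℝ) * (u : ℝ) ≤ (bgT m s : ℝ) := by
        exact_mod_cast h1
      linarith
    have h4 : ((∑ c ∈ Finset.Icc 2 ((m - 1) / 2), (2 ^ (c + 1) - 2) * r c : ℕ) : ℝ) ≤
        (∑ c ∈ Finset.Icc 2 ((m - 1) / 2), φ c) * (bgT m s : ℝ) := by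
      rw [Nat.cast_sum, Finset.sum_mul]
      refine Finset.sum_le_sum (fun c hc => ?_)
      rw [Finset.mem_Icc] at hc
      obtain ⟨y, z, hy, hyc, hyw, hz, hφc⟩ := hφ c hc.1 hc.2
      exact bg_share h hs1 hc.1 hc.2 (hb c (by omega) hc.2) y hy hyc hyw z hz (φ c) (hφ0 c) hφc
    have h5 : (((2 ^ (1 + 1) - 2) * r 1 +
        ∑ c ∈ Finset.Icc 2 ((m - 1) / 2), (2 ^ (c + 1) - 2) * r c : ℕ) : ℝ) ≤
        (bgT m s : ℝ) := by
      rw [Nat.cast_add]
      calc _ ≤ 1 / 40 * (bgT m s : ℝ) +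
            (∑ c ∈ Finset.Icc 2 ((m - 1) / 2), φ c) * (bgT m s : ℝ) := add_le_add h3 h4
        _ = (1 / 40 + ∑ c ∈ Finset.Icc 2 ((m - 1) / 2), φ c) * (bgT m s : ℝ) := by ring
        _ ≤ 1 * (bgT m s : ℝ) := mul_le_mul_of_nonneg_right hsum hT0
        _ = (bgT m s : ℝ) := one_mul _
    exact_mod_cast h5
  exact hgoal

end

end KLE
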