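import Pool.Agent.KLE.BG1

/-!
# Row BG, part 2: the shares for all large dimensions by induction from `m` to `m + 2`
-/

set_option autoImplicit false

open scoped BigOperators

namespace KLE

noncomputable section

/-- the number `φ` is a share of `c` in dimension `m` -/
def BgP (m c : ℕ) (φ : ℝ) : Prop :=
  ∃ z : ℕ, c + 1 ≤ z ∧
    3 * ((m - 1) / 2 + 1) * 2 ^ m ≤
      (3 * ((m - 1) / 2) - 1) * (c + 1) * (z + c + 1).choose (c + 1) ∧
    3 * 2 ^ c * ((z + c + 1).choose (c + 1) : ℝ) ≤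
      φ * ∑ j ∈ Finset.range c, 2 ^ (m - j) * ((z + j).choose j : ℝ)

theorem bg_ch (z k : ℕ) : (k + 1) * (z + 1) * (z + k + 2).choose (k + 1) =
    (z + k + 2) * (z + k + 1) * (z + k).choose k := by
  have h1 : (z + k + 1 + 1) * (z + k + 1).choose k =
      (z + k + 1 + 1).choose (k + 1) * (k + 1) := Nat.add_one_mul_choose_eq (z + k + 1) k
  have h2 := Nat.choose_mul_succ_eq (z + k) k
  have h3 : z + k + 1 - k = z + 1 := by omega
  rw [h3] at h2
  calc (k + 1) * (z + 1) * (z + k + 2).choose (k + 1)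
      = (z + 1) * ((z + k + 1 + 1).choose (k + 1) * (k + 1)) := by ring
    _ = (z + k + 2) * ((z + k + 1).choose k * (z + 1)) := by rw [← h1]; ring
    _ = (z + k + 2) * ((z + k).choose k * (z + k + 1)) := by rw [← h2]
    _ = (z + k + 2) * (z + k + 1) * (z + k).choose k := by ring

/-- the quadratic inequality of the step -/
theorem bg_quad {z c j : ℕ} (hz : c + 1 ≤ z) (hj : j < c) :
    (z + c + 3) * (z + c + 2) * (j + 1) ≤ (z + j + 2) * (z + j + 1) * (c + 2) := by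
  have h1 : (c + 2) * (j + 1) ≤ z * (z + 1) := by nlinarith
  have h2 : j ≤ c + 1 := by omega
  zify at h1 h2 ⊢
  have h3 : ((z : ℤ) + j + 2) * (z + j + 1) * (c + 2) - (z + c + 3) * (z + c + 2) * (j + 1) =
      (c + 1 - j) * (z * (z + 1) - (c + 2) * (j + 1)) := by ring
  have h4 : (0 : ℤ) ≤ (c + 1 - j) * (z * (z + 1) - (c + 2) * (j + 1)) :=
    mul_nonneg (by linarith) (by linarith)
  linarith

theorem bg_step {m c : ℕ} {φ : ℝ} (hφ : 0 ≤ φ) (hm : 3 ≤ m) (hcm : c ≤ m)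
    (h : BgP m c φ) : BgP (m + 2) (c + 1) φ := by
  obtain ⟨z, hz, hK, hS⟩ := h
  refine ⟨z + 1, by omega, ?_, ?_⟩
  · obtain ⟨D, hD⟩ : ∃ D, D = (m - 1) / 2 := ⟨_, rfl⟩
    have hD' : (m + 2 - 1) / 2 = D + 1 := by omega
    have hD1 : 1 ≤ D := by omega
    rw [hD']
    rw [← hD] at hK
    have h1 := bg_ch z (c + 1)
    have h2 : z + 1 + (c + 1) + 1 = z + (c + 1) + 2 := by ring
    have h3 : z + c + 1 = z + (c + 1) := by ring
    rw [h2]
    rw [h3] at hK
    set X := (z + (c + 1)).choose (c + 1) with hX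
    set Y := (z + (c + 1) + 2).choose (c + 1 + 1) with hY
    have h4 : 4 * (z + 1) * (c + 1) ≤ (z + (c + 1) + 2) * (z + (c + 1) + 1) := by
      zify
      nlinarith [sq_nonneg ((z : ℤ) - c)]
    obtain ⟨u, hu⟩ : ∃ u, u = 3 * D - 1 := ⟨_, rfl⟩
    have hu1 : 3 * D = u + 1 := by omega
    have hu2 : 3 * (D + 1) - 1 = u + 3 := by omega
    rw [hu2]
    rw [← hu] at hK
    have hupos : 0 < u := by omega
    have h5 : u * (z + 1) * (3 * (D + 1 + 1) * 2 ^ (m + 2)) ≤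
        u * (z + 1) * ((u + 3) * (c + 1 + 1) * Y) := by
      calc u * (z + 1) * (3 * (D + 1 + 1) * 2 ^ (m + 2))
          = 4 * (z + 1) * (u * (3 * D + 6)) * 2 ^ m := by rw [pow_add]; ring
        _ ≤ 4 * (z + 1) * ((u + 3) * (3 * (D + 1))) * 2 ^ m := by
            refine Nat.mul_le_mul_right _ (Nat.mul_le_mul_left _ ?_)
            have : 3 * (D + 1) = u + 4 := by omega
            rw [this, hu1]
            nlinarith
        _ = 4 * (z + 1) * (u + 3) * (3 * (D + 1) * 2 ^ m) := by ring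
        _ ≤ 4 * (z + 1) * (u + 3) * (u * (c + 1) * X) := Nat.mul_le_mul_left _ hK
        _ = u * (u + 3) * (4 * (z + 1) * (c + 1)) * X := by ring
        _ ≤ u * (u + 3) * ((z + (c + 1) + 2) * (z + (c + 1) + 1)) * X :=
            Nat.mul_le_mul_right _ (Nat.mul_le_mul_left _ h4)
        _ = u * (u + 3) * ((z + (c + 1) + 2) * (z + (c + 1) + 1) * X) := by ring
        _ = u * (u + 3) * ((c + 1 + 1) * (z + 1) * Y) := by rw [h1]
        _ = u * (z + 1) * ((u + 3) * (c + 1 + 1) * Y) := by ring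
    exact Nat.le_of_mul_le_mul_left h5 (by positivity)
  · have h1 := bg_ch z (c + 1)
    have h2 : z + 1 + (c + 1) + 1 = z + (c + 1) + 2 := by ring
    have h3 : z + c + 1 = z + (c + 1) := by ring
    rw [h2]
    rw [h3] at hS
    set X := (z + (c + 1)).choose (c + 1) with hX
    set Y := (z + (c + 1) + 2).choose (c + 1 + 1) with hY
    have h1' : ((c : ℝ) + 1 + 1) * (z + 1) * (Y : ℝ) =
        (z + (c + 1) + 2) * (z + (c + 1) + 1) * (X : ℝ) := by exact_mod_cast h1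
    have hpos : (0 : ℝ) < ((c : ℝ) + 1 + 1) * (z + 1) := by positivity
    refine le_of_mul_le_mul_left ?_ hpos
    have h4 : ∑ j ∈ Finset.range c, 2 * (2 : ℝ) ^ (m - j) * ((z + j + 2).choose (j + 1) : ℝ) ≤
        ∑ j ∈ Finset.range (c + 1), (2 : ℝ) ^ (m + 2 - j) * ((z + 1 + j).choose j : ℝ) := by
      rw [Finset.sum_range_succ']
      have h5 : (0 : ℝ) ≤ (2 : ℝ) ^ (m + 2 - 0) * ((z + 1 + 0).choose 0 : ℝ) := by positivity
      refine le_trans (le_of_eq ?_) (le_add_of_nonneg_right h5)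
      refine Finset.sum_congr rfl (fun j hj => ?_)
      rw [Finset.mem_range] at hj
      have h6 : m + 2 - (j + 1) = (m - j) + 1 := by omega
      have h7 : z + 1 + (j + 1) = z + j + 2 := by ring
      rw [h6, h7, pow_succ]
      ring
    have h5 : ((z : ℝ) + (c + 1) + 2) * (z + (c + 1) + 1) *
        ∑ j ∈ Finset.range c, (2 : ℝ) ^ (m - j) * ((z + j).choose j : ℝ) ≤
        (c + 1 + 1) * (z + 1) *
        ∑ j ∈ Finset.range c, (2 : ℝ) ^ (m - j) * ((z + j + 2).choose (j + 1) : ℝ) := by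
      rw [Finset.mul_sum, Finset.mul_sum]
      refine Finset.sum_le_sum (fun j hj => ?_)
      rw [Finset.mem_range] at hj
      have h6 := bg_ch z j
      have h7 := bg_quad hz hj
      have h8 : (z + c + 3) * (z + c + 2) * (z + j).choose j ≤
          (c + 2) * (z + 1) * (z + j + 2).choose (j + 1) := by
        have h9 : (j + 1) * ((z + c + 3) * (z + c + 2) * (z + j).choose j) ≤
            (j + 1) * ((c + 2) * (z + 1) * (z + j + 2).choose (j + 1)) := by
          calc (j + 1) * ((z + c + 3) * (z + c + 2) * (z + j).choose j)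
              = (z + c + 3) * (z + c + 2) * (j + 1) * (z + j).choose j := by ring
            _ ≤ (z + j + 2) * (z + j + 1) * (c + 2) * (z + j).choose j :=
                Nat.mul_le_mul_right _ h7
            _ = (c + 2) * ((z + j + 2) * (z + j + 1) * (z + j).choose j) := by ring
            _ = (c + 2) * ((j + 1) * (z + 1) * (z + j + 2).choose (j + 1)) := by rw [h6]
            _ = (j + 1) * ((c + 2) * (z + 1) * (z + j + 2).choose (j + 1)) := by ring
        exact Nat.le_of_mul_le_mul_left h9 (by omega)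
      have h9 : (((z : ℝ) + c + 3) * (z + c + 2)) * ((z + j).choose j : ℝ) ≤
          (c + 2) * (z + 1) * ((z + j + 2).choose (j + 1) : ℝ) := by exact_mod_cast h8
      have h10 : (0 : ℝ) ≤ (2 : ℝ) ^ (m - j) := by positivity
      calc ((z : ℝ) + (c + 1) + 2) * (z + (c + 1) + 1) *
            ((2 : ℝ) ^ (m - j) * ((z + j).choose j : ℝ))
          = (2 : ℝ) ^ (m - j) * ((((z : ℝ) + c + 3) * (z + c + 2)) * ((z + j).choose j : ℝ)) := by
            ring
        _ ≤ (2 : ℝ) ^ (m - j) * ((c + 2) * (z + 1) * ((z + j + 2).choose (j + 1) : ℝ)) :=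
            mul_le_mul_of_nonneg_left h9 h10
        _ = (c + 1 + 1) * (z + 1) * ((2 : ℝ) ^ (m - j) * ((z + j + 2).choose (j + 1) : ℝ)) := by
            ring
    have hq : (0 : ℝ) ≤ ((z : ℝ) + (c + 1) + 2) * (z + (c + 1) + 1) := by positivity
    calc ((c : ℝ) + 1 + 1) * (z + 1) * (3 * 2 ^ (c + 1) * (Y : ℝ))
        = 3 * 2 ^ (c + 1) * (((c : ℝ) + 1 + 1) * (z + 1) * (Y : ℝ)) := by ring
      _ = 3 * 2 ^ (c + 1) * ((z + (c + 1) + 2) * (z + (c + 1) + 1) * (X : ℝ)) := by rw [h1']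
      _ = 2 * (((z : ℝ) + (c + 1) + 2) * (z + (c + 1) + 1) * (3 * 2 ^ c * (X : ℝ))) := by
          rw [pow_succ]; ring
      _ ≤ 2 * (((z : ℝ) + (c + 1) + 2) * (z + (c + 1) + 1) *
            (φ * ∑ j ∈ Finset.range c, 2 ^ (m - j) * ((z + j).choose j : ℝ))) := by
          refine mul_le_mul_of_nonneg_left ?_ (by norm_num)
          exact mul_le_mul_of_nonneg_left hS hq
      _ = 2 * φ * (((z : ℝ) + (c + 1) + 2) * (z + (c + 1) + 1) *
            ∑ j ∈ Finset.range c, 2 ^ (m - j) * ((z + j).choose j : ℝ)) := by ring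
      _ ≤ 2 * φ * ((c + 1 + 1) * (z + 1) *
            ∑ j ∈ Finset.range c, (2 : ℝ) ^ (m - j) * ((z + j + 2).choose (j + 1) : ℝ)) :=
          mul_le_mul_of_nonneg_left h5 (by positivity)
      _ = ((c : ℝ) + 1 + 1) * (z + 1) * (φ *
            ∑ j ∈ Finset.range c, 2 * (2 : ℝ) ^ (m - j) * ((z + j + 2).choose (j + 1) : ℝ)) := by
          have h6 : ∑ j ∈ Finset.range c,
              2 * (2 : ℝ) ^ (m - j) * ((z + j + 2).choose (j + 1) : ℝ) =
              2 * ∑ j ∈ Finset.range c,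
                (2 : ℝ) ^ (m - j) * ((z + j + 2).choose (j + 1) : ℝ) := by
            rw [Finset.mul_sum]
            exact Finset.sum_congr rfl (fun j _ => by ring)
          rw [h6]
          ring
      _ ≤ ((c : ℝ) + 1 + 1) * (z + 1) * (φ *
            ∑ j ∈ Finset.range (c + 1), (2 : ℝ) ^ (m + 2 - j) * ((z + 1 + j).choose j : ℝ)) :=
          mul_le_mul_of_nonneg_left (mul_le_mul_of_nonneg_left h4 hφ) hpos.le

/-- the share of `c = 2` -/
theorem bg_two {e t : ℕ} (he : 33 ≤ e) : BgP (e + 2 * t) 2 (1 / 64 * (2 / 3) ^ t) := by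
  obtain ⟨m, hm⟩ : ∃ m, m = e + 2 * t := ⟨_, rfl⟩
  rw [← hm]
  obtain ⟨a, ha⟩ : ∃ a, a = (m + 4) / 3 := ⟨_, rfl⟩
  have ha4 : 4 ≤ a := by omega
  obtain ⟨Z, hZ⟩ : ∃ Z : ℕ, Z = 2 ^ a := ⟨_, rfl⟩
  have hZ16 : 16 ≤ Z := by
    rw [hZ]
    calc 16 = 2 ^ 4 := by norm_num
      _ ≤ 2 ^ a := Nat.pow_le_pow_right (by norm_num) ha4
  have h8 : 2 ^ (m + 2) ≤ Z ^ 3 := by
    rw [hZ, ← pow_mul]
    exact Nat.pow_le_pow_right (by norm_num) (by omega)
  have h8' : Z ^ 3 ≤ 2 ^ (m + 4) := by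
    rw [hZ, ← pow_mul]
    exact Nat.pow_le_pow_right (by norm_num) (by omega)
  obtain ⟨z, hz⟩ : ∃ z : ℕ, z + 1 = Z := ⟨Z - 1, by omega⟩
  have hC : 6 * (z + 2 + 1).choose (2 + 1) = Z * (Z + 1) * (Z + 2) := by
    have h1 := bg_ch z 0
    have h2 := Nat.add_one_mul_choose_eq (z + 2) 2
    have h3 := Nat.add_one_mul_choose_eq (z + 1) 1
    rw [Nat.choose_one_right] at h3
    have h4 : 6 * (z + 2 + 1).choose (2 + 1) = 2 * ((z + 2 + 1).choose (2 + 1) * (2 + 1)) := by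
      ring
    have h5 : z + 1 + 1 = z + 2 := rfl
    rw [h4, ← h2]
    rw [h5] at h3
    calc 2 * ((z + 2 + 1) * (z + 2).choose 2) = (z + 3) * ((z + 2).choose (1 + 1) * (1 + 1)) := by
          ring
      _ = (z + 3) * ((z + 2) * (z + 1)) := by rw [← h3]
      _ = Z * (Z + 1) * (Z + 2) := by rw [← hz]; ring
  refine ⟨z, by omega, ?_, ?_⟩
  · obtain ⟨D, hD⟩ : ∃ D, D = (m - 1) / 2 := ⟨_, rfl⟩
    rw [← hD]
    have hD16 : 16 ≤ D := by omega
    have h1 : 4 * 2 ^ m ≤ 6 * (z + 2 + 1).choose (2 + 1) := by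
      rw [hC]
      calc 4 * 2 ^ m = 2 ^ (m + 2) := by rw [pow_add]; ring
        _ ≤ Z ^ 3 := h8
        _ ≤ Z * (Z + 1) * (Z + 2) := by nlinarith
    obtain ⟨u, hu⟩ : ∃ u, u = 3 * D - 1 := ⟨_, rfl⟩
    rw [← hu]
    have h2 : 2 * (3 * (D + 1) * 2 ^ m) ≤ 2 * (u * (2 + 1) * (z + 2 + 1).choose (2 + 1)) := by
      calc 2 * (3 * (D + 1) * 2 ^ m) = (6 * (D + 1)) * 2 ^ m := by ring
        _ ≤ (4 * u) * 2 ^ m := Nat.mul_le_mul_right _ (by omega)
        _ = u * (4 * 2 ^ m) := by ring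
        _ ≤ u * (6 * (z + 2 + 1).choose (2 + 1)) := Nat.mul_le_mul_left _ h1
        _ = 2 * (u * (2 + 1) * (z + 2 + 1).choose (2 + 1)) := by ring
    exact Nat.le_of_mul_le_mul_left h2 (by norm_num)
  · have hCr : 6 * ((z + 2 + 1).choose (2 + 1) : ℝ) = (Z : ℝ) * (Z + 1) * (Z + 2) := by
      exact_mod_cast hC
    rw [Finset.sum_range_succ, Finset.sum_range_one]
    simp only [Nat.sub_zero, Nat.choose_zero_right, Nat.cast_one, mul_one, Nat.choose_one_right]
    have hZr : ((z + 1 : ℕ) : ℝ) = (Z : ℝ) := by rw [hz]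
    rw [hZr]
    have hm1 : (2 : ℝ) ^ m = 2 * 2 ^ (m - 1) := by
      rw [← pow_succ']
      congr 1
      omega
    have hZ0 : (16 : ℝ) ≤ (Z : ℝ) := by exact_mod_cast hZ16
    -- the value of the share
    have hφ : 5 * (Z : ℝ) ^ 2 / 2 ^ m ≤ 1 / 64 * (2 / 3) ^ t := by
      refine le_of_pow_le_pow_left₀ (n := 3) (by norm_num) (by positivity) ?_
      have h1 : ((Z : ℝ) ^ 3) ≤ 2 ^ (m + 4) := by exact_mod_cast h8'
      have h2 : ((Z : ℝ) ^ 2) ^ 3 ≤ (2 ^ (m + 4)) ^ 2 := by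
        calc ((Z : ℝ) ^ 2) ^ 3 = ((Z : ℝ) ^ 3) ^ 2 := by ring
          _ ≤ (2 ^ (m + 4)) ^ 2 := pow_le_pow_left₀ (by positivity) h1 2
      rw [div_pow, div_le_iff₀ (by positivity)]
      have h3 : (2 : ℝ) ^ m = 2 ^ e * 4 ^ t := by
        rw [hm, pow_add, pow_mul]
        norm_num
      have h4 : (2 : ℝ) ^ 33 ≤ 2 ^ e := pow_le_pow_right₀ (by norm_num) he
      have h5 : (1 : ℝ) ≤ (4 : ℝ) ^ t * (8 / 27) ^ t := by
        rw [← mul_pow]
        exact one_le_pow₀ (by norm_num)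
      have h6 : ((2 / 3 : ℝ) ^ t) ^ 3 = (8 / 27) ^ t := by
        rw [← pow_mul, Nat.mul_comm, pow_mul]
        norm_num
      calc (5 * (Z : ℝ) ^ 2) ^ 3 = 125 * ((Z : ℝ) ^ 2) ^ 3 := by ring
        _ ≤ 125 * (2 ^ (m + 4)) ^ 2 := mul_le_mul_of_nonneg_left h2 (by norm_num)
        _ = 32000 * (2 ^ m) ^ 2 := by rw [pow_add]; ring
        _ ≤ ((1 / 64) ^ 3 * 2 ^ e * ((4 : ℝ) ^ t * (8 / 27) ^ t)) * (2 ^ m) ^ 2 := by
            refine mul_le_mul_of_nonneg_right ?_ (by positivity)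
            calc (32000 : ℝ) ≤ (1 / 64) ^ 3 * 2 ^ 33 * 1 := by norm_num
              _ ≤ (1 / 64) ^ 3 * 2 ^ e * ((4 : ℝ) ^ t * (8 / 27) ^ t) := by
                  refine mul_le_mul ?_ h5 (by norm_num) (by positivity)
                  exact mul_le_mul_of_nonneg_left h4 (by positivity)
        _ = (1 / 64 * (2 / 3) ^ t) ^ 3 * (2 ^ m) ^ 3 := by
            rw [mul_pow, h6, h3]
            ring
    have h2m : (0 : ℝ) < (2 : ℝ) ^ m := by positivity
    have h3m : (0 : ℝ) < (2 : ℝ) ^ (m - 1) := by positivity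
    have hmain : 3 * 2 ^ 2 * ((z + 2 + 1).choose (2 + 1) : ℝ) ≤
        5 * (Z : ℝ) ^ 2 / 2 ^ m * (2 ^ (m - 1) * (Z : ℝ)) := by
      have h1 : 5 * (Z : ℝ) ^ 2 / 2 ^ m * (2 ^ (m - 1) * (Z : ℝ)) = 5 / 2 * (Z : ℝ) ^ 3 := by
        rw [hm1]
        field_simp
      rw [h1]
      have h2 : 3 * 2 ^ 2 * ((z + 2 + 1).choose (2 + 1) : ℝ) =
          2 * (6 * ((z + 2 + 1).choose (2 + 1) : ℝ)) := by ring
      rw [h2, hCr]
      nlinarith
    calc 3 * 2 ^ 2 * ((z + 2 + 1).choose (2 + 1) : ℝ)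
        ≤ 5 * (Z : ℝ) ^ 2 / 2 ^ m * (2 ^ (m - 1) * (Z : ℝ)) := hmain
      _ ≤ (1 / 64 * (2 / 3) ^ t) * (2 ^ (m - 1) * (Z : ℝ)) :=
          mul_le_mul_of_nonneg_right hφ (by positivity)
      _ ≤ (1 / 64 * (2 / 3) ^ t) * (2 ^ m + 2 ^ (m - 1) * (Z : ℝ)) :=
          mul_le_mul_of_nonneg_left (by linarith) (by positivity)

/-- the shares in all dimensions `e + 2 t` from those in dimension `e` -/
theorem bg_all {e n : ℕ} (he : 33 ≤ e) (hn : (e - 1) / 2 = n + 1) (Φ : ℝ) (φ0 : ℕ → ℝ)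
    (h0 : ∀ i, 0 ≤ φ0 i) (hP : ∀ i < n, BgP e (i + 2) (φ0 i))
    (hs : ∑ i ∈ Finset.range n, φ0 i ≤ Φ) (t : ℕ) :
    ∃ φ : ℕ → ℝ, (∀ i, 0 ≤ φ i) ∧ (∀ i < n + t, BgP (e + 2 * t) (i + 2) (φ i)) ∧
      ∑ i ∈ Finset.range (n + t), φ i ≤ Φ + 1 / 32 * (1 - (2 / 3) ^ t) := by
  induction t with
  | zero => exact ⟨φ0, h0, by simpa using hP, by simpa using hs⟩
  | succ t ih =>
    obtain ⟨φ, h1, h2, h3⟩ := ih
    refine ⟨fun i => if i = 0 then 1 / 64 * (2 / 3) ^ (t + 1) else φ (i - 1), ?_, ?_, ?_⟩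
    · intro i
      show (0 : ℝ) ≤ if i = 0 then 1 / 64 * (2 / 3) ^ (t + 1) else φ (i - 1)
      split_ifs
      · positivity
      · exact h1 _
    · intro i hi
      rcases Nat.eq_zero_or_pos i with h4 | h4
      · subst h4
        simp only [if_true]
        exact bg_two he
      · have h5 : i ≠ 0 := by omega
        simp only [h5, if_false]
        have h6 := bg_step (h1 (i - 1)) (by omega) (by omega) (h2 (i - 1) (by omega))
        have h7 : i - 1 + 2 + 1 = i + 2 := by omega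
        have h8 : e + 2 * t + 2 = e + 2 * (t + 1) := by ring
        rw [h7, h8] at h6
        exact h6
    · rw [← Nat.add_assoc, Finset.sum_range_succ']
      simp only [Nat.add_one_ne_zero, if_false, Nat.add_sub_cancel, if_true]
      have h4 : (2 / 3 : ℝ) ^ (t + 1) = 2 / 3 * (2 / 3) ^ t := by rw [pow_succ]; ring
      rw [h4]
      linarith

theorem bg_icc2 (D : ℕ) (φ : ℕ → ℝ) :
    ∑ c ∈ Finset.Icc 2 (D + 1), φ (c - 2) = ∑ i ∈ Finset.range D, φ i := by
  induction D with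
  | zero => simp
  | succ D ih =>
    rw [Finset.sum_Icc_succ_top (by omega), ih, Finset.sum_range_succ]
    rfl

/-- large dimensions -/
theorem bg_final {e n : ℕ} (he : 33 ≤ e) (hn : (e - 1) / 2 = n + 1) (Φ : ℝ) (φ0 : ℕ → ℝ)
    (h0 : ∀ i, 0 ≤ φ0 i) (hP : ∀ i < n, BgP e (i + 2) (φ0 i))
    (hs : ∑ i ∈ Finset.range n, φ0 i ≤ Φ) (hΦ : Φ ≤ 9 / 10) {t : ℕ} {s r A B M : ℕ → ℕ}
    (h : Nums (e + 2 * t) s r A B M) : Good (e + 2 * t) s r := by
  obtain ⟨φ, h1, h2, h3⟩ := bg_all he hn Φ φ0 h0 hP hs t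
  refine bg_good h (by omega) (fun c => φ (c - 2)) (fun c => h1 _) ?_ ?_
  · intro c hc hcD
    have h4 : c - 2 < n + t := by omega
    obtain ⟨z, -, hK, hS⟩ := h2 (c - 2) h4
    have h5 : c - 2 + 2 = c := by omega
    rw [h5] at hK hS
    refine ⟨fun j => if j < c then 2 ^ (e + 2 * t - j) / 3 else 0, z, ?_, ?_, ?_, hK, ?_⟩
    · intro j hj
      simp only [hj, if_true]
      positivity
    · simp
    · intro j hj
      simp only [hj, if_true]
      have h6 : (2 : ℝ) ^ (e + 2 * t - j) = 2 * 2 ^ (e + 2 * t - (j + 1)) := by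
        rw [← pow_succ']
        congr 1
        omega
      have h7 : (0 : ℝ) < 2 ^ (e + 2 * t - (j + 1)) := by positivity
      have h8 : (0 : ℝ) < 2 ^ (j + 1) := by positivity
      split_ifs with h9
      · rw [h6]
        linarith
      · rw [h6]
        linarith
    · have h6 : ∑ j ∈ Finset.range c, (if j < c then (2 : ℝ) ^ (e + 2 * t - j) / 3 else 0) *
          ((z + j).choose j : ℝ) =
          1 / 3 * ∑ j ∈ Finset.range c, (2 : ℝ) ^ (e + 2 * t - j) * ((z + j).choose j : ℝ) := by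
        rw [Finset.mul_sum]
        refine Finset.sum_congr rfl (fun j hj => ?_)
        rw [Finset.mem_range] at hj
        simp only [hj, if_true]
        ring
      show (2 : ℝ) ^ c * ((z + c + 1).choose (c + 1) : ℝ) ≤ φ (c - 2) * _
      rw [h6]
      linarith
  · have h4 : (e + 2 * t - 1) / 2 = n + t + 1 := by omega
    rw [h4, bg_icc2]
    have h5 : (0 : ℝ) ≤ (2 / 3) ^ t := by positivity
    linarith

end

end KLE
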