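import Pool.Agent.KLE.Defs

/-!
# Row DE: the numbers of a simple centrally symmetric polytope with separated facets
-/

set_option autoImplicit false

open scoped BigOperators RealInnerProductSpace

namespace KLE

noncomputable section

open Classical

open Pool.Agent.KST (E IsCell Cells Verts Simple Pol pt PP Gen Star VF Low LowF hh Fn FF Ker
  Par Le sgn supp EE X D)
open WLP (SepB HypB Data)

theorem dataE {ι : Type} [Fintype ι] {d : ℕ} {b : ι → E (d + 1)} (hS : Simple b)
    (hb : Bornology.IsBounded (Pol b)) {J : Finset ι} (hJ : SepB b J)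
    (hne : ∀ j ∈ J, ∃ t ∈ Cells b, t j = 1) : DataE b J := by
  obtain ⟨a, ha, -⟩ := Pool.Agent.KST.exists_gen_near hS (0 : E (d + 1)) one_pos
  choose A hA using fun j => Pool.Agent.KST.exists_low hS j
  have hsw := Pool.Agent.KST.sweep_cells hS hb ha
  have hmin : ∀ n, 2 * kap b n + (d + 1).choose n = hh (Verts b) (PP b a) n := fun n =>
    Pool.Agent.KST.finrank_minus hsw (fun s hs => Pool.Agent.KST.neg_mem_cells hs) n
  have hst : ∀ j, (∃ t ∈ Cells b, t j = 1) → ∀ n, st b j n = hh (VF b j) (PP b (A j)) n :=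
    fun j h n => Pool.Agent.KST.finrank_ker
      (Pool.Agent.KST.sweep_star hS hb (hA j).1 (hA j).2 h) n
  have hVFne : ∀ j, (∃ t ∈ Cells b, t j = 1) → (VF b j).Nonempty := by
    intro j h
    obtain ⟨v, hv, -⟩ := (Pool.Agent.KST.sweep_star hS hb (hA j).1 (hA j).2 h).ex 0
      (Pool.Agent.KST.sweep_star hS hb (hA j).1 (hA j).2 h).zero
    exact ⟨v, hv⟩
  have hlink : ∀ j ∈ J, ∃ S : WLP.Swp ι d,
      (∀ n, (S.V.filter (fun v => (S.P v).card = n)).card = hh (VF b j) (PP b (A j)) n) ∧
      ((VF b j).Nonempty → S.V.Nonempty) := fun j hj =>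
    WLP.mb_link hS hb (hA j).1 (hA j).2 (hJ.opp j hj)
  have hHsym : ∀ j ∈ J, ∀ n ≤ d, hh (VF b j) (PP b (A j)) (d - n) =
      hh (VF b j) (PP b (A j)) n := by
    intro j hj n hn
    obtain ⟨S, hSn, -⟩ := hlink j hj
    rw [← hSn, ← hSn, WLP.hsym S n hn]
  have hHpos : ∀ j ∈ J, 1 ≤ hh (VF b j) (PP b (A j)) 0 := by
    intro j hj
    obtain ⟨S, hSn, hS2⟩ := hlink j hj
    rw [← hSn]
    exact WLP.hpos S (hS2 (hVFne j (hne j hj))) 0 (Nat.zero_le _)
  have hk0 : kap b 0 = 0 := by
    have h1 : hh (Verts b) (PP b a) 0 ≤ 1 := by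
      unfold hh
      rw [Finset.card_le_one]
      intro v hv w hw
      rw [Finset.mem_filter, Finset.card_eq_zero] at hv hw
      refine hsw.uniq 0 hsw.zero v hv.1 w hw.1 ?_ ?_
      · refine ⟨fun l hl => absurd rfl hl, ?_⟩
        intro l hl
        rw [hv.2] at hl
        exact absurd hl (Finset.notMem_empty _)
      · refine ⟨fun l hl => absurd rfl hl, ?_⟩
        intro l hl
        rw [hw.2] at hl
        exact absurd hl (Finset.notMem_empty _)
    have h2 := hmin 0
    rw [Nat.choose_zero_right] at h2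
    omega
  have hk : ∀ n ≤ d + 1, kap b (d + 1 - n) = kap b n := by
    intro n hn
    have h1 := Pool.Agent.KST.hh_symm hS hb ha hn
    have h2 := hmin n
    have h3 := hmin (d + 1 - n)
    rw [Nat.choose_symm hn, ← h1] at h3
    omega
  have hc1 : (Cells b).card = 3 ^ (d + 1) + 2 * ∑ n ∈ Finset.range (d + 2), 2 ^ n * kap b n := by
    have hz : ((Cells b).card : ℤ) =
        3 ^ (d + 1) + 2 * ∑ n ∈ Finset.range (d + 1 + 1), 2 ^ n * (kap b n : ℤ) := by
      rw [Pool.Agent.KST.card_cells hS hb ha]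
      push_cast
      rw [← WLP.mb_fiber (Verts b) (fun v => (PP b a v).card) (d + 1 + 1)
        (fun v hv => Nat.lt_succ_of_le (WLP.mb_supp_card hv)) (fun n => (2 : ℤ) ^ n)]
      have h2 : ∀ n ∈ Finset.range (d + 1 + 1), (2 : ℤ) ^ n *
          (((Verts b).filter (fun v => (PP b a v).card = n)).card : ℤ) =
          (2 : ℤ) ^ n * ((d + 1).choose n : ℤ) + 2 * (2 ^ n * (kap b n : ℤ)) := by
        intro n _
        have h3 := hmin n
        unfold hh at h3
        rw [← h3]
        push_cast
        ring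
      rw [Finset.sum_congr rfl h2, Finset.sum_add_distrib, ← Finset.mul_sum]
      congr 1
      have h4 := add_pow (2 : ℤ) 1 (d + 1)
      simp only [one_pow, mul_one] at h4
      rw [← h4]
      norm_num
    exact_mod_cast hz
  have hc2 : (Verts b).card = 2 ^ (d + 1) + 2 * ∑ n ∈ Finset.range (d + 2), kap b n := by
    have h2 : (Verts b).card = ∑ n ∈ Finset.range (d + 2), hh (Verts b) (PP b a) n := by
      unfold hh
      exact Finset.card_eq_sum_card_fiberwise (f := fun v => (PP b a v).card)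
        (fun v hv => Finset.mem_coe.2 (Finset.mem_range.2
          (Nat.lt_succ_of_le (WLP.mb_supp_card (Finset.mem_coe.1 hv)))))
    rw [h2, ← Finset.sum_congr rfl (fun n _ => hmin n), Finset.sum_add_distrib,
      ← Finset.mul_sum, Nat.sum_range_choose]
    ring
  have hc5 := WLP.mb_verts hJ
  have hsum : ∀ j ∈ J, ∑ n ∈ Finset.range (d + 1), st b j n = (VF b j).card := by
    intro j hj
    rw [Finset.sum_congr rfl (fun n _ => hst j (hne j hj) n)]
    unfold hh
    exact (Finset.card_eq_sum_card_fiberwise (f := fun v => (PP b (A j) v).card)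
      (fun v hv => Finset.mem_coe.2 (Finset.mem_range.2
        (Nat.lt_succ_of_le (WLP.mb_supp_card' hS hb (hA j).1 (hA j).2 (Finset.mem_coe.1 hv)))))).symm
  refine ⟨hk0, hk, ?_, ?_, hsum, hc1, ?_, ?_, ?_⟩
  · intro j hj
    rw [hst j (hne j hj)]
    exact le_antisymm (Pool.Agent.KST.hh_zero_le hS hb (hA j).1 (hA j).2) (hHpos j hj)
  · intro j hj n hn
    rw [hst j (hne j hj), hst j (hne j hj), hHsym j hj n hn]
  · intro j hj
    rw [Finset.sum_congr rfl (fun n _ => by rw [hst j (hne j hj) n])]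
    rw [Pool.Agent.KST.card_facet hS hb (hA j).1 (hA j).2]
    have hz := WLP.mb_fiber (VF b j) (fun v => (PP b (A j) v).card) (d + 1)
      (fun v hv => Nat.lt_succ_of_le (WLP.mb_supp_card' hS hb (hA j).1 (hA j).2 hv))
      (fun n => (2 : ℤ) ^ n)
    unfold hh
    exact_mod_cast hz.symm
  · rw [← hc2]
    rw [hc5]
    exact Nat.le_add_left _ _
  · have h2 := Pool.Agent.KST.facets_le hS
    have h6 : (Finset.univ.filter (fun l => ∃ t ∈ Cells b, t l = 1)).card =
        (Finset.univ.filter (fun l => l ∉ J ∧ ∃ t ∈ Cells b, t l = 1)).card + J.card := by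
      rw [← Finset.card_union_of_disjoint]
      · congr 1
        ext l
        rw [Finset.mem_union, Finset.mem_filter, Finset.mem_filter]
        constructor
        · rintro ⟨h7, h8⟩
          by_cases h9 : l ∈ J
          · right; exact h9
          · left; exact ⟨h7, h9, h8⟩
        · rintro (⟨h7, h8, h9⟩ | h7)
          · exact ⟨h7, h9⟩
          · exact ⟨Finset.mem_univ _, hne l h7⟩
      · rw [Finset.disjoint_left]
        intro l hl hl'
        exact (Finset.mem_filter.1 hl).2.1 hl'
    have h7 : kap b 1 = Module.finrank ℝ ↥(FF (Cells b) 1 ⊓ Ker b ⊓ Par ι (-1)) := rfl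
    omega

end

end KLE
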