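import Pool.Agent.KLE.Defs
import Pool.Agent.WLP.NB

/-!
# Row GE1: the relation of a vertex with `d + 2` tight constraints
(note: /team-store/KAL_helper29.md)
-/

set_option autoImplicit false

open scoped BigOperators RealInnerProductSpace

namespace KLE

noncomputable section

open Classical

open Pool.Agent.KST (E IsCell Cells Verts Simple Pol pt PP Gen Star VF Low LowF hh Fn FF Ker
  Par Le sgn supp EE X D)

theorem ge1_sum {α : Type} [Fintype α] {V : Type*} [AddCommGroup V] (f : α → V)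
    (P : α → Prop) (h : ∀ i, ¬ P i → f i = 0) : ∑ i : {i : α // P i}, f i.1 = ∑ i, f i := by
  rw [← Finset.sum_subtype (Finset.univ.filter P) (by simp) f]
  exact Finset.sum_filter_of_ne (fun i _ hi => by_contra fun hc => hi (h i hc))

/-- independence of a family on a subset, with functions on the whole type -/
theorem ge1_indep {α : Type} [Fintype α] {V : Type*} [AddCommGroup V] [Module ℝ V] (a : α → V)
    (P : α → Prop) :
    LinearIndependent ℝ (fun i : {i : α // P i} => a i.1) ↔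
      ∀ μ : α → ℝ, (∀ i, ¬ P i → μ i = 0) → ∑ i, μ i • a i = 0 → ∀ i, μ i = 0 := by
  rw [Fintype.linearIndependent_iff]
  constructor
  · intro h μ h0 hsum i
    by_cases hi : P i
    · refine h (fun j => μ j.1) ?_ ⟨i, hi⟩
      rw [← hsum]
      exact ge1_sum (fun i => μ i • a i) P (fun j hj => by simp only [h0 j hj, zero_smul])
    · exact h0 i hi
  · intro h g hg i
    have := h (fun j => if hj : P j then g ⟨j, hj⟩ else 0) (fun j hj => by simp [hj]) ?_ i.1
    · simpa [i.2] using this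
    · rw [← hg, ← ge1_sum (fun j => (if hj : P j then g ⟨j, hj⟩ else 0) • a j) P
        (fun j hj => by simp [hj])]
      refine Finset.sum_congr rfl (fun j _ => ?_)
      simp [j.2]

/-- the tight normals at an extreme point span -/
theorem ge1_span {α : Type} [Fintype α] {d : ℕ} (a : α → E (d + 1)) {v : E (d + 1)}
    (hx : v ∈ Set.extremePoints ℝ (Pol a)) :
    Submodule.span ℝ (Set.range (fun i : {i : α // |⟪a i, v⟫| = 1} => a i.1)) = ⊤ := by
  rw [← Submodule.orthogonal_eq_bot_iff, Submodule.eq_bot_iff]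
  intro u hu
  refine WLP.nb_ext a hx u (fun i hi => ?_)
  exact (Submodule.mem_orthogonal _ _).mp hu (a i) (Submodule.subset_span ⟨⟨i, hi⟩, rfl⟩)

/-- the relations of the tight normals at an extreme point with at most `d + 2` of them -/
theorem ge1_one {α : Type} [Fintype α] {d : ℕ} (a : α → E (d + 1)) {v : E (d + 1)}
    (hx : v ∈ Set.extremePoints ℝ (Pol a))
    (hfew : (Finset.univ.filter (fun i => |⟪a i, v⟫| = 1)).card ≤ d + 2)
    (μ : α → ℝ) (hμ : ∀ i, |⟪a i, v⟫| ≠ 1 → μ i = 0) (hs : ∑ i, μ i • a i = 0)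
    (hne : ∃ i, μ i ≠ 0) :
    (Finset.univ.filter (fun i => |⟪a i, v⟫| = 1)).card = d + 2 ∧
      ∀ ν : α → ℝ, (∀ i, |⟪a i, v⟫| ≠ 1 → ν i = 0) → ∑ i, ν i • a i = 0 →
        ∃ c : ℝ, ∀ i, ν i = c * μ i := by
  set T := {i : α // |⟪a i, v⟫| = 1} with hT
  set f : T → E (d + 1) := fun i => a i.1 with hf
  have hspan := ge1_span a hx
  have hcard : Fintype.card T = (Finset.univ.filter (fun i => |⟪a i, v⟫| = 1)).card :=
    Fintype.card_subtype _
  set Φ := Fintype.linearCombination ℝ f with hΦ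
  have hrange : LinearMap.range Φ = ⊤ := by
    rw [hΦ, Fintype.range_linearCombination]
    exact hspan
  have hdim := LinearMap.finrank_range_add_finrank_ker Φ
  rw [hrange, finrank_top, finrank_euclideanSpace_fin, Module.finrank_fintype_fun_eq_card] at hdim
  have hker : ∀ ν : α → ℝ, (∀ i, |⟪a i, v⟫| ≠ 1 → ν i = 0) → ∑ i, ν i • a i = 0 →
      (fun i : T => ν i.1) ∈ LinearMap.ker Φ := by
    intro ν h0 hsum
    rw [LinearMap.mem_ker, hΦ, Fintype.linearCombination_apply, ← hsum]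
    exact ge1_sum (fun i => ν i • a i) _ (fun j hj => by simp only [h0 j hj, zero_smul])
  set w : LinearMap.ker Φ := ⟨fun i : T => μ i.1, hker μ hμ hs⟩ with hw
  have hw0 : w ≠ 0 := by
    intro h
    obtain ⟨i, hi⟩ := hne
    have hi' : |⟪a i, v⟫| = 1 := by
      by_contra hc
      exact hi (hμ i hc)
    have := congrFun (congrArg Subtype.val h) ⟨i, hi'⟩
    exact hi this
  have hpos : 0 < Module.finrank ℝ (LinearMap.ker Φ) :=
    Module.finrank_pos_iff_exists_ne_zero.mpr ⟨w, hw0⟩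
  have h1 : Module.finrank ℝ (LinearMap.ker Φ) = 1 := by omega
  refine ⟨by omega, ?_⟩
  intro ν h0 hsum
  obtain ⟨c, hc⟩ := (finrank_eq_one_iff_of_nonzero' w hw0).mp h1 ⟨_, hker ν h0 hsum⟩
  refine ⟨c, fun i => ?_⟩
  by_cases hi : |⟪a i, v⟫| = 1
  · have := congrFun (congrArg Subtype.val hc) ⟨i, hi⟩
    exact this.symm
  · rw [h0 i hi, hμ i hi, mul_zero]

/-- every relation of the tight normals has full support -/
theorem ge1_full {α : Type} [Fintype α] {d : ℕ} (a : α → E (d + 1))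
    (hns : ∀ x ∈ Pol a, x ∉ Set.extremePoints ℝ (Pol a) →
      LinearIndependent ℝ (fun i : {i : α // |⟪a i, x⟫| = 1} => a i.1))
    {v : E (d + 1)} (hv : v ∈ Pol a) (hx : v ∈ Set.extremePoints ℝ (Pol a))
    (hcard : (Finset.univ.filter (fun i => |⟪a i, v⟫| = 1)).card = d + 2)
    (μ : α → ℝ) (hμ : ∀ i, |⟪a i, v⟫| ≠ 1 → μ i = 0) (hs : ∑ i, μ i • a i = 0)
    (hne : ∃ i, μ i ≠ 0) (i0 : α) (hi0 : |⟪a i0, v⟫| = 1) : μ i0 ≠ 0 := by
  intro hμ0
  -- the other tight normals do not span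
  set P : α → Prop := fun i => |⟪a i, v⟫| = 1 ∧ i ≠ i0 with hP
  have hcardP : Fintype.card {i : α // P i} = d + 1 := by
    rw [Fintype.card_subtype]
    have : Finset.univ.filter P = (Finset.univ.filter (fun i => |⟪a i, v⟫| = 1)).erase i0 := by
      ext i
      simp only [hP, Finset.mem_filter, Finset.mem_univ, true_and, Finset.mem_erase]
      tauto
    rw [this, Finset.card_erase_of_mem (by simp [hi0]), hcard]
    rfl
  have hdepP : ¬ LinearIndependent ℝ (fun i : {i : α // P i} => a i.1) := by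
    rw [ge1_indep]
    intro h
    obtain ⟨i, hi⟩ := hne
    refine hi (h μ (fun j hj => ?_) hs i)
    by_cases hj1 : |⟪a j, v⟫| = 1
    · have : j = i0 := by
        by_contra hc
        exact hj ⟨hj1, hc⟩
      rw [this, hμ0]
    · exact hμ j hj1
  have hspanP : Submodule.span ℝ (Set.range (fun i : {i : α // P i} => a i.1)) ≠ ⊤ := by
    intro h
    exact hdepP (linearIndependent_of_top_le_span_of_card_eq_finrank (le_of_eq h.symm)
      (by rw [hcardP, finrank_euclideanSpace_fin]))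
  have hperp : (Submodule.span ℝ (Set.range (fun i : {i : α // P i} => a i.1)))ᗮ ≠ ⊥ := by
    rw [Ne, Submodule.orthogonal_eq_bot_iff]
    exact hspanP
  obtain ⟨y0, hy0, hy0n⟩ := Submodule.exists_mem_ne_zero_of_ne_bot hperp
  have hy0P : ∀ i, P i → ⟪a i, y0⟫ = 0 := fun i hi =>
    (Submodule.mem_orthogonal _ _).mp hy0 (a i) (Submodule.subset_span ⟨⟨i, hi⟩, rfl⟩)
  have hy0i : ⟪a i0, y0⟫ ≠ 0 := by
    intro h
    refine hy0n (WLP.nb_ext a hx y0 (fun i hi => ?_))
    by_cases hii : i = i0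
    · rw [hii, h]
    · exact hy0P i ⟨hi, hii⟩
  -- choose the sign
  obtain ⟨y, hyn, hyP, hyi⟩ : ∃ y : E (d + 1), y ≠ 0 ∧ (∀ i, P i → ⟪a i, y⟫ = 0) ∧
      ⟪a i0, v⟫ * ⟪a i0, y⟫ < 0 := by
    have hv0 : ⟪a i0, v⟫ ≠ 0 := by
      intro h
      rw [h, abs_zero] at hi0
      exact zero_ne_one hi0
    rcases lt_or_gt_of_ne (mul_ne_zero hv0 hy0i) with h | h
    · exact ⟨y0, hy0n, hy0P, h⟩
    · refine ⟨-y0, neg_ne_zero.mpr hy0n, fun i hi => ?_, ?_⟩
      · rw [inner_neg_right, hy0P i hi, neg_zero]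
      · rw [inner_neg_right]
        linarith
  -- a small step in direction `y`
  have hev : ∀ᶠ ε in nhdsWithin (0 : ℝ) (Set.Ioi 0), ∀ i, ¬ P i → |⟪a i, v + ε • y⟫| < 1 := by
    rw [Filter.eventually_all]
    intro i
    by_cases hPi : P i
    · exact Filter.Eventually.of_forall (fun ε h => absurd hPi h)
    · by_cases hii : i = i0
      · subst hii
        have h1 : ∀ᶠ ε in nhdsWithin (0 : ℝ) (Set.Ioi 0), 0 < ε := self_mem_nhdsWithin
        have h2 : ∀ᶠ ε in nhdsWithin (0 : ℝ) (Set.Ioi 0), ε * |⟪a i, y⟫| < 2 := by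
          refine Filter.Eventually.filter_mono nhdsWithin_le_nhds ?_
          have hcont : Continuous fun ε : ℝ => ε * |⟪a i, y⟫| := by fun_prop
          apply hcont.continuousAt.eventually_lt continuousAt_const
          simp
        filter_upwards [h1, h2] with ε e1 e2 _
        rw [inner_add_right, real_inner_smul_right]
        rcases eq_or_eq_neg_of_abs_eq hi0 with h | h
        · rw [h] at hyi ⊢
          have hy' : ⟪a i, y⟫ < 0 := by linarith
          rw [abs_of_neg hy'] at e2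
          rw [abs_lt]
          have := mul_neg_of_pos_of_neg e1 hy'
          constructor <;> linarith
        · rw [h] at hyi ⊢
          have hy' : 0 < ⟪a i, y⟫ := by linarith
          rw [abs_of_pos hy'] at e2
          rw [abs_lt]
          have := mul_pos e1 hy'
          constructor <;> linarith
      · have hni : |⟪a i, v⟫| ≠ 1 := fun h => hPi ⟨h, hii⟩
        have hlt : |⟪a i, v⟫| < 1 := lt_of_le_of_ne (hv i) hni
        refine Filter.Eventually.filter_mono nhdsWithin_le_nhds ?_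
        have hcont : Continuous fun ε : ℝ => |⟪a i, v + ε • y⟫| := by fun_prop
        have h1 : ∀ᶠ ε in nhds (0 : ℝ), |⟪a i, v + ε • y⟫| < 1 := by
          apply hcont.continuousAt.eventually_lt continuousAt_const
          simpa using hlt
        filter_upwards [h1] with ε hε _ using hε
  rw [eventually_nhdsWithin_iff, Metric.eventually_nhds_iff] at hev
  obtain ⟨δ, hδ, hball⟩ := hev
  have hstep : ∀ s : ℝ, 0 < s → s < δ → (∀ i, P i → |⟪a i, v + s • y⟫| = 1) ∧
      ∀ i, ¬ P i → |⟪a i, v + s • y⟫| < 1 := by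
    intro s h1 h2
    refine ⟨fun i hi => ?_, ?_⟩
    · rw [inner_add_right, real_inner_smul_right, hyP i hi, mul_zero, add_zero]
      exact hi.1
    · exact hball (by rw [dist_zero_right, Real.norm_eq_abs, abs_of_pos h1]; exact h2) h1
  have hpol : ∀ s : ℝ, 0 < s → s < δ → v + s • y ∈ Pol a := by
    intro s h1 h2 i
    by_cases hi : P i
    · exact le_of_eq ((hstep s h1 h2).1 i hi)
    · exact le_of_lt ((hstep s h1 h2).2 i hi)
  have hxe : v + (δ / 3) • y ∉ Set.extremePoints ℝ (Pol a) := by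
    intro h
    rw [mem_extremePoints] at h
    have h3 := (h.2 _ hv _ (hpol (2 * (δ / 3)) (by linarith) (by linarith))
      ⟨1 / 2, 1 / 2, by norm_num, by norm_num, by norm_num, by module⟩).1
    have h4 : (δ / 3) • y = 0 := by
      have := congrArg (fun z => z - v) h3
      simpa using this.symm
    rcases smul_eq_zero.mp h4 with h5 | h5
    · linarith
    · exact hyn h5
  have hind := hns _ (hpol (δ / 3) (by linarith) (by linarith)) hxe
  obtain ⟨hs1, hs2⟩ := hstep (δ / 3) (by linarith) (by linarith)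
  rw [ge1_indep] at hind
  obtain ⟨i, hi⟩ := hne
  refine hi (hind μ (fun j hj => ?_) hs i)
  by_cases hj1 : |⟪a j, v⟫| = 1
  · have : j = i0 := by
      by_contra hc
      exact hj (hs1 j ⟨hj1, hc⟩)
    rw [this, hμ0]
  · exact hμ j hj1

/-- GE1: the relation of a vertex with `d + 2` tight constraints -/
theorem circuit {α : Type} [Fintype α] {d : ℕ} (a : α → E (d + 1))
    (hns : ∀ x ∈ Pol a, x ∉ Set.extremePoints ℝ (Pol a) →
      LinearIndependent ℝ (fun i : {i : α // |⟪a i, x⟫| = 1} => a i.1))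
    {v : E (d + 1)} (hv : v ∈ Pol a)
    (hdep : ¬ LinearIndependent ℝ (fun i : {i : α // |⟪a i, v⟫| = 1} => a i.1))
    (hfew : (Finset.univ.filter (fun i => |⟪a i, v⟫| = 1)).card ≤ d + 2) :
    (Finset.univ.filter (fun i => |⟪a i, v⟫| = 1)).card = d + 2 ∧
    ∃ lam : α → ℝ, (∀ i, lam i ≠ 0 ↔ |⟪a i, v⟫| = 1) ∧
      ∑ i, (lam i * ⟪a i, v⟫) • a i = 0 ∧
      (∀ μ : α → ℝ, (∀ i, |⟪a i, v⟫| ≠ 1 → μ i = 0) → ∑ i, μ i • a i = 0 →
        ∃ c : ℝ, ∀ i, μ i = c * (lam i * ⟪a i, v⟫)) ∧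
      ∑ i, lam i = 0 ∧
      1 ≤ (Finset.univ.filter (fun i => 0 < lam i)).card ∧
      2 * (Finset.univ.filter (fun i => 0 < lam i)).card ≤ d + 2 := by
  have hx : v ∈ Set.extremePoints ℝ (Pol a) := by
    by_contra hc
    exact hdep (hns v hv hc)
  obtain ⟨μ, hμ, hs, hne⟩ : ∃ μ : α → ℝ, (∀ i, |⟪a i, v⟫| ≠ 1 → μ i = 0) ∧
      ∑ i, μ i • a i = 0 ∧ ∃ i, μ i ≠ 0 := by
    rw [ge1_indep] at hdep
    push Not at hdep
    obtain ⟨μ, h1, h2, i, h3⟩ := hdep
    exact ⟨μ, h1, h2, i, h3⟩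
  obtain ⟨hcard, huniq⟩ := ge1_one a hx hfew μ hμ hs hne
  have hfull := ge1_full a hns hv hx hcard μ hμ hs hne
  have hsq : ∀ i, |⟪a i, v⟫| = 1 → ⟪a i, v⟫ * ⟪a i, v⟫ = 1 := by
    intro i hi
    rw [← abs_mul_abs_self, hi, mul_one]
  have hv0 : ∀ i, |⟪a i, v⟫| = 1 → ⟪a i, v⟫ ≠ 0 := by
    intro i hi h
    rw [h, abs_zero] at hi
    exact zero_ne_one hi
  -- the candidate with a sign
  have hmain : ∀ e : ℝ, e * e = 1 →
      (∀ i, e * (μ i * ⟪a i, v⟫) ≠ 0 ↔ |⟪a i, v⟫| = 1) ∧
      ∑ i, (e * (μ i * ⟪a i, v⟫) * ⟪a i, v⟫) • a i = 0 ∧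
      (∀ ν : α → ℝ, (∀ i, |⟪a i, v⟫| ≠ 1 → ν i = 0) → ∑ i, ν i • a i = 0 →
        ∃ c : ℝ, ∀ i, ν i = c * (e * (μ i * ⟪a i, v⟫) * ⟪a i, v⟫)) ∧
      ∑ i, e * (μ i * ⟪a i, v⟫) = 0 := by
    intro e he
    have he0 : e ≠ 0 := by
      intro h
      rw [h] at he
      norm_num at he
    have hback : ∀ i, e * (μ i * ⟪a i, v⟫) * ⟪a i, v⟫ = e * μ i := by
      intro i
      by_cases hi : |⟪a i, v⟫| = 1
      · have := hsq i hi
        calc e * (μ i * ⟪a i, v⟫) * ⟪a i, v⟫ = e * μ i * (⟪a i, v⟫ * ⟪a i, v⟫) := by ring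
          _ = e * μ i := by rw [this, mul_one]
      · rw [hμ i hi]
        ring
    refine ⟨fun i => ⟨fun h => ?_, fun h => ?_⟩, ?_, ?_, ?_⟩
    · by_contra hc
      exact h (by rw [hμ i hc]; ring)
    · exact mul_ne_zero he0 (mul_ne_zero (hfull i h) (hv0 i h))
    · calc ∑ i, (e * (μ i * ⟪a i, v⟫) * ⟪a i, v⟫) • a i = ∑ i, e • (μ i • a i) := by
            refine Finset.sum_congr rfl (fun i _ => ?_)
            rw [hback, mul_smul]
        _ = 0 := by rw [← Finset.smul_sum, hs, smul_zero]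
    · intro ν h1 h2
      obtain ⟨c, hc⟩ := huniq ν h1 h2
      refine ⟨c * e, fun i => ?_⟩
      rw [hback, hc i]
      calc c * μ i = c * (e * e) * μ i := by rw [he, mul_one]
        _ = c * e * (e * μ i) := by ring
    · have : ∑ i, μ i * ⟪a i, v⟫ = ⟪∑ i, μ i • a i, v⟫ := by
        rw [sum_inner]
        refine Finset.sum_congr rfl (fun i _ => ?_)
        rw [real_inner_smul_left]
      rw [← Finset.mul_sum, this, hs, inner_zero_left, mul_zero]
  -- positive and negative parts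
  have hex : ∀ lam : α → ℝ, (∀ i, lam i ≠ 0 ↔ |⟪a i, v⟫| = 1) → ∑ i, lam i = 0 →
      1 ≤ (Finset.univ.filter (fun i => 0 < lam i)).card := by
    intro lam h1 h2
    by_contra hc
    have hemp : Finset.univ.filter (fun i => 0 < lam i) = ∅ := by
      rw [← Finset.card_eq_zero]
      omega
    have hle : ∀ i ∈ Finset.univ, lam i ≤ 0 := by
      intro i _
      by_contra hi
      have : i ∈ Finset.univ.filter (fun i => 0 < lam i) := by simpa using hi
      rw [hemp] at this
      simp at this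
    have hz := (Finset.sum_eq_zero_iff_of_nonpos hle).mp h2
    obtain ⟨i, hi⟩ := hne
    have hi' : |⟪a i, v⟫| = 1 := by
      by_contra hc
      exact hi (hμ i hc)
    exact (h1 i).mpr hi' (hz i (Finset.mem_univ i))
  have hsplit : (Finset.univ.filter (fun i => 0 < 1 * (μ i * ⟪a i, v⟫))).card +
      (Finset.univ.filter (fun i => 0 < -1 * (μ i * ⟪a i, v⟫))).card = d + 2 := by
    rw [← hcard, ← Finset.card_union_of_disjoint]
    · congr 1
      ext i
      simp only [Finset.mem_union, Finset.mem_filter, Finset.mem_univ, true_and]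
      rw [← (hmain 1 (by norm_num)).1 i]
      constructor
      · rintro (h | h)
        · exact ne_of_gt h
        · intro h0
          linarith
      · intro h
        rcases lt_or_gt_of_ne h with h | h
        · right
          linarith
        · left
          exact h
    · rw [Finset.disjoint_left]
      intro i h1 h2
      simp only [Finset.mem_filter, Finset.mem_univ, true_and] at h1 h2
      linarith
  refine ⟨hcard, ?_⟩
  by_cases hle : 2 * (Finset.univ.filter (fun i => 0 < 1 * (μ i * ⟪a i, v⟫))).card ≤ d + 2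
  · obtain ⟨m1, m2, m3, m4⟩ := hmain 1 (by norm_num)
    exact ⟨fun i => 1 * (μ i * ⟪a i, v⟫), m1, m2, m3, m4, hex _ m1 m4, hle⟩
  · obtain ⟨m1, m2, m3, m4⟩ := hmain (-1) (by norm_num)
    refine ⟨fun i => -1 * (μ i * ⟪a i, v⟫), m1, m2, m3, m4, hex _ m1 m4, ?_⟩
    beta_reduce
    omega

end

end KLE
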