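import Pool.Agent.KLE.GE1
import Pool.Agent.KLE.GE2
import Pool.Agent.KLE.GE3
import Pool.Agent.WLP.NB

set_option autoImplicit false

open scoped BigOperators RealInnerProductSpace

namespace KLE

noncomputable section

open Classical

open Pool.Agent.KST (E IsCell Cells Verts Simple Pol pt PP Gen Star VF Low LowF hh Fn FF Ker
  Par Le sgn supp EE X D n1NS)
open WLP (SepB HypB Data)

/-- a point where no tight constraint increases along `y` can be moved along `y` -/
private theorem GE4_ext {α : Type} [Fintype α] {n : ℕ} (a : α → E n) {z y : E n}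
    (hz : z ∈ Pol a) (h : ∀ i, |⟪a i, z⟫| = 1 → ⟪a i, z⟫ * ⟪a i, y⟫ ≤ 0) :
    ∃ ε : ℝ, 0 < ε ∧ z + ε • y ∈ Pol a := by
  have hev : ∀ᶠ ε in nhdsWithin (0 : ℝ) (Set.Ioi 0), ∀ i, |⟪a i, z + ε • y⟫| ≤ 1 := by
    rw [Filter.eventually_all]
    intro i
    by_cases hi : |⟪a i, z⟫| = 1
    · have h1 := h i hi
      have hp : ⟪a i, z⟫ * ⟪a i, z⟫ = 1 := by
        have h2 := sq_abs (⟪a i, z⟫ : ℝ)
        rw [hi] at h2
        nlinarith
      have hc2 : Continuous fun ε : ℝ => ⟪a i, z⟫ * ⟪a i, z + ε • y⟫ := by fun_prop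
      have h2 : ∀ᶠ ε in nhds (0 : ℝ), -1 < ⟪a i, z⟫ * ⟪a i, z + ε • y⟫ := by
        apply continuousAt_const.eventually_lt hc2.continuousAt
        rw [zero_smul, add_zero, hp]
        norm_num
      filter_upwards [nhdsWithin_le_nhds h2, self_mem_nhdsWithin] with ε hε hε0
      have hε0' : (0 : ℝ) < ε := hε0
      have h3 : |⟪a i, z + ε • y⟫| = |⟪a i, z⟫ * ⟪a i, z + ε • y⟫| := by
        rw [abs_mul, hi, one_mul]
      rw [h3, abs_le]
      refine ⟨hε.le, ?_⟩
      rw [inner_add_right, real_inner_smul_right]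
      nlinarith
    · have hlt : |⟪a i, z⟫| < 1 := lt_of_le_of_ne (hz i) hi
      have hcont : Continuous fun ε : ℝ => |⟪a i, z + ε • y⟫| := by fun_prop
      have h1 : ∀ᶠ ε in nhds (0 : ℝ), |⟪a i, z + ε • y⟫| < 1 := by
        apply hcont.continuousAt.eventually_lt continuousAt_const
        simpa using hlt
      filter_upwards [nhdsWithin_le_nhds h1] with ε hε using hε.le
  obtain ⟨ε, hε, hε0⟩ := (hev.and self_mem_nhdsWithin).exists
  exact ⟨ε, hε0, hε⟩

/-- the last point of a ray in a bounded polytope -/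
private theorem GE4_last {α : Type} [Fintype α] {n : ℕ} (a : α → E n)
    (hb : Bornology.IsBounded (Pol a)) {v y : E n} (hv : v ∈ Pol a) (hy : y ≠ 0) :
    ∃ s0 : ℝ, 0 ≤ s0 ∧ v + s0 • y ∈ Pol a ∧ ∀ s, s0 < s → v + s • y ∉ Pol a := by
  obtain ⟨R, hR⟩ := hb.exists_norm_le
  have hy0 : 0 < ‖y‖ := norm_pos_iff.2 hy
  have hcl : IsClosed {s : ℝ | 0 ≤ s ∧ v + s • y ∈ Pol a} := by
    apply IsClosed.inter (isClosed_le continuous_const continuous_id)
    have : {s : ℝ | v + s • y ∈ Pol a} = ⋂ i : α, {s : ℝ | |⟪a i, v + s • y⟫| ≤ 1} := by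
      ext s
      simp only [Set.mem_ofPred_eq, Set.mem_iInter]
      rfl
    change IsClosed {s : ℝ | v + s • y ∈ Pol a}
    rw [this]
    exact isClosed_iInter fun i => isClosed_le (by fun_prop) continuous_const
  have hsub : {s : ℝ | 0 ≤ s ∧ v + s • y ∈ Pol a} ⊆ Set.Icc 0 ((R + ‖v‖) / ‖y‖) := by
    rintro s ⟨hs, hsP⟩
    refine ⟨hs, ?_⟩
    rw [le_div_iff₀ hy0]
    have h1 : ‖s • y‖ ≤ ‖v + s • y‖ + ‖v‖ := by
      calc ‖s • y‖ = ‖(v + s • y) - v‖ := by congr 1; abel
        _ ≤ _ := norm_sub_le _ _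
    rw [norm_smul, Real.norm_eq_abs, abs_of_nonneg hs] at h1
    linarith [hR _ hsP]
  have hcomp : IsCompact {s : ℝ | 0 ≤ s ∧ v + s • y ∈ Pol a} :=
    isCompact_Icc.of_isClosed_subset hcl hsub
  obtain ⟨s0, hs0, hmax⟩ := hcomp.exists_isGreatest ⟨0, le_rfl, by simpa using hv⟩
  refine ⟨s0, hs0.1, hs0.2, fun s hs hsP => ?_⟩
  have := hmax ⟨hs0.1.trans hs.le, hsP⟩
  linarith

private theorem GE4_sign {x : ℝ} (h : |x| = 1) : ((SignType.sign x : SignType) : ℝ) = x := by
  rcases eq_or_eq_neg_of_abs_eq h with h | h <;> rw [h] <;> simp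

private theorem GE4_sex {x : ℝ} (h : 1 ≤ |x|) : ∃ s : SignType, 1 ≤ ((s : SignType) : ℝ) * x := by
  rcases le_abs'.1 h with h3 | h3
  · refine ⟨-1, ?_⟩
    rw [SignType.coe_neg_one]
    linarith
  · refine ⟨1, ?_⟩
    rw [SignType.coe_one]
    linarith

/-- the data of the cap of the vertex `v` -/
private def GE4_K {α : Type} [Fintype α] {n r : ℕ} (a : α → E n) (v : E n) (lam : α → ℝ) :
    CapD (α ⊕ Fin r) where
  σ := Sum.elim (fun i => if |⟪a i, v⟫| = 1 then SignType.sign ⟪a i, v⟫ else 0) (fun _ => 0)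
  lam := Sum.elim lam (fun _ => 0)
  I := (Finset.univ.filter (fun i => 0 < lam i)).map ⟨Sum.inl, Sum.inl_injective⟩
  a := (Finset.univ.filter (fun i => 0 < lam i)).card - 1

private theorem GE4_σ {α : Type} [Fintype α] {n r : ℕ} (a : α → E n) (v : E n) (lam : α → ℝ)
    (i : α) : (GE4_K (r := r) a v lam).σ (Sum.inl i) ≠ 0 ↔ |⟪a i, v⟫| = 1 := by
  show (if |⟪a i, v⟫| = 1 then SignType.sign ⟪a i, v⟫ else 0) ≠ 0 ↔ _
  by_cases h : |⟪a i, v⟫| = 1
  · rw [if_pos h]
    refine iff_of_true ?_ h
    intro h0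
    rw [sign_eq_zero_iff] at h0
    rw [h0, abs_zero] at h
    exact absurd h (by norm_num)
  · rw [if_neg h]
    exact iff_of_false (fun h' => h' rfl) h

private theorem GE4_σv {α : Type} [Fintype α] {n r : ℕ} (a : α → E n) (v : E n) (lam : α → ℝ)
    (i : α) (h : |⟪a i, v⟫| = 1) :
    (((GE4_K (r := r) a v lam).σ (Sum.inl i) : SignType) : ℝ) = ⟪a i, v⟫ := by
  show (((if |⟪a i, v⟫| = 1 then SignType.sign ⟪a i, v⟫ else 0 : SignType)) : ℝ) = _
  rw [if_pos h, GE4_sign h]

private theorem GE4_cap {α : Type} [Fintype α] {d r : ℕ} (a : α → E (d + 1))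
    (hb : Bornology.IsBounded (Pol a)) (g vv : Fin r → E (d + 1))
    (hdisj : ∀ x ∈ Pol a, ∀ j k, ∀ s t : SignType, 1 ≤ ((s : SignType) : ℝ) * ⟪g j, x⟫ →
        1 ≤ ((t : SignType) : ℝ) * ⟪g k, x⟫ → j = k ∧ s = t)
    (hcap : ∀ j (s : SignType) x, x ∈ Pol a → 1 ≤ ((s : SignType) : ℝ) * ⟪g j, x⟫ →
        s ≠ 0 ∧ ((s : SignType) : ℝ) • vv j ∈ n1NS a ∧
        ∀ i, |⟪a i, x⟫| = 1 → ⟪a i, ((s : SignType) : ℝ) • vv j⟫ = ⟪a i, x⟫)
    (hgv : ∀ j, 1 < ⟪g j, vv j⟫) (hvN : ∀ j, vv j ∈ n1NS a)
    (hve : ∀ j, vv j ∈ Set.extremePoints ℝ (Pol a)) (j : Fin r)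
    (hcard : (Finset.univ.filter (fun i => |⟪a i, vv j⟫| = 1)).card = d + 2)
    (lam : α → ℝ) (hlam : ∀ i, lam i ≠ 0 ↔ |⟪a i, vv j⟫| = 1)
    (hsum : ∑ i, (lam i * ⟪a i, vv j⟫) • a i = 0)
    (huniq : ∀ μ : α → ℝ, (∀ i, |⟪a i, vv j⟫| ≠ 1 → μ i = 0) → ∑ i, μ i • a i = 0 →
        ∃ c : ℝ, ∀ i, μ i = c * (lam i * ⟪a i, vv j⟫))
    (h0 : ∑ i, lam i = 0)
    (hpos : 1 ≤ (Finset.univ.filter (fun i => 0 < lam i)).card)
    (hhalf : 2 * (Finset.univ.filter (fun i => 0 < lam i)).card ≤ d + 2) :
    IsCap (Sum.elim a g) (Sum.inr j) (GE4_K a (vv j) lam) := by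
  have hsumσ : ∀ (ν : α → ℝ), ∑ l : α ⊕ Fin r, (Sum.elim ν (fun _ => 0) l) • (Sum.elim a g l)
      = ∑ i, ν i • a i := by
    intro ν
    rw [Fintype.sum_sum_type]
    simp
  have hprod : ∀ l : α ⊕ Fin r, (GE4_K (r := r) a (vv j) lam).lam l *
      (((GE4_K (r := r) a (vv j) lam).σ l : SignType) : ℝ) =
      Sum.elim (fun i => lam i * ⟪a i, vv j⟫) (fun _ => (0 : ℝ)) l := by
    intro l
    rcases l with i | k
    · show lam i * _ = lam i * _
      by_cases hi : |⟪a i, vv j⟫| = 1
      · rw [GE4_σv a (vv j) lam i hi]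
      · have : lam i = 0 := by
          by_contra hne
          exact hi ((hlam i).1 hne)
        rw [this, zero_mul, zero_mul]
    · show (0 : ℝ) * _ = 0
      rw [zero_mul]
  refine ⟨rfl, ?_, ?_, ?_, ?_, ?_, ?_, ?_, ?_⟩
  · -- hcard
    have h1 : supp (GE4_K (r := r) a (vv j) lam).σ =
        (Finset.univ.filter (fun i : α => |⟪a i, vv j⟫| = 1)).map
          ⟨Sum.inl, Sum.inl_injective⟩ := by
      ext l
      rw [Finset.mem_map]
      unfold Pool.Agent.KST.supp
      rw [Finset.mem_filter]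
      constructor
      · rintro ⟨-, hl⟩
        rcases l with i | k
        · exact ⟨i, Finset.mem_filter.2 ⟨Finset.mem_univ _, (GE4_σ a (vv j) lam i).1 hl⟩, rfl⟩
        · exact absurd rfl hl
      · rintro ⟨i, hi, rfl⟩
        exact ⟨Finset.mem_univ _, (GE4_σ a (vv j) lam i).2 (Finset.mem_filter.1 hi).2⟩
    rw [h1, Finset.card_map, hcard]
  · -- hI
    intro l hl
    obtain ⟨i, hi, rfl⟩ := Finset.mem_map.1 hl
    unfold Pool.Agent.KST.supp
    rw [Finset.mem_filter]
    refine ⟨Finset.mem_univ _, (GE4_σ a (vv j) lam i).2 ((hlam i).1 ?_)⟩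
    exact (Finset.mem_filter.1 hi).2.ne'
  · -- hIa
    show ((Finset.univ.filter (fun i => 0 < lam i)).map ⟨Sum.inl, Sum.inl_injective⟩).card =
      (Finset.univ.filter (fun i => 0 < lam i)).card - 1 + 1
    rw [Finset.card_map]
    omega
  · -- haD
    show 2 * ((Finset.univ.filter (fun i => 0 < lam i)).card - 1) ≤ d
    omega
  · -- hlam
    intro l
    rcases l with i | k
    · show lam i ≠ 0 ↔ _
      rw [GE4_σ, hlam]
    · show (0 : ℝ) ≠ 0 ↔ (0 : SignType) ≠ 0
      simp
  · -- hrel
    rw [← hsum, ← hsumσ]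
    exact Finset.sum_congr rfl fun l _ => by rw [hprod l]
  · -- huniq
    intro μ hμ hs
    have h1 : ∀ l, μ l = Sum.elim (fun i => μ (Sum.inl i)) (fun _ => (0 : ℝ)) l := by
      intro l
      rcases l with i | k
      · rfl
      · exact hμ (Sum.inr k) rfl
    have h2 : ∑ i, μ (Sum.inl i) • a i = 0 := by
      rw [← hs, ← hsumσ]
      exact Finset.sum_congr rfl fun l _ => by rw [← h1 l]
    obtain ⟨c, hc⟩ := huniq (fun i => μ (Sum.inl i)) (fun i hi => hμ (Sum.inl i) (by
      by_contra hne
      exact hi ((GE4_σ a (vv j) lam i).1 hne))) h2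
    refine ⟨c, fun l => ?_⟩
    rw [hprod l]
    rcases l with i | k
    · exact hc i
    · show μ (Sum.inr k) = c * 0
      rw [mul_zero]
      exact hμ (Sum.inr k) rfl
  · -- hcells
    intro t ht
    constructor
    · intro hcell
      obtain ⟨x, hx⟩ := Pool.Agent.KST.mem_cells.1 hcell
      have hgx : ⟪g j, x⟫ = 1 := by
        have h1 := (hx (Sum.inr j)).2 (by rw [ht]; decide)
        rw [ht, SignType.coe_one] at h1
        exact h1
      have hxP : x ∈ Pol a := by
        intro i
        by_cases hi : t (Sum.inl i) = 0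
        · exact ((hx (Sum.inl i)).1 hi).le
        · have h1 := (hx (Sum.inl i)).2 hi
          change ⟪a i, x⟫ = _ at h1
          rw [h1, Pool.Agent.KST.G0_abs_cast hi]
      obtain ⟨-, -, htx⟩ := hcap j 1 x hxP (by rw [SignType.coe_one, one_mul, hgx])
      rw [SignType.coe_one, one_smul] at htx
      have hti : ∀ i, t (Sum.inl i) ≠ 0 → ⟪a i, x⟫ = ⟪a i, vv j⟫ := by
        intro i hi
        have h1 := (hx (Sum.inl i)).2 hi
        change ⟪a i, x⟫ = _ at h1
        exact (htx i (by rw [h1, Pool.Agent.KST.G0_abs_cast hi])).symm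
      have hne : x ≠ vv j := by
        intro h
        have := hgv j
        rw [← h, hgx] at this
        exact lt_irrefl _ this
      refine ⟨?_, ?_, ?_⟩
      · intro l hl hl0
        rcases l with i | k
        · have h1 := (hx (Sum.inl i)).2 hl0
          change ⟪a i, x⟫ = _ at h1
          have h2 := hti i hl0
          have h3 : |⟪a i, vv j⟫| = 1 := by
            rw [← h2, h1, Pool.Agent.KST.G0_abs_cast hl0]
          apply Pool.Agent.KST.n1_coe
          rw [GE4_σv a (vv j) lam i h3, ← h2, h1]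
        · exfalso
          have h1 := (hx (Sum.inr k)).2 hl0
          change ⟪g k, x⟫ = _ at h1
          obtain ⟨s, hs⟩ := GE4_sex (x := ⟪g k, x⟫) (by
            rw [h1, Pool.Agent.KST.G0_abs_cast hl0])
          obtain ⟨h2, -⟩ := hdisj x hxP k j s 1 hs (by rw [SignType.coe_one, one_mul, hgx])
          exact hl (by rw [h2])
      · intro hsub
        apply hne
        apply private_circ a (hvN j) (hve j) hxP lam hlam hsum h0
        intro i hi
        apply hti
        have h1 := hsub (Finset.mem_map.2 ⟨i, Finset.mem_filter.2 ⟨Finset.mem_univ _, hi⟩, rfl⟩)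
        exact (Finset.mem_filter.1 h1).2
      · intro hsub
        apply hne
        apply private_circ a (hvN j) (hve j) hxP (fun i => -lam i) (fun i => by
          rw [neg_ne_zero]; exact hlam i) (by
          simp only [neg_mul, neg_smul, Finset.sum_neg_distrib, hsum, neg_zero]) (by
          rw [Finset.sum_neg_distrib, h0, neg_zero])
        intro i hi
        apply hti
        have hA : (Sum.inl i : α ⊕ Fin r) ∈ supp (GE4_K (r := r) a (vv j) lam).σ := by
          unfold Pool.Agent.KST.supp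
          rw [Finset.mem_filter]
          refine ⟨Finset.mem_univ _, (GE4_σ a (vv j) lam i).2 ((hlam i).1 ?_)⟩
          intro h
          rw [h] at hi
          simp at hi
        have hB : (Sum.inl i : α ⊕ Fin r) ∉ (GE4_K (r := r) a (vv j) lam).I := by
          intro h
          obtain ⟨i', hi', he⟩ := Finset.mem_map.1 h
          have : i' = i := Sum.inl_injective he
          rw [this] at hi'
          have := (Finset.mem_filter.1 hi').2
          linarith
        have hC := @hsub (Sum.inl i) (by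
          simp only [Finset.mem_sdiff]
          exact ⟨hA, hB⟩)
        exact (Finset.mem_filter.1 hC).2
    · rintro ⟨hle, hI1, hI2⟩
      -- the set of tight labels
      set S : Finset α := Finset.univ.filter (fun i => t (Sum.inl i) ≠ 0) with hS
      have htS : ∀ i, t (Sum.inl i) ≠ 0 → |⟪a i, vv j⟫| = 1 ∧
          ((t (Sum.inl i) : SignType) : ℝ) = ⟪a i, vv j⟫ := by
        intro i hi
        have h1 := hle (Sum.inl i) (by simp) hi
        have h2 : |⟪a i, vv j⟫| = 1 := by
          rw [← GE4_σ (r := r) a (vv j) lam i, ← h1]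
          exact hi
        exact ⟨h2, by rw [h1, GE4_σv a (vv j) lam i h2]⟩
      have hSt : ∀ i ∈ S, |⟪a i, vv j⟫| = 1 := fun i hi => (htS i (Finset.mem_filter.1 hi).2).1
      have hex1 : ∃ i, i ∉ S ∧ 0 < lam i := by
        by_contra hcon
        push Not at hcon
        apply hI1
        intro l hl
        obtain ⟨i, hi, rfl⟩ := Finset.mem_map.1 hl
        have h1 := (Finset.mem_filter.1 hi).2
        have h2 : i ∈ S := by
          by_contra hiS
          exact absurd (hcon i hiS) (not_le.2 h1)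
        unfold Pool.Agent.KST.supp
        rw [Finset.mem_filter]
        exact ⟨Finset.mem_univ _, (Finset.mem_filter.1 h2).2⟩
      have hex2 : ∃ i, i ∉ S ∧ lam i < 0 := by
        by_contra hcon
        push Not at hcon
        apply hI2
        intro l hl
        simp only [Finset.mem_sdiff] at hl
        unfold Pool.Agent.KST.supp at hl ⊢
        rw [Finset.mem_filter] at hl ⊢
        refine ⟨Finset.mem_univ _, ?_⟩
        rcases l with i | k
        · have h1 : lam i ≠ 0 := (hlam i).2 ((GE4_σ a (vv j) lam i).1 hl.1.2)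
          have h2 : ¬ 0 < lam i := by
            intro hp
            exact hl.2 (Finset.mem_map.2 ⟨i, Finset.mem_filter.2 ⟨Finset.mem_univ _, hp⟩, rfl⟩)
          have h3 : i ∈ S := by
            by_contra hiS
            have := hcon i hiS
            exact h1 (le_antisymm (not_lt.1 h2) this)
          exact (Finset.mem_filter.1 h3).2
        · exact absurd rfl hl.1.2
      obtain ⟨y, hy0, hyS, hyN⟩ := (exists_dir a lam hlam huniq hsum hcard S hSt).2 ⟨hex1, hex2⟩
      obtain ⟨s0, hs0, hzP, hmax⟩ := GE4_last a hb (hvN j).1 hy0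
      have hgz : ⟪g j, vv j + s0 • y⟫ < 1 := by
        by_contra hcon
        push Not at hcon
        obtain ⟨-, -, htx⟩ := hcap j 1 _ hzP (by rw [SignType.coe_one, one_mul]; exact hcon)
        rw [SignType.coe_one, one_smul] at htx
        obtain ⟨ε, hε, hεP⟩ := GE4_ext a (y := y) hzP (fun i hi => by
          have h1 := htx i hi
          rw [← h1]
          rw [← h1] at hi
          by_cases hiS : i ∈ S
          · exact (hyS i hiS).le
          · exact (hyN i hiS hi).le)
        apply hmax (s0 + ε) (by linarith)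
        rw [add_smul, ← add_assoc]
        exact hεP
      -- the intermediate point
      set p : ℝ := ⟪g j, vv j⟫ with hp
      set q : ℝ := ⟪g j, y⟫ with hq
      have hgz' : p + s0 * q < 1 := by
        rw [inner_add_right, real_inner_smul_right] at hgz
        exact hgz
      have hp1 : 1 < p := hgv j
      have hq0 : q < 0 := by
        by_contra hcon
        push Not at hcon
        have := mul_nonneg hs0 hcon
        linarith
      set s1 : ℝ := (1 - p) / q with hs1
      have hs1q : s1 * q = 1 - p := by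
        rw [hs1, div_mul_cancel₀ _ hq0.ne]
      have hs1pos : 0 < s1 := div_pos_of_neg_of_neg (by linarith) hq0
      have hs1lt : s1 < s0 := by
        by_contra hcon
        push Not at hcon
        nlinarith
      set x : E (d + 1) := vv j + s1 • y with hxdef
      have hgx : ⟪g j, x⟫ = 1 := by
        rw [hxdef, inner_add_right, real_inner_smul_right, ← hp, ← hq, hs1q]
        ring
      have hxP : x ∈ Pol a := by
        intro i
        have e1 : ⟪a i, x⟫ = (1 - s1 / s0) * ⟪a i, vv j⟫ + (s1 / s0) * ⟪a i, vv j + s0 • y⟫ := by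
          have hs00 : s0 ≠ 0 := by linarith
          rw [hxdef, inner_add_right, inner_add_right, real_inner_smul_right,
            real_inner_smul_right]
          field_simp
          ring
        have h1 : 0 ≤ s1 / s0 := by positivity
        have h2 : s1 / s0 ≤ 1 := by
          rw [div_le_one (by linarith)]
          exact hs1lt.le
        have h3 := (hvN j).1 i
        have h4 := hzP i
        rw [e1]
        rw [abs_le] at h3 h4 ⊢
        constructor <;> nlinarith [h3.1, h3.2, h4.1, h4.2]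
      obtain ⟨-, -, htx⟩ := hcap j 1 x hxP (by rw [SignType.coe_one, one_mul, hgx])
      rw [SignType.coe_one, one_smul] at htx
      apply Pool.Agent.KST.mem_cells.2
      refine ⟨x, fun l => ?_⟩
      rcases l with i | k
      · constructor
        · intro hi
          show |⟪a i, x⟫| < 1
          refine lt_of_le_of_ne (hxP i) fun h1 => ?_
          have h2 := htx i h1
          have hiS : i ∉ S := fun h => (Finset.mem_filter.1 h).2 hi
          have h3 : |⟪a i, vv j⟫| = 1 := by rw [h2, h1]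
          have h4 := hyN i hiS h3
          rw [hxdef, inner_add_right, real_inner_smul_right] at h2
          have h5 : s1 * ⟪a i, y⟫ = 0 := by linarith
          rcases mul_eq_zero.1 h5 with h6 | h6
          · linarith
          · rw [h6, mul_zero] at h4
            exact lt_irrefl _ h4
        · intro hi
          show ⟪a i, x⟫ = _
          obtain ⟨h1, h2⟩ := htS i hi
          rw [h2, hxdef, inner_add_right, real_inner_smul_right]
          have h3 := hyS i (Finset.mem_filter.2 ⟨Finset.mem_univ _, hi⟩)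
          rcases mul_eq_zero.1 h3 with h4 | h4
          · rw [h4, abs_zero] at h1
            exact absurd h1 (by norm_num)
          · rw [h4, mul_zero, add_zero]
      · by_cases hk : k = j
        · rw [hk]
          constructor
          · intro h
            rw [ht] at h
            exact absurd h (by decide)
          · intro _
            show ⟪g j, x⟫ = _
            rw [ht, SignType.coe_one, hgx]
        · have hk0 : t (Sum.inr k) = 0 := by
            by_contra hne
            have h1 := hle (Sum.inr k) (fun h => hk (Sum.inr_injective h)) hne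
            exact hne h1
          refine ⟨fun _ => ?_, fun h => absurd hk0 h⟩
          show |⟪g k, x⟫| < 1
          by_contra hcon
          push Not at hcon
          obtain ⟨s, hs⟩ := GE4_sex hcon
          obtain ⟨h2, -⟩ := hdisj x hxP k j s 1 hs (by rw [SignType.coe_one, one_mul, hgx])
          exact hk h2

/-- GE4 (uses WLP.nb_core, GE1, GE2, GE3) -/
theorem nat_capE {α : Type} [Fintype α] {d : ℕ} (a : α → E (d + 1))
    (hb : Bornology.IsBounded (Pol a))
    (hns : ∀ x ∈ Pol a, x ∉ Set.extremePoints ℝ (Pol a) →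
      LinearIndependent ℝ (fun i : {i : α // |⟪a i, x⟫| = 1} => a i.1))
    (hfew : ∀ x ∈ Pol a, (Finset.univ.filter (fun i => |⟪a i, x⟫| = 1)).card ≤ d + 2) :
    ∃ (r : ℕ) (g : Fin r → E (d + 1)) (K : α ⊕ Fin r → CapD (α ⊕ Fin r)), HypB a g ∧
      Fam (Sum.elim a g) (Finset.univ.filter (fun l => ∃ j, l = Sum.inr j)) K := by
  have hnse : ∀ v ∈ n1NS a, v ∈ Set.extremePoints ℝ (Pol a) := by
    intro v hv
    by_contra hcon
    exact hv.2 (hns v hv.1 hcon)
  have hmono : ∀ v ∈ n1NS a, ∀ x ∈ Pol a, (∀ i, |⟪a i, v⟫| = 1 → ⟪a i, x⟫ = ⟪a i, v⟫) →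
      x = v := by
    intro v hv x hx h
    have h1 := WLP.nb_ext a (hnse v hv) (x - v) (fun i hi => by
      rw [inner_sub_right, h i hi, sub_self])
    exact sub_eq_zero.1 h1
  obtain ⟨r, g, vv, hsimple, hdisj, hcap, hrep, hgv, hvN⟩ := WLP.nb_core a hb hmono
  have hve : ∀ j, vv j ∈ Set.extremePoints ℝ (Pol a) := fun j => hnse _ (hvN j)
  have hcirc := fun j => circuit a hns (hvN j).1 (hvN j).2 (hfew _ (hvN j).1)
  choose hcard lam hlam hsum huniq h0 hpos hhalf using hcirc
  refine ⟨r, g, Sum.elim (fun _ => ⟨0, 0, ∅, 0⟩) (fun j => GE4_K a (vv j) (lam j)),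
    ⟨hsimple, hdisj, ?_⟩, ?_, ?_, ?_, ?_⟩
  · intro j x hx y hy hgx hgy i hix hiy
    obtain ⟨-, -, h1⟩ := hcap j 1 x hx (by rw [SignType.coe_one, one_mul]; exact hgx)
    obtain ⟨-, -, h2⟩ := hcap j 1 y hy (by rw [SignType.coe_one, one_mul]; exact hgy)
    rw [← h1 i hix, ← h2 i hiy]
  · -- cap
    intro l hl
    obtain ⟨j, rfl⟩ := (Finset.mem_filter.1 hl).2
    exact GE4_cap a hb g vv hdisj hcap hgv hvN hve j (hcard j) (lam j) (hlam j) (hsum j)
      (huniq j) (h0 j) (hpos j) (hhalf j)
  · -- ne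
    intro l hl
    obtain ⟨j, rfl⟩ := (Finset.mem_filter.1 hl).2
    have hpos : 0 < ⟪g j, vv j⟫ := by linarith [hgv j]
    set y : E (d + 1) := (1 / ⟪g j, vv j⟫) • vv j with hy
    have hyj : ⟪g j, y⟫ = 1 := by
      rw [hy, real_inner_smul_right]
      field_simp
    have hyP : y ∈ Pol a := by
      intro i
      rw [hy, real_inner_smul_right, abs_mul, abs_of_pos (by positivity)]
      have h1 := (hvN j).1 i
      have h2 : 1 / ⟪g j, vv j⟫ ≤ 1 := by
        rw [div_le_one hpos]
        exact (hgv j).le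
      calc 1 / ⟪g j, vv j⟫ * |⟪a i, vv j⟫| ≤ 1 * 1 :=
            mul_le_mul h2 h1 (abs_nonneg _) zero_le_one
        _ = 1 := one_mul 1
    have hyP' : y ∈ Pol (Sum.elim a g) := by
      intro l
      rcases l with i | k
      · exact hyP i
      · show |⟪g k, y⟫| ≤ 1
        by_contra hcon
        push Not at hcon
        obtain ⟨t, ht⟩ := GE4_sex hcon.le
        obtain ⟨h1, -⟩ := hdisj y hyP k j t 1 ht (by rw [SignType.coe_one, one_mul, hyj])
        rw [h1, hyj, abs_one] at hcon
        exact lt_irrefl _ hcon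
    obtain ⟨t, ht⟩ := Pool.Agent.KST.exists_cell hyP'
    refine ⟨t, Pool.Agent.KST.mem_cells.2 ⟨y, ht⟩, ?_⟩
    have h1 : t (Sum.inr j) ≠ 0 := by
      intro h0
      have h2 := (ht (Sum.inr j)).1 h0
      change |⟪g j, y⟫| < 1 at h2
      rw [hyj, abs_one] at h2
      exact lt_irrefl _ h2
    have h2 := (ht (Sum.inr j)).2 h1
    change ⟪g j, y⟫ = _ at h2
    rw [hyj] at h2
    apply Pool.Agent.KST.n1_coe
    rw [← h2, SignType.coe_one]
  · -- out
    intro l hl l' hl'
    obtain ⟨j, rfl⟩ := (Finset.mem_filter.1 hl).2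
    obtain ⟨j', rfl⟩ := (Finset.mem_filter.1 hl').2
    rfl
  · -- priv
    intro l hl l' hl' hne
    obtain ⟨j, rfl⟩ := (Finset.mem_filter.1 hl).2
    obtain ⟨j', rfl⟩ := (Finset.mem_filter.1 hl').2
    have hjj : j ≠ j' := fun h => hne (by rw [h])
    constructor
    · by_contra hcon
      push Not at hcon
      have h1 : vv j' = vv j := by
        apply private_circ a (hvN j) (hve j) (hvN j').1 (lam j) (hlam j) (hsum j) (h0 j)
        intro i hi
        have h2 := hcon (Sum.inl i) (Finset.mem_map.2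
          ⟨i, Finset.mem_filter.2 ⟨Finset.mem_univ _, hi⟩, rfl⟩)
        change (GE4_K (r := r) a (vv j') (lam j')).σ (Sum.inl i) =
          (GE4_K (r := r) a (vv j) (lam j)).σ (Sum.inl i) at h2
        have h3 : |⟪a i, vv j⟫| = 1 := (hlam j i).1 hi.ne'
        have h4 : |⟪a i, vv j'⟫| = 1 := by
          rw [← GE4_σ (r := r) a (vv j') (lam j') i, h2, GE4_σ]
          exact h3
        rw [← GE4_σv (r := r) a (vv j') (lam j') i h4, ← GE4_σv (r := r) a (vv j) (lam j) i h3,
          h2]
      apply hjj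
      refine (hdisj (vv j) (hvN j).1 j j' 1 1 ?_ ?_).1
      · rw [SignType.coe_one, one_mul]
        exact (hgv j).le
      · rw [SignType.coe_one, one_mul, ← h1]
        exact (hgv j').le
    · by_contra hcon
      push Not at hcon
      have h1 : -vv j' = vv j := by
        apply private_circ a (hvN j) (hve j) (Pool.Agent.KST.n1NS_neg (hvN j')).1 (lam j) (hlam j)
          (hsum j) (h0 j)
        intro i hi
        have h2 := hcon (Sum.inl i) (Finset.mem_map.2
          ⟨i, Finset.mem_filter.2 ⟨Finset.mem_univ _, hi⟩, rfl⟩)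
        change (GE4_K (r := r) a (vv j') (lam j')).σ (Sum.inl i) =
          -(GE4_K (r := r) a (vv j) (lam j)).σ (Sum.inl i) at h2
        have h3 : |⟪a i, vv j⟫| = 1 := (hlam j i).1 hi.ne'
        have h4 : |⟪a i, vv j'⟫| = 1 := by
          rw [← GE4_σ (r := r) a (vv j') (lam j') i, h2]
          intro h5
          have hneg : ∀ s : SignType, -s = 0 → s = 0 := by decide
          exact (GE4_σ (r := r) a (vv j) (lam j) i).2 h3 (hneg _ h5)
        have h5 := GE4_σv (r := r) a (vv j') (lam j') i h4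
        have h6 := GE4_σv (r := r) a (vv j) (lam j) i h3
        rw [h2, SignType.coe_neg, h6] at h5
        rw [inner_neg_right, ← h5, neg_neg]
      apply hjj
      refine (hdisj (vv j) (hvN j).1 j j' 1 (-1) ?_ ?_).1
      · rw [SignType.coe_one, one_mul]
        exact (hgv j).le
      · rw [SignType.coe_neg_one, ← h1, inner_neg_right]
        have := hgv j'
        linarith

end

end KLE
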