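import Pool.Agent.KLE.Defs

/-!
# H1: standard monomials
-/

set_option autoImplicit false

open scoped BigOperators

namespace KLE

noncomputable section

open Classical

/-- the members of `S` whose vector is not in the span of the vectors of the smaller members -/
def newE {σ : Type} [LinearOrder σ] {κ : Type} (v : σ → κ → ℝ) (S : Finset σ) : Finset σ :=
  S.filter (fun m => v m ∉ Submodule.span ℝ (v '' {m' | m' ∈ S ∧ m' < m}))

theorem card_newE {σ : Type} [LinearOrder σ] {κ : Type} [Fintype κ] (v : σ → κ → ℝ)
    (S : Finset σ) :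
    (newE v S).card = Module.finrank ℝ (Submodule.span ℝ (v '' (S : Set σ))) := by
  induction S using Finset.induction_on_max with
  | empty =>
    rw [Finset.coe_empty, Set.image_empty, Submodule.span_empty, finrank_bot]
    rfl
  | insert a S hlt ih =>
    have haS : a ∉ S := fun h => lt_irrefl a (hlt a h)
    have hset : {m' | m' ∈ insert a S ∧ m' < a} = (S : Set σ) := by
      ext m'
      simp only [Finset.mem_insert, Set.mem_ofPred_eq, Finset.mem_coe]
      constructor
      · rintro ⟨h | h, h2⟩
        · exact absurd h2 (by rw [h]; exact lt_irrefl a)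
        · exact h
      · intro h
        exact ⟨Or.inr h, hlt m' h⟩
    have hset2 : ∀ m ∈ S, {m' | m' ∈ insert a S ∧ m' < m} = {m' | m' ∈ S ∧ m' < m} := by
      intro m hm
      ext m'
      simp only [Finset.mem_insert, Set.mem_ofPred_eq]
      constructor
      · rintro ⟨h | h, h2⟩
        · exact absurd (h2.trans (hlt m hm)) (by rw [h]; exact lt_irrefl a)
        · exact ⟨h, h2⟩
      · rintro ⟨h, h2⟩
        exact ⟨Or.inr h, h2⟩
    have hnew : newE v (insert a S) =
        if v a ∈ Submodule.span ℝ (v '' (S : Set σ)) then newE v S else insert a (newE v S) := by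
      ext m
      unfold newE
      rw [Finset.mem_filter, Finset.mem_insert]
      by_cases hma : m = a
      · subst hma
        rw [hset]
        split_ifs with h
        · simp [h, haS]
        · simp [h]
      · split_ifs with h
        · rw [Finset.mem_filter]
          constructor
          · rintro ⟨h1 | h1, h2⟩
            · exact absurd h1 hma
            · exact ⟨h1, by rwa [hset2 m h1] at h2⟩
          · rintro ⟨h1, h2⟩
            exact ⟨Or.inr h1, by rwa [hset2 m h1]⟩
        · rw [Finset.mem_insert, Finset.mem_filter]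
          constructor
          · rintro ⟨h1 | h1, h2⟩
            · exact absurd h1 hma
            · exact Or.inr ⟨h1, by rwa [hset2 m h1] at h2⟩
          · rintro (h1 | ⟨h1, h2⟩)
            · exact absurd h1 hma
            · exact ⟨Or.inr h1, by rwa [hset2 m h1]⟩
    have himg : v '' ((insert a S : Finset σ) : Set σ) = insert (v a) (v '' (S : Set σ)) := by
      rw [Finset.coe_insert, Set.image_insert_eq]
    rw [hnew, himg]
    split_ifs with h
    · rw [ih]
      have : Submodule.span ℝ (insert (v a) (v '' (S : Set σ)))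
          = Submodule.span ℝ (v '' (S : Set σ)) := Submodule.span_insert_eq_span h
      rw [this]
    · have hn : a ∉ newE v S := fun h' => haS (Finset.mem_filter.mp h').1
      rw [Finset.card_insert_of_notMem hn, ih, Submodule.span_insert]
      have hva : v a ≠ 0 := fun h0 => h (by rw [h0]; exact Submodule.zero_mem _)
      have hinf : Submodule.span ℝ {v a} ⊓ Submodule.span ℝ (v '' (S : Set σ)) = ⊥ := by
        rw [eq_bot_iff]
        rintro y ⟨hy1, hy2⟩
        obtain ⟨c, rfl⟩ := Submodule.mem_span_singleton.mp hy1
        by_cases hc : c = 0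
        · simp [hc]
        · exfalso
          apply h
          have := Submodule.smul_mem _ c⁻¹ hy2
          rwa [smul_smul, inv_mul_cancel₀ hc, one_smul] at this
      have hdim := Submodule.finrank_sup_add_finrank_inf_eq (Submodule.span ℝ {v a})
        (Submodule.span ℝ (v '' (S : Set σ)))
      rw [hinf, finrank_bot, add_zero, finrank_span_singleton hva] at hdim
      rw [hdim]
      ring

/-- the monomials of degree `t` -/
def Mon (N t : ℕ) : Finset (Lex (Fin N → ℕ)) :=
  (Finset.piAntidiag (Finset.univ : Finset (Fin N)) t).image toLex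

theorem mem_Mon {N t : ℕ} (m : Lex (Fin N → ℕ)) : m ∈ Mon N t ↔ deg (ofLex m) = t := by
  unfold Mon deg
  rw [Finset.mem_image]
  constructor
  · rintro ⟨a, ha, rfl⟩
    exact (Finset.mem_piAntidiag.mp ha).1
  · intro h
    exact ⟨ofLex m, Finset.mem_piAntidiag.mpr ⟨h, fun i _ => Finset.mem_univ i⟩, rfl⟩

theorem deg_update {N : ℕ} (m : Fin N → ℕ) (i : Fin N) (c : ℕ) :
    deg (Function.update m i c) + m i = deg m + c := by
  unfold deg
  rw [← Finset.add_sum_erase _ _ (Finset.mem_univ i), ← Finset.add_sum_erase Finset.univ m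
    (Finset.mem_univ i), Function.update_self]
  have : ∑ x ∈ Finset.univ.erase i, Function.update m i c x = ∑ x ∈ Finset.univ.erase i, m x := by
    refine Finset.sum_congr rfl fun x hx => ?_
    rw [Function.update_of_ne (Finset.ne_of_mem_erase hx)]
  rw [this]
  ring

theorem ev_add_single {κ : Type} {N : ℕ} (x : κ → Fin N → ℝ) (m : Fin N → ℕ) (i : Fin N) :
    ev x (m + Pi.single i 1) = fun p => x p i * ev x m p := by
  funext p
  unfold ev
  have h : ∀ j, x p j ^ ((m + Pi.single i 1 : Fin N → ℕ) j) =
      x p j ^ m j * (if j = i then x p i else 1) := by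
    intro j
    by_cases hj : j = i
    · subst hj
      simp [pow_succ]
    · simp [hj]
  rw [Finset.prod_congr rfl fun j _ => h j, Finset.prod_mul_distrib, Finset.prod_ite_eq']
  simp [mul_comm]

theorem HF_eq {κ : Type} [Fintype κ] {N : ℕ} (x : κ → Fin N → ℝ) (t : ℕ) :
    HF x t = (newE (fun m : Lex (Fin N → ℕ) => ev x (ofLex m)) (Mon N t)).card := by
  rw [card_newE]
  unfold HF
  have h : {v : κ → ℝ | ∃ m : Fin N → ℕ, deg m = t ∧ v = ev x m} =
      (fun m : Lex (Fin N → ℕ) => ev x (ofLex m)) '' (Mon N t : Set (Lex (Fin N → ℕ))) := by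
    ext v
    simp only [Set.mem_ofPred_eq, Set.mem_image, Finset.mem_coe]
    constructor
    · rintro ⟨m, hm, rfl⟩
      exact ⟨toLex m, (mem_Mon _).mpr hm, rfl⟩
    · rintro ⟨m, hm, rfl⟩
      exact ⟨ofLex m, (mem_Mon _).mp hm, rfl⟩
  rw [h]

/-- H1 -/
theorem std_monomials {κ : Type} [Fintype κ] {N : ℕ} (x : κ → Fin N → ℝ) (q : ℕ) :
    ∃ B : Finset (Fin N → ℕ), (∀ m ∈ B, deg m = q + 1) ∧ B.card = HF x (q + 1) ∧
      (shadow B).card ≤ HF x q := by
  set v : Lex (Fin N → ℕ) → κ → ℝ := fun m => ev x (ofLex m) with hv
  refine ⟨(newE v (Mon N (q + 1))).image ofLex, ?_, ?_, ?_⟩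
  · intro m hm
    obtain ⟨m', hm', rfl⟩ := Finset.mem_image.mp hm
    exact (mem_Mon _).mp (Finset.mem_filter.mp hm').1
  · rw [Finset.card_image_of_injective _ ofLex.injective, HF_eq]
  · rw [HF_eq x q]
    have hsub : shadow ((newE v (Mon N (q + 1))).image ofLex) ⊆ (newE v (Mon N q)).image ofLex := by
      intro m' hm'
      unfold shadow at hm'
      obtain ⟨m, hm, hm2⟩ := Finset.mem_biUnion.mp hm'
      obtain ⟨i, hi, rfl⟩ := Finset.mem_image.mp hm2
      obtain ⟨M, hM, rfl⟩ := Finset.mem_image.mp hm
      have hi0 : 0 < (ofLex M) i := (Finset.mem_filter.mp hi).2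
      set m0 : Fin N → ℕ := Function.update (ofLex M) i ((ofLex M) i - 1) with hm0
      have hMadd : ofLex M = m0 + Pi.single i 1 := by
        funext j
        by_cases hj : j = i
        · subst hj
          simp only [hm0, Pi.add_apply, Function.update_self, Pi.single_eq_same]
          omega
        · simp [hm0, hj]
      obtain ⟨hM1, hM2⟩ := Finset.mem_filter.mp hM
      rw [mem_Mon] at hM1
      have hdeg : deg m0 = q := by
        have := deg_update (ofLex M) i ((ofLex M) i - 1)
        rw [← hm0] at this
        omega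
      refine Finset.mem_image.mpr ⟨toLex m0, ?_, rfl⟩
      refine Finset.mem_filter.mpr ⟨(mem_Mon _).mpr hdeg, ?_⟩
      intro hcon
      apply hM2
      -- multiplication by the variable i
      let L : (κ → ℝ) →ₗ[ℝ] (κ → ℝ) :=
        { toFun := fun f p => x p i * f p
          map_add' := by intro f g; funext p; simp [mul_add]
          map_smul' := by intro c f; funext p; simp; ring }
      have h1 : L (v (toLex m0)) ∈ Submodule.map L (Submodule.span ℝ
          (v '' {m' | m' ∈ Mon N q ∧ m' < toLex m0})) := Submodule.mem_map_of_mem hcon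
      have h2 : L (v (toLex m0)) = v M := by
        show (fun p => x p i * ev x m0 p) = ev x (ofLex M)
        rw [hMadd, ev_add_single]
      rw [h2, Submodule.map_span] at h1
      refine Submodule.span_mono ?_ h1
      rintro w ⟨w', ⟨m', ⟨hm'1, hm'2⟩, rfl⟩, rfl⟩
      refine ⟨m' + toLex (Pi.single i 1), ⟨?_, ?_⟩, ?_⟩
      · rw [mem_Mon] at hm'1 ⊢
        show deg (ofLex m' + Pi.single i 1) = q + 1
        unfold deg at hm'1 ⊢
        simp only [Pi.add_apply, Finset.sum_add_distrib, hm'1]
        rw [Finset.sum_pi_single']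
        simp
      · have hMe : M = toLex m0 + toLex (Pi.single i 1) := hMadd
        rw [hMe]
        exact add_lt_add_left hm'2 _
      · show ev x (ofLex m' + Pi.single i 1) = _
        rw [ev_add_single]
        rfl
    calc (shadow ((newE v (Mon N (q + 1))).image ofLex)).card
        ≤ ((newE v (Mon N q)).image ofLex).card := Finset.card_le_card hsub
      _ ≤ (newE v (Mon N q)).card := Finset.card_image_le

end

end KLE
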