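import Pool.Agent.KLE.Defs

/-!
# Row M5: at most `s (s + 1) / 2` monomials of degree two have a shadow with `s` elements
-/

set_option autoImplicit false

open scoped BigOperators

namespace KLE

open Classical

/-- M5 -/
theorem base_two {N : ℕ} (B : Finset (Fin N → ℕ)) (hB : ∀ m ∈ B, deg m = 2) :
    2 * B.card ≤ (shadow B).card * ((shadow B).card + 1) := by
  have hsh : ∀ m ∈ B, ∀ i : Fin N, 0 < m i → Function.update m i (m i - 1) ∈ shadow B := by
    intro m hm i hi
    unfold shadow
    rw [Finset.mem_biUnion]
    refine ⟨m, hm, ?_⟩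
    rw [Finset.mem_image]
    exact ⟨i, by simpa using hi, rfl⟩
  have key : ∀ m ∈ B, ∃ u ∈ shadow B, ∃ v ∈ shadow B, u + v = m := by
    intro m hm
    have h2 : ∑ i, m i = 2 := hB m hm
    obtain ⟨i, -, hi⟩ := Finset.exists_ne_zero_of_sum_ne_zero (s := Finset.univ) (f := m)
      (by rw [h2]; norm_num)
    have hi0 : 0 < m i := Nat.pos_of_ne_zero hi
    have hu1 : ∑ k, Function.update m i (m i - 1) k = 1 := by
      rw [Finset.sum_update_of_mem (Finset.mem_univ i)]
      have h3 := Finset.sum_eq_add_sum_sdiff_singleton_of_mem (Finset.mem_univ i) m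
      rw [h2] at h3
      omega
    obtain ⟨j, -, hj⟩ := Finset.exists_ne_zero_of_sum_ne_zero (s := Finset.univ)
      (f := Function.update m i (m i - 1)) (by rw [hu1]; norm_num)
    have h4 := Finset.sum_eq_add_sum_sdiff_singleton_of_mem (Finset.mem_univ j)
      (Function.update m i (m i - 1))
    rw [hu1] at h4
    have hj1 : Function.update m i (m i - 1) j = 1 := by omega
    have h5 : ∑ k ∈ Finset.univ \ {j}, Function.update m i (m i - 1) k = 0 := by omega
    rw [Finset.sum_eq_zero_iff] at h5
    have hmj : Function.update m i (m i - 1) j ≤ m j := by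
      by_cases hij : j = i
      · subst hij
        simp
      · rw [Function.update_of_ne hij]
    refine ⟨_, hsh m hm i hi0, _, hsh m hm j (by omega), ?_⟩
    funext k
    rw [Pi.add_apply]
    by_cases hk : k = j
    · subst hk
      rw [hj1, Function.update_self]
      omega
    · rw [h5 k (by simp [hk]), Function.update_of_ne hk, zero_add]
  have hsub : B ⊆ ((shadow B).sym2).image
      (Sym2.lift ⟨fun u v => u + v, fun u v => add_comm u v⟩) := by
    intro m hm
    obtain ⟨u, hu, v, hv, huv⟩ := key m hm
    rw [Finset.mem_image]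
    refine ⟨s(u, v), Finset.mk_mem_sym2_iff.2 ⟨hu, hv⟩, ?_⟩
    rw [Sym2.lift_mk]
    exact huv
  have h6 : B.card ≤ ((shadow B).card + 1).choose 2 := by
    calc B.card ≤ _ := Finset.card_le_card hsub
      _ ≤ ((shadow B).sym2).card := Finset.card_image_le
      _ = _ := Finset.card_sym2 _
  rw [Nat.choose_two_right] at h6
  have h7 : ((shadow B).card + 1) * ((shadow B).card + 1 - 1) / 2 * 2 ≤
      ((shadow B).card + 1) * ((shadow B).card + 1 - 1) := Nat.div_mul_le_self _ _
  have h8 : ((shadow B).card + 1) * ((shadow B).card + 1 - 1) =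
      (shadow B).card * ((shadow B).card + 1) := by
    rw [Nat.add_sub_cancel]; ring
  omega

end KLE
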