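import Pool.Agent.KLE.M4
import Pool.Agent.KLE.M5
import Pool.Agent.KLE.H1

/-!
# Growth of Hilbert functions of points (rows H2, H3)
-/

set_option autoImplicit false

namespace KLE

noncomputable section

open Classical

/-- H2 (uses M4, H1) -/
theorem HF_growth {κ : Type} [Fintype κ] {N : ℕ} (x : κ → Fin N → ℝ) (q z : ℕ) (hq : 1 ≤ q)
    (hle : HF x q ≤ (z + q).choose q) : (q + 1) * HF x (q + 1) ≤ (z + q + 1) * HF x q := by
  obtain ⟨B, hB, hcard, hsh⟩ := std_monomials x q
  have h := macaulay q z hq B hB (hsh.trans hle)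
  rw [hcard] at h
  exact h.trans (Nat.mul_le_mul_left _ hsh)

/-- H3 (uses M5, H1) -/
theorem HF_two {κ : Type} [Fintype κ] {N : ℕ} (x : κ → Fin N → ℝ) :
    2 * HF x 2 ≤ HF x 1 * (HF x 1 + 1) := by
  obtain ⟨B, hB, hcard, hsh⟩ := std_monomials x 1
  have h := base_two B hB
  rw [hcard] at h
  exact h.trans (Nat.mul_le_mul hsh (Nat.add_le_add_right hsh 1))

end

end KLE
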