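import Pool.Agent.KLE.Defs

/-!
# The kernel functions on the star of a cap facet annihilated by the shift of the facet
-/

set_option autoImplicit false

open scoped BigOperators RealInnerProductSpace

namespace KLE

noncomputable section

open Classical

open Pool.Agent.KST (E IsCell Cells Verts Simple Pol pt PP Gen Star VF Low LowF hh Fn FF Ker
  Par Le sgn supp EE X D D_apply mem_Ker)

/-- unit step in direction `l` with sign `s` -/
private def K2u {ι : Type} (s : SignType) (l : ι) : ι → ℤ := Pi.single l ((s : SignType) : ℤ)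

private theorem K2_up {ι : Type} (e : ι → ℤ) (l : ι) :
    Function.update e l (e l + 1) = e + Pi.single l 1 := by
  funext k
  by_cases h : k = l
  · subst h; simp
  · simp [h]

private theorem K2_down {ι : Type} (e : ι → ℤ) (l : ι) :
    Function.update e l (e l - 1) = e - Pi.single l 1 := by
  funext k
  by_cases h : k = l
  · subst h; simp
  · simp [h]

private theorem K2_X {ι : Type} (l : ι) (f : Fn ι) (e : ι → ℤ) :
    X l f e = (if 0 ≤ e l then f (e + Pi.single l 1) else 0) -
      (if e l ≤ 0 then f (e - Pi.single l 1) else 0) := by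
  rw [← K2_up, ← K2_down]
  rfl

private theorem K2_mem_EE {ι : Type} [Fintype ι] (C : Finset (ι → SignType)) (n : ℕ)
    (e : ι → ℤ) : e ∈ EE C n ↔ (∑ l, (e l).natAbs = n) ∧ sgn e ∈ C := by
  unfold EE
  rw [Finset.mem_filter, Fintype.mem_piFinset]
  constructor
  · rintro ⟨_, h⟩
    exact h
  · intro h
    refine ⟨fun l => ?_, h⟩
    have : (e l).natAbs ≤ n := by
      rw [← h.1]
      exact Finset.single_le_sum (f := fun l => (e l).natAbs) (fun _ _ => Nat.zero_le _)
        (Finset.mem_univ l)
    rw [Finset.mem_Icc]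
    omega

variable {ι : Type} [Fintype ι] {d : ℕ} {b : ι → E (d + 1)} {j : ι} {K : CapD ι}

/-- members of the star -/
private theorem K2_star (hc : IsCap b j K) {s : ι → SignType} (hs : s ∈ Star b j) :
    (s j = 0 ∨ s j = 1) ∧ (∀ l, l ≠ j → s l ≠ 0 → s l = K.σ l) ∧ ¬ K.I ⊆ supp s := by
  unfold Pool.Agent.KST.Star at hs
  rw [Finset.mem_filter] at hs
  obtain ⟨_, t, ht, hle, htj⟩ := hs
  obtain ⟨h1, h2, _⟩ := (hc.hcells t htj).1 ht
  refine ⟨?_, ?_, ?_⟩
  · by_cases h : s j = 0
    · exact Or.inl h
    · right; rw [← hle j h]; exact htj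
  · intro l hl hsl
    have h3 := hle l hsl
    rw [← h3]
    exact h1 l hl (by rw [h3]; exact hsl)
  · intro h
    apply h2
    intro l hl
    have h3 := h hl
    simp only [supp, Finset.mem_filter, Finset.mem_univ, true_and] at h3 ⊢
    rw [hle l h3]
    exact h3

/-- values off the `σ`-supported vectors -/
private theorem K2_zero (hc : IsCap b j K) {q : ℕ} {f : Fn ι} (hf : f ∈ FF (Star b j) q)
    {e : ι → ℤ} {l : ι} (hl : l ≠ j) (he : e l ≠ 0) (hs : SignType.sign (e l) ≠ K.σ l) :
    f e = 0 := by
  apply hf
  intro h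
  rw [K2_mem_EE] at h
  apply hs
  exact (K2_star hc h.2).2.1 l hl (by simpa [sgn] using he)

private theorem K2_zero_j (hc : IsCap b j K) {q : ℕ} {f : Fn ι} (hf : f ∈ FF (Star b j) q)
    (hX : X j f = 0) {e : ι → ℤ} (he : e j ≠ 0) : f e = 0 := by
  have hneg : ∀ e : ι → ℤ, e j < 0 → f e = 0 := by
    intro e he
    apply hf
    intro h
    rw [K2_mem_EE] at h
    have h1 := (K2_star hc h.2).1
    simp only [sgn, sign_neg he] at h1
    rcases h1 with h1 | h1 <;> exact absurd h1 (by decide)
  rcases lt_or_gt_of_ne he with h | h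
  · exact hneg e h
  · have h1 := congrFun hX (e - Pi.single j 1)
    rw [K2_X] at h1
    have h2 : (e - Pi.single j 1 : ι → ℤ) j = e j - 1 := by simp
    rw [h2] at h1
    rw [if_pos (by omega)] at h1
    have h3 : e - Pi.single j 1 + Pi.single j 1 = e := by abel
    rw [h3] at h1
    split_ifs at h1 with h4
    · rw [hneg (e - Pi.single j 1 - Pi.single j 1) (by simp; omega)] at h1
      simpa using h1
    · simpa using h1

/-- the relation at `e` -/
private theorem K2_rel (hc : IsCap b j K) {q : ℕ} {f : Fn ι} (hf : f ∈ FF (Star b j) q)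
    (hK : f ∈ Ker b) (hX : X j f = 0) (e : ι → ℤ) :
    ∃ c : ℝ, ∀ l, X l f e = c * (K.lam l * ((K.σ l : SignType) : ℝ)) := by
  apply hc.huniq (fun l => X l f e)
  · intro l hl
    by_cases hlj : l = j
    · subst hlj; rw [hX]; rfl
    · show X l f e = 0
      rw [K2_X]
      have h1 : 0 ≤ e l → f (e + Pi.single l 1) = 0 := by
        intro h
        have h2 : (e + Pi.single l 1 : ι → ℤ) l = e l + 1 := by simp
        refine K2_zero hc hf hlj (by rw [h2]; omega) ?_
        rw [h2, hl, sign_pos (by omega)]
        decide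
      have h2 : e l ≤ 0 → f (e - Pi.single l 1) = 0 := by
        intro h
        have h2 : (e - Pi.single l 1 : ι → ℤ) l = e l - 1 := by simp
        refine K2_zero hc hf hlj (by rw [h2]; omega) ?_
        rw [h2, hl, sign_neg (by omega)]
        decide
      split_ifs with h3 h4 h4
      · rw [h1 h3, h2 h4, sub_zero]
      · rw [h1 h3, sub_zero]
      · rw [h2 h4, sub_zero]
      · rw [sub_zero]
  · refine ext_inner_right ℝ fun y => ?_
    rw [sum_inner, inner_zero_left]
    have h := congrFun ((mem_Ker b f).1 hK y) e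
    rw [D_apply] at h
    rw [show (0 : Fn ι) e = 0 from rfl] at h
    rw [← h]
    refine Finset.sum_congr rfl fun l _ => ?_
    rw [real_inner_smul_left, mul_comm]

/-- `σ`-supported vectors -/
private def K2S (K : CapD ι) (e : ι → ℤ) : Prop := ∀ l, e l ≠ 0 → SignType.sign (e l) = K.σ l

/-- the shift at a `σ`-supported vector -/
private theorem K2_step (hc : IsCap b j K) {q : ℕ} {f : Fn ι} (hf : f ∈ FF (Star b j) q)
    {e : ι → ℤ} (he : K2S K e) {l : ι} (hl : K.σ l ≠ 0) :
    X l f e = ((K.σ l : SignType) : ℝ) * f (e + K2u (K.σ l) l) := by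
  have hlj : l ≠ j := by
    rintro rfl; exact hl hc.hj
  rw [K2_X]
  rcases lt_trichotomy (K.σ l) 0 with h | h | h
  · have hs : K.σ l = -1 := by
      revert h; cases K.σ l <;> decide
    have h0 : e l ≤ 0 := by
      by_contra hcon
      have h1 := he l (by omega)
      rw [sign_pos (by omega), hs] at h1
      exact absurd h1 (by decide)
    rw [if_pos h0]
    have h2 : e + K2u (K.σ l) l = e - Pi.single l 1 := by
      unfold K2u
      rw [hs]
      funext k
      by_cases hk : k = l
      · subst hk; simp; rfl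
      · simp [hk]
    rw [h2, hs]
    have h3 : (if 0 ≤ e l then f (e + Pi.single l 1) else 0) = 0 := by
      split_ifs with h4
      · have h5 : (e + Pi.single l 1 : ι → ℤ) l = e l + 1 := by simp
        refine K2_zero hc hf hlj (by rw [h5]; omega) ?_
        rw [h5, hs, sign_pos (by omega)]
        decide
      · rfl
    rw [h3]
    simp
  · exact absurd h hl
  · have hs : K.σ l = 1 := by
      revert h; cases K.σ l <;> decide
    have h0 : 0 ≤ e l := by
      by_contra hcon
      have h1 := he l (by omega)
      rw [sign_neg (by omega), hs] at h1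
      exact absurd h1 (by decide)
    rw [if_pos h0]
    have h2 : e + K2u (K.σ l) l = e + Pi.single l 1 := by
      unfold K2u
      rw [hs]
      funext k
      by_cases hk : k = l
      · subst hk; simp
      · simp [hk]
    rw [h2, hs]
    have h3 : (if e l ≤ 0 then f (e - Pi.single l 1) else 0) = 0 := by
      split_ifs with h4
      · have h5 : (e - Pi.single l 1 : ι → ℤ) l = e l - 1 := by simp
        refine K2_zero hc hf hlj (by rw [h5]; omega) ?_
        rw [h5, hs, sign_neg (by omega)]
        decide
      · rfl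
    rw [h3]
    simp

omit [Fintype ι] in
/-- the step preserves `σ`-supported vectors and raises the size by one -/
private theorem K2_add {e : ι → ℤ} (he : K2S K e) {l : ι} (hl : K.σ l ≠ 0) :
    K2S K (e + K2u (K.σ l) l) ∧ ((e + K2u (K.σ l) l) l).natAbs = (e l).natAbs + 1 ∧
      ∀ k, k ≠ l → (e + K2u (K.σ l) l) k = e k := by
  have hk : ∀ k, k ≠ l → (e + K2u (K.σ l) l) k = e k := by
    intro k hk; simp [K2u, hk]
  have hll : (e + K2u (K.σ l) l) l = e l + ((K.σ l : SignType) : ℤ) := by
    simp [K2u]
  have hmain : SignType.sign (e l + ((K.σ l : SignType) : ℤ)) = K.σ l ∧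
      (e l + ((K.σ l : SignType) : ℤ)).natAbs = (e l).natAbs + 1 := by
    rcases lt_trichotomy (K.σ l) 0 with h | h | h
    · have hs : K.σ l = -1 := by
        revert h; cases K.σ l <;> decide
      have h0 : e l ≤ 0 := by
        by_contra hcon
        have h1 := he l (by omega)
        rw [sign_pos (by omega), hs] at h1
        exact absurd h1 (by decide)
      rw [hs]
      have h6 : ((-1 : SignType) : ℤ) = -1 := by decide
      rw [h6]
      exact ⟨sign_neg (by omega), by omega⟩
    · exact absurd h hl
    · have hs : K.σ l = 1 := by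
        revert h; cases K.σ l <;> decide
      have h0 : 0 ≤ e l := by
        by_contra hcon
        have h1 := he l (by omega)
        rw [sign_neg (by omega), hs] at h1
        exact absurd h1 (by decide)
      rw [hs]
      have h6 : ((1 : SignType) : ℤ) = 1 := by decide
      rw [h6]
      exact ⟨sign_pos (by omega), by omega⟩
  refine ⟨?_, by rw [hll]; exact hmain.2, hk⟩
  intro k hk0
  by_cases hkl : k = l
  · subst hkl; rw [hll]; exact hmain.1
  · rw [hk k hkl] at hk0 ⊢
    exact he k hk0

private theorem K2_norm {e : ι → ℤ} (he : K2S K e) {l : ι} (hl : K.σ l ≠ 0) :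
    ∑ k, ((e + K2u (K.σ l) l) k).natAbs = ∑ k, (e k).natAbs + 1 := by
  obtain ⟨_, h1, h2⟩ := K2_add he hl
  rw [← Finset.add_sum_erase _ _ (Finset.mem_univ l),
    ← Finset.add_sum_erase (a := l) _ _ (Finset.mem_univ l), h1]
  have h3 : ∑ x ∈ Finset.univ.erase l, ((e + K2u (K.σ l) l) x).natAbs =
      ∑ x ∈ Finset.univ.erase l, (e x).natAbs :=
    Finset.sum_congr rfl fun x hx => by rw [h2 x (Finset.ne_of_mem_erase hx)]
  rw [h3]; ring

private theorem K2_prod {e : ι → ℤ} (he : K2S K e) {l : ι} (hl : K.σ l ≠ 0) :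
    ∏ k, K.lam k ^ ((e + K2u (K.σ l) l) k).natAbs = K.lam l * ∏ k, K.lam k ^ (e k).natAbs := by
  obtain ⟨_, h1, h2⟩ := K2_add he hl
  rw [← Finset.mul_prod_erase _ _ (Finset.mem_univ l),
    ← Finset.mul_prod_erase (a := l) _ _ (Finset.mem_univ l), h1]
  have h3 : ∏ x ∈ Finset.univ.erase l, K.lam x ^ ((e + K2u (K.σ l) l) x).natAbs =
      ∏ x ∈ Finset.univ.erase l, K.lam x ^ (e x).natAbs :=
    Finset.prod_congr rfl fun x hx => by rw [h2 x (Finset.ne_of_mem_erase hx)]
  rw [h3, pow_succ]; ring

omit [Fintype ι] in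
/-- every `σ`-supported vector with a nonzero entry at `l` comes from a step -/
private theorem K2_back {e : ι → ℤ} (he : K2S K e) {l : ι} (hl : e l ≠ 0) :
    K.σ l ≠ 0 ∧ ∃ e' : ι → ℤ, K2S K e' ∧ e = e' + K2u (K.σ l) l := by
  have hσ := he l hl
  have h0 : K.σ l ≠ 0 := by
    rw [← hσ]; simpa using hl
  refine ⟨h0, e - K2u (K.σ l) l, ?_, by abel⟩
  intro k hk
  by_cases hkl : k = l
  · subst hkl
    have h1 : (e - K2u (K.σ k) k) k = e k - ((K.σ k : SignType) : ℤ) := by simp [K2u]
    rw [h1] at hk ⊢
    rcases lt_or_gt_of_ne hl with h | h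
    · have hs : K.σ k = -1 := by rw [← hσ]; exact sign_neg h
      rw [hs] at hk ⊢
      have h6 : ((-1 : SignType) : ℤ) = -1 := by decide
      rw [h6] at hk ⊢
      exact sign_neg (by omega)
    · have hs : K.σ k = 1 := by rw [← hσ]; exact sign_pos h
      rw [hs] at hk ⊢
      have h6 : ((1 : SignType) : ℤ) = 1 := by decide
      rw [h6] at hk ⊢
      exact sign_pos (by omega)
  · have h1 : (e - K2u (K.σ l) l) k = e k := by simp [K2u, hkl]
    rw [h1] at hk ⊢
    exact he k hk

/-- the functions in question are multiples of the power function -/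
theorem ker_X_eq (hc : IsCap b j K) {q : ℕ} {f : Fn ι} (hf : f ∈ FF (Star b j) q)
    (hK : f ∈ Ker b) (hX : X j f = 0) : ∃ C : ℝ, f = C • pw K.σ K.lam q := by
  obtain ⟨l0, hl0⟩ : ∃ l, l ∈ K.I := by
    apply Finset.card_pos.1; rw [hc.hIa]; omega
  have hσ0 : K.σ l0 ≠ 0 := by
    have := hc.hI hl0
    simpa [supp] using this
  have hlam0 : K.lam l0 ≠ 0 := (hc.hlam l0).2 hσ0
  -- two steps from the same vector
  have hex : ∀ e : ι → ℤ, K2S K e → ∃ c : ℝ, ∀ l, K.σ l ≠ 0 →
      f (e + K2u (K.σ l) l) = c * K.lam l := by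
    intro e he
    obtain ⟨c, h⟩ := K2_rel hc hf hK hX e
    refine ⟨c, fun l hl => ?_⟩
    have h1 := h l
    rw [K2_step hc hf he hl] at h1
    have h2 : ((K.σ l : SignType) : ℝ) ≠ 0 := by
      revert hl; cases K.σ l <;> simp
    have h3 : ((K.σ l : SignType) : ℝ) * f (e + K2u (K.σ l) l) =
        ((K.σ l : SignType) : ℝ) * (c * K.lam l) := by rw [h1]; ring
    exact mul_left_cancel₀ h2 h3
  -- base vector
  let e0 : ι → ℤ := Pi.single l0 ((q : ℤ) * ((K.σ l0 : SignType) : ℤ))
  let C : ℝ := f e0 / K.lam l0 ^ q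
  have hkey : ∀ n : ℕ, ∀ e : ι → ℤ, K2S K e → ∑ l, (e l).natAbs = q →
      ∑ l ∈ Finset.univ.erase l0, (e l).natAbs = n →
      f e = C * ∏ l, K.lam l ^ (e l).natAbs := by
    intro n
    induction n with
    | zero =>
      intro e he hq hn
      have h1 : ∀ l, l ≠ l0 → e l = 0 := by
        intro l hl
        have := Finset.sum_eq_zero_iff.1 hn l (by simp [hl])
        simpa using this
      have h2 : (e l0).natAbs = q := by
        rw [← hq, ← Finset.add_sum_erase _ _ (Finset.mem_univ l0), hn]
        rfl
      have h3 : e = e0 := by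
        funext l
        by_cases hl : l = l0
        · subst hl
          simp only [e0, Pi.single_eq_same]
          by_cases h4 : e l = 0
          · rw [h4] at h2 ⊢
            simp at h2
            rw [← h2]; simp
          · have h5 := he l h4
            rcases lt_or_gt_of_ne h4 with h | h
            · rw [← h5, sign_neg h]
              have h6 : ((-1 : SignType) : ℤ) = -1 := by decide
              rw [h6]; omega
            · rw [← h5, sign_pos h]
              have h6 : ((1 : SignType) : ℤ) = 1 := by decide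
              rw [h6]; omega
        · rw [h1 l hl]; simp [e0, hl]
      have h4 : ∏ l, K.lam l ^ (e l).natAbs = K.lam l0 ^ q := by
        rw [← h2]
        refine Finset.prod_eq_single l0 (fun l _ hl => ?_) (fun h => absurd (Finset.mem_univ _) h)
        rw [h1 l hl]; simp
      rw [h4, h3]
      simp only [C]
      rw [div_mul_cancel₀]
      exact pow_ne_zero _ hlam0
    | succ n ih =>
      intro e he hq hn
      obtain ⟨l, hl, hel⟩ : ∃ l ∈ Finset.univ.erase l0, (e l).natAbs ≠ 0 := by
        by_contra hcon
        push Not at hcon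
        rw [Finset.sum_eq_zero hcon] at hn
        omega
      have hl' : l ≠ l0 := Finset.ne_of_mem_erase hl
      have hel' : e l ≠ 0 := by
        intro h; rw [h] at hel; exact hel rfl
      obtain ⟨hσl, e', he', hee⟩ := K2_back he hel'
      obtain ⟨c, hc'⟩ := hex e' he'
      have h1 := hc' l hσl
      have h2 := hc' l0 hσ0
      rw [← hee] at h1
      have h3 : ∑ k, ((e' + K2u (K.σ l0) l0) k).natAbs = q := by
        rw [K2_norm he' hσ0, ← K2_norm he' hσl, ← hee, hq]
      have h4 : ∑ k ∈ Finset.univ.erase l0, ((e' + K2u (K.σ l0) l0) k).natAbs = n := by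
        have h5 : ∑ k ∈ Finset.univ.erase l0, ((e' + K2u (K.σ l0) l0) k).natAbs =
            ∑ k ∈ Finset.univ.erase l0, (e' k).natAbs :=
          Finset.sum_congr rfl fun x hx => by
            rw [(K2_add he' hσ0).2.2 x (Finset.ne_of_mem_erase hx)]
        rw [h5]
        have h6 : ∑ k ∈ Finset.univ.erase l0, (e k).natAbs =
            ∑ k ∈ Finset.univ.erase l0, (e' k).natAbs + 1 := by
          rw [hee, ← Finset.add_sum_erase _ _ hl, ← Finset.add_sum_erase (a := l) _ _ hl,
            (K2_add he' hσl).2.1]
          have h7 : ∑ x ∈ (Finset.univ.erase l0).erase l, ((e' + K2u (K.σ l) l) x).natAbs =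
              ∑ x ∈ (Finset.univ.erase l0).erase l, (e' x).natAbs :=
            Finset.sum_congr rfl fun x hx => by
              rw [(K2_add he' hσl).2.2 x (Finset.ne_of_mem_erase hx)]
          rw [h7]; ring
        omega
      have h5 := ih _ (K2_add he' hσ0).1 h3 h4
      rw [h2, K2_prod he' hσ0] at h5
      have h6 : c = C * ∏ k, K.lam k ^ (e' k).natAbs := by
        have h7 : K.lam l0 * c = K.lam l0 * (C * ∏ k, K.lam k ^ (e' k).natAbs) := by
          rw [mul_comm, h5]; ring
        exact mul_left_cancel₀ hlam0 h7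
      rw [h1, h6]
      conv_rhs => rw [hee]
      rw [K2_prod he' hσl]; ring
  refine ⟨C, ?_⟩
  funext e
  show f e = C * pw K.σ K.lam q e
  unfold pw
  split_ifs with h
  · exact hkey _ e h.2 h.1 rfl
  · rw [mul_zero]
    by_cases hq : ∑ l, (e l).natAbs = q
    · have h1 : ¬ ∀ l, e l ≠ 0 → SignType.sign (e l) = K.σ l := fun h2 => h ⟨hq, h2⟩
      push Not at h1
      obtain ⟨l, hl, hs⟩ := h1
      by_cases hlj : l = j
      · subst hlj; exact K2_zero_j hc hf hX hl
      · exact K2_zero hc hf hlj hl hs
    · apply hf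
      intro h1
      rw [K2_mem_EE] at h1
      exact hq h1.1

/-- K2 -/
theorem ker_X_le (hc : IsCap b j K) (q : ℕ) :
    Module.finrank ℝ ↥(FF (Star b j) q ⊓ Ker b ⊓ LinearMap.ker (X j)) ≤
      if q ≤ K.a then 1 else 0 := by
  have hle : FF (Star b j) q ⊓ Ker b ⊓ LinearMap.ker (X j) ≤
      Submodule.span ℝ {pw K.σ K.lam q} := by
    intro f hf
    obtain ⟨⟨h1, h2⟩, h3⟩ := hf
    obtain ⟨C, hC⟩ := ker_X_eq hc h1 h2 (LinearMap.mem_ker.1 h3)
    exact Submodule.mem_span_singleton.2 ⟨C, hC.symm⟩
  split_ifs with h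
  · refine (Submodule.finrank_mono hle).trans ?_
    refine (finrank_span_le_card ({pw K.σ K.lam q} : Set (Fn ι))).trans ?_
    simp
  · have h0 : FF (Star b j) q ⊓ Ker b ⊓ LinearMap.ker (X j) = ⊥ := by
      rw [eq_bot_iff]
      intro f hf
      obtain ⟨⟨h1, h2⟩, h3⟩ := hf
      obtain ⟨C, hC⟩ := ker_X_eq hc h1 h2 (LinearMap.mem_ker.1 h3)
      obtain ⟨l0, hl0⟩ : ∃ l, l ∈ K.I := by
        apply Finset.card_pos.1; rw [hc.hIa]; omega
      have hσ : ∀ l ∈ K.I, K.σ l ≠ 0 := by
        intro l hl
        simpa [supp] using hc.hI hl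
      -- a vector with support I
      let m : ι → ℕ := fun l => if l ∈ K.I then (if l = l0 then q - K.a else 1) else 0
      let e : ι → ℤ := fun l => (m l : ℤ) * ((K.σ l : SignType) : ℤ)
      have hm : ∀ l ∈ K.I, m l ≠ 0 := by
        intro l hl
        simp only [m, if_pos hl]
        split_ifs
        · omega
        · omega
      have hm0 : ∀ l, l ∉ K.I → m l = 0 := by
        intro l hl; simp only [m, if_neg hl]
      have hee : ∀ l, (e l).natAbs = m l := by
        intro l
        by_cases hl : l ∈ K.I
        · have h4 := hσ l hl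
          simp only [e]
          rw [Int.natAbs_mul]
          have h5 : (((K.σ l : SignType) : ℤ)).natAbs = 1 := by
            revert h4; cases K.σ l <;> decide
          rw [h5]; simp
        · simp only [e, hm0 l hl]; simp
      have hsum : ∑ l, (e l).natAbs = q := by
        simp only [hee]
        have h4 : ∑ l, m l = ∑ l ∈ K.I, (if l = l0 then q - K.a else 1) := by
          simp only [m]
          rw [← Finset.sum_filter]
          congr 1
          ext l; simp
        rw [h4, ← Finset.add_sum_erase _ _ hl0, if_pos rfl]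
        have h5 : ∑ l ∈ K.I.erase l0, (if l = l0 then q - K.a else 1) = K.a := by
          rw [Finset.sum_congr rfl (g := fun _ => 1)]
          · rw [Finset.sum_const, Finset.card_erase_of_mem hl0, hc.hIa]; simp
          · intro l hl
            rw [if_neg (Finset.ne_of_mem_erase hl)]
        rw [h5]; omega
      have hsgn : ∀ l, e l ≠ 0 → SignType.sign (e l) = K.σ l := by
        intro l hl
        have h4 : l ∈ K.I := by
          by_contra hcon
          apply hl
          simp only [e, hm0 l hcon]; simp
        have h5 := hσ l h4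
        have h6 := hm l h4
        simp only [e]
        rw [sign_mul, sign_pos (by omega), one_mul]
        revert h5; cases K.σ l <;> decide
      have hfe : f e = 0 := by
        apply h1
        intro h4
        rw [K2_mem_EE] at h4
        apply (K2_star hc h4.2).2.2
        intro l hl
        have h5 := hee l
        have h6 := hm l hl
        refine Finset.mem_filter.2 ⟨Finset.mem_univ _, ?_⟩
        show SignType.sign (e l) ≠ 0
        intro h7
        rw [sign_eq_zero_iff] at h7
        rw [h7] at h5
        exact h6 h5.symm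
      have hpe : pw K.σ K.lam q e = ∏ l, K.lam l ^ (e l).natAbs := by
        unfold pw
        rw [if_pos ⟨hsum, hsgn⟩]
      have hne : ∏ l, K.lam l ^ (e l).natAbs ≠ 0 := by
        rw [Finset.prod_ne_zero_iff]
        intro l _
        by_cases hl : l ∈ K.I
        · exact pow_ne_zero _ ((hc.hlam l).2 (hσ l hl))
        · rw [hee, hm0 l hl]; simp
      have hC0 : C = 0 := by
        have h4 : f e = C * pw K.σ K.lam q e := by rw [hC]; rfl
        rw [hfe, hpe] at h4
        rcases mul_eq_zero.1 h4.symm with h5 | h5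
        · exact h5
        · exact absurd h5 hne
      rw [hC, hC0, zero_smul]
      exact Submodule.zero_mem _
    rw [h0, finrank_bot]

end

end KLE
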