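import Pool.Agent.KLE.Defs

/-!
# M1: compression of a set of monomials to the variable `0`
-/

set_option autoImplicit false
set_option linter.unusedSectionVars false

open scoped BigOperators

namespace KLE

noncomputable section

open Classical

namespace M1

variable {N : ℕ}

lemma deg_update {K : ℕ} (m : Fin K → ℕ) (j : Fin K) (v : ℕ) :
    deg (Function.update m j v) + m j = deg m + v := by
  unfold deg
  rw [Finset.sum_update_of_mem (Finset.mem_univ j), ← Finset.add_sum_erase _ m (Finset.mem_univ j),
    Finset.sdiff_singleton_eq_erase]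
  ring

def key (i : Fin N) (m : Fin (N + 1) → ℕ) : Fin (N + 1) → ℕ :=
  Function.update (Function.update m i.succ 0) 0 (m 0 + m i.succ)

def el (i : Fin N) (k : Fin (N + 1) → ℕ) (e : ℕ) : Fin (N + 1) → ℕ :=
  Function.update (Function.update k i.succ e) 0 (k 0 - e)

lemma s0 (i : Fin N) : i.succ ≠ 0 := Fin.succ_ne_zero i

lemma key_zero (i : Fin N) (m : Fin (N + 1) → ℕ) : key i m 0 = m 0 + m i.succ := by
  unfold key; rw [Function.update_self]

lemma key_succ (i : Fin N) (m : Fin (N + 1) → ℕ) : key i m i.succ = 0 := by
  unfold key; rw [Function.update_of_ne (s0 i), Function.update_self]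

lemma key_other (i : Fin N) (m : Fin (N + 1) → ℕ) {l : Fin (N + 1)} (h0 : l ≠ 0)
    (h1 : l ≠ i.succ) : key i m l = m l := by
  unfold key; rw [Function.update_of_ne h0, Function.update_of_ne h1]

lemma el_zero (i : Fin N) (k : Fin (N + 1) → ℕ) (e : ℕ) : el i k e 0 = k 0 - e := by
  unfold el; rw [Function.update_self]

lemma el_succ (i : Fin N) (k : Fin (N + 1) → ℕ) (e : ℕ) : el i k e i.succ = e := by
  unfold el; rw [Function.update_of_ne (s0 i), Function.update_self]

lemma el_other (i : Fin N) (k : Fin (N + 1) → ℕ) (e : ℕ) {l : Fin (N + 1)} (h0 : l ≠ 0)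
    (h1 : l ≠ i.succ) : el i k e l = k l := by
  unfold el; rw [Function.update_of_ne h0, Function.update_of_ne h1]

lemma el_key (i : Fin N) (m : Fin (N + 1) → ℕ) : el i (key i m) (m i.succ) = m := by
  ext l
  by_cases h0 : l = 0
  · subst h0; rw [el_zero, key_zero]; omega
  · by_cases h1 : l = i.succ
    · subst h1; rw [el_succ]
    · rw [el_other _ _ _ h0 h1, key_other _ _ h0 h1]

lemma key_el (i : Fin N) (k : Fin (N + 1) → ℕ) (hk : k i.succ = 0) {e : ℕ} (he : e ≤ k 0) :
    key i (el i k e) = k := by
  ext l
  by_cases h0 : l = 0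
  · subst h0; rw [key_zero, el_zero, el_succ]; omega
  · by_cases h1 : l = i.succ
    · subst h1; rw [key_succ, hk]
    · rw [key_other _ _ h0 h1, el_other _ _ _ h0 h1]

lemma deg_key (i : Fin N) (m : Fin (N + 1) → ℕ) : deg (key i m) = deg m := by
  unfold key
  have h1 := deg_update (Function.update m i.succ 0) 0 (m 0 + m i.succ)
  have h2 := deg_update m i.succ 0
  rw [Function.update_of_ne (s0 i).symm] at h1
  omega

lemma deg_el (i : Fin N) (k : Fin (N + 1) → ℕ) (hk : k i.succ = 0) {e : ℕ} (he : e ≤ k 0) :
    deg (el i k e) = deg k := by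
  unfold el
  have h1 := deg_update (Function.update k i.succ e) 0 (k 0 - e)
  have h2 := deg_update k i.succ e
  rw [Function.update_of_ne (s0 i).symm] at h1
  omega

/-- the fibre of the key `k` -/
def fb (i : Fin N) (B : Finset (Fin (N + 1) → ℕ)) (k : Fin (N + 1) → ℕ) :
    Finset (Fin (N + 1) → ℕ) := B.filter (fun m => key i m = k)

lemma fb_injOn (i : Fin N) (B : Finset (Fin (N + 1) → ℕ)) (k : Fin (N + 1) → ℕ) :
    Set.InjOn (fun m : Fin (N + 1) → ℕ => m i.succ) (fb i B k : Set (Fin (N + 1) → ℕ)) := by
  intro m hm m' hm' h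
  have h1 : key i m = k := (Finset.mem_filter.mp hm).2
  have h2 : key i m' = k := (Finset.mem_filter.mp hm').2
  rw [← el_key i m, ← el_key i m', h1, h2]
  simp only at h
  rw [h]

/-- the exponents of `i.succ` in the fibre -/
def S (i : Fin N) (B : Finset (Fin (N + 1) → ℕ)) (k : Fin (N + 1) → ℕ) : Finset ℕ :=
  (fb i B k).image (fun m => m i.succ)

lemma card_S (i : Fin N) (B : Finset (Fin (N + 1) → ℕ)) (k : Fin (N + 1) → ℕ) :
    (S i B k).card = (fb i B k).card := Finset.card_image_of_injOn (fb_injOn i B k)

lemma S_le (i : Fin N) (B : Finset (Fin (N + 1) → ℕ)) (k : Fin (N + 1) → ℕ) {e : ℕ}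
    (he : e ∈ S i B k) : e ≤ k 0 := by
  obtain ⟨m, hm, rfl⟩ := Finset.mem_image.mp he
  have h1 : key i m = k := (Finset.mem_filter.mp hm).2
  rw [← h1, key_zero]
  omega

lemma mem_S (i : Fin N) (B : Finset (Fin (N + 1) → ℕ)) (k : Fin (N + 1) → ℕ)
    (hk : k i.succ = 0) {e : ℕ} : e ∈ S i B k ↔ e ≤ k 0 ∧ el i k e ∈ B := by
  constructor
  · intro he
    refine ⟨S_le i B k he, ?_⟩
    obtain ⟨m, hm, rfl⟩ := Finset.mem_image.mp he
    have h1 := Finset.mem_filter.mp hm
    rw [← h1.2, el_key]
    exact h1.1
  · rintro ⟨h1, h2⟩
    refine Finset.mem_image.mpr ⟨el i k e, Finset.mem_filter.mpr ⟨h2, key_el i k hk h1⟩, ?_⟩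
    exact el_succ i k e

lemma card_fb_le (i : Fin N) (B : Finset (Fin (N + 1) → ℕ)) (k : Fin (N + 1) → ℕ) :
    (fb i B k).card ≤ k 0 + 1 := by
  rw [← card_S, ← Finset.card_range (k 0 + 1)]
  refine Finset.card_le_card fun e he => ?_
  rw [Finset.mem_range]
  have := S_le i B k he
  omega

lemma nat_core (L : ℕ) (S T : Finset ℕ) (hS : ∀ e ∈ S, e ≤ L) (h1 : ∀ e ∈ S, e < L → e ∈ T)
    (h2 : ∀ e ∈ S, 0 < e → e - 1 ∈ T) : min S.card L ≤ T.card := by
  by_cases hL : L ∈ S
  · have hsub : S.erase L ⊆ T := by
      intro e he
      rw [Finset.mem_erase] at he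
      exact h1 e he.2 (lt_of_le_of_ne (hS e he.2) he.1)
    have hc := Finset.card_le_card hsub
    rw [Finset.card_erase_of_mem hL] at hc
    by_contra hcon
    push Not at hcon
    have hlt : T.card < S.card := lt_of_lt_of_le hcon (min_le_left _ _)
    have hlt2 : T.card < L := lt_of_lt_of_le hcon (min_le_right _ _)
    have hT : S.erase L = T := Finset.eq_of_subset_of_card_le hsub (by
      rw [Finset.card_erase_of_mem hL]; omega)
    have hall : ∀ j, j ≤ L → L - j ∈ S := by
      intro j
      induction j with
      | zero => intro _; simpa using hL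
      | succ j ih =>
        intro hj
        have h3 := ih (by omega)
        have h4 := h2 _ h3 (by omega)
        rw [← hT] at h4
        have h5 := Finset.mem_of_mem_erase h4
        have h6 : L - j - 1 = L - (j + 1) := by omega
        rwa [h6] at h5
    have hr : Finset.range (L + 1) ⊆ S := by
      intro e he
      rw [Finset.mem_range] at he
      have := hall (L - e) (by omega)
      have h6 : L - (L - e) = e := by omega
      rwa [h6] at this
    have hc2 := Finset.card_le_card hr
    rw [Finset.card_range] at hc2
    omega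
  · have hsub : S ⊆ T := by
      intro e he
      exact h1 e he (lt_of_le_of_ne (hS e he) (by rintro rfl; exact hL he))
    exact (min_le_left _ _).trans (Finset.card_le_card hsub)

lemma nat_sum_le (S : Finset ℕ) : ∑ e ∈ Finset.range S.card, e ≤ ∑ e ∈ S, e := by
  have h1 : ∑ e ∈ Finset.range S.card \ S, e ≤ ∑ e ∈ S \ Finset.range S.card, e := by
    have hc : (Finset.range S.card \ S).card = (S \ Finset.range S.card).card :=
      Finset.card_sdiff_comm (Finset.card_range _)
    calc ∑ e ∈ Finset.range S.card \ S, e ≤ (Finset.range S.card \ S).card • S.card := by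
          refine Finset.sum_le_card_nsmul _ _ _ fun e he => ?_
          have := Finset.mem_range.mp (Finset.mem_sdiff.mp he).1
          omega
      _ = (S \ Finset.range S.card).card • S.card := by rw [hc]
      _ ≤ ∑ e ∈ S \ Finset.range S.card, e := by
          refine Finset.card_nsmul_le_sum _ _ _ fun e he => ?_
          have := (Finset.mem_sdiff.mp he).2
          rw [Finset.mem_range] at this
          omega
  rw [← Finset.sum_inter_add_sum_sdiff (Finset.range S.card) S (fun e => e),
    ← Finset.sum_inter_add_sum_sdiff S (Finset.range S.card) (fun e => e), Finset.inter_comm]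
  exact Nat.add_le_add_left h1 _

lemma nat_sum_lt (S : Finset ℕ) {e0 : ℕ} (h0 : e0 ∈ S) (h1 : 0 < e0) (h2 : e0 - 1 ∉ S) :
    ∑ e ∈ Finset.range S.card, e < ∑ e ∈ S, e := by
  have hne : (Finset.range S.card \ S).Nonempty := by
    by_contra hcon
    rw [Finset.not_nonempty_iff_eq_empty, Finset.sdiff_eq_empty_iff_subset] at hcon
    have h3 : Finset.range S.card = S :=
      Finset.eq_of_subset_of_card_le hcon (by rw [Finset.card_range])
    rw [← h3, Finset.mem_range] at h0 h2
    omega
  have h1 : ∑ e ∈ Finset.range S.card \ S, e < ∑ e ∈ S \ Finset.range S.card, e := by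
    have hc : (Finset.range S.card \ S).card = (S \ Finset.range S.card).card :=
      Finset.card_sdiff_comm (Finset.card_range _)
    calc ∑ e ∈ Finset.range S.card \ S, e < ∑ _e ∈ Finset.range S.card \ S, S.card := by
          refine Finset.sum_lt_sum_of_nonempty hne fun e he => ?_
          have := Finset.mem_range.mp (Finset.mem_sdiff.mp he).1
          omega
      _ = (S \ Finset.range S.card).card • S.card := by rw [Finset.sum_const, hc]
      _ ≤ ∑ e ∈ S \ Finset.range S.card, e := by
          refine Finset.card_nsmul_le_sum _ _ _ fun e he => ?_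
          have := (Finset.mem_sdiff.mp he).2
          rw [Finset.mem_range] at this
          omega
  rw [← Finset.sum_inter_add_sum_sdiff (Finset.range S.card) S (fun e => e),
    ← Finset.sum_inter_add_sum_sdiff S (Finset.range S.card) (fun e => e), Finset.inter_comm]
  exact Nat.add_lt_add_left h1 _

lemma mem_shadow {K : ℕ} {B : Finset (Fin K → ℕ)} {m : Fin K → ℕ} :
    m ∈ shadow B ↔ ∃ b ∈ B, ∃ l, 0 < b l ∧ Function.update b l (b l - 1) = m := by
  unfold shadow
  simp only [Finset.mem_biUnion, Finset.mem_image, Finset.mem_filter, Finset.mem_univ, true_and]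

/-- the compressed set -/
def cB (i : Fin N) (B : Finset (Fin (N + 1) → ℕ)) : Finset (Fin (N + 1) → ℕ) :=
  (B.image (key i)).biUnion (fun k => (Finset.range (fb i B k).card).image (el i k))

lemma mem_cB (i : Fin N) (B : Finset (Fin (N + 1) → ℕ)) (m : Fin (N + 1) → ℕ) :
    m ∈ cB i B ↔ m i.succ < (fb i B (key i m)).card := by
  unfold cB
  rw [Finset.mem_biUnion]
  constructor
  · rintro ⟨k, hk, hm⟩
    obtain ⟨b, hb, rfl⟩ := Finset.mem_image.mp hk
    obtain ⟨e, he, rfl⟩ := Finset.mem_image.mp hm
    rw [Finset.mem_range] at he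
    have h1 := card_fb_le i B (key i b)
    rw [key_el i _ (key_succ i b) (by omega), el_succ]
    exact he
  · intro h
    have hne : (fb i B (key i m)).Nonempty := Finset.card_pos.mp (by omega)
    obtain ⟨b, hb⟩ := hne
    have hb' := Finset.mem_filter.mp hb
    refine ⟨key i m, Finset.mem_image.mpr ⟨b, hb'.1, hb'.2⟩, ?_⟩
    exact Finset.mem_image.mpr ⟨m i.succ, Finset.mem_range.mpr h, el_key i m⟩

lemma fb_cB (i : Fin N) (B : Finset (Fin (N + 1) → ℕ)) (k : Fin (N + 1) → ℕ)
    (hk : k i.succ = 0) :
    fb i (cB i B) k = (Finset.range (fb i B k).card).image (el i k) := by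
  ext m
  unfold fb
  rw [Finset.mem_filter, mem_cB]
  constructor
  · rintro ⟨h1, h2⟩
    rw [h2] at h1
    exact Finset.mem_image.mpr ⟨m i.succ, Finset.mem_range.mpr h1, by rw [← h2, el_key]⟩
  · intro h
    obtain ⟨e, he, rfl⟩ := Finset.mem_image.mp h
    rw [Finset.mem_range] at he
    have h1 := card_fb_le i B k
    have h2 : key i (el i k e) = k := key_el i k hk (by unfold fb at h1; omega)
    rw [h2, el_succ]
    exact ⟨he, rfl⟩

lemma el_inj (i : Fin N) (k : Fin (N + 1) → ℕ) : Function.Injective (el i k) := by
  intro e e' h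
  have := congrFun h i.succ
  rwa [el_succ, el_succ] at this

lemma card_fb_cB (i : Fin N) (B : Finset (Fin (N + 1) → ℕ)) (k : Fin (N + 1) → ℕ)
    (hk : k i.succ = 0) : (fb i (cB i B) k).card = (fb i B k).card := by
  rw [fb_cB i B k hk, Finset.card_image_of_injective _ (el_inj i k), Finset.card_range]

lemma image_key_cB (i : Fin N) (B : Finset (Fin (N + 1) → ℕ)) :
    (cB i B).image (key i) ⊆ B.image (key i) := by
  intro k hk
  obtain ⟨m, hm, rfl⟩ := Finset.mem_image.mp hk
  rw [mem_cB] at hm
  have hne : (fb i B (key i m)).Nonempty := Finset.card_pos.mp (by omega)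
  obtain ⟨b, hb⟩ := hne
  have hb' := Finset.mem_filter.mp hb
  exact Finset.mem_image.mpr ⟨b, hb'.1, hb'.2⟩

lemma card_cB (i : Fin N) (B : Finset (Fin (N + 1) → ℕ)) : (cB i B).card = B.card := by
  rw [Finset.card_eq_sum_card_fiberwise (f := key i) (t := B.image (key i))
      (fun m hm => image_key_cB i B (Finset.mem_image_of_mem _ hm)),
    Finset.card_eq_sum_card_fiberwise (f := key i) (s := B) (t := B.image (key i))
      (fun m hm => Finset.mem_image_of_mem _ hm)]
  refine Finset.sum_congr rfl fun k hk => ?_
  obtain ⟨b, _, rfl⟩ := Finset.mem_image.mp hk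
  exact card_fb_cB i B _ (key_succ i b)

/-- sums over the fibres -/
lemma sum_split (i : Fin N) (B B' : Finset (Fin (N + 1) → ℕ)) (hB : B'.image (key i) ⊆ B.image (key i))
    (f : (Fin (N + 1) → ℕ) → ℕ) :
    ∑ m ∈ B', f m = ∑ k ∈ B.image (key i), ∑ m ∈ fb i B' k, f m := by
  unfold fb
  exact (Finset.sum_fiberwise_of_maps_to
    (fun m hm => hB (Finset.mem_image_of_mem _ hm)) f).symm

lemma sum_succ_fb (i : Fin N) (B : Finset (Fin (N + 1) → ℕ)) (k : Fin (N + 1) → ℕ) :
    ∑ m ∈ fb i B k, m i.succ = ∑ e ∈ S i B k, e := by
  unfold S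
  rw [Finset.sum_image (fb_injOn i B k)]

lemma sum_succ_fb_cB (i : Fin N) (B : Finset (Fin (N + 1) → ℕ)) (k : Fin (N + 1) → ℕ)
    (hk : k i.succ = 0) :
    ∑ m ∈ fb i (cB i B) k, m i.succ = ∑ e ∈ Finset.range (fb i B k).card, e := by
  rw [fb_cB i B k hk, Finset.sum_image (el_inj i k).injOn]
  exact Finset.sum_congr rfl fun e _ => el_succ i k e

lemma sum_zero_fb (i : Fin N) (B : Finset (Fin (N + 1) → ℕ)) (k : Fin (N + 1) → ℕ) :
    ∑ m ∈ fb i B k, m 0 + ∑ m ∈ fb i B k, m i.succ = (fb i B k).card * k 0 := by
  rw [← Finset.sum_add_distrib]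
  rw [Finset.sum_congr rfl (g := fun _ => k 0) ?_, Finset.sum_const, smul_eq_mul]
  intro m hm
  have h1 : key i m = k := (Finset.mem_filter.mp hm).2
  rw [← h1, key_zero]

end M1

open M1 in
/-- M1 -/
theorem compress {N : ℕ} (t : ℕ) (i : Fin N) (B : Finset (Fin (N + 1) → ℕ))
    (hB : ∀ m ∈ B, deg m = t)
    (h : ∃ m ∈ B, 0 < m i.succ ∧
      Function.update (Function.update m i.succ (m i.succ - 1)) 0 (m 0 + 1) ∉ B) :
    ∃ B' : Finset (Fin (N + 1) → ℕ), (∀ m ∈ B', deg m = t) ∧ B'.card = B.card ∧
      (shadow B').card ≤ (shadow B).card ∧ ∑ m ∈ B, m 0 < ∑ m ∈ B', m 0 := by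
  refine ⟨cB i B, ?_, card_cB i B, ?_, ?_⟩
  · intro m hm
    rw [mem_cB] at hm
    have hne : (fb i B (key i m)).Nonempty := Finset.card_pos.mp (by omega)
    obtain ⟨b, hb⟩ := hne
    have hb' := Finset.mem_filter.mp hb
    rw [← deg_key i m, ← hb'.2, deg_key, hB b hb'.1]
  · -- the shadow
    -- main estimate on a fibre
    have key1 : ∀ m' ∈ shadow (cB i B),
        m' i.succ < (fb i (shadow B) (key i m')).card := by
      intro m' hm'
      obtain ⟨m, hm, l, hl, rfl⟩ := mem_shadow.mp hm'
      rw [mem_cB] at hm
      -- the case of the variables `0` and `i.succ`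
      have hcore : ∀ k' : Fin (N + 1) → ℕ, k' i.succ = 0 → k' 0 + 1 = m 0 + m i.succ →
          (∀ l', l' ≠ 0 → l' ≠ i.succ → k' l' = m l') →
          min (fb i B (key i m)).card (m 0 + m i.succ) ≤ (fb i (shadow B) k').card := by
        intro k' hk1 hk2 hk3
        rw [← card_S, ← card_S, ← key_zero i m]
        refine nat_core _ _ _ (fun e he => S_le i B _ he) ?_ ?_
        · intro e he hlt
          rw [mem_S i B _ (key_succ i m)] at he
          rw [mem_S i _ _ hk1]
          rw [key_zero] at hlt he
          refine ⟨by omega, mem_shadow.mpr ⟨_, he.2, 0, ?_, ?_⟩⟩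
          · rw [el_zero, key_zero]; omega
          · ext l'
            by_cases h0 : l' = 0
            · subst h0; rw [Function.update_self, el_zero, el_zero, key_zero]; omega
            · rw [Function.update_of_ne h0]
              by_cases h1 : l' = i.succ
              · subst h1; rw [el_succ, el_succ]
              · rw [el_other _ _ _ h0 h1, el_other _ _ _ h0 h1, key_other _ _ h0 h1, hk3 _ h0 h1]
        · intro e he hpos
          rw [mem_S i B _ (key_succ i m)] at he
          rw [mem_S i _ _ hk1]
          rw [key_zero] at he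
          refine ⟨by omega, mem_shadow.mpr ⟨_, he.2, i.succ, ?_, ?_⟩⟩
          · rw [el_succ]; exact hpos
          · ext l'
            by_cases h1 : l' = i.succ
            · subst h1; rw [Function.update_self, el_succ, el_succ]
            · rw [Function.update_of_ne h1]
              by_cases h0 : l' = 0
              · subst h0; rw [el_zero, el_zero, key_zero]; omega
              · rw [el_other _ _ _ h0 h1, el_other _ _ _ h0 h1, key_other _ _ h0 h1, hk3 _ h0 h1]
      by_cases h0 : l = 0
      · subst h0
        have h1 := hcore (key i (Function.update m 0 (m 0 - 1))) (key_succ _ _) (by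
          rw [key_zero, Function.update_self, Function.update_of_ne (s0 i)]; omega) (by
          intro l' h0' h1'
          rw [key_other _ _ h0' h1', Function.update_of_ne h0'])
        refine lt_of_lt_of_le ?_ h1
        rw [Function.update_of_ne (s0 i)]
        exact lt_min hm (by omega)
      · by_cases h1 : l = i.succ
        · subst h1
          have h1 := hcore (key i (Function.update m i.succ (m i.succ - 1))) (key_succ _ _) (by
            rw [key_zero, Function.update_self, Function.update_of_ne (s0 i).symm]; omega) (by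
            intro l' h0' h1'
            rw [key_other _ _ h0' h1', Function.update_of_ne h1'])
          refine lt_of_lt_of_le ?_ h1
          rw [Function.update_self]
          exact lt_min (by omega) (by omega)
        · -- another variable
          rw [Function.update_of_ne (Ne.symm h1)]
          refine lt_of_lt_of_le hm ?_
          refine Finset.card_le_card_of_injOn (fun b => Function.update b l (b l - 1)) ?_ ?_
          · intro b hb
            have hb' := Finset.mem_filter.mp hb
            have hbl : b l = m l := by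
              rw [← key_other i b h0 h1, hb'.2, key_other i m h0 h1]
            refine Finset.mem_coe.mpr (Finset.mem_filter.mpr
              ⟨mem_shadow.mpr ⟨b, hb'.1, l, by rw [hbl]; exact hl, rfl⟩, ?_⟩)
            show key i (Function.update b l (b l - 1)) = key i (Function.update m l (m l - 1))
            ext l'
            have hk := congrFun hb'.2 l'
            by_cases h0' : l' = 0
            · subst h0'
              rw [key_zero, key_zero] at hk
              rw [key_zero, key_zero, Function.update_of_ne (Ne.symm h0),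
                Function.update_of_ne (Ne.symm h1), Function.update_of_ne (Ne.symm h0),
                Function.update_of_ne (Ne.symm h1), hk]
            · by_cases h1' : l' = i.succ
              · subst h1'; rw [key_succ, key_succ]
              · rw [key_other _ _ h0' h1', key_other _ _ h0' h1'] at hk ⊢
                by_cases h2 : l' = l
                · subst h2; rw [Function.update_self, Function.update_self, hk]
                · rw [Function.update_of_ne h2, Function.update_of_ne h2, hk]
          · intro b hb b' hb' hbb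
            have hb1 := Finset.mem_filter.mp hb
            have hb2 := Finset.mem_filter.mp hb'
            have hbl : b l = b' l := by
              rw [← key_other i b h0 h1, hb1.2, ← hb2.2, key_other i b' h0 h1]
            ext l'
            by_cases h2 : l' = l
            · subst h2; exact hbl
            · have := congrFun hbb l'
              simp only [Function.update_of_ne h2] at this
              exact this
    -- count
    have hmaps : ∀ m ∈ shadow (cB i B), key i m ∈ (shadow B).image (key i) := by
      intro m hm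
      have h1 := key1 m hm
      have hne : (fb i (shadow B) (key i m)).Nonempty := Finset.card_pos.mp (by omega)
      obtain ⟨b, hb⟩ := hne
      have hb' := Finset.mem_filter.mp hb
      exact Finset.mem_image.mpr ⟨b, hb'.1, hb'.2⟩
    rw [Finset.card_eq_sum_card_fiberwise (f := key i) (t := (shadow B).image (key i)) hmaps,
      Finset.card_eq_sum_card_fiberwise (f := key i) (s := shadow B)
        (t := (shadow B).image (key i)) (fun m hm => Finset.mem_image_of_mem _ hm)]
    refine Finset.sum_le_sum fun k _ => ?_
    show (fb i (shadow (cB i B)) k).card ≤ (fb i (shadow B) k).card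
    rw [← card_S, ← Finset.card_range (fb i (shadow B) k).card]
    refine Finset.card_le_card fun e he => ?_
    obtain ⟨m, hm, rfl⟩ := Finset.mem_image.mp he
    have hm' := Finset.mem_filter.mp hm
    rw [Finset.mem_range]
    have := key1 m hm'.1
    rwa [hm'.2] at this
  · -- the sum
    have hsub := image_key_cB i B
    have e1 := sum_split i B (cB i B) hsub (fun m => m 0)
    have e2 := sum_split i B (cB i B) hsub (fun m => m i.succ)
    have e3 := sum_split i B B (Finset.Subset.refl _) (fun m => m 0)
    have e4 := sum_split i B B (Finset.Subset.refl _) (fun m => m i.succ)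
    have htot : ∑ m ∈ cB i B, m 0 + ∑ m ∈ cB i B, m i.succ
        = ∑ m ∈ B, m 0 + ∑ m ∈ B, m i.succ := by
      rw [e1, e2, e3, e4, ← Finset.sum_add_distrib, ← Finset.sum_add_distrib]
      refine Finset.sum_congr rfl fun k hk => ?_
      obtain ⟨b, _, rfl⟩ := Finset.mem_image.mp hk
      rw [sum_zero_fb, sum_zero_fb, card_fb_cB i B _ (key_succ i b)]
    have hlt : ∑ m ∈ cB i B, m i.succ < ∑ m ∈ B, m i.succ := by
      rw [e2, e4]
      obtain ⟨m, hm, hpos, hnot⟩ := h
      refine Finset.sum_lt_sum ?_ ⟨key i m, Finset.mem_image_of_mem _ hm, ?_⟩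
      · intro k hk
        obtain ⟨b, _, rfl⟩ := Finset.mem_image.mp hk
        rw [sum_succ_fb_cB i B _ (key_succ i b), sum_succ_fb, ← card_S]
        exact nat_sum_le _
      · rw [sum_succ_fb_cB i B _ (key_succ i m), sum_succ_fb, ← card_S]
        refine nat_sum_lt _ (e0 := m i.succ) ?_ hpos ?_
        · rw [mem_S i B _ (key_succ i m), el_key, key_zero]
          exact ⟨by omega, hm⟩
        · rw [mem_S i B _ (key_succ i m)]
          rintro ⟨_, h2⟩
          apply hnot
          have : el i (key i m) (m i.succ - 1)
              = Function.update (Function.update m i.succ (m i.succ - 1)) 0 (m 0 + 1) := by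
            ext l
            by_cases h0 : l = 0
            · subst h0; rw [el_zero, key_zero, Function.update_self]; omega
            · rw [Function.update_of_ne h0]
              by_cases h1 : l = i.succ
              · subst h1; rw [el_succ, Function.update_self]
              · rw [el_other _ _ _ h0 h1, key_other _ _ h0 h1, Function.update_of_ne h1]
          rw [this] at h2
          exact h2
    omega

end

end KLE
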