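import Pool.Agent.KLE.M1

set_option autoImplicit false

open scoped BigOperators

namespace KLE

noncomputable section

open Classical

private theorem m2_bound {N : ℕ} (t : ℕ) (B : Finset (Fin (N + 1) → ℕ))
    (hB : ∀ m ∈ B, deg m = t) : ∑ m ∈ B, m 0 ≤ t * B.card := by
  rw [mul_comm, ← smul_eq_mul]
  refine Finset.sum_le_card_nsmul _ _ _ (fun m hm => ?_)
  rw [← hB m hm]
  exact Finset.single_le_sum (f := fun i => m i) (fun i _ => Nat.zero_le _) (Finset.mem_univ 0)

/-- M2 (uses M1) -/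
theorem exists_stable {N : ℕ} (t : ℕ) (B : Finset (Fin (N + 1) → ℕ)) (hB : ∀ m ∈ B, deg m = t) :
    ∃ B' : Finset (Fin (N + 1) → ℕ), (∀ m ∈ B', deg m = t) ∧ Stable B' ∧ B'.card = B.card ∧
      (shadow B').card ≤ (shadow B).card := by
  suffices h : ∀ k : ℕ, ∀ B : Finset (Fin (N + 1) → ℕ), (∀ m ∈ B, deg m = t) →
      t * B.card ≤ k + ∑ m ∈ B, m 0 →
      ∃ B' : Finset (Fin (N + 1) → ℕ), (∀ m ∈ B', deg m = t) ∧ Stable B' ∧ B'.card = B.card ∧
        (shadow B').card ≤ (shadow B).card from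
    h (t * B.card) B hB (Nat.le_add_right _ _)
  intro k
  induction k with
  | zero =>
    intro B hB hk
    refine ⟨B, hB, ?_, rfl, le_rfl⟩
    by_contra hns
    unfold Stable at hns
    push Not at hns
    obtain ⟨m, hm, i, hi, hmi⟩ := hns
    obtain ⟨B', h1, h2, -, h4⟩ := compress t i B hB ⟨m, hm, hi, hmi⟩
    have h5 := m2_bound t B' h1
    rw [h2] at h5
    omega
  | succ k ih =>
    intro B hB hk
    by_cases hs : Stable B
    · exact ⟨B, hB, hs, rfl, le_rfl⟩
    · unfold Stable at hs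
      push Not at hs
      obtain ⟨m, hm, i, hi, hmi⟩ := hs
      obtain ⟨B', h1, h2, h3, h4⟩ := compress t i B hB ⟨m, hm, hi, hmi⟩
      obtain ⟨B'', g1, g2, g3, g4⟩ := ih B' h1 (by rw [h2]; omega)
      exact ⟨B'', g1, g2, g3.trans h2, g4.trans h3⟩

end

end KLE
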