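import Pool.Agent.KLE.Defs

set_option autoImplicit false

open scoped BigOperators RealInnerProductSpace

namespace KLE

noncomputable section

open Classical

theorem M3_mem_shadow {N : ℕ} (B : Finset (Fin N → ℕ)) (u : Fin N → ℕ) :
    u ∈ shadow B ↔ ∃ m ∈ B, ∃ i, 0 < m i ∧ u = Function.update m i (m i - 1) := by
  unfold shadow
  simp only [Finset.mem_biUnion, Finset.mem_image, Finset.mem_filter, Finset.mem_univ, true_and]
  constructor
  · rintro ⟨m, hm, i, hi, h⟩
    exact ⟨m, hm, i, hi, h.symm⟩
  · rintro ⟨m, hm, i, hi, h⟩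
    exact ⟨m, hm, i, hi, h.symm⟩

theorem M3_deg_update {N : ℕ} (m : Fin N → ℕ) (i : Fin N) (h : 0 < m i) :
    deg (Function.update m i (m i - 1)) + 1 = deg m := by
  unfold deg
  rw [Finset.sum_update_of_mem (Finset.mem_univ i), ← Finset.add_sum_erase _ _ (Finset.mem_univ i),
    Finset.sdiff_singleton_eq_erase]
  omega

/-- the shadow of a stable set is obtained by dividing by the variable `0` -/
theorem M3_mem_shadow_zero {N : ℕ} (B : Finset (Fin (N + 1) → ℕ)) (hs : Stable B)
    (u : Fin (N + 1) → ℕ) :
    u ∈ shadow B ↔ ∃ m ∈ B, 0 < m 0 ∧ u = Function.update m 0 (m 0 - 1) := by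
  rw [M3_mem_shadow]
  constructor
  · rintro ⟨m, hm, i, hi, rfl⟩
    induction i using Fin.cases with
    | zero => exact ⟨m, hm, hi, rfl⟩
    | succ i =>
      refine ⟨_, hs m hm i hi, by simp, ?_⟩
      funext j
      induction j using Fin.cases with
      | zero =>
        simp [Function.update_of_ne (Fin.succ_ne_zero i).symm]
      | succ j =>
        rw [Function.update_of_ne (Fin.succ_ne_zero j), Function.update_of_ne (Fin.succ_ne_zero j)]
  · rintro ⟨m, hm, hi, rfl⟩
    exact ⟨m, hm, 0, hi, rfl⟩

/-- M3 -/
theorem stable_shadow {N : ℕ} (t : ℕ) (B : Finset (Fin (N + 1) → ℕ))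
    (hB : ∀ m ∈ B, deg m = t + 1) (hs : Stable B) :
    (∀ m ∈ shadow B, deg m = t) ∧ Stable (shadow B) ∧ (shadow B).card + (sl B).card = B.card ∧
      (∀ m ∈ sl B, deg m = t + 1) ∧ shadow (sl B) ⊆ sl (shadow B) := by
  refine ⟨?_, ?_, ?_, ?_, ?_⟩
  · intro u hu
    obtain ⟨m, hm, i, hi, rfl⟩ := (M3_mem_shadow B u).1 hu
    have h1 := M3_deg_update m i hi
    have h2 := hB m hm
    omega
  · intro u hu i hi
    obtain ⟨m, hm, h0, rfl⟩ := (M3_mem_shadow_zero B hs u).1 hu
    rw [Function.update_of_ne (Fin.succ_ne_zero i)] at hi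
    refine (M3_mem_shadow_zero B hs _).2 ⟨_, hs m hm i hi, by simp, ?_⟩
    funext j
    induction j using Fin.cases with
    | zero => simp; omega
    | succ j =>
      rw [Function.update_of_ne (Fin.succ_ne_zero j), Function.update_of_ne (Fin.succ_ne_zero j),
        Function.update_of_ne (Fin.succ_ne_zero j), Function.update_of_ne (Fin.succ_ne_zero i)]
      by_cases hji : j.succ = i.succ
      · rw [hji, Function.update_self, Function.update_self]
      · rw [Function.update_of_ne hji, Function.update_of_ne hji,
          Function.update_of_ne (Fin.succ_ne_zero j)]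
  · have h1 : (shadow B).card = (B.filter (fun m => ¬ m 0 = 0)).card := by
      have : shadow B = (B.filter (fun m => ¬ m 0 = 0)).image
          (fun m => Function.update m 0 (m 0 - 1)) := by
        ext u
        rw [M3_mem_shadow_zero B hs]
        simp only [Finset.mem_image, Finset.mem_filter]
        constructor
        · rintro ⟨m, hm, h0, rfl⟩
          exact ⟨m, ⟨hm, by omega⟩, rfl⟩
        · rintro ⟨m, ⟨hm, h0⟩, rfl⟩
          exact ⟨m, hm, by omega, rfl⟩
      rw [this, Finset.card_image_of_injOn]
      intro m hm m' hm' h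
      have hm0 : ¬ m 0 = 0 := (Finset.mem_filter.1 (Finset.mem_coe.1 hm)).2
      have hm0' : ¬ m' 0 = 0 := (Finset.mem_filter.1 (Finset.mem_coe.1 hm')).2
      funext j
      have hj := congrFun h j
      by_cases hj0 : j = 0
      · subst hj0
        simp only [Function.update_self] at hj
        omega
      · simp only at hj
        rwa [Function.update_of_ne hj0, Function.update_of_ne hj0] at hj
    have h2 : (sl B).card = (B.filter (fun m => m 0 = 0)).card := by
      unfold sl
      apply Finset.card_image_of_injOn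
      intro m hm m' hm' h
      have hm0 : m 0 = 0 := (Finset.mem_filter.1 (Finset.mem_coe.1 hm)).2
      have hm0' : m' 0 = 0 := (Finset.mem_filter.1 (Finset.mem_coe.1 hm')).2
      funext j
      induction j using Fin.cases with
      | zero => rw [hm0, hm0']
      | succ j => exact congrFun h j
    rw [h1, h2, add_comm]
    exact Finset.card_filter_add_card_filter_not (s := B) (fun m => m 0 = 0)
  · intro w hw
    unfold sl at hw
    obtain ⟨m, hm, rfl⟩ := Finset.mem_image.1 hw
    obtain ⟨hm, h0⟩ := Finset.mem_filter.1 hm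
    have := hB m hm
    unfold deg at this ⊢
    rw [Fin.sum_univ_succ, h0, zero_add] at this
    exact this
  · intro w hw
    obtain ⟨v, hv, i, hi, rfl⟩ := (M3_mem_shadow _ _).1 hw
    unfold sl at hv
    obtain ⟨m, hm, rfl⟩ := Finset.mem_image.1 hv
    obtain ⟨hm, h0⟩ := Finset.mem_filter.1 hm
    unfold sl
    refine Finset.mem_image.2 ⟨Function.update m i.succ (m i.succ - 1), ?_, ?_⟩
    · refine Finset.mem_filter.2 ⟨(M3_mem_shadow _ _).2 ⟨m, hm, i.succ, hi, rfl⟩, ?_⟩
      rw [Function.update_of_ne (Fin.succ_ne_zero i).symm, h0]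
    · funext j
      by_cases hji : j = i
      · subst hji
        simp
      · rw [Function.update_of_ne (fun h => hji (Fin.succ_injective _ h)),
          Function.update_of_ne hji]

end

end KLE
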