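import Pool.Agent.KLE.M2
import Pool.Agent.KLE.M3
import Pool.Agent.KLE.M5

/-!
# Row M4: Macaulay's bound in ratio form
-/

set_option autoImplicit false

open scoped BigOperators RealInnerProductSpace

namespace KLE

noncomputable section

open Classical

/-- the identity `q C(z+q-1,q) = z C(z+q-1,q-1)` with `q = s+1` -/
private theorem M4_choose (z s : ℕ) :
    (s + 1) * (z + s).choose (s + 1) = z * (z + s).choose s := by
  have h := Nat.choose_succ_right_eq (z + s) s
  rw [Nat.add_sub_cancel] at h
  rw [mul_comm, h, mul_comm]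

private theorem M4_pascal (z s : ℕ) :
    (z + (s + 1)).choose (s + 1) = (z + s).choose s + (z + s).choose (s + 1) := by
  rw [← add_assoc, Nat.choose_succ_succ]

/-- numbers: the induction step -/
private theorem M4_num (q z M M' m0 m1 : ℕ) (hM : M' + m1 = M)
    (hle : M ≤ (z + 1 + (q + 1)).choose (q + 1))
    (h1 : M' ≤ (z + 1 + q).choose q → (q + 1) * M ≤ (z + 1 + q + 1) * M')
    (h2 : m1 ≤ (z + (q + 1)).choose (q + 1) → (q + 1 + 1) * m0 ≤ (z + (q + 1) + 1) * m1) :
    (q + 1 + 1) * (M + m0) ≤ (z + 1 + (q + 1) + 1) * M := by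
  rw [M4_pascal] at hle
  have hid := M4_choose (z + 1) q
  set a := (z + 1 + q).choose q with ha
  set b := (z + 1 + q).choose (q + 1) with hb
  have hb' : (z + (q + 1)).choose (q + 1) = b := by
    rw [hb]; congr 1; omega
  rw [hb'] at h2
  have key : (q + 1) * m1 ≤ (z + 1) * M' ∧ m1 ≤ b := by
    by_cases hA : M' ≤ a
    · have h3 := h1 hA
      have h4 : (q + 1) * m1 ≤ (z + 1) * M' := by
        rw [← hM] at h3
        nlinarith
      refine ⟨h4, ?_⟩
      by_contra hcon
      push Not at hcon
      have h5 : M' < a := by omega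
      have h6 : (z + 1) * M' < (z + 1) * a := Nat.mul_lt_mul_of_pos_left h5 (by omega)
      have h7 : (q + 1) * b < (q + 1) * m1 := Nat.mul_lt_mul_of_pos_left hcon (by omega)
      omega
    · push Not at hA
      have h5 : m1 ≤ b := by omega
      refine ⟨?_, h5⟩
      calc (q + 1) * m1 ≤ (q + 1) * b := Nat.mul_le_mul_left _ h5
        _ = (z + 1) * a := hid
        _ ≤ (z + 1) * M' := Nat.mul_le_mul_left _ hA.le
  have h3 := h2 key.2
  have h4 := key.1
  have h5 : (q + 1 + 1) * m0 ≤ (z + 1) * M := by
    calc (q + 1 + 1) * m0 ≤ (z + (q + 1) + 1) * m1 := h3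
      _ = (z + 1) * m1 + (q + 1) * m1 := by ring
      _ ≤ (z + 1) * m1 + (z + 1) * M' := Nat.add_le_add_left h4 _
      _ = (z + 1) * M := by rw [← hM]; ring
  calc (q + 1 + 1) * (M + m0) = (q + 1 + 1) * M + (q + 1 + 1) * m0 := by ring
    _ ≤ (q + 1 + 1) * M + (z + 1) * M := Nat.add_le_add_left h5 _
    _ = (z + 1 + (q + 1) + 1) * M := by ring

private theorem M4_step (q : ℕ)
    (ih : ∀ (N z : ℕ) (B : Finset (Fin N → ℕ)), (∀ m ∈ B, deg m = q + 1) →
      (shadow B).card ≤ (z + q).choose q → (q + 1) * B.card ≤ (z + q + 1) * (shadow B).card) :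
    ∀ (N z : ℕ) (B : Finset (Fin N → ℕ)), (∀ m ∈ B, deg m = q + 1 + 1) →
      (shadow B).card ≤ (z + (q + 1)).choose (q + 1) →
      (q + 1 + 1) * B.card ≤ (z + (q + 1) + 1) * (shadow B).card := by
  intro N
  induction N with
  | zero =>
    intro z B hB _
    have hBe : B = ∅ := by
      rw [Finset.eq_empty_iff_forall_notMem]
      intro m hm
      have h := hB m hm
      unfold deg at h
      simp at h
    rw [hBe]
    simp
  | succ N ihN =>
    intro z B hB hle
    obtain ⟨B', hB', hst, hcard, hsh⟩ := exists_stable (q + 1 + 1) B hB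
    obtain ⟨g1, g2, g3, g4, g5⟩ := stable_shadow (q + 1) B' hB' hst
    obtain ⟨f1, f2, f3, f4, f5⟩ := stable_shadow q (shadow B') g1 g2
    have hsl : (shadow (sl B')).card ≤ (sl (shadow B')).card := Finset.card_le_card g5
    have hle' : (shadow B').card ≤ (z + (q + 1)).choose (q + 1) := hsh.trans hle
    have main : (q + 1 + 1) * B'.card ≤ (z + (q + 1) + 1) * (shadow B').card := by
      rw [← g3]
      rcases z with _ | z
      · -- z = 0
        have h1 : (shadow (shadow B')).card ≤ (0 + q).choose q := by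
          rw [zero_add, Nat.choose_self]
          rw [zero_add, Nat.choose_self] at hle'
          omega
        have h2 := ih (N + 1) 0 (shadow B') g1 h1
        rw [zero_add] at h2
        have h3 : (shadow B').card ≤ (shadow (shadow B')).card :=
          Nat.le_of_mul_le_mul_left h2 (by omega)
        have h4 : (shadow (sl B')).card = 0 := by omega
        have h5 := ihN 0 (sl B') g4 (by rw [h4]; exact Nat.zero_le _)
        rw [h4, mul_zero] at h5
        have h6 : (sl B').card = 0 := by
          rcases Nat.mul_eq_zero.1 (Nat.le_zero.1 h5) with h7 | h7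
          · omega
          · exact h7
        rw [h6, add_zero, zero_add]
      · refine M4_num q z _ _ _ _ f3 hle' ?_ ?_
        · intro h
          exact ih (N + 1) (z + 1) (shadow B') g1 h
        · intro h
          have h1 := ihN z (sl B') g4 (hsl.trans h)
          exact h1.trans (Nat.mul_le_mul_left _ hsl)
    rw [← hcard]
    exact main.trans (Nat.mul_le_mul_left _ hsh)

/-- M4 (uses M2, M3, M5) -/
theorem macaulay {N : ℕ} (q z : ℕ) (hq : 1 ≤ q) (B : Finset (Fin N → ℕ))
    (hB : ∀ m ∈ B, deg m = q + 1) (hle : (shadow B).card ≤ (z + q).choose q) :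
    (q + 1) * B.card ≤ (z + q + 1) * (shadow B).card := by
  have key : ∀ s : ℕ, ∀ (N z : ℕ) (B : Finset (Fin N → ℕ)), (∀ m ∈ B, deg m = s + 1 + 1) →
      (shadow B).card ≤ (z + (s + 1)).choose (s + 1) →
      (s + 1 + 1) * B.card ≤ (z + (s + 1) + 1) * (shadow B).card := by
    intro s
    induction s with
    | zero =>
      intro N z B hB hle
      have h1 := base_two B hB
      rw [zero_add, Nat.choose_one_right] at hle
      calc (0 + 1 + 1) * B.card = 2 * B.card := by ring
        _ ≤ (shadow B).card * ((shadow B).card + 1) := h1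
        _ ≤ (shadow B).card * (z + 1 + 1) := Nat.mul_le_mul_left _ (by omega)
        _ = (z + (0 + 1) + 1) * (shadow B).card := by ring
    | succ s ih => exact M4_step (s + 1) ih
  obtain ⟨s, rfl⟩ : ∃ s, q = s + 1 := ⟨q - 1, by omega⟩
  exact key s N z B hB hle

end

end KLE
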