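import Pool.Agent.KLE.SM1

/-!
# `Good` for `m = 10`
-/

set_option autoImplicit false

namespace KLE

theorem SM_good10 (s r A B M : ℕ → ℕ) (h : Nums 10 s r A B M) : Good 10 s r := by
  rcases Nat.eq_zero_or_pos (s 1) with h0 | h0
  · exact SM_zero h h0
  have hS := h.hS
  unfold Good
  simp only [show (10 - 1) / 2 = 4 from rfl, SM_sum4] at hS ⊢
  norm_num at hS ⊢
  by_cases hb : 2 * s 1 + 2 * s 2 + 2 * s 3 + 2 * s 4 + s 5 ≤ 118
  · have hA1 := h.hA1
    have hM1 := h.hM1
    have hr1 := h.hrM 1 le_rfl (by norm_num)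
    obtain ⟨X1, hx1, hy1⟩ := SM_level h 1 12 210 (by norm_num) (by norm_num)
      (by show r 2 ≤ 210; omega) (by decide +kernel)
    have hz1_1 : X1 ≤ B 1 := by
      have := hy1 1 (by norm_num) (by norm_num)
      exact Nat.le_of_mul_le_mul_right this (by decide +kernel)
    norm_num at hx1
    obtain ⟨X2, hx2, hy2⟩ := SM_level h 2 7 157 (by norm_num) (by norm_num)
      (by show r 3 ≤ 157; omega) (by decide +kernel)
    have hz2_1 : X2 * 8 ≤ B 1 * 36 :=
      hy2 1 (by norm_num) (by norm_num)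
    have hz2_2 : X2 ≤ B 2 := by
      have := hy2 2 (by norm_num) (by norm_num)
      exact Nat.le_of_mul_le_mul_right this (by decide +kernel)
    norm_num at hx2
    obtain ⟨X3, hx3, hy3⟩ := SM_level h 3 6 126 (by norm_num) (by norm_num)
      (by show r 4 ≤ 126; omega) (by decide +kernel)
    have hz3_1 : X3 * 7 ≤ B 1 * 84 :=
      hy3 1 (by norm_num) (by norm_num)
    have hz3_2 : X3 * 28 ≤ B 2 * 84 :=
      hy3 2 (by norm_num) (by norm_num)
    have hz3_3 : X3 ≤ B 3 := by
      have := hy3 3 (by norm_num) (by norm_num)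
      exact Nat.le_of_mul_le_mul_right this (by decide +kernel)
    norm_num at hx3
    have hB1 := h.hBs 1 (by norm_num) (by norm_num)
    have hB2 := h.hBs 2 (by norm_num) (by norm_num)
    have hB3 := h.hBs 3 (by norm_num) (by norm_num)
    norm_num at hr1 hB1 hB2 hB3
    have hg1 : 6 * r 2 ≤ 105 * B 1 := by
      linarith
    have hg2 : 56 * r 3 ≤ 147 * B 1 + 224 * B 2 := by
      linarith
    have hg3 : 30 * r 4 ≤ 30 * B 1 + 80 * B 3 := by
      linarith
    rcases Nat.lt_or_ge (s 1) 2 with h1 | h1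
    · have h2 : s 1 = 1 := by omega
      have h3 : A 1 * (A 1 + 1) ≤ 156 :=
        Nat.mul_le_mul (by omega : A 1 ≤ 12) (by omega : A 1 + 1 ≤ 13)
      rw [h2] at *
      linarith
    · linarith
  · linarith

end KLE
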