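import Pool.Agent.KLE.SM1

/-!
# `Good` for `m = 13`
-/

set_option autoImplicit false

namespace KLE

theorem SM_good13 (s r A B M : ℕ → ℕ) (h : Nums 13 s r A B M) : Good 13 s r := by
  rcases Nat.eq_zero_or_pos (s 1) with h0 | h0
  · exact SM_zero h h0
  have hS := h.hS
  unfold Good
  simp only [show (13 - 1) / 2 = 6 from rfl, SM_sum6] at hS ⊢
  norm_num at hS ⊢
  by_cases hb : 2 * s 1 + 2 * s 2 + 2 * s 3 + 2 * s 4 + 2 * s 5 + 2 * s 6 ≤ 945
  · have hA1 := h.hA1
    have hM1 := h.hM1
    have hr1 := h.hrM 1 le_rfl (by norm_num)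
    obtain ⟨X1, hx1, hy1⟩ := SM_level h 1 26 1680 (by norm_num) (by norm_num)
      (by show r 2 ≤ 1680; omega) (by decide +kernel)
    have hz1_1 : X1 ≤ B 1 := by
      have := hy1 1 (by norm_num) (by norm_num)
      exact Nat.le_of_mul_le_mul_right this (by decide +kernel)
    norm_num at hx1
    obtain ⟨X2, hx2, hy2⟩ := SM_level h 2 14 1260 (by norm_num) (by norm_num)
      (by show r 3 ≤ 1260; omega) (by decide +kernel)
    have hz2_1 : X2 * 15 ≤ B 1 * 120 :=
      hy2 1 (by norm_num) (by norm_num)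
    have hz2_2 : X2 ≤ B 2 := by
      have := hy2 2 (by norm_num) (by norm_num)
      exact Nat.le_of_mul_le_mul_right this (by decide +kernel)
    norm_num at hx2
    obtain ⟨X3, hx3, hy3⟩ := SM_level h 3 10 1008 (by norm_num) (by norm_num)
      (by show r 4 ≤ 1008; omega) (by decide +kernel)
    have hz3_1 : X3 * 11 ≤ B 1 * 286 :=
      hy3 1 (by norm_num) (by norm_num)
    have hz3_2 : X3 * 66 ≤ B 2 * 286 :=
      hy3 2 (by norm_num) (by norm_num)
    have hz3_3 : X3 ≤ B 3 := by
      have := hy3 3 (by norm_num) (by norm_num)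
      exact Nat.le_of_mul_le_mul_right this (by decide +kernel)
    norm_num at hx3
    obtain ⟨X4, hx4, hy4⟩ := SM_level h 4 7 840 (by norm_num) (by norm_num)
      (by show r 5 ≤ 840; omega) (by decide +kernel)
    have hz4_1 : X4 * 8 ≤ B 1 * 330 :=
      hy4 1 (by norm_num) (by norm_num)
    have hz4_2 : X4 * 36 ≤ B 2 * 330 :=
      hy4 2 (by norm_num) (by norm_num)
    have hz4_3 : X4 * 120 ≤ B 3 * 330 :=
      hy4 3 (by norm_num) (by norm_num)
    have hz4_4 : X4 ≤ B 4 := by
      have := hy4 4 (by norm_num) (by norm_num)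
      exact Nat.le_of_mul_le_mul_right this (by decide +kernel)
    norm_num at hx4
    obtain ⟨X5, hx5, hy5⟩ := SM_level h 5 6 720 (by norm_num) (by norm_num)
      (by show r 6 ≤ 720; omega) (by decide +kernel)
    have hz5_1 : X5 * 7 ≤ B 1 * 462 :=
      hy5 1 (by norm_num) (by norm_num)
    have hz5_2 : X5 * 28 ≤ B 2 * 462 :=
      hy5 2 (by norm_num) (by norm_num)
    have hz5_3 : X5 * 84 ≤ B 3 * 462 :=
      hy5 3 (by norm_num) (by norm_num)
    have hz5_4 : X5 * 210 ≤ B 4 * 462 :=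
      hy5 4 (by norm_num) (by norm_num)
    have hz5_5 : X5 ≤ B 5 := by
      have := hy5 5 (by norm_num) (by norm_num)
      exact Nat.le_of_mul_le_mul_right this (by decide +kernel)
    norm_num at hx5
    have hB1 := h.hBs 1 (by norm_num) (by norm_num)
    have hB2 := h.hBs 2 (by norm_num) (by norm_num)
    have hB3 := h.hBs 3 (by norm_num) (by norm_num)
    have hB4 := h.hBs 4 (by norm_num) (by norm_num)
    have hB5 := h.hBs 5 (by norm_num) (by norm_num)
    norm_num at hr1 hB1 hB2 hB3 hB4 hB5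
    have hg1 : 6 * r 2 ≤ 406 * B 1 := by
      linarith
    have hg2 : 28 * r 3 ≤ 357 * B 2 := by
      linarith
    have hg3 : 60 * r 4 ≤ 315 * B 3 := by
      linarith
    have hg4 : 12710 * r 5 ≤ 35981 * B 3 + 19962 * B 4 := by
      linarith
    have hg5 : 51660 * r 6 ≤ 173379 * B 2 + 40019 * B 3 + 78156 * B 5 := by
      linarith
    rcases Nat.lt_or_ge (s 1) 2 with h1 | h1
    · have h2 : s 1 = 1 := by omega
      have h3 : A 1 * (A 1 + 1) ≤ 240 :=
        Nat.mul_le_mul (by omega : A 1 ≤ 15) (by omega : A 1 + 1 ≤ 16)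
      rw [h2] at *
      linarith
    · linarith
  · linarith

end KLE
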