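import Pool.Agent.KLE.SM1

/-!
# `Good` for `m = 15`
-/

set_option autoImplicit false

namespace KLE

theorem SM_good15 (s r A B M : ℕ → ℕ) (h : Nums 15 s r A B M) : Good 15 s r := by
  rcases Nat.eq_zero_or_pos (s 1) with h0 | h0
  · exact SM_zero h h0
  have hS := h.hS
  unfold Good
  simp only [show (15 - 1) / 2 = 7 from rfl, SM_sum7] at hS ⊢
  norm_num at hS ⊢
  by_cases hb : 2 * s 1 + 2 * s 2 + 2 * s 3 + 2 * s 4 + 2 * s 5 + 2 * s 6 + 2 * s 7 ≤ 3246
  · have hA1 := h.hA1
    have hM1 := h.hM1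
    have hr1 := h.hrM 1 le_rfl (by norm_num)
    obtain ⟨X1, hx1, hy1⟩ := SM_level h 1 41 6543 (by norm_num) (by norm_num)
      (by show r 2 ≤ 6543; omega) (by decide +kernel)
    have hz1_1 : X1 ≤ B 1 := by
      have := hy1 1 (by norm_num) (by norm_num)
      exact Nat.le_of_mul_le_mul_right this (by decide +kernel)
    norm_num at hx1
    obtain ⟨X2, hx2, hy2⟩ := SM_level h 2 20 4907 (by norm_num) (by norm_num)
      (by show r 3 ≤ 4907; omega) (by decide +kernel)
    have hz2_1 : X2 * 21 ≤ B 1 * 231 :=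
      hy2 1 (by norm_num) (by norm_num)
    have hz2_2 : X2 ≤ B 2 := by
      have := hy2 2 (by norm_num) (by norm_num)
      exact Nat.le_of_mul_le_mul_right this (by decide +kernel)
    norm_num at hx2
    obtain ⟨X3, hx3, hy3⟩ := SM_level h 3 13 3926 (by norm_num) (by norm_num)
      (by show r 4 ≤ 3926; omega) (by decide +kernel)
    have hz3_1 : X3 * 14 ≤ B 1 * 560 :=
      hy3 1 (by norm_num) (by norm_num)
    have hz3_2 : X3 * 105 ≤ B 2 * 560 :=
      hy3 2 (by norm_num) (by norm_num)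
    have hz3_3 : X3 ≤ B 3 := by
      have := hy3 3 (by norm_num) (by norm_num)
      exact Nat.le_of_mul_le_mul_right this (by decide +kernel)
    norm_num at hx3
    obtain ⟨X4, hx4, hy4⟩ := SM_level h 4 10 3271 (by norm_num) (by norm_num)
      (by show r 5 ≤ 3271; omega) (by decide +kernel)
    have hz4_1 : X4 * 11 ≤ B 1 * 1001 :=
      hy4 1 (by norm_num) (by norm_num)
    have hz4_2 : X4 * 66 ≤ B 2 * 1001 :=
      hy4 2 (by norm_num) (by norm_num)
    have hz4_3 : X4 * 286 ≤ B 3 * 1001 :=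
      hy4 3 (by norm_num) (by norm_num)
    have hz4_4 : X4 ≤ B 4 := by
      have := hy4 4 (by norm_num) (by norm_num)
      exact Nat.le_of_mul_le_mul_right this (by decide +kernel)
    norm_num at hx4
    obtain ⟨X5, hx5, hy5⟩ := SM_level h 5 8 2804 (by norm_num) (by norm_num)
      (by show r 6 ≤ 2804; omega) (by decide +kernel)
    have hz5_1 : X5 * 9 ≤ B 1 * 1287 :=
      hy5 1 (by norm_num) (by norm_num)
    have hz5_2 : X5 * 45 ≤ B 2 * 1287 :=
      hy5 2 (by norm_num) (by norm_num)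
    have hz5_3 : X5 * 165 ≤ B 3 * 1287 :=
      hy5 3 (by norm_num) (by norm_num)
    have hz5_4 : X5 * 495 ≤ B 4 * 1287 :=
      hy5 4 (by norm_num) (by norm_num)
    have hz5_5 : X5 ≤ B 5 := by
      have := hy5 5 (by norm_num) (by norm_num)
      exact Nat.le_of_mul_le_mul_right this (by decide +kernel)
    norm_num at hx5
    obtain ⟨X6, hx6, hy6⟩ := SM_level h 6 7 2453 (by norm_num) (by norm_num)
      (by show r 7 ≤ 2453; omega) (by decide +kernel)
    have hz6_1 : X6 * 8 ≤ B 1 * 1716 :=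
      hy6 1 (by norm_num) (by norm_num)
    have hz6_2 : X6 * 36 ≤ B 2 * 1716 :=
      hy6 2 (by norm_num) (by norm_num)
    have hz6_3 : X6 * 120 ≤ B 3 * 1716 :=
      hy6 3 (by norm_num) (by norm_num)
    have hz6_4 : X6 * 330 ≤ B 4 * 1716 :=
      hy6 4 (by norm_num) (by norm_num)
    have hz6_5 : X6 * 792 ≤ B 5 * 1716 :=
      hy6 5 (by norm_num) (by norm_num)
    have hz6_6 : X6 ≤ B 6 := by
      have := hy6 6 (by norm_num) (by norm_num)
      exact Nat.le_of_mul_le_mul_right this (by decide +kernel)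
    norm_num at hx6
    have hB1 := h.hBs 1 (by norm_num) (by norm_num)
    have hB2 := h.hBs 2 (by norm_num) (by norm_num)
    have hB3 := h.hBs 3 (by norm_num) (by norm_num)
    have hB4 := h.hBs 4 (by norm_num) (by norm_num)
    have hB5 := h.hBs 5 (by norm_num) (by norm_num)
    have hB6 := h.hBs 6 (by norm_num) (by norm_num)
    norm_num at hr1 hB1 hB2 hB3 hB4 hB5 hB6
    have hg1 : 6 * r 2 ≤ 946 * B 1 := by
      linarith
    have hg2 : 14 * r 3 ≤ 2904 * B 2 := by
      linarith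
    have hg3 : 600 * r 4 ≤ 8467 * B 3 := by
      linarith
    have hg4 : 1240 * r 5 ≤ 15533 * B 3 + 522 * B 4 := by
      linarith
    have hg5 : 126 * r 6 ≤ 819 * B 4 := by
      linarith
    have hg6 : 2540 * r 7 ≤ 189 * B 4 + 1920 * B 5 + 3840 * B 6 := by
      linarith
    rcases Nat.lt_or_ge (s 1) 2 with h1 | h1
    · have h2 : s 1 = 1 := by omega
      have h3 : A 1 * (A 1 + 1) ≤ 306 :=
        Nat.mul_le_mul (by omega : A 1 ≤ 17) (by omega : A 1 + 1 ≤ 18)
      rw [h2] at *
      linarith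
    · linarith
  · linarith

end KLE
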