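import Pool.Agent.KLE.SM1

/-!
# `Good` for `m = 16`
-/

set_option autoImplicit false

namespace KLE

theorem SM_good16 (s r A B M : ℕ → ℕ) (h : Nums 16 s r A B M) : Good 16 s r := by
  rcases Nat.eq_zero_or_pos (s 1) with h0 | h0
  · exact SM_zero h h0
  have hS := h.hS
  unfold Good
  simp only [show (16 - 1) / 2 = 7 from rfl, SM_sum7] at hS ⊢
  norm_num at hS ⊢
  by_cases hb : 2 * s 1 + 2 * s 2 + 2 * s 3 + 2 * s 4 + 2 * s 5 + 2 * s 6 + 2 * s 7 + s 8 ≤ 4639
  · have hA1 := h.hA1
    have hM1 := h.hM1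
    have hr1 := h.hrM 1 le_rfl (by norm_num)
    obtain ⟨X1, hx1, hy1⟩ := SM_level h 1 52 12469 (by norm_num) (by norm_num)
      (by show r 2 ≤ 12469; omega) (by decide +kernel)
    have hz1_1 : X1 ≤ B 1 := by
      have := hy1 1 (by norm_num) (by norm_num)
      exact Nat.le_of_mul_le_mul_right this (by decide +kernel)
    norm_num at hx1
    obtain ⟨X2, hx2, hy2⟩ := SM_level h 2 24 9351 (by norm_num) (by norm_num)
      (by show r 3 ≤ 9351; omega) (by decide +kernel)
    have hz2_1 : X2 * 25 ≤ B 1 * 325 :=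
      hy2 1 (by norm_num) (by norm_num)
    have hz2_2 : X2 ≤ B 2 := by
      have := hy2 2 (by norm_num) (by norm_num)
      exact Nat.le_of_mul_le_mul_right this (by decide +kernel)
    norm_num at hx2
    obtain ⟨X3, hx3, hy3⟩ := SM_level h 3 15 7481 (by norm_num) (by norm_num)
      (by show r 4 ≤ 7481; omega) (by decide +kernel)
    have hz3_1 : X3 * 16 ≤ B 1 * 816 :=
      hy3 1 (by norm_num) (by norm_num)
    have hz3_2 : X3 * 136 ≤ B 2 * 816 :=
      hy3 2 (by norm_num) (by norm_num)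
    have hz3_3 : X3 ≤ B 3 := by
      have := hy3 3 (by norm_num) (by norm_num)
      exact Nat.le_of_mul_le_mul_right this (by decide +kernel)
    norm_num at hx3
    obtain ⟨X4, hx4, hy4⟩ := SM_level h 4 12 6234 (by norm_num) (by norm_num)
      (by show r 5 ≤ 6234; omega) (by decide +kernel)
    have hz4_1 : X4 * 13 ≤ B 1 * 1820 :=
      hy4 1 (by norm_num) (by norm_num)
    have hz4_2 : X4 * 91 ≤ B 2 * 1820 :=
      hy4 2 (by norm_num) (by norm_num)
    have hz4_3 : X4 * 455 ≤ B 3 * 1820 :=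
      hy4 3 (by norm_num) (by norm_num)
    have hz4_4 : X4 ≤ B 4 := by
      have := hy4 4 (by norm_num) (by norm_num)
      exact Nat.le_of_mul_le_mul_right this (by decide +kernel)
    norm_num at hx4
    obtain ⟨X5, hx5, hy5⟩ := SM_level h 5 9 5343 (by norm_num) (by norm_num)
      (by show r 6 ≤ 5343; omega) (by decide +kernel)
    have hz5_1 : X5 * 10 ≤ B 1 * 2002 :=
      hy5 1 (by norm_num) (by norm_num)
    have hz5_2 : X5 * 55 ≤ B 2 * 2002 :=
      hy5 2 (by norm_num) (by norm_num)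
    have hz5_3 : X5 * 220 ≤ B 3 * 2002 :=
      hy5 3 (by norm_num) (by norm_num)
    have hz5_4 : X5 * 715 ≤ B 4 * 2002 :=
      hy5 4 (by norm_num) (by norm_num)
    have hz5_5 : X5 ≤ B 5 := by
      have := hy5 5 (by norm_num) (by norm_num)
      exact Nat.le_of_mul_le_mul_right this (by decide +kernel)
    norm_num at hx5
    obtain ⟨X6, hx6, hy6⟩ := SM_level h 6 8 4675 (by norm_num) (by norm_num)
      (by show r 7 ≤ 4675; omega) (by decide +kernel)
    have hz6_1 : X6 * 9 ≤ B 1 * 3003 :=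
      hy6 1 (by norm_num) (by norm_num)
    have hz6_2 : X6 * 45 ≤ B 2 * 3003 :=
      hy6 2 (by norm_num) (by norm_num)
    have hz6_3 : X6 * 165 ≤ B 3 * 3003 :=
      hy6 3 (by norm_num) (by norm_num)
    have hz6_4 : X6 * 495 ≤ B 4 * 3003 :=
      hy6 4 (by norm_num) (by norm_num)
    have hz6_5 : X6 * 1287 ≤ B 5 * 3003 :=
      hy6 5 (by norm_num) (by norm_num)
    have hz6_6 : X6 ≤ B 6 := by
      have := hy6 6 (by norm_num) (by norm_num)
      exact Nat.le_of_mul_le_mul_right this (by decide +kernel)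
    norm_num at hx6
    have hB1 := h.hBs 1 (by norm_num) (by norm_num)
    have hB2 := h.hBs 2 (by norm_num) (by norm_num)
    have hB3 := h.hBs 3 (by norm_num) (by norm_num)
    have hB4 := h.hBs 4 (by norm_num) (by norm_num)
    have hB5 := h.hBs 5 (by norm_num) (by norm_num)
    have hB6 := h.hBs 6 (by norm_num) (by norm_num)
    norm_num at hr1 hB1 hB2 hB3 hB4 hB5 hB6
    have hg1 : 6 * r 2 ≤ 1485 * B 1 := by
      linarith
    have hg2 : 14 * r 3 ≤ 441 * B 2 := by
      linarith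
    have hg3 : 30 * r 4 ≤ 285 * B 3 := by
      linarith
    have hg4 : 310 * r 5 ≤ 1581 * B 4 := by
      linarith
    have hg5 : 1638 * r 6 ≤ 74451 * B 2 + 22711 * B 3 + 389 * B 4 := by
      linarith
    have hg6 : 1502410 * r 7 ≤ 10255882 * B 4 + 1528920 * B 6 := by
      linarith
    rcases Nat.lt_or_ge (s 1) 2 with h1 | h1
    · have h2 : s 1 = 1 := by omega
      have h3 : A 1 * (A 1 + 1) ≤ 342 :=
        Nat.mul_le_mul (by omega : A 1 ≤ 18) (by omega : A 1 + 1 ≤ 19)
      rw [h2] at *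
      linarith
    · linarith
  · linarith

end KLE
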