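import Pool.Agent.KLE.SM1

/-!
# `Good` for `m = 18`
-/

set_option autoImplicit false

namespace KLE

theorem SM_good18 (s r A B M : ℕ → ℕ) (h : Nums 18 s r A B M) : Good 18 s r := by
  rcases Nat.eq_zero_or_pos (s 1) with h0 | h0
  · exact SM_zero h h0
  have hS := h.hS
  unfold Good
  simp only [show (18 - 1) / 2 = 8 from rfl, SM_sum8] at hS ⊢
  norm_num at hS ⊢
  by_cases hb : 2 * s 1 + 2 * s 2 + 2 * s 3 + 2 * s 4 + 2 * s 5 + 2 * s 6 + 2 * s 7 + 2 * s 8 + s 9 ≤ 16312
  · have hA1 := h.hA1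
    have hM1 := h.hM1
    have hr1 := h.hrM 1 le_rfl (by norm_num)
    obtain ⟨X1, hx1, hy1⟩ := SM_level h 1 82 49128 (by norm_num) (by norm_num)
      (by show r 2 ≤ 49128; omega) (by decide +kernel)
    have hz1_1 : X1 ≤ B 1 := by
      have := hy1 1 (by norm_num) (by norm_num)
      exact Nat.le_of_mul_le_mul_right this (by decide +kernel)
    norm_num at hx1
    obtain ⟨X2, hx2, hy2⟩ := SM_level h 2 34 36846 (by norm_num) (by norm_num)
      (by show r 3 ≤ 36846; omega) (by decide +kernel)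
    have hz2_1 : X2 * 35 ≤ B 1 * 630 :=
      hy2 1 (by norm_num) (by norm_num)
    have hz2_2 : X2 ≤ B 2 := by
      have := hy2 2 (by norm_num) (by norm_num)
      exact Nat.le_of_mul_le_mul_right this (by decide +kernel)
    norm_num at hx2
    obtain ⟨X3, hx3, hy3⟩ := SM_level h 3 21 29476 (by norm_num) (by norm_num)
      (by show r 4 ≤ 29476; omega) (by decide +kernel)
    have hz3_1 : X3 * 22 ≤ B 1 * 2024 :=
      hy3 1 (by norm_num) (by norm_num)
    have hz3_2 : X3 * 253 ≤ B 2 * 2024 :=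
      hy3 2 (by norm_num) (by norm_num)
    have hz3_3 : X3 ≤ B 3 := by
      have := hy3 3 (by norm_num) (by norm_num)
      exact Nat.le_of_mul_le_mul_right this (by decide +kernel)
    norm_num at hx3
    obtain ⟨X4, hx4, hy4⟩ := SM_level h 4 15 24564 (by norm_num) (by norm_num)
      (by show r 5 ≤ 24564; omega) (by decide +kernel)
    have hz4_1 : X4 * 16 ≤ B 1 * 3876 :=
      hy4 1 (by norm_num) (by norm_num)
    have hz4_2 : X4 * 136 ≤ B 2 * 3876 :=
      hy4 2 (by norm_num) (by norm_num)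
    have hz4_3 : X4 * 816 ≤ B 3 * 3876 :=
      hy4 3 (by norm_num) (by norm_num)
    have hz4_4 : X4 ≤ B 4 := by
      have := hy4 4 (by norm_num) (by norm_num)
      exact Nat.le_of_mul_le_mul_right this (by decide +kernel)
    norm_num at hx4
    obtain ⟨X5, hx5, hy5⟩ := SM_level h 5 12 21054 (by norm_num) (by norm_num)
      (by show r 6 ≤ 21054; omega) (by decide +kernel)
    have hz5_1 : X5 * 13 ≤ B 1 * 6188 :=
      hy5 1 (by norm_num) (by norm_num)
    have hz5_2 : X5 * 91 ≤ B 2 * 6188 :=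
      hy5 2 (by norm_num) (by norm_num)
    have hz5_3 : X5 * 455 ≤ B 3 * 6188 :=
      hy5 3 (by norm_num) (by norm_num)
    have hz5_4 : X5 * 1820 ≤ B 4 * 6188 :=
      hy5 4 (by norm_num) (by norm_num)
    have hz5_5 : X5 ≤ B 5 := by
      have := hy5 5 (by norm_num) (by norm_num)
      exact Nat.le_of_mul_le_mul_right this (by decide +kernel)
    norm_num at hx5
    obtain ⟨X6, hx6, hy6⟩ := SM_level h 6 10 18423 (by norm_num) (by norm_num)
      (by show r 7 ≤ 18423; omega) (by decide +kernel)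
    have hz6_1 : X6 * 11 ≤ B 1 * 8008 :=
      hy6 1 (by norm_num) (by norm_num)
    have hz6_2 : X6 * 66 ≤ B 2 * 8008 :=
      hy6 2 (by norm_num) (by norm_num)
    have hz6_3 : X6 * 286 ≤ B 3 * 8008 :=
      hy6 3 (by norm_num) (by norm_num)
    have hz6_4 : X6 * 1001 ≤ B 4 * 8008 :=
      hy6 4 (by norm_num) (by norm_num)
    have hz6_5 : X6 * 3003 ≤ B 5 * 8008 :=
      hy6 5 (by norm_num) (by norm_num)
    have hz6_6 : X6 ≤ B 6 := by
      have := hy6 6 (by norm_num) (by norm_num)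
      exact Nat.le_of_mul_le_mul_right this (by decide +kernel)
    norm_num at hx6
    obtain ⟨X7, hx7, hy7⟩ := SM_level h 7 9 16376 (by norm_num) (by norm_num)
      (by show r 8 ≤ 16376; omega) (by decide +kernel)
    have hz7_1 : X7 * 10 ≤ B 1 * 11440 :=
      hy7 1 (by norm_num) (by norm_num)
    have hz7_2 : X7 * 55 ≤ B 2 * 11440 :=
      hy7 2 (by norm_num) (by norm_num)
    have hz7_3 : X7 * 220 ≤ B 3 * 11440 :=
      hy7 3 (by norm_num) (by norm_num)
    have hz7_4 : X7 * 715 ≤ B 4 * 11440 :=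
      hy7 4 (by norm_num) (by norm_num)
    have hz7_5 : X7 * 2002 ≤ B 5 * 11440 :=
      hy7 5 (by norm_num) (by norm_num)
    have hz7_6 : X7 * 5005 ≤ B 6 * 11440 :=
      hy7 6 (by norm_num) (by norm_num)
    have hz7_7 : X7 ≤ B 7 := by
      have := hy7 7 (by norm_num) (by norm_num)
      exact Nat.le_of_mul_le_mul_right this (by decide +kernel)
    norm_num at hx7
    have hB1 := h.hBs 1 (by norm_num) (by norm_num)
    have hB2 := h.hBs 2 (by norm_num) (by norm_num)
    have hB3 := h.hBs 3 (by norm_num) (by norm_num)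
    have hB4 := h.hBs 4 (by norm_num) (by norm_num)
    have hB5 := h.hBs 5 (by norm_num) (by norm_num)
    have hB6 := h.hBs 6 (by norm_num) (by norm_num)
    have hB7 := h.hBs 7 (by norm_num) (by norm_num)
    norm_num at hr1 hB1 hB2 hB3 hB4 hB5 hB6 hB7
    have hg1 : 6 * r 2 ≤ 3570 * B 1 := by
      linarith
    have hg2 : 84 * r 3 ≤ 4921 * B 2 := by
      linarith
    have hg3 : 60 * r 4 ≤ 975 * B 3 := by
      linarith
    have hg4 : 62 * r 5 ≤ 434 * B 4 := by
      linarith
    have hg5 : 756 * r 6 ≤ 142679 * B 2 + 13325 * B 3 := by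
      linarith
    have hg6 : 7112 * r 7 ≤ 19431 * B 6 := by
      linarith
    have hg7 : 19890 * r 8 ≤ 213239 * B 3 + 303810 * B 4 + 43834 * B 6 := by
      linarith
    rcases Nat.lt_or_ge (s 1) 2 with h1 | h1
    · have h2 : s 1 = 1 := by omega
      have h3 : A 1 * (A 1 + 1) ≤ 420 :=
        Nat.mul_le_mul (by omega : A 1 ≤ 20) (by omega : A 1 + 1 ≤ 21)
      rw [h2] at *
      linarith
    · linarith
  · linarith

end KLE
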