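import Pool.Agent.KLE.SM2

/-!
# `Good` for `m = 9`
-/

set_option autoImplicit false

namespace KLE

/-- the check for `m = 9` -/
def SMk9 (s1 s2 s3 s4 : ℕ) : Bool :=
  decide (6 * (256 + 2 * s1 + 2 * s2 + 2 * s3 + 2 * s4) ≤ 1 * (258 * s1 + 132 * s2 + 72 * s3 + 48 * s4)) ||
  decide (7 * (256 + 2 * s1 + 2 * s2 + 2 * s3 + 2 * s4) + 25 * (SMg 4 (SMA4 9 s1 s2 s3 s4) / 2) ≤ 2 * (258 * s1 + 132 * s2 + 72 * s3 + 48 * s4)) ||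
  decide (2 * (256 + 2 * s1 + 2 * s2 + 2 * s3 + 2 * s4) + 6 * (SMg 3 (SMA3 9 s1 s2 s3) / 2) + 20 * (SMg 4 (SMA4 9 s1 s2 s3 s4) / 2) ≤ 1 * (258 * s1 + 132 * s2 + 72 * s3 + 48 * s4)) ||
  decide (1 * (256 + 2 * s1 + 2 * s2 + 2 * s3 + 2 * s4) + 3 * (SMg 2 (SMA2 9 s1 s2) / 2) + 10 * (SMg 3 (SMA3 9 s1 s2 s3) / 2) + 25 * (SMg 4 (SMA4 9 s1 s2 s3 s4) / 2) ≤ 1 * (258 * s1 + 132 * s2 + 72 * s3 + 48 * s4)) ||
  decide (2 * (SMg 1 (9 + 2 * s1) / 2) + 6 * (SMg 2 (SMA2 9 s1 s2) / 2) + 14 * (SMg 3 (SMA3 9 s1 s2 s3) / 2) + 30 * (SMg 4 (SMA4 9 s1 s2 s3 s4) / 2) ≤ 1 * (258 * s1 + 132 * s2 + 72 * s3 + 48 * s4))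

theorem SM_key9 : ∀ a < 7, ∀ b < (1536 - 246 * (a + 1)) / 120 + 1, ∀ c < (1536 - 246 * (a + 1) - 120 * b) / 60 + 1, ∀ d < (1536 - 246 * (a + 1) - 120 * b - 60 * c) / 36 + 1,
    SMk9 (a + 1) b c d = true := by decide +kernel

theorem SM_good9 (s r A B M : ℕ → ℕ) (h : Nums 9 s r A B M) : Good 9 s r := by
  rcases Nat.eq_zero_or_pos (s 1) with h0 | h0
  · exact SM_zero h h0
  have hS := h.hS
  unfold Good
  simp only [show (9 - 1) / 2 = 4 from rfl, SM_sum4] at hS ⊢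
  norm_num at hS ⊢
  by_cases hb : 1536 ≤ 246 * s 1 + 120 * s 2 + 60 * s 3 + 36 * s 4
  · omega
  · have key := SM_key9 (s 1 - 1) (by omega) (s 2) (by omega) (s 3) (by omega) (s 4) (by omega)
    rw [Nat.sub_add_cancel h0] at key
    simp only [SMk9, Bool.or_eq_true, decide_eq_true_eq] at key
    have hr1 := SM_R1 h (by norm_num)
    have hr2 := SM_R2 h (by norm_num)
    have hr3 := SM_R3 h (by norm_num)
    have hr4 := SM_R4 h (by norm_num)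
    omega

end KLE
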