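import Pool.Agent.KLE.SM3
import Pool.Agent.KLE.SM8
import Pool.Agent.KLE.SM9
import Pool.Agent.KLE.SM10
import Pool.Agent.KLE.SM11
import Pool.Agent.KLE.SM12
import Pool.Agent.KLE.SM13
import Pool.Agent.KLE.SM14
import Pool.Agent.KLE.SM15
import Pool.Agent.KLE.SM16
import Pool.Agent.KLE.SM17
import Pool.Agent.KLE.SM18

/-!
# SM: `Good` for `m ≤ 18`
-/

set_option autoImplicit false

namespace KLE

/-- the inequality for `m ≤ 18` -/
theorem good_le18 (m : ℕ) (hm : m ≤ 18) (s r A B M : ℕ → ℕ) (h : Nums m s r A B M) :
    Good m s r := by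
  rcases Nat.lt_or_ge m 3 with h3 | h3
  · exact SM_small m (by omega) s r
  · interval_cases m
    · exact SM_good3 s r A B M h
    · exact SM_good4 s r A B M h
    · exact SM_good5 s r A B M h
    · exact SM_good6 s r A B M h
    · exact SM_good7 s r A B M h
    · exact SM_good8 s r A B M h
    · exact SM_good9 s r A B M h
    · exact SM_good10 s r A B M h
    · exact SM_good11 s r A B M h
    · exact SM_good12 s r A B M h
    · exact SM_good13 s r A B M h
    · exact SM_good14 s r A B M h
    · exact SM_good15 s r A B M h
    · exact SM_good16 s r A B M h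
    · exact SM_good17 s r A B M h
    · exact SM_good18 s r A B M h

end KLE
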