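import Pool.Agent.KLE.Defs

/-!
# SM0: growth along the chain, one level at a time
-/

set_option autoImplicit false

namespace KLE

theorem SM_ch (z c : ℕ) : (z + c + 1) * (z + c).choose c = (z + (c + 1)).choose (c + 1) * (c + 1) :=
  Nat.add_one_mul_choose_eq (z + c) c

theorem SM_step {m : ℕ} {s r A B M : ℕ → ℕ} (h : Nums m s r A B M) (z : ℕ) {i : ℕ} (hi : 1 ≤ i)
    (hiD : i + 1 + 1 ≤ (m - 1) / 2) :
    min (B (i + 1)) ((z + (i + 1)).choose (i + 1)) * (z + i).choose i ≤
      min (B i) ((z + i).choose i) * (z + (i + 1)).choose (i + 1) := by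
  by_cases hB : B i ≤ (z + i).choose i
  · rw [min_eq_left hB]
    have h1 := h.hgA i z hi (by omega) hB
    have h2 := h.hBA (i + 1) (by omega) hiD
    have h3 := SM_ch z i
    have h4 : min (B (i + 1)) ((z + (i + 1)).choose (i + 1)) ≤ A (i + 1) :=
      (min_le_left _ _).trans h2
    have h5 : (i + 1) * (min (B (i + 1)) ((z + (i + 1)).choose (i + 1)) * (z + i).choose i) ≤
        (i + 1) * (B i * (z + (i + 1)).choose (i + 1)) := by
      calc (i + 1) * (min (B (i + 1)) ((z + (i + 1)).choose (i + 1)) * (z + i).choose i)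
          ≤ (i + 1) * (A (i + 1) * (z + i).choose i) :=
            Nat.mul_le_mul_left _ (Nat.mul_le_mul_right _ h4)
        _ = ((i + 1) * A (i + 1)) * (z + i).choose i := by ring
        _ ≤ ((z + i + 1) * B i) * (z + i).choose i := Nat.mul_le_mul_right _ h1
        _ = B i * ((z + i + 1) * (z + i).choose i) := by ring
        _ = (i + 1) * (B i * (z + (i + 1)).choose (i + 1)) := by rw [h3]; ring
    exact Nat.le_of_mul_le_mul_left h5 (by omega)
  · rw [min_eq_right (by omega : (z + i).choose i ≤ B i), mul_comm]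
    exact Nat.mul_le_mul_left _ (min_le_right _ _)

theorem SM_chain {m : ℕ} {s r A B M : ℕ → ℕ} (h : Nums m s r A B M) (z : ℕ) {i : ℕ}
    (hi : 1 ≤ i) : ∀ c, i ≤ c → c + 1 ≤ (m - 1) / 2 →
    min (B c) ((z + c).choose c) * (z + i).choose i ≤
      min (B i) ((z + i).choose i) * (z + c).choose c := by
  intro c hic
  induction c, hic using Nat.le_induction with
  | base => intro _; exact le_rfl
  | succ c hic ih =>
    intro hc
    have h1 := ih (by omega)
    have h2 := SM_step h z (by omega : 1 ≤ c) (by omega)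
    have hpos : 0 < (z + c).choose c := Nat.choose_pos (by omega)
    refine Nat.le_of_mul_le_mul_left ?_ hpos
    calc (z + c).choose c * (min (B (c + 1)) ((z + (c + 1)).choose (c + 1)) * (z + i).choose i)
        = (min (B (c + 1)) ((z + (c + 1)).choose (c + 1)) * (z + c).choose c) *
          (z + i).choose i := by ring
      _ ≤ (min (B c) ((z + c).choose c) * (z + (c + 1)).choose (c + 1)) * (z + i).choose i :=
          Nat.mul_le_mul_right _ h2
      _ = (min (B c) ((z + c).choose c) * (z + i).choose i) * (z + (c + 1)).choose (c + 1) := by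
          ring
      _ ≤ (min (B i) ((z + i).choose i) * (z + c).choose c) * (z + (c + 1)).choose (c + 1) :=
          Nat.mul_le_mul_right _ h1
      _ = (z + c).choose c * (min (B i) ((z + i).choose i) * (z + (c + 1)).choose (c + 1)) := by
          ring

/-- one level: `X = min (B c) C(z+c,c)` -/
theorem SM_level {m : ℕ} {s r A B M : ℕ → ℕ} (h : Nums m s r A B M) (c z R : ℕ) (hc : 1 ≤ c)
    (hcD : c + 1 ≤ (m - 1) / 2) (hR : r (c + 1) ≤ R)
    (hchk : 2 * (c + 1) * (c + 2) * R ≤ (z + c + 1) * (z + c + 2) * (z + c).choose c) :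
    ∃ X, 2 * (c + 1) * (c + 2) * r (c + 1) ≤ (z + c + 1) * (z + c + 2) * X ∧
      ∀ i, 1 ≤ i → i ≤ c → X * (z + i).choose i ≤ B i * (z + c).choose c := by
  refine ⟨min (B c) ((z + c).choose c), ?_, fun i hi hic => ?_⟩
  · by_cases hB : B c ≤ (z + c).choose c
    · rw [min_eq_left hB]
      have h1 := h.hgA c z hc hcD hB
      have h3 := SM_ch z c
      have h4 : A (c + 1) ≤ (z + (c + 1)).choose (c + 1) := by
        have h5 : (c + 1) * A (c + 1) ≤ (c + 1) * (z + (c + 1)).choose (c + 1) := by
          calc (c + 1) * A (c + 1) ≤ (z + c + 1) * B c := h1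
            _ ≤ (z + c + 1) * (z + c).choose c := Nat.mul_le_mul_left _ hB
            _ = (c + 1) * (z + (c + 1)).choose (c + 1) := by rw [h3]; ring
        exact Nat.le_of_mul_le_mul_left h5 (by omega)
      have h6 := h.hgM (c + 1) z (by omega) hcD h4
      have h7 := h.hrM (c + 1) (by omega) hcD
      calc 2 * (c + 1) * (c + 2) * r (c + 1) = (c + 1) * ((c + 1 + 1) * (2 * r (c + 1))) := by ring
        _ ≤ (c + 1) * ((c + 1 + 1) * M (c + 1)) :=
            Nat.mul_le_mul_left _ (Nat.mul_le_mul_left _ h7)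
        _ ≤ (c + 1) * ((z + (c + 1) + 1) * A (c + 1)) := Nat.mul_le_mul_left _ h6
        _ = (z + c + 2) * ((c + 1) * A (c + 1)) := by ring
        _ ≤ (z + c + 2) * ((z + c + 1) * B c) := Nat.mul_le_mul_left _ h1
        _ = (z + c + 1) * (z + c + 2) * B c := by ring
    · rw [min_eq_right (by omega : (z + c).choose c ≤ B c)]
      exact (Nat.mul_le_mul_left _ hR).trans hchk
  · exact (SM_chain h z hi c hic hcD).trans (Nat.mul_le_mul_right _ (min_le_left _ _))

end KLE
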