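import Pool.Agent.KLE.SM0

/-!
# SM1: sums over initial segments, the case `s 1 = 0`
-/

set_option autoImplicit false

namespace KLE

theorem SM_zero {m : ℕ} {s r A B M : ℕ → ℕ} (h : Nums m s r A B M) (h0 : s 1 = 0) :
    Good m s r := by
  unfold Good
  have h1 : ∑ c ∈ Finset.Icc 1 ((m - 1) / 2), (2 ^ (c + 1) - 2) * r c = 0 := by
    refine Finset.sum_eq_zero fun c hc => ?_
    rw [Finset.mem_Icc] at hc
    rcases Nat.eq_zero_or_pos (r c) with h2 | h2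
    · rw [h2, mul_zero]
    · have := h.hs1 c hc.1 hc.2 h2
      omega
  rw [h1]
  exact Nat.zero_le _

variable (f : ℕ → ℕ)

theorem SM_sum0 : ∑ c ∈ Finset.Icc 1 0, f c = 0 := rfl
theorem SM_sum1 : ∑ c ∈ Finset.Icc 1 1, f c = f 1 := by
  simp
theorem SM_sum2 : ∑ c ∈ Finset.Icc 1 2, f c = f 1 + f 2 := by
  simp [Finset.sum_Icc_succ_top]
theorem SM_sum3 : ∑ c ∈ Finset.Icc 1 3, f c = f 1 + f 2 + f 3 := by
  simp [Finset.sum_Icc_succ_top]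
theorem SM_sum4 : ∑ c ∈ Finset.Icc 1 4, f c = f 1 + f 2 + f 3 + f 4 := by
  simp [Finset.sum_Icc_succ_top]
theorem SM_sum5 : ∑ c ∈ Finset.Icc 1 5, f c = f 1 + f 2 + f 3 + f 4 + f 5 := by
  simp [Finset.sum_Icc_succ_top]
theorem SM_sum6 : ∑ c ∈ Finset.Icc 1 6, f c = f 1 + f 2 + f 3 + f 4 + f 5 + f 6 := by
  simp [Finset.sum_Icc_succ_top]
theorem SM_sum7 : ∑ c ∈ Finset.Icc 1 7, f c = f 1 + f 2 + f 3 + f 4 + f 5 + f 6 + f 7 := by
  simp [Finset.sum_Icc_succ_top]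
theorem SM_sum8 : ∑ c ∈ Finset.Icc 1 8, f c =
    f 1 + f 2 + f 3 + f 4 + f 5 + f 6 + f 7 + f 8 := by
  simp [Finset.sum_Icc_succ_top]

end KLE
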