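import Pool.Agent.KLE.SM

/-!
# `Good` for `m = 19`
-/

set_option autoImplicit false

namespace KLE

theorem SM_sum9 (f : ℕ → ℕ) : ∑ c ∈ Finset.Icc 1 9, f c =
    f 1 + f 2 + f 3 + f 4 + f 5 + f 6 + f 7 + f 8 + f 9 := by
  simp [Finset.sum_Icc_succ_top]

theorem SM_good19 (s r A B M : ℕ → ℕ) (h : Nums 19 s r A B M) : Good 19 s r := by
  rcases Nat.eq_zero_or_pos (s 1) with h0 | h0
  · exact SM_zero h h0
  have hS := h.hS
  unfold Good
  simp only [show (19 - 1) / 2 = 9 from rfl, SM_sum9] at hS ⊢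
  norm_num at hS ⊢
  by_cases hb : 2 * s 1 + 2 * s 2 + 2 * s 3 + 2 * s 4 + 2 * s 5 + 2 * s 6 + 2 * s 7 + 2 * s 8 + 2 * s 9 ≤ 40238
  · have hA1 := h.hA1
    have hM1 := h.hM1
    have hr1 := h.hrM 1 le_rfl (by norm_num)
    obtain ⟨X1, hx1, hy1⟩ := SM_level h 1 105 100794 (by norm_num) (by norm_num)
      (by show r 2 ≤ 100794; omega) (by decide +kernel)
    have hz1_1 : X1 ≤ B 1 := by
      have := hy1 1 (by norm_num) (by norm_num)
      exact Nat.le_of_mul_le_mul_right this (by decide +kernel)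
    norm_num at hx1
    obtain ⟨X2, hx2, hy2⟩ := SM_level h 2 42 75595 (by norm_num) (by norm_num)
      (by show r 3 ≤ 75595; omega) (by decide +kernel)
    have hz2_1 : X2 * 43 ≤ B 1 * 946 :=
      hy2 1 (by norm_num) (by norm_num)
    have hz2_2 : X2 ≤ B 2 := by
      have := hy2 2 (by norm_num) (by norm_num)
      exact Nat.le_of_mul_le_mul_right this (by decide +kernel)
    norm_num at hx2
    obtain ⟨X3, hx3, hy3⟩ := SM_level h 3 25 60476 (by norm_num) (by norm_num)
      (by show r 4 ≤ 60476; omega) (by decide +kernel)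
    have hz3_1 : X3 * 26 ≤ B 1 * 3276 :=
      hy3 1 (by norm_num) (by norm_num)
    have hz3_2 : X3 * 351 ≤ B 2 * 3276 :=
      hy3 2 (by norm_num) (by norm_num)
    have hz3_3 : X3 ≤ B 3 := by
      have := hy3 3 (by norm_num) (by norm_num)
      exact Nat.le_of_mul_le_mul_right this (by decide +kernel)
    norm_num at hx3
    obtain ⟨X4, hx4, hy4⟩ := SM_level h 4 17 50397 (by norm_num) (by norm_num)
      (by show r 5 ≤ 50397; omega) (by decide +kernel)
    have hz4_1 : X4 * 18 ≤ B 1 * 5985 :=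
      hy4 1 (by norm_num) (by norm_num)
    have hz4_2 : X4 * 171 ≤ B 2 * 5985 :=
      hy4 2 (by norm_num) (by norm_num)
    have hz4_3 : X4 * 1140 ≤ B 3 * 5985 :=
      hy4 3 (by norm_num) (by norm_num)
    have hz4_4 : X4 ≤ B 4 := by
      have := hy4 4 (by norm_num) (by norm_num)
      exact Nat.le_of_mul_le_mul_right this (by decide +kernel)
    norm_num at hx4
    obtain ⟨X5, hx5, hy5⟩ := SM_level h 5 14 43197 (by norm_num) (by norm_num)
      (by show r 6 ≤ 43197; omega) (by decide +kernel)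
    have hz5_1 : X5 * 15 ≤ B 1 * 11628 :=
      hy5 1 (by norm_num) (by norm_num)
    have hz5_2 : X5 * 120 ≤ B 2 * 11628 :=
      hy5 2 (by norm_num) (by norm_num)
    have hz5_3 : X5 * 680 ≤ B 3 * 11628 :=
      hy5 3 (by norm_num) (by norm_num)
    have hz5_4 : X5 * 3060 ≤ B 4 * 11628 :=
      hy5 4 (by norm_num) (by norm_num)
    have hz5_5 : X5 ≤ B 5 := by
      have := hy5 5 (by norm_num) (by norm_num)
      exact Nat.le_of_mul_le_mul_right this (by decide +kernel)
    norm_num at hx5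
    obtain ⟨X6, hx6, hy6⟩ := SM_level h 6 12 37797 (by norm_num) (by norm_num)
      (by show r 7 ≤ 37797; omega) (by decide +kernel)
    have hz6_1 : X6 * 13 ≤ B 1 * 18564 :=
      hy6 1 (by norm_num) (by norm_num)
    have hz6_2 : X6 * 91 ≤ B 2 * 18564 :=
      hy6 2 (by norm_num) (by norm_num)
    have hz6_3 : X6 * 455 ≤ B 3 * 18564 :=
      hy6 3 (by norm_num) (by norm_num)
    have hz6_4 : X6 * 1820 ≤ B 4 * 18564 :=
      hy6 4 (by norm_num) (by norm_num)
    have hz6_5 : X6 * 6188 ≤ B 5 * 18564 :=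
      hy6 5 (by norm_num) (by norm_num)
    have hz6_6 : X6 ≤ B 6 := by
      have := hy6 6 (by norm_num) (by norm_num)
      exact Nat.le_of_mul_le_mul_right this (by decide +kernel)
    norm_num at hx6
    obtain ⟨X7, hx7, hy7⟩ := SM_level h 7 10 33598 (by norm_num) (by norm_num)
      (by show r 8 ≤ 33598; omega) (by decide +kernel)
    have hz7_1 : X7 * 11 ≤ B 1 * 19448 :=
      hy7 1 (by norm_num) (by norm_num)
    have hz7_2 : X7 * 66 ≤ B 2 * 19448 :=
      hy7 2 (by norm_num) (by norm_num)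
    have hz7_3 : X7 * 286 ≤ B 3 * 19448 :=
      hy7 3 (by norm_num) (by norm_num)
    have hz7_4 : X7 * 1001 ≤ B 4 * 19448 :=
      hy7 4 (by norm_num) (by norm_num)
    have hz7_5 : X7 * 3003 ≤ B 5 * 19448 :=
      hy7 5 (by norm_num) (by norm_num)
    have hz7_6 : X7 * 8008 ≤ B 6 * 19448 :=
      hy7 6 (by norm_num) (by norm_num)
    have hz7_7 : X7 ≤ B 7 := by
      have := hy7 7 (by norm_num) (by norm_num)
      exact Nat.le_of_mul_le_mul_right this (by decide +kernel)
    norm_num at hx7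
    obtain ⟨X8, hx8, hy8⟩ := SM_level h 8 9 30238 (by norm_num) (by norm_num)
      (by show r 9 ≤ 30238; omega) (by decide +kernel)
    have hz8_1 : X8 * 10 ≤ B 1 * 24310 :=
      hy8 1 (by norm_num) (by norm_num)
    have hz8_2 : X8 * 55 ≤ B 2 * 24310 :=
      hy8 2 (by norm_num) (by norm_num)
    have hz8_3 : X8 * 220 ≤ B 3 * 24310 :=
      hy8 3 (by norm_num) (by norm_num)
    have hz8_4 : X8 * 715 ≤ B 4 * 24310 :=
      hy8 4 (by norm_num) (by norm_num)
    have hz8_5 : X8 * 2002 ≤ B 5 * 24310 :=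
      hy8 5 (by norm_num) (by norm_num)
    have hz8_6 : X8 * 5005 ≤ B 6 * 24310 :=
      hy8 6 (by norm_num) (by norm_num)
    have hz8_7 : X8 * 11440 ≤ B 7 * 24310 :=
      hy8 7 (by norm_num) (by norm_num)
    have hz8_8 : X8 ≤ B 8 := by
      have := hy8 8 (by norm_num) (by norm_num)
      exact Nat.le_of_mul_le_mul_right this (by decide +kernel)
    norm_num at hx8
    have hB1 := h.hBs 1 (by norm_num) (by norm_num)
    have hB2 := h.hBs 2 (by norm_num) (by norm_num)
    have hB3 := h.hBs 3 (by norm_num) (by norm_num)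
    have hB4 := h.hBs 4 (by norm_num) (by norm_num)
    have hB5 := h.hBs 5 (by norm_num) (by norm_num)
    have hB6 := h.hBs 6 (by norm_num) (by norm_num)
    have hB7 := h.hBs 7 (by norm_num) (by norm_num)
    have hB8 := h.hBs 8 (by norm_num) (by norm_num)
    norm_num at hr1 hB1 hB2 hB3 hB4 hB5 hB6 hB7 hB8
    have hg1 : 6 * r 2 ≤ 5778 * B 1 := by
      linarith
    have hg2 : 14 * r 3 ≤ 44376 * B 2 := by
      linarith
    have hg3 : 30 * r 4 ≤ 21168 * B 3 := by
      linarith
    have hg4 : 62 * r 5 ≤ 11616 * B 4 := by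
      linarith
    have hg5 : 17640 * r 6 ≤ 435543 * B 5 := by
      linarith
    have hg6 : 35560 * r 7 ≤ 236457 * B 5 + 41831 * B 6 := by
      linarith
    have hg7 : 14280 * r 8 ≤ 82365 * B 6 := by
      linarith
    have hg8 : 5110 * r 9 ≤ 1078 * B 6 + 3840 * B 7 + 7680 * B 8 := by
      linarith
    rcases Nat.lt_or_ge (s 1) 2 with h1 | h1
    · have h2 : s 1 = 1 := by omega
      have h3 : A 1 * (A 1 + 1) ≤ 462 :=
        Nat.mul_le_mul (by omega : A 1 ≤ 21) (by omega : A 1 + 1 ≤ 22)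
      rw [h2] at *
      linarith
    · linarith
  · linarith

theorem good_le19 (m : ℕ) (hm : m ≤ 19) (s r A B M : ℕ → ℕ) (h : Nums m s r A B M) :
    Good m s r := by
  rcases Nat.lt_or_ge m 19 with h1 | h1
  · exact good_le18 m (by omega) s r A B M h
  · obtain rfl : m = 19 := by omega
    exact SM_good19 s r A B M h

end KLE
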