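import Pool.Agent.KLE.SM1

/-!
# SM2: upper bounds for `A`, `M`, `r`, by computation
-/

set_option autoImplicit false

namespace KLE

/-- `C(z+c,c)` -/
def SMc (c z : ℕ) : ℕ := (z + 1).ascFactorial c / c.factorial

/-- search for `z` with `x ≤ C(z+c,c)` -/
def SMz (c x : ℕ) : ℕ → ℕ → ℕ
  | 0, z => z
  | n + 1, z => if x ≤ SMc c z then z else SMz c x n (z + 1)

/-- growth bound -/
def SMg (c x : ℕ) : ℕ := (SMz c x x 0 + c + 1) * x / (c + 1)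

theorem SMc_eq (c z : ℕ) : SMc c z = (z + c).choose c := by
  unfold SMc
  rw [Nat.ascFactorial_eq_factorial_mul_choose, Nat.mul_div_cancel_left _ (Nat.factorial_pos c)]

theorem SMc_ge {c : ℕ} (hc : 1 ≤ c) (z : ℕ) : z + 1 ≤ (z + c).choose c := by
  have h1 : (z + 1).choose 1 ≤ (z + c).choose c := by
    rw [← Nat.choose_symm_of_eq_add (rfl : z + 1 = z + 1),
      ← Nat.choose_symm_of_eq_add (rfl : z + c = z + c)]
    exact Nat.choose_le_choose z (by omega)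
  simpa using h1

theorem SMz_spec {c : ℕ} (hc : 1 ≤ c) (x : ℕ) : ∀ n z, x ≤ z + n →
    x ≤ (SMz c x n z + c).choose c := by
  intro n
  induction n with
  | zero =>
    intro z hz
    have := SMc_ge hc z
    unfold SMz
    omega
  | succ n ih =>
    intro z hz
    unfold SMz
    split_ifs with h1
    · rw [SMc_eq] at h1
      exact h1
    · exact ih (z + 1) (by omega)

theorem SMg_A {m : ℕ} {s r A B M : ℕ → ℕ} (h : Nums m s r A B M) (c : ℕ) (hc : 1 ≤ c)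
    (hcD : c + 1 ≤ (m - 1) / 2) {x : ℕ} (hx : B c ≤ x) : A (c + 1) ≤ SMg c x := by
  have h1 := SMz_spec hc x x 0 (by omega)
  have h2 := h.hgA c (SMz c x x 0) hc hcD (hx.trans h1)
  unfold SMg
  rw [Nat.le_div_iff_mul_le (by omega), mul_comm]
  exact h2.trans (Nat.mul_le_mul_left _ hx)

theorem SMg_M {m : ℕ} {s r A B M : ℕ → ℕ} (h : Nums m s r A B M) (c : ℕ) (hc : 1 ≤ c)
    (hcD : c ≤ (m - 1) / 2) {x : ℕ} (hx : A c ≤ x) : r c ≤ SMg c x / 2 := by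
  have h1 := SMz_spec hc x x 0 (by omega)
  have h2 := h.hgM c (SMz c x x 0) hc hcD (hx.trans h1)
  have h3 := h.hrM c hc hcD
  have h4 : M c ≤ SMg c x := by
    unfold SMg
    rw [Nat.le_div_iff_mul_le (by omega), mul_comm]
    exact h2.trans (Nat.mul_le_mul_left _ hx)
  omega

/-- bounds for `A 2`, `A 3`, `A 4` -/
def SMA2 (m s1 s2 : ℕ) : ℕ := SMg 1 (min (s1 + s2) (m + 2 * s1))
/-- bounds for `A 2`, `A 3`, `A 4` -/
def SMA3 (m s1 s2 s3 : ℕ) : ℕ := SMg 2 (min (s2 + s3) (SMA2 m s1 s2))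
/-- bounds for `A 2`, `A 3`, `A 4` -/
def SMA4 (m s1 s2 s3 s4 : ℕ) : ℕ := SMg 3 (min (s3 + s4) (SMA3 m s1 s2 s3))

theorem SM_A2 {m : ℕ} {s r A B M : ℕ → ℕ} (h : Nums m s r A B M) (hD : 2 ≤ (m - 1) / 2) :
    A 2 ≤ SMA2 m (s 1) (s 2) := by
  have h1 := h.hBs 1 le_rfl hD
  have h2 := h.hBA 1 le_rfl hD
  have h3 := h.hA1
  exact SMg_A h 1 le_rfl hD (le_min h1 (h2.trans h3))

theorem SM_A3 {m : ℕ} {s r A B M : ℕ → ℕ} (h : Nums m s r A B M) (hD : 3 ≤ (m - 1) / 2) :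
    A 3 ≤ SMA3 m (s 1) (s 2) (s 3) := by
  have h1 := h.hBs 2 (by norm_num) hD
  have h2 := h.hBA 2 (by norm_num) hD
  exact SMg_A h 2 (by norm_num) hD (le_min h1 (h2.trans (SM_A2 h (by omega))))

theorem SM_A4 {m : ℕ} {s r A B M : ℕ → ℕ} (h : Nums m s r A B M) (hD : 4 ≤ (m - 1) / 2) :
    A 4 ≤ SMA4 m (s 1) (s 2) (s 3) (s 4) := by
  have h1 := h.hBs 3 (by norm_num) hD
  have h2 := h.hBA 3 (by norm_num) hD
  exact SMg_A h 3 (by norm_num) hD (le_min h1 (h2.trans (SM_A3 h (by omega))))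

theorem SM_R1 {m : ℕ} {s r A B M : ℕ → ℕ} (h : Nums m s r A B M) (hD : 1 ≤ (m - 1) / 2) :
    r 1 ≤ SMg 1 (m + 2 * s 1) / 2 := SMg_M h 1 le_rfl hD h.hA1

theorem SM_R2 {m : ℕ} {s r A B M : ℕ → ℕ} (h : Nums m s r A B M) (hD : 2 ≤ (m - 1) / 2) :
    r 2 ≤ SMg 2 (SMA2 m (s 1) (s 2)) / 2 := SMg_M h 2 (by norm_num) hD (SM_A2 h hD)

theorem SM_R3 {m : ℕ} {s r A B M : ℕ → ℕ} (h : Nums m s r A B M) (hD : 3 ≤ (m - 1) / 2) :
    r 3 ≤ SMg 3 (SMA3 m (s 1) (s 2) (s 3)) / 2 := SMg_M h 3 (by norm_num) hD (SM_A3 h hD)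

theorem SM_R4 {m : ℕ} {s r A B M : ℕ → ℕ} (h : Nums m s r A B M) (hD : 4 ≤ (m - 1) / 2) :
    r 4 ≤ SMg 4 (SMA4 m (s 1) (s 2) (s 3) (s 4)) / 2 := SMg_M h 4 (by norm_num) hD (SM_A4 h hD)

end KLE
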