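import Pool.Agent.KLE.SM2

/-!
# SM3: `Good` for `m ≤ 9`
-/

set_option autoImplicit false

namespace KLE

theorem SM_small (m : ℕ) (hm : m ≤ 2) (s r : ℕ → ℕ) : Good m s r := by
  unfold Good
  have h1 : (m - 1) / 2 = 0 := by omega
  rw [h1]
  simp

theorem SM_good3 (s r A B M : ℕ → ℕ) (h : Nums 3 s r A B M) : Good 3 s r := by
  rcases Nat.eq_zero_or_pos (s 1) with h0 | h0
  · exact SM_zero h h0
  have hS := h.hS
  unfold Good
  simp only [show (3 - 1) / 2 = 1 from rfl, SM_sum1] at hS ⊢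
  norm_num at hS ⊢
  omega

theorem SM_good4 (s r A B M : ℕ → ℕ) (h : Nums 4 s r A B M) : Good 4 s r := by
  rcases Nat.eq_zero_or_pos (s 1) with h0 | h0
  · exact SM_zero h h0
  have hS := h.hS
  unfold Good
  simp only [show (4 - 1) / 2 = 1 from rfl, SM_sum1] at hS ⊢
  norm_num at hS ⊢
  omega

/-- the check for `m = 5` -/
def SMk5 (s1 s2 : ℕ) : Bool :=
  decide (2 * (16 + 2 * s1 + 2 * s2) ≤ 1 * (18 * s1 + 12 * s2)) ||
  decide (1 * (16 + 2 * s1 + 2 * s2) + 3 * (SMg 2 (SMA2 5 s1 s2) / 2) ≤ 1 * (18 * s1 + 12 * s2)) ||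
  decide (2 * (SMg 1 (5 + 2 * s1) / 2) + 6 * (SMg 2 (SMA2 5 s1 s2) / 2) ≤ 1 * (18 * s1 + 12 * s2))

theorem SM_key5 : ∀ a < 3, ∀ b < (32 - 14 * (a + 1)) / 8 + 1,
    SMk5 (a + 1) b = true := by decide +kernel

theorem SM_good5 (s r A B M : ℕ → ℕ) (h : Nums 5 s r A B M) : Good 5 s r := by
  rcases Nat.eq_zero_or_pos (s 1) with h0 | h0
  · exact SM_zero h h0
  have hS := h.hS
  unfold Good
  simp only [show (5 - 1) / 2 = 2 from rfl, SM_sum2] at hS ⊢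
  norm_num at hS ⊢
  by_cases hb : 32 ≤ 14 * s 1 + 8 * s 2
  · omega
  · have key := SM_key5 (s 1 - 1) (by omega) (s 2) (by omega)
    rw [Nat.sub_add_cancel h0] at key
    simp only [SMk5, Bool.or_eq_true, decide_eq_true_eq] at key
    have hr1 := SM_R1 h (by norm_num)
    have hr2 := SM_R2 h (by norm_num)
    omega

/-- the check for `m = 6` -/
def SMk6 (s1 s2 s3 : ℕ) : Bool :=
  decide (2 * (32 + 2 * s1 + 2 * s2 + 1 * s3) ≤ 1 * (34 * s1 + 20 * s2 + 8 * s3)) ||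
  decide (1 * (32 + 2 * s1 + 2 * s2 + 1 * s3) + 3 * (SMg 2 (SMA2 6 s1 s2) / 2) ≤ 1 * (34 * s1 + 20 * s2 + 8 * s3)) ||
  decide (2 * (SMg 1 (6 + 2 * s1) / 2) + 6 * (SMg 2 (SMA2 6 s1 s2) / 2) ≤ 1 * (34 * s1 + 20 * s2 + 8 * s3))

theorem SM_key6 : ∀ a < 3, ∀ b < (64 - 30 * (a + 1)) / 16 + 1, ∀ c < (64 - 30 * (a + 1) - 16 * b) / 6 + 1,
    SMk6 (a + 1) b c = true := by decide +kernel

theorem SM_good6 (s r A B M : ℕ → ℕ) (h : Nums 6 s r A B M) : Good 6 s r := by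
  rcases Nat.eq_zero_or_pos (s 1) with h0 | h0
  · exact SM_zero h h0
  have hS := h.hS
  unfold Good
  simp only [show (6 - 1) / 2 = 2 from rfl, SM_sum2] at hS ⊢
  norm_num at hS ⊢
  by_cases hb : 64 ≤ 30 * s 1 + 16 * s 2 + 6 * s 3
  · omega
  · have key := SM_key6 (s 1 - 1) (by omega) (s 2) (by omega) (s 3) (by omega)
    rw [Nat.sub_add_cancel h0] at key
    simp only [SMk6, Bool.or_eq_true, decide_eq_true_eq] at key
    have hr1 := SM_R1 h (by norm_num)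
    have hr2 := SM_R2 h (by norm_num)
    omega

/-- the check for `m = 7` -/
def SMk7 (s1 s2 s3 : ℕ) : Bool :=
  decide (7 * (64 + 2 * s1 + 2 * s2 + 2 * s3) ≤ 2 * (66 * s1 + 36 * s2 + 24 * s3)) ||
  decide (2 * (64 + 2 * s1 + 2 * s2 + 2 * s3) + 6 * (SMg 3 (SMA3 7 s1 s2 s3) / 2) ≤ 1 * (66 * s1 + 36 * s2 + 24 * s3)) ||
  decide (1 * (64 + 2 * s1 + 2 * s2 + 2 * s3) + 3 * (SMg 2 (SMA2 7 s1 s2) / 2) + 10 * (SMg 3 (SMA3 7 s1 s2 s3) / 2) ≤ 1 * (66 * s1 + 36 * s2 + 24 * s3)) ||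
  decide (2 * (SMg 1 (7 + 2 * s1) / 2) + 6 * (SMg 2 (SMA2 7 s1 s2) / 2) + 14 * (SMg 3 (SMA3 7 s1 s2 s3) / 2) ≤ 1 * (66 * s1 + 36 * s2 + 24 * s3))

theorem SM_key7 : ∀ a < 4, ∀ b < (448 - 118 * (a + 1)) / 58 + 1, ∀ c < (448 - 118 * (a + 1) - 58 * b) / 34 + 1,
    SMk7 (a + 1) b c = true := by decide +kernel

theorem SM_good7 (s r A B M : ℕ → ℕ) (h : Nums 7 s r A B M) : Good 7 s r := by
  rcases Nat.eq_zero_or_pos (s 1) with h0 | h0
  · exact SM_zero h h0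
  have hS := h.hS
  unfold Good
  simp only [show (7 - 1) / 2 = 3 from rfl, SM_sum3] at hS ⊢
  norm_num at hS ⊢
  by_cases hb : 448 ≤ 118 * s 1 + 58 * s 2 + 34 * s 3
  · omega
  · have key := SM_key7 (s 1 - 1) (by omega) (s 2) (by omega) (s 3) (by omega)
    rw [Nat.sub_add_cancel h0] at key
    simp only [SMk7, Bool.or_eq_true, decide_eq_true_eq] at key
    have hr1 := SM_R1 h (by norm_num)
    have hr2 := SM_R2 h (by norm_num)
    have hr3 := SM_R3 h (by norm_num)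
    omega

end KLE
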